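import Pool.Agent.Lib.BipAcyc.Prob

/-!
CHUNK AV. Properties that can be enforced by avoiding a family of rare events of small support.
-/

set_option autoImplicit false
set_option linter.unusedSectionVars false

namespace Pool.Agent.Lib.BipAcyc

open Finset Pool.Agent.Lib.Prob48

variable {V : Type*} [Fintype V] [DecidableEq V] {α : V → Type*} [∀ v, Fintype (α v)]
variable (μ : Weights α)

/-- `Q` holds at every outcome that avoids a family of events; every event depends on a non-empty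
set of at most `n` coordinates, and for every coordinate the probabilities of the events which
involve it add up to at most `σ`. -/
def Avoidable (n : ℕ) (σ : ℝ) (Q : (∀ v, α v) → Prop) : Prop :=
  ∃ 𝓔 : Finset (Finset V × Set (∀ v, α v)),
    (∀ e ∈ 𝓔, DependsOn (fun ω => ω ∈ e.2) (e.1 : Set V) ∧ e.1.Nonempty ∧ e.1.card ≤ n) ∧
    (∀ v, ∑ e ∈ 𝓔 with v ∈ e.1, μ.P (fun ω => ω ∈ e.2) ≤ σ) ∧
    ∀ ω, (∀ e ∈ 𝓔, ω ∉ e.2) → Q ω

lemma avoid_sum_image_le {ι β : Type*} [DecidableEq β] (s : Finset ι) (f : ι → β) (g : β → ℝ)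
    (hg : ∀ b, 0 ≤ g b) : ∑ b ∈ s.image f, g b ≤ ∑ a ∈ s, g (f a) := by
  classical
  induction s using Finset.induction_on with
  | empty => simp
  | insert a s ha ih =>
    rw [image_insert, sum_insert ha]
    by_cases h : f a ∈ s.image f
    · rw [insert_eq_of_mem h]
      linarith [hg (f a)]
    · rw [sum_insert h]
      linarith

lemma avoid_sum_biUnion_le {ι β : Type*} [DecidableEq β] (s : Finset ι) (t : ι → Finset β)
    (g : β → ℝ) (hg : ∀ b, 0 ≤ g b) : ∑ b ∈ s.biUnion t, g b ≤ ∑ a ∈ s, ∑ b ∈ t a, g b := by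
  classical
  induction s using Finset.induction_on with
  | empty => simp
  | insert a s ha ih =>
    rw [biUnion_insert, sum_insert ha]
    have h4 := sum_union_inter (s₁ := t a) (s₂ := s.biUnion t) (f := g)
    have h5 : 0 ≤ ∑ b ∈ t a ∩ s.biUnion t, g b := sum_nonneg fun e _ => hg _
    linarith

variable {μ}

/-- Construction from an indexed family. -/
theorem Avoidable.of_family {ι : Type*} (I : Finset ι) (S : ι → Finset V)
    (E : ι → (∀ v, α v) → Prop) (n : ℕ) (σ : ℝ) (Q : (∀ v, α v) → Prop)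
    (hdep : ∀ i ∈ I, DependsOn (E i) (S i : Set V)) (hne : ∀ i ∈ I, (S i).Nonempty)
    (hcard : ∀ i ∈ I, (S i).card ≤ n)
    (hsum : ∀ v, ∑ i ∈ I with v ∈ S i, μ.P (E i) ≤ σ)
    (hQ : ∀ ω, (∀ i ∈ I, ¬ E i ω) → Q ω) : Avoidable μ n σ Q := by
  classical
  refine ⟨I.image fun i => (S i, {ω | E i ω}), ?_, ?_, ?_⟩
  · intro e he
    obtain ⟨i, hi, rfl⟩ := mem_image.1 he
    exact ⟨hdep i hi, hne i hi, hcard i hi⟩
  · intro v
    rw [filter_image]
    refine le_trans (avoid_sum_image_le _ _ _ fun e => μ.P_nonneg _) ?_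
    exact hsum v
  · intro ω hω
    refine hQ ω fun i hi hE => hω (S i, {ω | E i ω}) (mem_image_of_mem _ hi) hE

theorem Avoidable.imp {n : ℕ} {σ : ℝ} {Q Q' : (∀ v, α v) → Prop} (h : Avoidable μ n σ Q)
    (hQ : ∀ ω, Q ω → Q' ω) : Avoidable μ n σ Q' := by
  obtain ⟨𝓔, h1, h2, h3⟩ := h
  exact ⟨𝓔, h1, h2, fun ω hω => hQ ω (h3 ω hω)⟩

theorem Avoidable.mono {n n' : ℕ} {σ σ' : ℝ} {Q : (∀ v, α v) → Prop} (h : Avoidable μ n σ Q)
    (hn : n ≤ n') (hσ : σ ≤ σ') : Avoidable μ n' σ' Q := by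
  obtain ⟨𝓔, h1, h2, h3⟩ := h
  exact ⟨𝓔, fun e he => ⟨(h1 e he).1, (h1 e he).2.1, (h1 e he).2.2.trans hn⟩,
    fun v => (h2 v).trans hσ, h3⟩

theorem Avoidable.and {n : ℕ} {σ σ' : ℝ} {Q Q' : (∀ v, α v) → Prop} (h : Avoidable μ n σ Q)
    (h' : Avoidable μ n σ' Q') : Avoidable μ n (σ + σ') (fun ω => Q ω ∧ Q' ω) := by
  classical
  obtain ⟨𝓔, h1, h2, h3⟩ := h
  obtain ⟨𝓕, k1, k2, k3⟩ := h'
  refine ⟨𝓔 ∪ 𝓕, ?_, ?_, ?_⟩
  · intro e he
    rcases mem_union.1 he with he | he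
    · exact h1 e he
    · exact k1 e he
  · intro v
    rw [filter_union]
    have h4 := sum_union_inter (s₁ := 𝓔.filter fun e => v ∈ e.1)
      (s₂ := 𝓕.filter fun e => v ∈ e.1) (f := fun e => μ.P (fun ω => ω ∈ e.2))
    have h5 : 0 ≤ ∑ e ∈ (𝓔.filter fun e => v ∈ e.1) ∩ (𝓕.filter fun e => v ∈ e.1),
        μ.P (fun ω => ω ∈ e.2) := sum_nonneg fun e _ => μ.P_nonneg _
    linarith [h2 v, k2 v]
  · intro ω hω
    exact ⟨h3 ω fun e he => hω e (mem_union_left _ he),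
      k3 ω fun e he => hω e (mem_union_right _ he)⟩

/-- finite conjunction -/
theorem Avoidable.forall_range {n : ℕ} (J : ℕ) (σ : ℕ → ℝ) (Q : ℕ → (∀ v, α v) → Prop)
    (h : ∀ j < J, Avoidable μ n (σ j) (Q j)) :
    Avoidable μ n (∑ j ∈ range J, σ j) (fun ω => ∀ j < J, Q j ω) := by
  induction J with
  | zero =>
    refine ⟨∅, by simp, fun v => by simp, fun ω _ j hj => absurd hj (Nat.not_lt_zero j)⟩
  | succ J ih =>
    rw [sum_range_succ]
    refine ((ih fun j hj => h j (Nat.lt_succ_of_lt hj)).and (h J (Nat.lt_succ_self J))).imp ?_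
    intro ω hω j hj
    rcases Nat.lt_succ_iff_lt_or_eq.1 hj with hj | rfl
    · exact hω.1 j hj
    · exact hω.2

/-- The local lemma (`Weights.lll_sum`): every event meets events of total probability at most
`n * σ ≤ 1/4`. -/
theorem Avoidable.exists {n : ℕ} {σ : ℝ} {Q : (∀ v, α v) → Prop} (h : Avoidable μ n σ Q)
    (hσ : (n : ℝ) * σ ≤ 1 / 4) (hσ2 : σ < 1 / 2) : ∃ ω, Q ω := by
  classical
  obtain ⟨𝓔, h1, h2, h3⟩ := h
  have hP : ∀ e ∈ 𝓔, μ.P (fun ω => ω ∈ e.2) ≤ σ := by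
    intro e he
    obtain ⟨v, hv⟩ := (h1 e he).2.1
    refine le_trans ?_ (h2 v)
    exact single_le_sum (f := fun e : Finset V × Set (∀ v, α v) => μ.P (fun ω => ω ∈ e.2))
      (fun e _ => μ.P_nonneg _) (mem_filter.2 ⟨he, hv⟩)
  have key : ∃ ω, ∀ i : {e // e ∈ 𝓔}, ¬ (ω ∈ i.1.2) := by
    refine μ.lll_sum (ι := {e // e ∈ 𝓔}) (fun i ω => ω ∈ i.1.2) (fun i => i.1.1)
      (fun i => (h1 i.1 i.2).1)
      (fun i => univ.filter fun j => ¬ Disjoint i.1.1 j.1.1)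
      (fun i j _ hij => by simpa using hij)
      (fun i => μ.P (fun ω => ω ∈ i.1.2)) (fun i => le_rfl)
      (fun i => (hP i.1 i.2).trans_lt hσ2) ?_
    intro i
    calc ∑ j ∈ univ.filter (fun j : {e // e ∈ 𝓔} => ¬ Disjoint i.1.1 j.1.1),
          μ.P (fun ω => ω ∈ j.1.2)
        = ∑ e ∈ 𝓔.filter (fun e => ¬ Disjoint i.1.1 e.1), μ.P (fun ω => ω ∈ e.2) := by
          rw [sum_filter, sum_filter]
          exact sum_coe_sort 𝓔 (fun e => if ¬ Disjoint i.1.1 e.1 then μ.P (fun ω => ω ∈ e.2)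
            else 0)
      _ ≤ ∑ v ∈ i.1.1, ∑ e ∈ 𝓔 with v ∈ e.1, μ.P (fun ω => ω ∈ e.2) := by
          have hsub : 𝓔.filter (fun e => ¬ Disjoint i.1.1 e.1)
              ⊆ i.1.1.biUnion fun v => 𝓔.filter fun e => v ∈ e.1 := by
            intro e he
            rw [mem_filter, not_disjoint_iff] at he
            obtain ⟨he, v, hv1, hv2⟩ := he
            exact mem_biUnion.2 ⟨v, hv1, mem_filter.2 ⟨he, hv2⟩⟩
          refine (sum_le_sum_of_subset_of_nonneg hsub fun e _ _ => μ.P_nonneg _).trans ?_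
          exact avoid_sum_biUnion_le _ _ _ fun e => μ.P_nonneg _
      _ ≤ ∑ _v ∈ i.1.1, σ := sum_le_sum fun v _ => h2 v
      _ = (i.1.1.card : ℝ) * σ := by rw [sum_const, nsmul_eq_mul]
      _ ≤ (n : ℝ) * σ := by
          refine mul_le_mul_of_nonneg_right ?_ ?_
          · exact_mod_cast (h1 i.1 i.2).2.2
          · exact (μ.P_nonneg _).trans (hP i.1 i.2)
      _ ≤ 1 / 4 := hσ
  obtain ⟨ω, hω⟩ := key
  exact ⟨ω, h3 ω fun e he => hω ⟨e, he⟩⟩

end Pool.Agent.Lib.BipAcyc
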