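import Pool.Agent.Lib.BipAcyc.Main

/-!
CHUNK BD = `P_badD`. Fix the labels (`P_le_of_mix`, `T` = the coordinates `inl w`), so `nbJ u` is
fixed, with at most `h₀` elements. Union bound over the sets `F ⊆ nbJ u` of `d₀` elements, all in
the round of `u`: probability `r^{-d₀}` (e.g. union over the value of `ρ u`, or fix also the
coordinate `inl u`, which is not in `F`; `P_proj_forall`), and `sum_powersetCard_prod_le`.
-/

set_option autoImplicit false
set_option linter.unusedSectionVars false

namespace Pool.Agent.Lib.BipAcyc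

open Finset Pool.Agent.Lib.Prob48

variable {A B : Type*} [Fintype A] [Fintype B] [LinearOrder A] [LinearOrder B]
variable {γ δ : Type*} [DecidableEq γ] [DecidableEq δ] {P : Par}

/-- the rounds of the vertices different from `u` -/
def boundD_T (B : Type*) [Fintype A] [DecidableEq A] [DecidableEq B] (u : A) :
    Finset (A ⊕ (A ⊕ B)) := (univ.erase u).image Sum.inl

lemma boundD_card_fiber (P : Par) (d : Fin P.r) :
    (univ.filter fun c : P.Val => c.1 = d).card * Fintype.card (Fin P.r)
      = Fintype.card P.Val := by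
  classical
  have h1 : (univ.filter fun c : P.Val => c.1 = d)
      = ({d} : Finset (Fin P.r)) ×ˢ ((univ : Finset (Fin P.ℓ)) ×ˢ (univ : Finset (Fin P.b))) := by
    ext ⟨a, x, c⟩
    simp [eq_comm]
  rw [h1, card_product, card_product]
  simp [Par.Val, mul_comm]

theorem P_badD (N : A → Finset B) (κ : A → γ) (φ : B → δ) (s : ℕ) (hd : 0 < P.d₀) (u : A) :
    (msr P A B).P (fun ω => BadD N κ φ s ω u)
      ≤ (Real.exp 1 * P.h₀ / (P.d₀ * P.r)) ^ P.d₀ := by
  classical
  have hr : (0 : ℝ) < P.r := Nat.cast_pos.2 (Nat.pos_of_ne_zero (NeZero.ne P.r))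
  have hd' : (0 : ℝ) < P.d₀ := Nat.cast_pos.2 hd
  refine P_le_of_mix (msr P A B) (boundD_T B u) _ _ fun ω => ?_
  have hbeta : ∀ η : Outc P A B, beta (mix (boundD_T B u) ω η) = beta ω := by
    intro η
    funext y
    unfold beta
    rw [mix_of_notMem]
    simp [boundD_T]
  have e1 : ∀ η : Outc P A B, nbJ N κ φ s (mix (boundD_T B u) ω η) u = nbJ N κ φ s ω u := by
    intro η
    unfold nbJ JJ Conf
    rw [hbeta η]
  have hru : ∀ η : Outc P A B, rho (mix (boundD_T B u) ω η) u = rho ω u := by
    intro η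
    unfold rho
    rw [mix_of_notMem]
    simp [boundD_T]
  have hrw : ∀ (η : Outc P A B) (w : A), w ≠ u →
      rho (mix (boundD_T B u) ω η) w = (η (Sum.inl w)).1.val := by
    intro η w hw
    unfold rho
    rw [mix_of_mem]
    simp [boundD_T, hw]
  by_cases hn : (nbJ N κ φ s ω u).card ≤ P.h₀
  · set M := nbJ N κ φ s ω u with hM
    have hMu : ∀ w ∈ M, w ≠ u := by
      intro w hw
      rw [hM] at hw
      unfold nbJ at hw
      rw [mem_filter] at hw
      exact hw.2.1
    have h1 : (msr P A B).P (fun η => BadD N κ φ s (mix (boundD_T B u) ω η) u)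
        ≤ (msr P A B).P (fun η => ∃ F ∈ M.powersetCard P.d₀,
          ∀ w ∈ F, (η (Sum.inl w)).1 = (ω (Sum.inl u)).1) := by
      refine Weights.P_mono _ fun η hη => ?_
      obtain ⟨_, h2⟩ := hη
      unfold sameR at h2
      rw [e1 η] at h2
      obtain ⟨F, hF1, hF2⟩ := exists_subset_card_eq h2.le
      refine ⟨F, ?_, ?_⟩
      · rw [mem_powersetCard]
        exact ⟨hF1.trans (filter_subset _ _), hF2⟩
      · intro w hw
        have h3 := mem_filter.1 (hF1 hw)
        have h4 := h3.2
        rw [hru η, hrw η w (hMu w h3.1)] at h4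
        exact Fin.ext h4
    refine h1.trans ((Weights.P_exists_le _ _ _).trans ?_)
    have h2 : ∀ F ∈ M.powersetCard P.d₀,
        (msr P A B).P (fun η => ∀ w ∈ F, (η (Sum.inl w)).1 = (ω (Sum.inl u)).1)
          ≤ ∏ _i ∈ F, (1 / (P.r : ℝ)) := by
      intro F hF
      have h3 := P_proj_forall (V := A ⊕ (A ⊕ B)) (γ := P.Val) (δ := Fin P.r) (fun c => c.1)
        (boundD_card_fiber P) (F.image Sum.inl) (fun _ => (ω (Sum.inl u)).1)
      rw [card_image_of_injective _ Sum.inl_injective, Fintype.card_fin] at h3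
      rw [prod_const, one_div, ← h3]
      refine le_of_eq ?_
      show (unif (A ⊕ (A ⊕ B)) P.Val).P _ = _
      refine Weights.P_congr _ fun η => ?_
      simp
    refine (sum_le_sum h2).trans ?_
    refine (sum_powersetCard_prod_le M (fun _ => 1 / (P.r : ℝ))
      (fun _ _ => by positivity) P.d₀ hd).trans ?_
    rw [sum_const, nsmul_eq_mul]
    refine pow_le_pow_left₀ (by positivity) ?_ _
    have h3 : (M.card : ℝ) ≤ P.h₀ := Nat.cast_le.2 hn
    calc Real.exp 1 * ((M.card : ℝ) * (1 / (P.r : ℝ))) / P.d₀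
        ≤ Real.exp 1 * ((P.h₀ : ℝ) * (1 / (P.r : ℝ))) / P.d₀ := by gcongr
      _ = Real.exp 1 * P.h₀ / (P.d₀ * P.r) := by
          field_simp
  · have : (msr P A B).P (fun η => BadD N κ φ s (mix (boundD_T B u) ω η) u)
        = (msr P A B).P (fun _ => False) := by
      refine Weights.P_congr _ fun η => ?_
      simp only [iff_false]
      rintro ⟨h, _⟩
      rw [e1 η] at h
      exact hn h
    rw [this, Weights.P_false]
    positivity

end Pool.Agent.Lib.BipAcyc
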