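import Mathlib

/-!
CHUNK JE. Convexity of the exponential (weighted AM-GM).
-/

set_option autoImplicit false
set_option linter.unusedSectionVars false

namespace Pool.Agent.Lib.BipAcyc

open Finset

lemma jensen_base (b : ℕ) (hb : 2 ≤ b) : Real.exp (-(2 / (b : ℝ))) ≤ 1 - 1 / (b : ℝ) := by
  have hb' : (2 : ℝ) ≤ b := by exact_mod_cast hb
  have hb0 : (0 : ℝ) < b := by linarith
  have h1 : 1 + 2 / (b : ℝ) ≤ Real.exp (2 / (b : ℝ)) := by
    have := Real.add_one_le_exp (2 / (b : ℝ))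
    linarith
  have h2 : (0 : ℝ) < 1 + 2 / (b : ℝ) := by positivity
  rw [Real.exp_neg]
  calc (Real.exp (2 / (b : ℝ)))⁻¹ ≤ (1 + 2 / (b : ℝ))⁻¹ := inv_anti₀ h2 h1
    _ ≤ 1 - 1 / (b : ℝ) := by
      rw [inv_le_iff_one_le_mul₀ h2]
      have h3 : (1 - 1 / (b : ℝ)) * (1 + 2 / (b : ℝ)) = 1 + ((b : ℝ) - 2) / (b : ℝ) ^ 2 := by
        field_simp
        ring
      rw [h3]
      have : 0 ≤ ((b : ℝ) - 2) / (b : ℝ) ^ 2 := div_nonneg (by linarith) (by positivity)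
      linarith

/-- Convexity: the mean of `(1-1/b)^{m a}` is at least `(1-1/b)` to the mean exponent,
and `1 - 1/b ≥ exp(-2/b)`. -/
theorem jensen_sum {ι : Type*} (G : Finset ι) (m : ι → ℕ) (b Z : ℕ) (hb : 2 ≤ b)
    (hG : 3 * b ≤ 4 * G.card) (hm : ∑ a ∈ G, m a ≤ Z) :
    3 * (b : ℝ) / 4 * Real.exp (-(8 * Z / (3 * (b : ℝ) ^ 2)))
      ≤ ∑ a ∈ G, (1 - 1 / (b : ℝ)) ^ m a := by
  have hb' : (2 : ℝ) ≤ b := by exact_mod_cast hb
  have hb0 : (0 : ℝ) < b := by linarith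
  set c : ℝ := 8 * Z / (3 * (b : ℝ) ^ 2) with hc
  have hc0 : 0 ≤ c := by positivity
  have hG' : 3 * (b : ℝ) ≤ 4 * (G.card : ℝ) := by exact_mod_cast hG
  have hm' : ∑ a ∈ G, (m a : ℝ) ≤ Z := by
    have h : ((∑ a ∈ G, m a : ℕ) : ℝ) ≤ (Z : ℝ) := Nat.cast_le.2 hm
    push_cast at h
    exact h
  have h1 : ∀ a ∈ G, Real.exp (-c) * (1 + c - 2 / (b : ℝ) * m a) ≤ (1 - 1 / (b : ℝ)) ^ m a := by
    intro a _
    calc Real.exp (-c) * (1 + c - 2 / (b : ℝ) * m a)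
        ≤ Real.exp (-c) * Real.exp (c - 2 / (b : ℝ) * m a) := by
          refine mul_le_mul_of_nonneg_left ?_ (Real.exp_pos _).le
          have := Real.add_one_le_exp (c - 2 / (b : ℝ) * m a)
          linarith
      _ = Real.exp (-(2 / (b : ℝ))) ^ m a := by
          rw [← Real.exp_add, ← Real.exp_nat_mul]
          congr 1
          ring
      _ ≤ (1 - 1 / (b : ℝ)) ^ m a :=
          pow_le_pow_left₀ (Real.exp_pos _).le (jensen_base b hb) _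
  refine le_trans ?_ (sum_le_sum h1)
  rw [← mul_sum, sum_sub_distrib, sum_const, nsmul_eq_mul, ← mul_sum]
  have h2 : 2 / (b : ℝ) * ∑ a ∈ G, (m a : ℝ) ≤ 2 / (b : ℝ) * Z :=
    mul_le_mul_of_nonneg_left hm' (by positivity)
  have h3 : 3 * (b : ℝ) / 4 * (1 + c) ≤ (G.card : ℝ) * (1 + c) :=
    mul_le_mul_of_nonneg_right (by linarith) (by linarith)
  have h4 : 3 * (b : ℝ) / 4 * c = 2 / (b : ℝ) * Z := by
    rw [hc]
    field_simp
    ring
  have h5 : 3 * (b : ℝ) / 4 ≤ (G.card : ℝ) * (1 + c) - 2 / (b : ℝ) * ∑ a ∈ G, (m a : ℝ) := by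
    nlinarith
  calc 3 * (b : ℝ) / 4 * Real.exp (-c) = Real.exp (-c) * (3 * (b : ℝ) / 4) := by ring
    _ ≤ _ := mul_le_mul_of_nonneg_left h5 (Real.exp_pos _).le

end Pool.Agent.Lib.BipAcyc
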