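import Pool.Agent.Lib.BipAcyc.Main
import Pool.Agent.Lib.BipAcyc.Jensen

/-!
CHUNK BF. Few available colours are very unlikely.

Proof. Let `T` be the coordinates `inr (inr y)`, `y` in a pair of some `Mset u w`, `w ≠ u` in the
class of `u` with codegree `< s`. By `P_le_of_mix` it suffices to fix an outcome `ω` outside `T`
and bound the probability over `η`, with `ω' = mix T ω η`. By `Excl` the conflicts between two
vertices different from `u` in the class of `u` do not depend on `η` (a pair of `Mset v w` with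
`v, w ≠ u` shares no vertex with a pair of `Mset u w'`), so by `pick_congr_off` (apply it with the
conflict relations restricted to the class of `u`, or use `pick_congr_set` with
`U = {w ≠ u, κ w = κ u, ρ w ≤ ρ u}`) the colours `c w = pk ω' w`, `w ≠ u` in the class of `u`,
`ρ w < ρ u`, are fixed. Let `G` be the set of the colours not taken by a special mate
(`s ≤ codeg`), so `3 b ≤ 4 |G|`. For `a ∈ G` let `E a` be: no pair of `Mset u w`, `c w = a`,
`ρ w < ρ u`, `codeg < s`, has equal labels. If `E a` then `a ∈ av`. The events `E a` have disjoint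
supports, and `P (E a) = (1 - 1/b) ^ m a` (`P_forall_of_disjoint` over the pairs, which are
disjoint by `Excl`, and `P_proj_pair`), `∑ m a ≤ Z`. Conclude with `jensen_sum` and `urn_bound`.
-/

set_option autoImplicit false
set_option linter.unusedSectionVars false

namespace Pool.Agent.Lib.BipAcyc

open Finset Pool.Agent.Lib.Prob48

variable {A B : Type*} [Fintype A] [Fintype B] [LinearOrder A] [LinearOrder B]
variable {γ δ : Type*} [DecidableEq γ] [DecidableEq δ] {P : Par}

open Classical in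
/-- the mates of `u` with codegree less than `s` -/
noncomputable def boundF_mates (N : A → Finset B) (κ : A → γ) (s : ℕ) (u : A) : Finset A :=
  univ.filter fun w => w ≠ u ∧ κ w = κ u ∧ (com N u w).card < s

open Classical in
/-- the labels which matter at `u` -/
noncomputable def boundF_T (N : A → Finset B) (κ : A → γ) (φ : B → δ) (s : ℕ) (u : A) :
    Finset (A ⊕ (A ⊕ B)) :=
  univ.filter fun c => ∃ w ∈ boundF_mates N κ s u, ∃ p ∈ Mset N φ u w,
    c = Sum.inr (Sum.inr p.1) ∨ c = Sum.inr (Sum.inr p.2)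

section fixed

variable (N : A → Finset B) (κ : A → γ) (φ : B → δ) (s : ℕ) (u : A)

lemma boundF_rho (ω η : Outc P A B) : rho (mix (boundF_T N κ φ s u) ω η) = rho ω := by
  funext w
  unfold rho
  rw [mix_of_notMem]
  simp [boundF_T]

lemma boundF_xi (ω η : Outc P A B) : xi (mix (boundF_T N κ φ s u) ω η) = xi ω := by
  funext w
  unfold xi
  rw [mix_of_notMem]
  simp [boundF_T]

variable {N κ φ}

lemma boundF_notMem (hE : Excl N κ φ) {v w : A} (hvw : v ≠ w) (hv : v ≠ u) (hw : w ≠ u)
    (hκ : κ v = κ u) (hκ' : κ w = κ u) {p : B × B} (hp : p ∈ Mset N φ v w) :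
    (Sum.inr (Sum.inr p.1) : A ⊕ (A ⊕ B)) ∉ boundF_T N κ φ s u ∧
    (Sum.inr (Sum.inr p.2) : A ⊕ (A ⊕ B)) ∉ boundF_T N κ φ s u := by
  classical
  have key : ∀ w' ∈ boundF_mates N κ s u, ∀ p' ∈ Mset N φ u w', ¬ Share p p' := by
    intro w' hw' p' hp' hsh
    unfold boundF_mates at hw'
    rw [mem_filter] at hw'
    obtain ⟨_, hw1, hw2, _⟩ := hw'
    obtain ⟨_, h | h⟩ := hE v w u w' hvw hw1.symm (hκ.trans hκ'.symm) hw2.symm hκ p hp p' hp' hsh
    · exact hv h.1
    · exact hw h.2
  constructor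
  · intro h
    unfold boundF_T at h
    rw [mem_filter] at h
    obtain ⟨_, w', hw', p', hp', h | h⟩ := h
    · exact key w' hw' p' hp' (Or.inl (by simpa using h))
    · exact key w' hw' p' hp' (Or.inr (Or.inl (by simpa using h)))
  · intro h
    unfold boundF_T at h
    rw [mem_filter] at h
    obtain ⟨_, w', hw', p', hp', h | h⟩ := h
    · exact key w' hw' p' hp' (Or.inr (Or.inr (Or.inl (by simpa using h))))
    · exact key w' hw' p' hp' (Or.inr (Or.inr (Or.inr (by simpa using h))))

lemma boundF_JJ (hE : Excl N κ φ) (ω η : Outc P A B) {v w : A} (hv : v ≠ u) (hw : w ≠ u)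
    (hκ : κ v = κ u) :
    JJ N κ φ s (mix (boundF_T N κ φ s u) ω η) v w ↔ JJ N κ φ s ω v w := by
  unfold JJ Conf
  have : w ≠ v → κ w = κ v →
      ((∃ p ∈ Mset N φ v w, beta (mix (boundF_T N κ φ s u) ω η) p.1
        = beta (mix (boundF_T N κ φ s u) ω η) p.2) ↔
      (∃ p ∈ Mset N φ v w, beta ω p.1 = beta ω p.2)) := by
    intro h1 h2
    refine exists_congr fun p => and_congr_right fun hp => ?_
    obtain ⟨e1, e2⟩ := boundF_notMem s u hE h1.symm hv hw hκ (h2.trans hκ) hp
    unfold beta
    rw [mix_of_notMem e1, mix_of_notMem e2]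
  constructor
  · rintro ⟨h1, h2, h3⟩
    refine ⟨h1, h2, ?_⟩
    rw [← this h1 h2]
    exact h3
  · rintro ⟨h1, h2, h3⟩
    refine ⟨h1, h2, ?_⟩
    rw [this h1 h2]
    exact h3

lemma boundF_pk (hE : Excl N κ φ) (ω η : Outc P A B) {w : A} (hw : w ≠ u) (hκ : κ w = κ u)
    (hρ : rho ω w ≤ rho ω u) :
    pk N κ φ s (mix (boundF_T N κ φ s u) ω η) w = pk N κ φ s ω w := by
  unfold pk
  rw [boundF_rho, boundF_xi]
  refine pick_congr_set {w | w ≠ u ∧ κ w = κ u ∧ rho ω w ≤ rho ω u} (fun _ _ => rfl) ?_ ?_ w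
    ⟨hw, hκ, hρ⟩
  · rintro x ⟨hx1, hx2, hx3⟩ x' h1 h2
    have h3 : x' ≠ u := by
      rintro rfl
      omega
    exact ⟨⟨h3, h2.2.1.trans hx2, by omega⟩, h1, (boundF_JJ s u hE ω η hx1 h3 hx2).1 h2⟩
  · rintro x ⟨hx1, hx2, hx3⟩ x' h1 h2
    have h3 : x' ≠ u := by
      rintro rfl
      omega
    exact ⟨⟨h3, h2.2.1.trans hx2, by omega⟩, h1, (boundF_JJ s u hE ω η hx1 h3 hx2).2 h2⟩

variable (N φ κ)

open Classical in
/-- the earlier mates of `u` of small codegree with colour `a` -/
noncomputable def boundF_col (ω : Outc P A B) (a : Fin P.b) : Finset A :=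
  (boundF_mates N κ s u).filter fun w => rho ω w < rho ω u ∧ pk N κ φ s ω w = a

open Classical in
/-- the pairs which matter for the colour `a` -/
noncomputable def boundF_pairs (ω : Outc P A B) (a : Fin P.b) : Finset (B × B) :=
  (boundF_col N κ φ s u ω a).biUnion fun w => Mset N φ u w

/-- the two coordinates of a pair -/
def boundF_S (A : Type*) {B : Type*} [DecidableEq A] [DecidableEq B] (p : B × B) :
    Finset (A ⊕ (A ⊕ B)) := {Sum.inr (Sum.inr p.1), Sum.inr (Sum.inr p.2)}

variable {N φ κ}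

lemma boundF_share {p q : B × B} (h : ¬ Disjoint (boundF_S A p) (boundF_S A q)) : Share p q := by
  rw [not_disjoint_iff] at h
  obtain ⟨c, h1, h2⟩ := h
  unfold boundF_S at h1 h2
  rw [mem_insert, mem_singleton] at h1 h2
  rcases h1 with rfl | rfl <;> rcases h2 with h2 | h2
  · exact Or.inl (by simpa using h2)
  · exact Or.inr (Or.inl (by simpa using h2))
  · exact Or.inr (Or.inr (Or.inl (by simpa using h2)))
  · exact Or.inr (Or.inr (Or.inr (by simpa using h2)))

lemma boundF_pairs_share (hE : Excl N κ φ) (ω : Outc P A B) {a a' : Fin P.b} {p p' : B × B}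
    (hp : p ∈ boundF_pairs N κ φ s u ω a) (hp' : p' ∈ boundF_pairs N κ φ s u ω a')
    (h : Share p p') : p = p' ∧ a = a' := by
  classical
  unfold boundF_pairs at hp hp'
  rw [mem_biUnion] at hp hp'
  obtain ⟨w, hw, hp⟩ := hp
  obtain ⟨w', hw', hp'⟩ := hp'
  unfold boundF_col boundF_mates at hw hw'
  simp only [mem_filter, mem_univ, true_and] at hw hw'
  obtain ⟨⟨h1, h2, _⟩, _, h3⟩ := hw
  obtain ⟨⟨h1', h2', _⟩, _, h3'⟩ := hw'
  obtain ⟨e, hh | hh⟩ := hE u w u w' h1.symm h1'.symm h2.symm h2'.symm rfl p hp p' hp' h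
  · refine ⟨e, ?_⟩
    rw [← h3, ← h3', hh.2]
  · exact absurd hh.1.symm h1'

lemma boundF_card_fiber (P : Par) (d : Fin P.b) :
    (univ.filter fun c : P.Val => c.2.2 = d).card * Fintype.card (Fin P.b)
      = Fintype.card P.Val := by
  classical
  have h1 : (univ.filter fun c : P.Val => c.2.2 = d)
      = (univ : Finset (Fin P.r)) ×ˢ ((univ : Finset (Fin P.ℓ)) ×ˢ ({d} : Finset (Fin P.b))) := by
    ext ⟨a, x, c⟩
    simp [eq_comm]
  rw [h1, card_product, card_product]
  simp [Par.Val, mul_assoc]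

lemma boundF_prob_pair (p : B × B) (hp : p.1 ≠ p.2) :
    (msr P A B).P (fun η => (η (Sum.inr (Sum.inr p.1))).2.2 ≠ (η (Sum.inr (Sum.inr p.2))).2.2)
      = 1 - 1 / (P.b : ℝ) := by
  have h1 := (msr P A B).P_not
    (fun η => (η (Sum.inr (Sum.inr p.1))).2.2 = (η (Sum.inr (Sum.inr p.2))).2.2)
  have h2 := P_proj_pair (V := A ⊕ (A ⊕ B)) (γ := P.Val) (δ := Fin P.b) (fun c => c.2.2)
    (boundF_card_fiber P) (Sum.inr (Sum.inr p.1)) (Sum.inr (Sum.inr p.2)) (by simpa using hp)
  have h3 : (msr P A B).P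
      (fun η => (η (Sum.inr (Sum.inr p.1))).2.2 = (η (Sum.inr (Sum.inr p.2))).2.2)
      = (Fintype.card (Fin P.b) : ℝ)⁻¹ := h2
  rw [h3, Fintype.card_fin] at h1
  rw [one_div]
  exact h1

/-- the event that all pairs of `F` have different labels -/
def boundF_E (F : Finset (B × B)) (η : Outc P A B) : Prop :=
  ∀ p ∈ F, (η (Sum.inr (Sum.inr p.1))).2.2 ≠ (η (Sum.inr (Sum.inr p.2))).2.2

lemma boundF_dep_pair (p : B × B) :
    DependsOn (fun η : Outc P A B =>
      (η (Sum.inr (Sum.inr p.1))).2.2 ≠ (η (Sum.inr (Sum.inr p.2))).2.2)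
      (boundF_S A p : Set (A ⊕ (A ⊕ B))) := by
  intro η η' h
  have h1 := h (Sum.inr (Sum.inr p.1)) (by simp [boundF_S])
  have h2 := h (Sum.inr (Sum.inr p.2)) (by simp [boundF_S])
  simp only [h1, h2]

lemma boundF_dep (F : Finset (B × B)) :
    DependsOn (boundF_E (P := P) (A := A) F)
      ((F.biUnion fun p => boundF_S A p : Finset (A ⊕ (A ⊕ B))) : Set (A ⊕ (A ⊕ B))) := by
  intro η η' h
  unfold boundF_E
  refine propext (forall_congr' fun p => imp_congr_right fun hp => ?_)
  have h1 := h (Sum.inr (Sum.inr p.1)) (by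
    rw [coe_biUnion]
    simp only [Set.mem_iUnion]
    exact ⟨p, hp, by simp [boundF_S]⟩)
  have h2 := h (Sum.inr (Sum.inr p.2)) (by
    rw [coe_biUnion]
    simp only [Set.mem_iUnion]
    exact ⟨p, hp, by simp [boundF_S]⟩)
  rw [h1, h2]

lemma boundF_prob (F : Finset (B × B)) (hne : ∀ p ∈ F, p.1 ≠ p.2)
    (hd : ∀ p ∈ F, ∀ q ∈ F, p ≠ q → Disjoint (boundF_S A p) (boundF_S A q)) :
    (msr P A B).P (boundF_E (P := P) F) = (1 - 1 / (P.b : ℝ)) ^ F.card := by
  have h1 := P_forall_of_disjoint (msr P A B) F (fun p => boundF_S A p)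
    (fun p η => (η (Sum.inr (Sum.inr p.1))).2.2 ≠ (η (Sum.inr (Sum.inr p.2))).2.2)
    (fun p _ => boundF_dep_pair p) hd
  have h2 : (msr P A B).P (boundF_E (P := P) F) = _ := h1
  rw [h2, prod_congr rfl fun p hp => boundF_prob_pair p (hne p hp), prod_const]

end fixed

theorem P_badF (N : A → Finset B) (κ : A → γ) (φ : B → δ) (s Z : ℕ)
    (hG : Good N κ φ s P.b Z) (hb : 2 ≤ P.b) (u : A) (μ₀ : ℝ)
    (hμ : μ₀ ≤ 3 * (P.b : ℝ) / 4 * Real.exp (-(8 * Z / (3 * (P.b : ℝ) ^ 2)))) :
    (msr P A B).P (fun ω => BadF N κ φ s ω u) ≤ Real.exp (P.ℓ - μ₀ / 2) := by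
  classical
  refine P_le_of_mix (msr P A B) (boundF_T N κ φ s u) _ _ fun ω => ?_
  have hE := hG.excl
  -- special mates and the colours they take
  set Sp : Finset A := univ.filter fun w => w ≠ u ∧ κ w = κ u ∧ s ≤ (com N u w).card with hSp
  set G : Finset (Fin P.b) := univ \ Sp.image (pk N κ φ s ω) with hGdef
  have hGc : 3 * P.b ≤ 4 * G.card := by
    have h1 : 4 * Sp.card ≤ P.b := hG.special u
    have h2 : (Sp.image (pk N κ φ s ω)).card ≤ Sp.card := card_image_le
    have h3 : G.card = P.b - (Sp.image (pk N κ φ s ω)).card := by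
      rw [hGdef, ← compl_eq_univ_sdiff, card_compl, Fintype.card_fin]
    omega
  have hsub : ∀ η : Outc P A B, (G.filter fun a => boundF_E (boundF_pairs N κ φ s u ω a) η)
      ⊆ av N κ φ s (mix (boundF_T N κ φ s u) ω η) u := by
    intro η a ha
    rw [mem_filter] at ha
    obtain ⟨haG, haE⟩ := ha
    unfold av avail
    rw [mem_filter]
    refine ⟨mem_univ _, fun w hw hJ => ?_⟩
    rw [boundF_rho] at hw
    obtain ⟨h1, h2, h3⟩ := hJ
    have hpk := boundF_pk s u hE ω η h1 h2 hw.le
    unfold pk at hpk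
    rw [hpk]
    intro hcol
    rcases h3 with h3 | h3
    · rw [hGdef, mem_sdiff] at haG
      apply haG.2
      rw [mem_image]
      exact ⟨w, by simp [hSp, h1, h2, h3], hcol⟩
    · by_cases h4 : s ≤ (com N u w).card
      · rw [hGdef, mem_sdiff] at haG
        apply haG.2
        rw [mem_image]
        exact ⟨w, by simp [hSp, h1, h2, h4], hcol⟩
      · obtain ⟨p, hp, hpb⟩ := h3
        have hwm : w ∈ boundF_mates N κ s u := by
          unfold boundF_mates
          rw [mem_filter]
          exact ⟨mem_univ _, h1, h2, not_le.1 h4⟩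
        have hpp : p ∈ boundF_pairs N κ φ s u ω a := by
          unfold boundF_pairs
          rw [mem_biUnion]
          refine ⟨w, ?_, hp⟩
          unfold boundF_col
          rw [mem_filter]
          exact ⟨hwm, hw, hcol⟩
        have hT1 : (Sum.inr (Sum.inr p.1) : A ⊕ (A ⊕ B)) ∈ boundF_T N κ φ s u := by
          unfold boundF_T
          rw [mem_filter]
          exact ⟨mem_univ _, w, hwm, p, hp, Or.inl rfl⟩
        have hT2 : (Sum.inr (Sum.inr p.2) : A ⊕ (A ⊕ B)) ∈ boundF_T N κ φ s u := by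
          unfold boundF_T
          rw [mem_filter]
          exact ⟨mem_univ _, w, hwm, p, hp, Or.inr rfl⟩
        apply haE p hpp
        unfold beta at hpb
        rw [mix_of_mem hT1, mix_of_mem hT2] at hpb
        exact hpb
  have h1 : (msr P A B).P (fun η => BadF N κ φ s (mix (boundF_T N κ φ s u) ω η) u)
      ≤ (msr P A B).P (fun η =>
        (G.filter fun a => boundF_E (boundF_pairs N κ φ s u ω a) η).card < P.ℓ) := by
    refine Weights.P_mono _ fun η hη => ?_
    exact lt_of_le_of_lt (card_le_card (hsub η)) hη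
  refine h1.trans ?_
  have hdisj : ∀ a a' : Fin P.b, ∀ p ∈ boundF_pairs N κ φ s u ω a,
      ∀ q ∈ boundF_pairs N κ φ s u ω a', (p ≠ q ∨ a ≠ a') →
        Disjoint (boundF_S A p) (boundF_S A q) := by
    intro a a' p hp q hq h
    by_contra hcon
    obtain ⟨e1, e2⟩ := boundF_pairs_share s u hE ω hp hq (boundF_share hcon)
    rcases h with h | h
    · exact h e1
    · exact h e2
  have h2 := urn_bound (msr P A B) G
    (fun a => (boundF_pairs N κ φ s u ω a).biUnion fun p => boundF_S A p)
    (fun a η => boundF_E (boundF_pairs N κ φ s u ω a) η)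
    (fun a _ => boundF_dep _) (by
      intro a _ a' _ haa'
      rw [disjoint_biUnion_left]
      intro p hp
      rw [disjoint_biUnion_right]
      intro q hq
      exact hdisj a a' p hp q hq (Or.inr haa'))
    (fun a => (1 - 1 / (P.b : ℝ)) ^ (boundF_pairs N κ φ s u ω a).card) (by
      intro a _
      refine le_of_eq (boundF_prob _ ?_ ?_).symm
      · intro p hp
        unfold boundF_pairs at hp
        rw [mem_biUnion] at hp
        obtain ⟨w, _, hp⟩ := hp
        unfold Mset at hp
        rw [mem_filter] at hp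
        exact hp.2.1.ne
      · intro p hp q hq hpq
        exact hdisj a a p hp q hq (Or.inl hpq)) μ₀ (by
      refine hμ.trans (jensen_sum G _ P.b Z hb hGc ?_)
      refine le_trans ?_ (hG.load u)
      calc ∑ a ∈ G, (boundF_pairs N κ φ s u ω a).card
          ≤ ∑ a, (boundF_pairs N κ φ s u ω a).card :=
            sum_le_sum_of_subset (subset_univ _)
        _ ≤ ∑ a, ∑ w ∈ boundF_col N κ φ s u ω a, (Mset N φ u w).card :=
            sum_le_sum fun a _ => card_biUnion_le
        _ ≤ ∑ a, ∑ w ∈ (boundF_mates N κ s u).filter (fun w => pk N κ φ s ω w = a),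
              (Mset N φ u w).card := by
            refine sum_le_sum fun a _ => sum_le_sum_of_subset ?_
            intro w hw
            unfold boundF_col at hw
            rw [mem_filter] at hw ⊢
            exact ⟨hw.1, hw.2.2⟩
        _ = ∑ w ∈ boundF_mates N κ s u, (Mset N φ u w).card :=
            sum_fiberwise (boundF_mates N κ s u) (pk N κ φ s ω) fun w => (Mset N φ u w).card
        _ = Zsum N κ φ s u := by
            unfold Zsum boundF_mates
            refine sum_congr ?_ fun _ _ => rfl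
            ext w
            simp) P.ℓ
  exact h2

end Pool.Agent.Lib.BipAcyc
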