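import Pool.Agent.Lib.BipAcyc.Main

/-!
CHUNK BG. Many left over conflicting mates are very unlikely.

Proof. Fix labels and rounds (`P_le_of_mix`, `T` = the coordinates `inr (inl w)`), so `nbJ`,
`sameR` are fixed. Union bound over the sets `F ⊆ nbJ u` with `b` elements (`|nbJ u| ≤ h₀`, use
`sum_powersetCard_prod_le` with constant `p = d₀/ℓ`). For a fixed `F` use `P_seq_le` with
`L w` = (`Lft w` and `ℓ ≤ |av w|` and `|sameR w| ≤ d₀`), `c w = inr (inl w)`, and `key` injective
and increasing for the lexicographic order of (round, index in `A`):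
the event `L v` and everything at `w` except the seed `ξ w` itself (the set `av w`, the colours of
the vertices of the same round with smaller index) do not depend on the seed `ξ w` (for `pk` use
`pick_congr_set`); when `ξ w` is uniform on `Fin ℓ` and `ℓ ≤ |av w|`, the colour
`nth (av w) (ξ w)` is injective in `ξ w`, so it hits one of at most `d₀` colours with probability
at most `d₀ / ℓ`.
-/

set_option autoImplicit false
set_option linter.unusedSectionVars false

namespace Pool.Agent.Lib.BipAcyc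

open Finset Pool.Agent.Lib.Prob48

variable {A B : Type*} [Fintype A] [Fintype B] [LinearOrder A] [LinearOrder B]
variable {γ δ : Type*} [DecidableEq γ] [DecidableEq δ] {P : Par}

/-- lexicographic order: round, then index -/
def boundG_lt (ρ : A → ℕ) (v w : A) : Prop := ρ v < ρ w ∨ (ρ v = ρ w ∧ v < w)

open Classical in
/-- rank for the lexicographic order -/
noncomputable def boundG_key (ρ : A → ℕ) (w : A) : ℕ :=
  (univ.filter fun v => boundG_lt ρ v w).card

lemma boundG_lt_irrefl (ρ : A → ℕ) (v : A) : ¬ boundG_lt ρ v v := by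
  rintro (h | ⟨_, h⟩)
  · exact lt_irrefl _ h
  · exact lt_irrefl _ h

lemma boundG_lt_trans {ρ : A → ℕ} {x y z : A} (h : boundG_lt ρ x y) (h' : boundG_lt ρ y z) :
    boundG_lt ρ x z := by
  rcases h with h | ⟨h1, h2⟩ <;> rcases h' with h' | ⟨h1', h2'⟩
  · exact Or.inl (by omega)
  · exact Or.inl (by omega)
  · exact Or.inl (by omega)
  · exact Or.inr ⟨by omega, h2.trans h2'⟩

lemma boundG_trichotomy (ρ : A → ℕ) (v w : A) :
    boundG_lt ρ v w ∨ v = w ∨ boundG_lt ρ w v := by
  rcases lt_trichotomy (ρ v) (ρ w) with h | h | h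
  · exact Or.inl (Or.inl h)
  · rcases lt_trichotomy v w with h' | h' | h'
    · exact Or.inl (Or.inr ⟨h, h'⟩)
    · exact Or.inr (Or.inl h')
    · exact Or.inr (Or.inr (Or.inr ⟨h.symm, h'⟩))
  · exact Or.inr (Or.inr (Or.inl h))

lemma boundG_key_lt {ρ : A → ℕ} {v w : A} (h : boundG_lt ρ v w) :
    boundG_key ρ v < boundG_key ρ w := by
  classical
  unfold boundG_key
  apply card_lt_card
  rw [ssubset_iff_of_subset]
  · refine ⟨v, ?_, ?_⟩
    · simpa using h
    · simpa using boundG_lt_irrefl ρ v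
  · intro x hx
    simp only [mem_filter, mem_univ, true_and] at hx ⊢
    exact boundG_lt_trans hx h

lemma boundG_lt_of_key {ρ : A → ℕ} {v w : A} (h : boundG_key ρ v < boundG_key ρ w) :
    boundG_lt ρ v w := by
  rcases boundG_trichotomy ρ v w with h1 | h1 | h1
  · exact h1
  · subst h1
    exact absurd h (lt_irrefl _)
  · exact absurd h (not_lt.2 (boundG_key_lt h1).le)

lemma boundG_key_inj {ρ : A → ℕ} {v w : A} (h : boundG_key ρ v = boundG_key ρ w) : v = w := by
  rcases boundG_trichotomy ρ v w with h1 | h1 | h1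
  · exact absurd (boundG_key_lt h1) (by omega)
  · exact h1
  · exact absurd (boundG_key_lt h1) (by omega)

section congr

variable (N : A → Finset B) (κ : A → γ) (φ : B → δ) (s : ℕ)

lemma boundG_rho {ω ω' : Outc P A B} (h : ∀ w, ω (Sum.inl w) = ω' (Sum.inl w)) :
    rho ω = rho ω' := by
  funext w
  unfold rho
  rw [h w]

lemma boundG_JJ {ω ω' : Outc P A B}
    (h : ∀ y, ω (Sum.inr (Sum.inr y)) = ω' (Sum.inr (Sum.inr y))) :
    JJ N κ φ s ω = JJ N κ φ s ω' := by
  have hb : beta ω = beta ω' := by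
    funext y
    unfold beta
    rw [h y]
  funext u w
  unfold JJ Conf
  rw [hb]

lemma boundG_nbJ {ω ω' : Outc P A B}
    (h : ∀ y, ω (Sum.inr (Sum.inr y)) = ω' (Sum.inr (Sum.inr y))) (u : A) :
    nbJ N κ φ s ω u = nbJ N κ φ s ω' u := by
  unfold nbJ
  rw [boundG_JJ N κ φ s h]

lemma boundG_sameR {ω ω' : Outc P A B} (h : ∀ w, ω (Sum.inl w) = ω' (Sum.inl w))
    (h' : ∀ y, ω (Sum.inr (Sum.inr y)) = ω' (Sum.inr (Sum.inr y))) (u : A) :
    sameR N κ φ s ω u = sameR N κ φ s ω' u := by
  unfold sameR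
  rw [boundG_nbJ N κ φ s h' u, boundG_rho h]

/-- the outcomes agree except possibly at the seed of `i` -/
def BGOff (i : A) (ω ω' : Outc P A B) : Prop := ∀ c, c ≠ Sum.inr (Sum.inl i) → ω c = ω' c

variable {N κ φ s}

lemma BGOff.hl {i : A} {ω ω' : Outc P A B} (h : BGOff i ω ω') (w : A) :
    ω (Sum.inl w) = ω' (Sum.inl w) := h _ (by simp)

lemma BGOff.hr {i : A} {ω ω' : Outc P A B} (h : BGOff i ω ω') (y : B) :
    ω (Sum.inr (Sum.inr y)) = ω' (Sum.inr (Sum.inr y)) := h _ (by simp)

lemma BGOff.pk {i : A} {ω ω' : Outc P A B} (h : BGOff i ω ω') (w : A) (hw : w ≠ i)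
    (hρ : rho ω w ≤ rho ω i) : pk N κ φ s ω w = pk N κ φ s ω' w := by
  unfold Pool.Agent.Lib.BipAcyc.pk
  have e1 := boundG_JJ N κ φ s h.hr
  have e2 := boundG_rho h.hl
  refine pick_congr_set {w | w ≠ i ∧ rho ω w ≤ rho ω i} ?_ ?_ ?_ w ⟨hw, hρ⟩
  · rintro x ⟨hx, _⟩
    unfold xi
    rw [h (Sum.inr (Sum.inl x)) (by simpa using hx)]
  · rintro x ⟨_, hx2⟩ x' h1 h2
    refine ⟨⟨?_, by omega⟩, ?_, ?_⟩
    · rintro rfl
      omega
    · rw [← e2]
      exact h1
    · rw [← e1]
      exact h2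
  · rintro x ⟨_, hx2⟩ x' h1 h2
    rw [← e2] at h1
    rw [← e1] at h2
    refine ⟨⟨?_, by omega⟩, h1, h2⟩
    rintro rfl
    omega

lemma BGOff.av {i : A} {ω ω' : Outc P A B} (h : BGOff i ω ω') (w : A)
    (hρ : rho ω w ≤ rho ω i) : av N κ φ s ω w = av N κ φ s ω' w := by
  have e1 := boundG_JJ N κ φ s h.hr
  have e2 := boundG_rho h.hl
  unfold Pool.Agent.Lib.BipAcyc.av avail
  ext a
  simp only [mem_filter, mem_univ, true_and]
  rw [← e1, ← e2]
  constructor
  · intro hh x hx1 hx2
    have := BGOff.pk (N := N) (κ := κ) (φ := φ) (s := s) h x (by rintro rfl; omega) (by omega)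
    unfold Pool.Agent.Lib.BipAcyc.pk at this
    rw [← e1, ← e2] at this
    rw [← this]
    exact hh x hx1 hx2
  · intro hh x hx1 hx2
    have := BGOff.pk (N := N) (κ := κ) (φ := φ) (s := s) h x (by rintro rfl; omega) (by omega)
    unfold Pool.Agent.Lib.BipAcyc.pk at this
    rw [← e1, ← e2] at this
    rw [this]
    exact hh x hx1 hx2

end congr

section events

variable (N : A → Finset B) (κ : A → γ) (φ : B → δ) (s : ℕ)

/-- the event of a left over vertex with many available colours and few mates in its round -/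
def BGL (ω : Outc P A B) (w : A) : Prop :=
  Lft N κ φ s ω w ∧ P.ℓ ≤ (av N κ φ s ω w).card ∧ (sameR N κ φ s ω w).card ≤ P.d₀

variable {N κ φ s}

lemma BGOff.lft {i : A} {ω ω' : Outc P A B} (h : BGOff i ω ω') (w : A)
    (hw : boundG_lt (rho ω) w i) (hL : BGL N κ φ s ω w) : BGL N κ φ s ω' w := by
  obtain ⟨⟨v, hv, hvw, hpk⟩, h2, h3⟩ := hL
  have hwi : w ≠ i := by
    rintro rfl
    exact boundG_lt_irrefl _ _ hw
  have hρ : rho ω w ≤ rho ω i := by
    rcases hw with hw | ⟨hw, _⟩ <;> omega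
  have e3 := boundG_sameR N κ φ s h.hl h.hr w
  have hvr : rho ω v = rho ω w := by
    unfold sameR at hv
    rw [mem_filter] at hv
    exact hv.2
  have hvi : v ≠ i := by
    rintro rfl
    rcases hw with hw | ⟨_, hw⟩
    · omega
    · exact absurd (hvw.trans hw) (lt_irrefl _)
  refine ⟨⟨v, ?_, hvw, ?_⟩, ?_, ?_⟩
  · rw [← e3]
    exact hv
  · rw [← h.pk v hvi (by omega), ← h.pk w hwi hρ]
    exact hpk
  · rw [← h.av w hρ]
    exact h2
  · rw [← e3]
    exact h3

lemma BGOff.symm {i : A} {ω ω' : Outc P A B} (h : BGOff i ω ω') : BGOff i ω' ω :=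
  fun c hc => (h c hc).symm

lemma BGOff.lft_iff {i : A} {ω ω' : Outc P A B} (h : BGOff i ω ω') (w : A)
    (hw : boundG_lt (rho ω) w i) : BGL N κ φ s ω w ↔ BGL N κ φ s ω' w := by
  refine ⟨h.lft w hw, h.symm.lft w ?_⟩
  rw [← boundG_rho h.hl]
  exact hw

end events

/-- a uniform seed hits few colours -/
lemma boundG_count (P : Par) (S C : Finset (Fin P.b)) (hS : P.ℓ ≤ S.card) :
    (univ.filter fun a : P.Val => nth S a.2.1.val ∈ C).card ≤ P.r * (C.card * P.b) := by
  classical
  have h1 : (univ.filter fun a : P.Val => nth S a.2.1.val ∈ C)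
      ⊆ (univ : Finset (Fin P.r)) ×ˢ
        ((univ.filter fun x : Fin P.ℓ => nth S x.val ∈ C) ×ˢ (univ : Finset (Fin P.b))) := by
    rintro ⟨a, x, c⟩ h
    simpa using h
  refine (card_le_card h1).trans ?_
  rw [card_product, card_product, card_univ, card_univ, Fintype.card_fin, Fintype.card_fin]
  refine Nat.mul_le_mul le_rfl (Nat.mul_le_mul ?_ le_rfl)
  refine card_le_card_of_injOn (fun x : Fin P.ℓ => nth S x.val) ?_ ?_
  · intro x hx
    simpa using hx
  · intro x _ y _ hxy
    exact Fin.ext (nth_inj S x.val y.val (x.isLt.trans_le hS) (y.isLt.trans_le hS) hxy)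

/-- the seeds -/
def boundG_T (A B : Type*) [Fintype A] [DecidableEq A] [DecidableEq B] :
    Finset (A ⊕ (A ⊕ B)) := univ.image fun w : A => Sum.inr (Sum.inl w)

lemma boundG_mix_inl (ω η : Outc P A B) (w : A) :
    mix (boundG_T A B) ω η (Sum.inl w) = ω (Sum.inl w) :=
  mix_of_notMem (by simp [boundG_T]) _ _

lemma boundG_mix_inr (ω η : Outc P A B) (y : B) :
    mix (boundG_T A B) ω η (Sum.inr (Sum.inr y)) = ω (Sum.inr (Sum.inr y)) :=
  mix_of_notMem (by simp [boundG_T]) _ _

lemma boundG_mix_seed (ω η : Outc P A B) (w : A) :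
    mix (boundG_T A B) ω η (Sum.inr (Sum.inl w)) = η (Sum.inr (Sum.inl w)) :=
  mix_of_mem (by simp [boundG_T]) _ _

lemma boundG_off (ω η : Outc P A B) (i : A) (a : P.Val) :
    BGOff i (mix (boundG_T A B) ω η)
      (mix (boundG_T A B) ω (Function.update η (Sum.inr (Sum.inl i)) a)) := by
  intro c hc
  by_cases hT : c ∈ boundG_T A B
  · rw [mix_of_mem hT, mix_of_mem hT, Function.update_of_ne hc]
  · rw [mix_of_notMem hT, mix_of_notMem hT]

open Classical in
/-- conditional probability -/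
lemma boundG_avg (N : A → Finset B) (κ : A → γ) (φ : B → δ) (s : ℕ) (ω η : Outc P A B) (i : A) :
    (msr P A B).avg (Sum.inr (Sum.inl i))
      (fun η => if BGL N κ φ s (mix (boundG_T A B) ω η) i then 1 else 0) η
      ≤ (P.d₀ : ℝ) / P.ℓ := by
  have hr : (0 : ℝ) < P.r := Nat.cast_pos.2 (Nat.pos_of_ne_zero (NeZero.ne P.r))
  have hl : (0 : ℝ) < P.ℓ := Nat.cast_pos.2 (Nat.pos_of_ne_zero (NeZero.ne P.ℓ))
  have hb : (0 : ℝ) < P.b := Nat.cast_pos.2 (Nat.pos_of_ne_zero (NeZero.ne P.b))
  set ω₀ : Outc P A B := mix (boundG_T A B) ω η with hω₀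
  by_cases hc : P.ℓ ≤ (av N κ φ s ω₀ i).card ∧ (sameR N κ φ s ω₀ i).card ≤ P.d₀
  · set S := av N κ φ s ω₀ i with hSdef
    set C := ((sameR N κ φ s ω₀ i).filter fun v => v < i).image (pk N κ φ s ω₀) with hCdef
    have hCc : C.card ≤ P.d₀ :=
      (card_image_le.trans (card_le_card (filter_subset _ _))).trans hc.2
    have key : ∀ a : P.Val, BGL N κ φ s (mix (boundG_T A B) ω
        (Function.update η (Sum.inr (Sum.inl i)) a)) i → nth S a.2.1.val ∈ C := by
      rintro a ⟨⟨v, hv, hvi, hpk⟩, _, _⟩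
      have hoff := boundG_off ω η i a
      have e3 := boundG_sameR N κ φ s hoff.hl hoff.hr i
      rw [← e3] at hv
      have hvr : rho ω₀ v = rho ω₀ i := by
        unfold sameR at hv
        rw [mem_filter] at hv
        exact hv.2
      rw [← hoff.pk v hvi.ne hvr.le] at hpk
      have hself : pk N κ φ s (mix (boundG_T A B) ω
          (Function.update η (Sum.inr (Sum.inl i)) a)) i = nth S a.2.1.val := by
        have h1 := hoff.av (N := N) (κ := κ) (φ := φ) (s := s) i le_rfl
        have h2 : xi (mix (boundG_T A B) ω (Function.update η (Sum.inr (Sum.inl i)) a)) i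
            = a.2.1.val := by
          unfold xi
          rw [boundG_mix_seed, Function.update_self]
        unfold pk
        rw [pick_eq, h2]
        rw [hSdef, hω₀, h1]
        rfl
      rw [← hself, ← hpk, hCdef]
      exact mem_image_of_mem _ (mem_filter.2 ⟨hv, hvi⟩)
    unfold Weights.avg
    calc ∑ a, (msr P A B).w (Sum.inr (Sum.inl i)) a *
          (if BGL N κ φ s (mix (boundG_T A B) ω (Function.update η (Sum.inr (Sum.inl i)) a)) i
            then (1 : ℝ) else 0)
        ≤ ∑ a : P.Val, (Fintype.card P.Val : ℝ)⁻¹ * (if nth S a.2.1.val ∈ C then 1 else 0) := by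
          refine sum_le_sum fun a _ => ?_
          show (Fintype.card P.Val : ℝ)⁻¹ * _ ≤ _
          refine mul_le_mul_of_nonneg_left ?_ (by positivity)
          by_cases h : BGL N κ φ s (mix (boundG_T A B) ω
            (Function.update η (Sum.inr (Sum.inl i)) a)) i
          · rw [if_pos h, if_pos (key a h)]
          · rw [if_neg h]
            positivity
      _ = (Fintype.card P.Val : ℝ)⁻¹ *
          ((univ.filter fun a : P.Val => nth S a.2.1.val ∈ C).card : ℝ) := by
          rw [← mul_sum, sum_boole]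
      _ ≤ (Fintype.card P.Val : ℝ)⁻¹ * ((P.r * (P.d₀ * P.b) : ℕ) : ℝ) := by
          refine mul_le_mul_of_nonneg_left ?_ (by positivity)
          refine Nat.cast_le.2 ((boundG_count P S C hc.1).trans ?_)
          exact Nat.mul_le_mul le_rfl (Nat.mul_le_mul hCc le_rfl)
      _ = (P.d₀ : ℝ) / P.ℓ := by
          have : Fintype.card P.Val = P.r * (P.ℓ * P.b) := by
            simp [Par.Val]
          rw [this]
          push_cast
          field_simp
  · have : ∀ a : P.Val, ¬ BGL N κ φ s (mix (boundG_T A B) ω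
        (Function.update η (Sum.inr (Sum.inl i)) a)) i := by
      rintro a ⟨_, h2, h3⟩
      have hoff := boundG_off ω η i a
      have e3 := boundG_sameR N κ φ s hoff.hl hoff.hr i
      rw [← e3] at h3
      rw [← hoff.av i le_rfl] at h2
      exact hc ⟨h2, h3⟩
    unfold Weights.avg
    rw [sum_eq_zero]
    · positivity
    · intro a _
      show _ * (if BGL N κ φ s (mix (boundG_T A B) ω (Function.update η (Sum.inr (Sum.inl i)) a)) i
        then (1 : ℝ) else 0) = 0
      rw [if_neg (this a), mul_zero]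

theorem P_badG (N : A → Finset B) (κ : A → γ) (φ : B → δ) (s : ℕ) (u : A) :
    (msr P A B).P (fun ω => BadG N κ φ s ω u)
      ≤ (Real.exp 1 * P.h₀ * P.d₀ / (P.b * P.ℓ)) ^ P.b := by
  classical
  have hl : (0 : ℝ) < P.ℓ := Nat.cast_pos.2 (Nat.pos_of_ne_zero (NeZero.ne P.ℓ))
  have hb0 : 0 < P.b := Nat.pos_of_ne_zero (NeZero.ne P.b)
  have hb : (0 : ℝ) < P.b := Nat.cast_pos.2 hb0
  refine P_le_of_mix (msr P A B) (boundG_T A B) _ _ fun ω => ?_
  have e1 : ∀ η : Outc P A B, nbJ N κ φ s (mix (boundG_T A B) ω η) u = nbJ N κ φ s ω u :=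
    fun η => boundG_nbJ N κ φ s (boundG_mix_inr ω η) u
  by_cases hn : (nbJ N κ φ s ω u).card ≤ P.h₀
  · set M := nbJ N κ φ s ω u with hM
    have h1 : (msr P A B).P (fun η => BadG N κ φ s (mix (boundG_T A B) ω η) u)
        ≤ (msr P A B).P (fun η => ∃ F ∈ M.powersetCard P.b,
          ∀ w ∈ F, BGL N κ φ s (mix (boundG_T A B) ω η) w) := by
      refine Weights.P_mono _ fun η hη => ?_
      obtain ⟨_, h2⟩ := hη
      rw [e1 η] at h2
      obtain ⟨F, hF1, hF2⟩ := exists_subset_card_eq h2
      refine ⟨F, ?_, ?_⟩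
      · rw [mem_powersetCard]
        exact ⟨hF1.trans (filter_subset _ _), hF2⟩
      · intro w hw
        exact (mem_filter.1 (hF1 hw)).2
    refine h1.trans ((Weights.P_exists_le _ _ _).trans ?_)
    have h2 : ∀ F ∈ M.powersetCard P.b,
        (msr P A B).P (fun η => ∀ w ∈ F, BGL N κ φ s (mix (boundG_T A B) ω η) w)
          ≤ ∏ _i ∈ F, ((P.d₀ : ℝ) / P.ℓ) := by
      intro F hF
      rw [prod_const]
      refine P_seq_le (msr P A B) F (boundG_key (rho ω)) (fun w => Sum.inr (Sum.inl w))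
        (fun w η => BGL N κ φ s (mix (boundG_T A B) ω η) w) _ (by positivity)
        (fun i _ j _ h => boundG_key_inj h) ?_ ?_
      · intro i _ j _ hij η a
        have hlt := boundG_lt_of_key hij
        refine ((boundG_off ω η i a).lft_iff j ?_).symm
        rw [boundG_rho (boundG_mix_inl ω η)]
        exact hlt
      · intro i _ η
        exact boundG_avg N κ φ s ω η i
    refine (sum_le_sum h2).trans ?_
    refine (sum_powersetCard_prod_le M (fun _ => (P.d₀ : ℝ) / P.ℓ)
      (fun _ _ => by positivity) P.b hb0).trans ?_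
    rw [sum_const, nsmul_eq_mul]
    refine pow_le_pow_left₀ (by positivity) ?_ _
    have h3 : (M.card : ℝ) ≤ P.h₀ := Nat.cast_le.2 hn
    calc Real.exp 1 * ((M.card : ℝ) * ((P.d₀ : ℝ) / P.ℓ)) / P.b
        ≤ Real.exp 1 * ((P.h₀ : ℝ) * ((P.d₀ : ℝ) / P.ℓ)) / P.b := by gcongr
      _ = Real.exp 1 * P.h₀ * P.d₀ / (P.b * P.ℓ) := by
          field_simp
  · have : (msr P A B).P (fun η => BadG N κ φ s (mix (boundG_T A B) ω η) u)
        = (msr P A B).P (fun _ => False) := by
      refine Weights.P_congr _ fun η => ?_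
      simp only [iff_false]
      rintro ⟨h, _⟩
      rw [e1 η] at h
      exact hn h
    rw [this, Weights.P_false]
    positivity

end Pool.Agent.Lib.BipAcyc
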