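import Pool.Agent.Lib.BipAcyc.Main
import Pool.Agent.Lib.BipAcyc.BoundF

/-!
CHUNK BH = `P_badH`. If `nbJ u` has more than `h₀ ≥ h₁ + b` elements, at least `h₁` mates `w` of
codegree `< s` are in conflict with `u` because of the labels. Union bound over the sets `F` of
`h₁` mates: the events `Conf u w` have disjoint supports (`Excl`), `P (Conf u w) ≤ |Mset u w| / b`
(union bound, `P_proj_pair`), then `sum_powersetCard_prod_le` with `∑ |Mset u w| ≤ Z`.
-/

set_option autoImplicit false
set_option linter.unusedSectionVars false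

namespace Pool.Agent.Lib.BipAcyc

open Finset Pool.Agent.Lib.Prob48

variable {A B : Type*} [Fintype A] [Fintype B] [LinearOrder A] [LinearOrder B]
variable {γ δ : Type*} [DecidableEq γ] [DecidableEq δ] {P : Par}

lemma boundH_dep (N : A → Finset B) (φ : B → δ) (u w : A) :
    DependsOn (fun ω : Outc P A B => Conf N φ ω u w)
      (((Mset N φ u w).biUnion fun p => boundF_S A p : Finset (A ⊕ (A ⊕ B))) :
        Set (A ⊕ (A ⊕ B))) := by
  intro η η' h
  unfold Conf
  refine propext (exists_congr fun p => and_congr_right fun hp => ?_)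
  have h1 := h (Sum.inr (Sum.inr p.1)) (by
    rw [coe_biUnion]
    simp only [Set.mem_iUnion]
    exact ⟨p, hp, by simp [boundF_S]⟩)
  have h2 := h (Sum.inr (Sum.inr p.2)) (by
    rw [coe_biUnion]
    simp only [Set.mem_iUnion]
    exact ⟨p, hp, by simp [boundF_S]⟩)
  unfold beta
  rw [h1, h2]

lemma boundH_pair (p : B × B) (hp : p.1 ≠ p.2) :
    (msr P A B).P (fun ω => beta ω p.1 = beta ω p.2) = 1 / (P.b : ℝ) := by
  have h2 := P_proj_pair (V := A ⊕ (A ⊕ B)) (γ := P.Val) (δ := Fin P.b) (fun c => c.2.2)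
    (boundF_card_fiber P) (Sum.inr (Sum.inr p.1)) (Sum.inr (Sum.inr p.2)) (by simpa using hp)
  have h3 : (msr P A B).P (fun ω => beta ω p.1 = beta ω p.2)
      = (Fintype.card (Fin P.b) : ℝ)⁻¹ := h2
  rw [h3, Fintype.card_fin, one_div]

lemma boundH_conf (N : A → Finset B) (φ : B → δ) (u w : A) :
    (msr P A B).P (fun ω => Conf N φ ω u w) ≤ ((Mset N φ u w).card : ℝ) / P.b := by
  refine ((msr P A B).P_exists_le (Mset N φ u w)
    (fun p ω => beta ω p.1 = beta ω p.2)).trans (le_of_eq ?_)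
  have : ∀ p ∈ Mset N φ u w, (msr P A B).P (fun ω => beta ω p.1 = beta ω p.2)
      = 1 / (P.b : ℝ) := by
    intro p hp
    apply boundH_pair
    unfold Mset at hp
    rw [mem_filter] at hp
    exact hp.2.1.ne
  rw [sum_congr rfl this, sum_const, nsmul_eq_mul]
  ring

theorem P_badH (N : A → Finset B) (κ : A → γ) (φ : B → δ) (s Z h₁ : ℕ)
    (hG : Good N κ φ s P.b Z) (hh : 0 < h₁) (hh1 : h₁ + P.b ≤ P.h₀) (u : A) :
    (msr P A B).P (fun ω => BadH N κ φ s ω u) ≤ (Real.exp 1 * Z / (P.b * h₁)) ^ h₁ := by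
  classical
  have hb0 : 0 < P.b := Nat.pos_of_ne_zero (NeZero.ne P.b)
  have hb : (0 : ℝ) < P.b := Nat.cast_pos.2 hb0
  have hh' : (0 : ℝ) < h₁ := Nat.cast_pos.2 hh
  have hE := hG.excl
  set M := boundF_mates N κ s u with hM
  have h1 : (msr P A B).P (fun ω => BadH N κ φ s ω u)
      ≤ (msr P A B).P (fun ω => ∃ F ∈ M.powersetCard h₁, ∀ w ∈ F, Conf N φ ω u w) := by
    refine Weights.P_mono _ fun ω hω => ?_
    unfold BadH at hω
    have h4 := hG.special u
    set Sp : Finset A := univ.filter fun w => w ≠ u ∧ κ w = κ u ∧ s ≤ (com N u w).card with hSp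
    have h5 : nbJ N κ φ s ω u ⊆ Sp ∪ (M.filter fun w => Conf N φ ω u w) := by
      intro w hw
      unfold nbJ at hw
      rw [mem_filter] at hw
      obtain ⟨_, h6, h7, h8⟩ := hw
      rw [mem_union]
      by_cases h9 : s ≤ (com N u w).card
      · left
        exact mem_filter.2 ⟨mem_univ _, h6, h7, h9⟩
      · right
        rw [mem_filter, hM]
        unfold boundF_mates
        rw [mem_filter]
        exact ⟨⟨mem_univ _, h6, h7, not_le.1 h9⟩, h8.resolve_left h9⟩
    have h6 := (card_le_card h5).trans (card_union_le _ _)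
    have h7 : h₁ ≤ (M.filter fun w => Conf N φ ω u w).card := by omega
    obtain ⟨F, hF1, hF2⟩ := exists_subset_card_eq h7
    refine ⟨F, ?_, ?_⟩
    · rw [mem_powersetCard]
      exact ⟨hF1.trans (filter_subset _ _), hF2⟩
    · intro w hw
      exact (mem_filter.1 (hF1 hw)).2
  refine h1.trans ((Weights.P_exists_le _ _ _).trans ?_)
  have h2 : ∀ F ∈ M.powersetCard h₁,
      (msr P A B).P (fun ω => ∀ w ∈ F, Conf N φ ω u w)
        ≤ ∏ w ∈ F, (((Mset N φ u w).card : ℝ) / P.b) := by
    intro F hF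
    rw [mem_powersetCard] at hF
    rw [P_forall_of_disjoint (msr P A B) F
      (fun w => (Mset N φ u w).biUnion fun p => boundF_S A p)
      (fun w ω => Conf N φ ω u w) (fun w _ => boundH_dep N φ u w)]
    · exact prod_le_prod (fun w _ => Weights.P_nonneg _ _) fun w _ => boundH_conf N φ u w
    · intro w hw w' hw' hne
      rw [disjoint_biUnion_left]
      intro p hp
      rw [disjoint_biUnion_right]
      intro q hq
      by_contra hcon
      have hw1 := hF.1 hw
      have hw1' := hF.1 hw'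
      rw [hM] at hw1 hw1'
      unfold boundF_mates at hw1 hw1'
      rw [mem_filter] at hw1 hw1'
      obtain ⟨_, h3 | h3⟩ := hE u w u w' hw1.2.1.symm hw1'.2.1.symm hw1.2.2.1.symm
        hw1'.2.2.1.symm rfl p hp q hq (boundF_share hcon)
      · exact hne h3.2
      · exact hw1'.2.1 h3.1.symm
  refine (sum_le_sum h2).trans ?_
  refine (sum_powersetCard_prod_le M (fun w => ((Mset N φ u w).card : ℝ) / P.b)
    (fun _ _ => div_nonneg (Nat.cast_nonneg _) hb.le) h₁ hh).trans ?_
  have hnn : 0 ≤ ∑ w ∈ M, ((Mset N φ u w).card : ℝ) / P.b :=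
    sum_nonneg fun _ _ => div_nonneg (Nat.cast_nonneg _) hb.le
  refine pow_le_pow_left₀ (div_nonneg (mul_nonneg (Real.exp_pos _).le hnn) hh'.le) ?_ _
  have h3 : ∑ w ∈ M, ((Mset N φ u w).card : ℝ) ≤ Z := by
    have h4 := hG.load u
    have h5 : ∑ w ∈ M, (Mset N φ u w).card = Zsum N κ φ s u := by
      unfold Zsum
      rw [hM]
      unfold boundF_mates
      refine sum_congr ?_ fun _ _ => rfl
      ext w
      simp
    rw [← h5] at h4
    rw [← Nat.cast_sum]
    exact Nat.cast_le.2 h4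
  rw [← sum_div]
  calc Real.exp 1 * ((∑ w ∈ M, ((Mset N φ u w).card : ℝ)) / P.b) / h₁
      ≤ Real.exp 1 * ((Z : ℝ) / P.b) / h₁ := by gcongr
    _ = Real.exp 1 * Z / (P.b * h₁) := by
        field_simp

end Pool.Agent.Lib.BipAcyc
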