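import Pool.Agent.Lib.BipAcyc.Inc

/-!
CHUNK EX. Pure combinatorics: exclusivity follows from the absence of P6, K32, K23.

Proof. Let `p ∈ Mset u w`, `p' ∈ Mset u' w'` share the vertex `y`, all of `u, w, u', w'` in the
same class of `κ`; all vertices of `p`, `p'` are in the same class of `φ`. Let `y₁` be the other
vertex of `p`, `y₂` the other vertex of `p'`.
* `{u, w} = {u', w'}`: if `y₁ ≠ y₂` then `y, y₁, y₂` are three common neighbours of `u, w`: K23.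
  So `y₁ = y₂` and `p = p'` (both ordered by `<`).
* otherwise one of `u', w'` is not in `{u, w}`; by symmetry `w' ∉ {u, w}`.
  If `y₁ = y₂`: `y, y₁` are adjacent to `u, w, w'`: K32.
  If `y₁ ≠ y₂`: choose `a ∈ {u, w}` with `a ≠ u'`; the path `y₁ a y w' y₂ u'` is a P6.
-/

set_option autoImplicit false
set_option linter.unusedSectionVars false

namespace Pool.Agent.Lib.BipAcyc

open Finset

variable {A B : Type*} [Fintype A] [Fintype B] [LinearOrder A] [LinearOrder B]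
variable {γ δ : Type*} [DecidableEq δ]

lemma excl_aux (N : A → Finset B) (κ : A → γ) (φ : B → δ) (h6 : NoP6 N κ φ)
    (h32 : NoK32 N κ φ) {u w u' w' : A} {y y₁ y₂ : B} (huw : u ≠ w) (huw' : u' ≠ w')
    (hκ : κ u = κ w) (hκ' : κ u' = κ w') (hκ2 : κ u = κ u')
    (hyu : y ∈ N u) (hyw : y ∈ N w) (hyw' : y ∈ N w')
    (h1u : y₁ ∈ N u) (h1w : y₁ ∈ N w) (h2u : y₂ ∈ N u') (h2w : y₂ ∈ N w')
    (hy1 : y ≠ y₁) (hy2 : y ≠ y₂) (hφ1 : φ y = φ y₁) (hφ2 : φ y = φ y₂)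
    (hwu : w' ≠ u) (hww : w' ≠ w) : False := by
  by_cases h12 : y₁ = y₂
  · subst h12
    exact h32 u w w' y y₁ huw hwu.symm hww.symm hy1 hyu hyw hyw' h1u h1w h2w hκ
      (hκ.symm.trans (hκ2.trans hκ')) hφ1
  · by_cases hu : u = u'
    · subst hu
      exact h6 y₁ w y w' y₂ u h1w hyw hyw' h2w h2u hy1.symm h12 hy2 hww.symm huw.symm hwu
        (hκ.symm.trans hκ') hκ'.symm hφ1.symm hφ2
    · exact h6 y₁ u y w' y₂ u' h1u hyu hyw' h2w h2u hy1.symm h12 hy2 hwu.symm hu huw'.symm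
        (hκ2.trans hκ') hκ'.symm hφ1.symm hφ2

lemma excl_core (N : A → Finset B) (κ : A → γ) (φ : B → δ) (h6 : NoP6 N κ φ)
    (h32 : NoK32 N κ φ) (h23 : NoK23 N κ φ) {u w u' w' : A} {y y₁ y₂ : B} (huw : u ≠ w)
    (huw' : u' ≠ w') (hκ : κ u = κ w) (hκ' : κ u' = κ w') (hκ2 : κ u = κ u')
    (hyu : y ∈ N u) (hyw : y ∈ N w) (hyu' : y ∈ N u') (hyw' : y ∈ N w')
    (h1u : y₁ ∈ N u) (h1w : y₁ ∈ N w) (h2u : y₂ ∈ N u') (h2w : y₂ ∈ N w')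
    (hy1 : y ≠ y₁) (hy2 : y ≠ y₂) (hφ1 : φ y = φ y₁) (hφ2 : φ y = φ y₂) :
    y₁ = y₂ ∧ ((u = u' ∧ w = w') ∨ (u = w' ∧ w = u')) := by
  have hkey : (w' = u ∨ w' = w) ∧ (u' = u ∨ u' = w) := by
    constructor
    · by_contra hcon
      push Not at hcon
      exact excl_aux N κ φ h6 h32 huw huw' hκ hκ' hκ2 hyu hyw hyw' h1u h1w h2u h2w hy1 hy2 hφ1
        hφ2 hcon.1 hcon.2
    · by_contra hcon
      push Not at hcon
      exact excl_aux N κ φ h6 h32 huw huw'.symm hκ hκ'.symm (hκ2.trans hκ') hyu hyw hyu' h1u h1w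
        h2w h2u hy1 hy2 hφ1 hφ2 hcon.1 hcon.2
  have hset : (u = u' ∧ w = w') ∨ (u = w' ∧ w = u') := by
    rcases hkey with ⟨h1 | h1, h2 | h2⟩
    · exact absurd (h2.trans h1.symm) huw'
    · exact Or.inr ⟨h1.symm, h2.symm⟩
    · exact Or.inl ⟨h2.symm, h1.symm⟩
    · exact absurd (h2.trans h1.symm) huw'
  refine ⟨?_, hset⟩
  by_contra h12
  have h2 : y₂ ∈ N u ∧ y₂ ∈ N w := by
    rcases hset with ⟨h3, h4⟩ | ⟨h3, h4⟩
    · rw [h3, h4]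
      exact ⟨h2u, h2w⟩
    · rw [h3, h4]
      exact ⟨h2w, h2u⟩
  exact h23 u w y y₁ y₂ huw hy1 hy2 h12 hyu h1u h2.1 hyw h1w h2.2 hκ hφ1 (hφ1.symm.trans hφ2)

theorem excl_of (N : A → Finset B) (κ : A → γ) (φ : B → δ) (h6 : NoP6 N κ φ)
    (h32 : NoK32 N κ φ) (h23 : NoK23 N κ φ) : Excl N κ φ := by
  intro u w u' w' huw huw' hκ hκ' hκ2 p hp p' hp' hsh
  unfold Mset at hp hp'
  simp only [mem_filter, mem_product, mem_com] at hp hp'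
  obtain ⟨⟨⟨a1, a2⟩, a3, a4⟩, a5, a6⟩ := hp
  obtain ⟨⟨⟨b1, b2⟩, b3, b4⟩, b5, b6⟩ := hp'
  rcases hsh with h | h | h | h
  · have hc := excl_core N κ φ h6 h32 h23 (y := p.1) (y₁ := p.2) (y₂ := p'.2) huw huw' hκ hκ' hκ2
      a1 a2 (h ▸ b1) (h ▸ b2) a3 a4 b3 b4 a5.ne (h ▸ b5.ne) a6 (h ▸ b6)
    exact ⟨Prod.ext h hc.1, hc.2⟩
  · have hc := excl_core N κ φ h6 h32 h23 (y := p.1) (y₁ := p.2) (y₂ := p'.1) huw huw' hκ hκ' hκ2
      a1 a2 (h ▸ b3) (h ▸ b4) a3 a4 b1 b2 a5.ne (h ▸ b5.ne') a6 (h ▸ b6.symm)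
    have h1 := hc.1
    rw [h1, h] at a5
    exact absurd a5 (lt_asymm b5)
  · have hc := excl_core N κ φ h6 h32 h23 (y := p.2) (y₁ := p.1) (y₂ := p'.2) huw huw' hκ hκ' hκ2
      a3 a4 (h ▸ b1) (h ▸ b2) a1 a2 b3 b4 a5.ne' (h ▸ b5.ne) a6.symm (h ▸ b6)
    have h1 := hc.1
    rw [h1, h] at a5
    exact absurd a5 (lt_asymm b5)
  · have hc := excl_core N κ φ h6 h32 h23 (y := p.2) (y₁ := p.1) (y₂ := p'.1) huw huw' hκ hκ' hκ2
      a3 a4 (h ▸ b3) (h ▸ b4) a1 a2 b1 b2 a5.ne' (h ▸ b5.ne') a6.symm (h ▸ b6.symm)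
    exact ⟨Prod.ext hc.1 h, hc.2⟩

end Pool.Agent.Lib.BipAcyc
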