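import Pool.Agent.Lib.BipAcyc.Main

/-!
CHUNK CT = `card_supp_meet`, `card_QQ_le`. If `supp u` and `supp u'` meet in a coordinate of
`w : A`, then `u' ∈ ball (2 (r+2)) u`; if they meet in the coordinate of `y : B` there are
`w ∈ ball u`, `w' ∈ ball u'` adjacent to `y`: `(1+q)^(r+2) D D (1+q)^(r+2)` choices.
-/

set_option autoImplicit false
set_option linter.unusedSectionVars false

namespace Pool.Agent.Lib.BipAcyc

open Finset Pool.Agent.Lib.Prob48

variable {A B : Type*} [Fintype A] [Fintype B] [LinearOrder A] [LinearOrder B]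
variable {γ δ : Type*} [DecidableEq γ] [DecidableEq δ] {P : Par}

lemma locCount_Mset_comm (N : A → Finset B) (φ : B → δ) (u w : A) :
    Mset N φ u w = Mset N φ w u := by
  unfold Mset
  rw [com_comm]

lemma locCount_QQ_symm (N : A → Finset B) (κ : A → γ) (φ : B → δ) (s : ℕ) (u w : A)
    (h : QQ N κ φ s u w) : QQ N κ φ s w u := by
  obtain ⟨h1, h2, h3⟩ := h
  refine ⟨h1.symm, h2.symm, ?_⟩
  rw [com_comm, locCount_Mset_comm N φ w u]
  exact h3

open Classical in
theorem card_QQ_le (N : A → Finset B) (κ : A → γ) (φ : B → δ) (s b Z : ℕ)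
    (hG : Good N κ φ s b Z) (u : A) : (univ.filter (QQ N κ φ s u)).card ≤ b + Z := by
  set Sp : Finset A := univ.filter fun w => w ≠ u ∧ κ w = κ u ∧ s ≤ (com N u w).card with hSp
  set M : Finset A := univ.filter fun w => w ≠ u ∧ κ w = κ u ∧ (com N u w).card < s with hM
  have h1 : univ.filter (QQ N κ φ s u) ⊆ Sp ∪ (M.filter fun w => (Mset N φ u w).Nonempty) := by
    intro w hw
    rw [mem_filter] at hw
    obtain ⟨_, h2, h3, h4⟩ := hw
    rw [mem_union]
    by_cases h5 : s ≤ (com N u w).card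
    · left
      rw [hSp, mem_filter]
      exact ⟨mem_univ _, h2, h3, h5⟩
    · right
      rw [mem_filter, hM, mem_filter]
      exact ⟨⟨mem_univ _, h2, h3, not_le.1 h5⟩, h4.resolve_left h5⟩
  have h2 : Sp.card ≤ b := by
    have h3 : 4 * Sp.card ≤ b := by
      refine le_trans (le_of_eq ?_) (hG.special u)
      congr 2
    omega
  have h3 : (M.filter fun w => (Mset N φ u w).Nonempty).card ≤ Z := by
    refine le_trans ?_ (hG.load u)
    rw [card_filter]
    calc ∑ w ∈ M, (if (Mset N φ u w).Nonempty then 1 else 0)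
        ≤ ∑ w ∈ M, (Mset N φ u w).card := by
          refine sum_le_sum fun w _ => ?_
          split_ifs with h
          · exact card_pos.2 h
          · exact Nat.zero_le _
      _ = Zsum N κ φ s u := by
          unfold Zsum
          refine sum_congr ?_ fun _ _ => rfl
          ext w
          simp [hM]
  have h4 := (card_le_card h1).trans (card_union_le _ _)
  omega

theorem card_supp_meet (N : A → Finset B) (κ : A → γ) (φ : B → δ) (s D q : ℕ)
    (hD : DegLe N D) (hq : ∀ u, {w : A | QQ N κ φ s u w}.ncard ≤ q) (u : A) :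
    {u' : A | u' ≠ u ∧ ¬ Disjoint (supp P N κ φ s u) (supp P N κ φ s u')}.ncard
      ≤ 2 * (D + 1) ^ 2 * (1 + q) ^ (2 * (P.r + 2)) := by
  classical
  set R := P.r + 2 with hR
  set Q := QQ N κ φ s with hQ
  have hq' : ∀ u, (univ.filter (Q u)).card ≤ q := by
    intro u
    have e : {w : A | QQ N κ φ s u w} = ((univ.filter (Q u) : Finset A) : Set A) := by
      ext w
      simp [hQ]
    have h := hq u
    rw [e, Set.ncard_coe_finset] at h
    exact h
  have hsymm : ∀ u v, Q u v → Q v u := fun u v h => locCount_QQ_symm N κ φ s u v h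
  have hsub : {u' : A | u' ≠ u ∧ ¬ Disjoint (supp P N κ φ s u) (supp P N κ φ s u')}
      ⊆ ((ball Q (R + R) u ∪ (ball Q R u).biUnion fun w => (N w).biUnion fun y =>
        (nb N y).biUnion fun w' => ball Q R w' : Finset A) : Set A) := by
    rintro u' ⟨_, h2⟩
    rw [not_disjoint_iff] at h2
    obtain ⟨c, h3, h4⟩ := h2
    rw [mem_coe, mem_union]
    unfold supp at h3 h4
    rw [mem_filter] at h3 h4
    obtain ⟨_, h3⟩ := h3
    obtain ⟨_, h4⟩ := h4
    rcases c with w | w | y
    · left
      exact ball_trans Q R R u w u' h3 (ball_symm Q hsymm R u' w h4)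
    · left
      exact ball_trans Q R R u w u' h3 (ball_symm Q hsymm R u' w h4)
    · right
      obtain ⟨w, hw1, hw2⟩ := h3
      obtain ⟨w', hw1', hw2'⟩ := h4
      rw [mem_biUnion]
      refine ⟨w, hw1, ?_⟩
      rw [mem_biUnion]
      refine ⟨y, hw2, ?_⟩
      rw [mem_biUnion]
      exact ⟨w', mem_nb.2 hw2', ball_symm Q hsymm R u' w' hw1'⟩
  refine (Set.ncard_le_ncard hsub (Finset.finite_toSet _)).trans ?_
  rw [Set.ncard_coe_finset]
  have h1 : (ball Q (R + R) u).card ≤ (1 + q) ^ (R + R) := card_ball_le Q q hq' _ _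
  have h2 : ((ball Q R u).biUnion fun w => (N w).biUnion fun y =>
      (nb N y).biUnion fun w' => ball Q R w').card
      ≤ (1 + q) ^ R * (D * (D * (1 + q) ^ R)) := by
    refine (card_biUnion_le_card_mul _ _ (D * (D * (1 + q) ^ R)) fun w _ => ?_).trans
      (Nat.mul_le_mul (card_ball_le Q q hq' _ _) le_rfl)
    refine (card_biUnion_le_card_mul _ _ (D * (1 + q) ^ R) fun y _ => ?_).trans
      (Nat.mul_le_mul (hD.left w) le_rfl)
    refine (card_biUnion_le_card_mul _ _ ((1 + q) ^ R) fun w' _ => ?_).trans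
      (Nat.mul_le_mul (hD.right y) le_rfl)
    exact card_ball_le Q q hq' _ _
  refine (card_union_le _ _).trans ((Nat.add_le_add h1 h2).trans ?_)
  have h3 : (1 + q) ^ (R + R) = (1 + q) ^ (2 * R) := by
    congr 1
    omega
  have h4 : (1 + q) ^ R * (D * (D * (1 + q) ^ R)) = D ^ 2 * (1 + q) ^ (2 * R) := by
    rw [← h3, pow_add]
    ring
  rw [h3, h4]
  have h5 : (1 + q) ^ (2 * R) + D ^ 2 * (1 + q) ^ (2 * R) = (1 + D ^ 2) * (1 + q) ^ (2 * R) := by
    ring
  rw [h5]
  refine Nat.mul_le_mul ?_ le_rfl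
  nlinarith

end Pool.Agent.Lib.BipAcyc
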