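import Pool.Agent.Lib.BipAcyc.Main

/-!
CHUNK LC = `dependsOn_bad`. `JJ` at `w` depends only on the labels of the neighbours of `w`;
`pk w` depends on the ball of radius `ρ w + 1 ≤ r` around `w` (`pick_congr_ball`); in `BadG u` one
looks at `pk v`, `v ∈ sameR w`, `w ∈ nbJ u`: radius `r + 2`.
-/

set_option autoImplicit false
set_option linter.unusedSectionVars false

namespace Pool.Agent.Lib.BipAcyc

open Finset Pool.Agent.Lib.Prob48

variable {A B : Type*} [Fintype A] [Fintype B] [LinearOrder A] [LinearOrder B]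
variable {γ δ : Type*} [DecidableEq γ] [DecidableEq δ] {P : Par}

lemma locDep_mono (Q : A → A → Prop) {t t' : ℕ} (h : t ≤ t') (u : A) :
    ball Q t u ⊆ ball Q t' u := by
  induction t', h using Nat.le_induction with
  | base => exact fun _ h => h
  | succ n _ ih => exact ih.trans (ball_mono Q n u)

lemma locDep_one {A' : Type*} [Fintype A'] (Q : A' → A' → Prop) {u w : A'} (h : Q u w) :
    w ∈ ball Q 1 u := by
  classical
  rw [ball, mem_insert, mem_biUnion]
  right
  exact ⟨w, mem_filter.2 ⟨mem_univ _, h⟩, mem_ball_self Q 0 w⟩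

lemma locDep_JJ_QQ (N : A → Finset B) (κ : A → γ) (φ : B → δ) (s : ℕ) (ω : Outc P A B)
    (w w' : A) (h : JJ N κ φ s ω w w') : QQ N κ φ s w w' := by
  obtain ⟨h1, h2, h3⟩ := h
  refine ⟨h1, h2, h3.imp id ?_⟩
  rintro ⟨p, hp, _⟩
  exact ⟨p, hp⟩

/-- the outcomes agree near `u` -/
structure LocAgree (N : A → Finset B) (κ : A → γ) (φ : B → δ) (s : ℕ) (u : A)
    (ω ω' : Outc P A B) : Prop where
  rho : ∀ w ∈ ball (QQ N κ φ s) (P.r + 2) u, rho ω w = rho ω' w
  xi : ∀ w ∈ ball (QQ N κ φ s) (P.r + 2) u, xi ω w = xi ω' w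
  jj : ∀ w ∈ ball (QQ N κ φ s) (P.r + 2) u, ∀ w', JJ N κ φ s ω w w' ↔ JJ N κ φ s ω' w w'

variable {N : A → Finset B} {κ : A → γ} {φ : B → δ} {s : ℕ} {u : A} {ω ω' : Outc P A B}

lemma LocAgree.symm (h : LocAgree N κ φ s u ω ω') : LocAgree N κ φ s u ω' ω :=
  ⟨fun w hw => (h.rho w hw).symm, fun w hw => (h.xi w hw).symm,
    fun w hw w' => (h.jj w hw w').symm⟩

lemma LocAgree.of_supp
    (h : ∀ c ∈ supp P N κ φ s u, ω c = ω' c) : LocAgree N κ φ s u ω ω' := by
  classical
  have h1 : ∀ w ∈ ball (QQ N κ φ s) (P.r + 2) u, ω (Sum.inl w) = ω' (Sum.inl w) := by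
    intro w hw
    apply h
    unfold supp
    rw [mem_filter]
    exact ⟨mem_univ _, hw⟩
  have h2 : ∀ w ∈ ball (QQ N κ φ s) (P.r + 2) u,
      ω (Sum.inr (Sum.inl w)) = ω' (Sum.inr (Sum.inl w)) := by
    intro w hw
    apply h
    unfold supp
    rw [mem_filter]
    exact ⟨mem_univ _, hw⟩
  have h3 : ∀ w ∈ ball (QQ N κ φ s) (P.r + 2) u, ∀ y ∈ N w, beta ω y = beta ω' y := by
    intro w hw y hy
    unfold beta
    rw [h]
    unfold supp
    rw [mem_filter]
    exact ⟨mem_univ _, w, hw, hy⟩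
  refine ⟨?_, ?_, ?_⟩
  · intro w hw
    unfold Pool.Agent.Lib.BipAcyc.rho
    rw [h1 w hw]
  · intro w hw
    unfold Pool.Agent.Lib.BipAcyc.xi
    rw [h2 w hw]
  · intro w hw w'
    unfold JJ Conf
    have : (∃ p ∈ Mset N φ w w', beta ω p.1 = beta ω p.2) ↔
        ∃ p ∈ Mset N φ w w', beta ω' p.1 = beta ω' p.2 := by
      refine exists_congr fun p => and_congr_right fun hp => ?_
      unfold Mset at hp
      simp only [mem_filter, mem_product, mem_com] at hp
      rw [h3 w hw p.1 hp.1.1.1, h3 w hw p.2 hp.1.2.1]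
    rw [this]

lemma LocAgree.pk (h : LocAgree N κ φ s u ω ω') (w : A) (hw : w ∈ ball (QQ N κ φ s) 2 u) :
    pk N κ φ s ω w = pk N κ φ s ω' w := by
  unfold Pool.Agent.Lib.BipAcyc.pk
  refine pick_congr_ball (QQ N κ φ s) (locDep_JJ_QQ N κ φ s ω) P.r w ?_ ?_
  · intro x hx
    have hx' : x ∈ ball (QQ N κ φ s) (P.r + 2) u := by
      rw [add_comm]
      exact ball_trans _ _ _ u w x hw hx
    exact ⟨h.rho x hx', h.xi x hx', h.jj x hx'⟩
  · exact (ω (Sum.inl w)).1.isLt

lemma LocAgree.two {w v : A} (h : w ∈ ball (QQ N κ φ s) 1 u) (hJ : JJ N κ φ s ω w v) :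
    v ∈ ball (QQ N κ φ s) 2 u :=
  ball_trans _ 1 1 u w v h (locDep_one _ (locDep_JJ_QQ N κ φ s ω w v hJ))

theorem dependsOn_bad (N : A → Finset B) (κ : A → γ) (φ : B → δ) (s : ℕ) (u : A) :
    DependsOn (fun ω : Outc P A B => Bad N κ φ s ω u) (supp P N κ φ s u : Set _) := by
  classical
  intro ω ω' hω
  have h : LocAgree N κ φ s u ω ω' := LocAgree.of_supp fun c hc => hω c hc
  have hsub : ∀ t ≤ 2, ball (QQ N κ φ s) t u ⊆ ball (QQ N κ φ s) (P.r + 2) u :=
    fun t ht => locDep_mono _ (by omega) u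
  have hu : u ∈ ball (QQ N κ φ s) 1 u := mem_ball_self _ _ _
  have hnb : ∀ w ∈ ball (QQ N κ φ s) 1 u, nbJ N κ φ s ω w = nbJ N κ φ s ω' w := by
    intro w hw
    unfold nbJ
    ext v
    simp only [mem_filter, mem_univ, true_and]
    exact h.jj w (hsub 1 (by omega) hw) v
  have hsame : ∀ w ∈ ball (QQ N κ φ s) 1 u, sameR N κ φ s ω w = sameR N κ φ s ω' w := by
    intro w hw
    unfold sameR
    rw [← hnb w hw]
    refine filter_congr fun v hv => ?_
    unfold nbJ at hv
    rw [mem_filter] at hv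
    rw [h.rho v (hsub 2 le_rfl (LocAgree.two hw hv.2)), h.rho w (hsub 1 (by omega) hw)]
  have hav : ∀ w ∈ ball (QQ N κ φ s) 1 u, av N κ φ s ω w = av N κ φ s ω' w := by
    intro w hw
    unfold av avail
    refine filter_congr fun a _ => forall_congr' fun v => ?_
    have hrw := h.rho w (hsub 1 (by omega) hw)
    constructor
    · intro hh h1 h2
      have h3 := (h.jj w (hsub 1 (by omega) hw) v).2 h2
      have hv := LocAgree.two hw h3
      have h4 := h.pk v hv
      unfold pk at h4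
      rw [← h4]
      refine hh ?_ h3
      rw [h.rho v (hsub 2 le_rfl hv), hrw]
      exact h1
    · intro hh h1 h2
      have h3 := (h.jj w (hsub 1 (by omega) hw) v).1 h2
      have hv := LocAgree.two hw h2
      have h4 := h.pk v hv
      unfold pk at h4
      rw [h4]
      refine hh ?_ h3
      rw [← h.rho v (hsub 2 le_rfl hv), ← hrw]
      exact h1
  have hlft : ∀ w ∈ ball (QQ N κ φ s) 1 u, Lft N κ φ s ω w ↔ Lft N κ φ s ω' w := by
    intro w hw
    unfold Lft
    rw [← hsame w hw]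
    refine exists_congr fun v => and_congr_right fun hv => and_congr_right fun _ => ?_
    unfold sameR nbJ at hv
    simp only [mem_filter, mem_univ, true_and] at hv
    rw [h.pk v (LocAgree.two hw hv.1), h.pk w (ball_mono _ 1 u hw)]
  have hF : BadF N κ φ s ω u ↔ BadF N κ φ s ω' u := by
    unfold BadF
    rw [hav u hu]
  have hH : BadH N κ φ s ω u ↔ BadH N κ φ s ω' u := by
    unfold BadH
    rw [hnb u hu]
  have hD : BadD N κ φ s ω u ↔ BadD N κ φ s ω' u := by
    unfold BadD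
    rw [hnb u hu, hsame u hu]
  have hG : BadG N κ φ s ω u ↔ BadG N κ φ s ω' u := by
    unfold BadG
    rw [← hnb u hu]
    have : (nbJ N κ φ s ω u).filter (fun w => Lft N κ φ s ω w ∧ P.ℓ ≤ (av N κ φ s ω w).card ∧
          (sameR N κ φ s ω w).card ≤ P.d₀)
        = (nbJ N κ φ s ω u).filter (fun w => Lft N κ φ s ω' w ∧ P.ℓ ≤ (av N κ φ s ω' w).card ∧
          (sameR N κ φ s ω' w).card ≤ P.d₀) := by
      refine filter_congr fun w hw => ?_
      unfold nbJ at hw
      rw [mem_filter] at hw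
      have hw1 : w ∈ ball (QQ N κ φ s) 1 u := locDep_one _ (locDep_JJ_QQ N κ φ s ω u w hw.2)
      rw [hlft w hw1, hav w hw1, hsame w hw1]
    rw [this]
  show Bad N κ φ s ω u = Bad N κ φ s ω' u
  unfold Bad
  rw [hF, hH, hD, hG]

end Pool.Agent.Lib.BipAcyc
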