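import Pool.Agent.Lib.BipAcyc.ParamDefs
import Pool.Agent.Lib.BipAcyc.BoundF
import Pool.Agent.Lib.BipAcyc.BoundH
import Pool.Agent.Lib.BipAcyc.BoundD
import Pool.Agent.Lib.BipAcyc.BoundG
import Pool.Agent.Lib.BipAcyc.LocDep
import Pool.Agent.Lib.BipAcyc.LocCount

/-!
CHUNK MS. The second local lemma (`Weights.lll_symm`) and the final colouring of one side.
-/

set_option autoImplicit false
set_option linter.unusedSectionVars false

namespace Pool.Agent.Lib.BipAcyc

open Finset Pool.Agent.Lib.Prob48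

variable {A B : Type*} [Fintype A] [Fintype B] [LinearOrder A] [LinearOrder B]
variable {γ δ : Type*} [DecidableEq γ] [DecidableEq δ]

lemma Mset_comm (N : A → Finset B) (φ : B → δ) (u w : A) : Mset N φ u w = Mset N φ w u := by
  unfold Mset
  rw [com_comm]

lemma JJ_symm {P : Par} (N : A → Finset B) (κ : A → γ) (φ : B → δ) (s : ℕ) (ω : Outc P A B)
    {u w : A} (h : JJ N κ φ s ω u w) : JJ N κ φ s ω w u := by
  obtain ⟨h1, h2, h3⟩ := h
  refine ⟨h1.symm, h2.symm, ?_⟩
  rw [com_comm]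
  unfold Conf at h3 ⊢
  rw [Mset_comm N φ w u]
  exact h3

lemma pk_mem {P : Par} (N : A → Finset B) (κ : A → γ) (φ : B → δ) (s : ℕ) (ω : Outc P A B)
    (u : A) (h : ¬ BadF N κ φ s ω u) : pk N κ φ s ω u ∈ av N κ φ s ω u := by
  unfold BadF at h
  unfold pk av
  rw [pick_eq]
  apply nth_mem
  unfold av at h
  have h1 : xi ω u < P.ℓ := (ω (Sum.inr (Sum.inl u))).2.1.isLt
  omega

/-- If no vertex is bad there is a colouring of `A` such that vertices with the same class and
colour are not in conflict. -/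
theorem colouring_of_no_bad {P : Par} (N : A → Finset B) (κ : A → γ) (φ : B → δ) (s : ℕ)
    (ω : Outc P A B) (hω : ∀ u, ¬ Bad N κ φ s ω u) :
    ∃ cA : A → Fin (2 * P.b), ∀ u w : A, u ≠ w → κ u = κ w → cA u = cA w →
      ¬ JJ N κ φ s ω u w := by
  classical
  have hF : ∀ u, ¬ BadF N κ φ s ω u := fun u h => hω u (Or.inl h)
  have hH : ∀ u, ¬ BadH N κ φ s ω u := fun u h => hω u (Or.inr (Or.inl h))
  have hDD : ∀ u, ¬ BadD N κ φ s ω u := fun u h => hω u (Or.inr (Or.inr (Or.inl h)))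
  have hGG : ∀ u, ¬ BadG N κ φ s ω u := fun u h => hω u (Or.inr (Or.inr (Or.inr h)))
  have hnb : ∀ u, (nbJ N κ φ s ω u).card ≤ P.h₀ := fun u => not_lt.1 (hH u)
  have hsame : ∀ u, (sameR N κ φ s ω u).card ≤ P.d₀ := by
    intro u
    by_contra hcon
    exact hDD u ⟨hnb u, not_le.1 hcon⟩
  have hav : ∀ u, P.ℓ ≤ (av N κ φ s ω u).card := fun u => not_lt.1 (hF u)
  obtain ⟨c, hc⟩ := greedy_colouring (b := P.b) (JJ N κ φ s ω)
    (fun u w h => JJ_symm N κ φ s ω h) (univ.filter (Lft N κ φ s ω)) (by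
      intro u _
      refine ⟨(nbJ N κ φ s ω u).filter (Lft N κ φ s ω), ?_, ?_⟩
      · by_contra hcon
        refine hGG u ⟨hnb u, (not_lt.1 hcon).trans (card_le_card ?_)⟩
        intro w hw
        rw [mem_filter] at hw ⊢
        exact ⟨hw.1, hw.2, hav w, hsame w⟩
      · intro w hw _ hJ
        rw [mem_filter] at hw ⊢
        refine ⟨?_, hw.2⟩
        unfold nbJ
        simpa using hJ)
  have hb : 0 < P.b := Nat.pos_of_ne_zero (NeZero.ne P.b)
  refine ⟨fun u => if Lft N κ φ s ω u then ⟨P.b + (c u).val, by have := (c u).isLt; omega⟩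
    else ⟨(pk N κ φ s ω u).val, by have := (pk N κ φ s ω u).isLt; omega⟩, ?_⟩
  intro u w huw _ hcol hJ
  by_cases h1 : Lft N κ φ s ω u <;> by_cases h2 : Lft N κ φ s ω w
  · simp only [h1, h2, if_true, Fin.mk.injEq] at hcol
    exact hc u (by simpa using h1) w (by simpa using h2) huw hJ (Fin.ext (by omega))
  · simp only [h1, h2, if_true, if_false, Fin.mk.injEq] at hcol
    have := (pk N κ φ s ω w).isLt
    omega
  · simp only [h1, h2, if_true, if_false, Fin.mk.injEq] at hcol
    have := (pk N κ φ s ω u).isLt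
    omega
  · simp only [h1, h2, if_false, Fin.mk.injEq] at hcol
    have hpk : pk N κ φ s ω u = pk N κ φ s ω w := Fin.ext hcol
    rcases lt_trichotomy (rho ω u) (rho ω w) with hlt | heq | hgt
    · have hm := pk_mem N κ φ s ω w (hF w)
      unfold av avail at hm
      rw [mem_filter] at hm
      exact hm.2 u hlt (JJ_symm N κ φ s ω hJ) hpk
    · rcases lt_or_gt_of_ne huw with hlt | hgt
      · refine h2 ⟨u, ?_, hlt, hpk⟩
        unfold sameR nbJ
        simp only [mem_filter, mem_univ, true_and]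
        exact ⟨JJ_symm N κ φ s ω hJ, heq⟩
      · refine h1 ⟨w, ?_, hgt, hpk.symm⟩
        unfold sameR nbJ
        simp only [mem_filter, mem_univ, true_and]
        exact ⟨hJ, heq.symm⟩
    · have hm := pk_mem N κ φ s ω u (hF u)
      unfold av avail at hm
      rw [mem_filter] at hm
      exact hm.2 w hgt hJ hpk.symm

/-- Take `ω` avoiding `Bad u` for all `u` (`Weights.lll_symm`, union of `P_badF`, `P_badH`,
`P_badD`, `P_badG`, supports `supp u`). Labels of `B`: `beta ω`. A vertex `u` which is not left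
over gets the colour `pk u < b`; two such vertices in conflict have different colours (different
rounds: `pick_eq`, `nth_mem`, `|av u| ≥ ℓ > ξ u`; same round: the one of larger index would be left
over). The left over vertices get the colours `b, ..., 2b-1` by `greedy_colouring`, since by the
negation of `BadG` (and of `BadF`, `BadH`, `BadD`) every vertex is in conflict with less than `b`
left over vertices. Two vertices of the same class and colour are not in conflict. -/
theorem main_stage (N : A → Finset B) (κ : A → γ) (φ : B → δ) (D s b Z : ℕ) (hD : DegLe N D)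
    (hG : Good N κ φ s b Z) (hp : MainParams D b Z) :
    ∃ (cA : A → Fin (2 * b)) (cB : B → Fin b),
      ∀ u w : A, u ≠ w → κ u = κ w → cA u = cA w →
        ∀ y z : B, y ≠ z → y ∈ N u → y ∈ N w → z ∈ N u → z ∈ N w → φ y = φ z → cB y ≠ cB z := by
  classical
  obtain ⟨r, ℓ, d₀, h₀, h₁, μ₀, p, hr, hℓ, hd, hh1, hh, hb, hμ, hsum, hp4, hlll⟩ := hp
  haveI : NeZero r := ⟨hr.ne'⟩
  haveI : NeZero ℓ := ⟨hℓ.ne'⟩
  haveI : NeZero b := ⟨by omega⟩
  let P : Par := { r := r, ℓ := ℓ, b := b, h₀ := h₀, d₀ := d₀ }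
  have hbad : ∀ u, (msr P A B).P (fun ω => Bad N κ φ s ω u) ≤ p := by
    intro u
    refine le_trans ?_ hsum
    have e1 := (msr P A B).P_or_le (fun ω => BadF N κ φ s ω u)
      (fun ω => BadH N κ φ s ω u ∨ BadD N κ φ s ω u ∨ BadG N κ φ s ω u)
    have e2 := (msr P A B).P_or_le (fun ω => BadH N κ φ s ω u)
      (fun ω => BadD N κ φ s ω u ∨ BadG N κ φ s ω u)
    have e3 := (msr P A B).P_or_le (fun ω => BadD N κ φ s ω u) (fun ω => BadG N κ φ s ω u)
    have f1 := P_badF (P := P) N κ φ s Z hG hb u μ₀ hμ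
    have f2 := P_badH (P := P) N κ φ s Z h₁ hG hh1 hh u
    have f3 := P_badD (P := P) N κ φ s hd u
    have f4 := P_badG (P := P) N κ φ s u
    have e0 : (msr P A B).P (fun ω => Bad N κ φ s ω u)
        = (msr P A B).P (fun ω => BadF N κ φ s ω u ∨
          BadH N κ φ s ω u ∨ BadD N κ φ s ω u ∨ BadG N κ φ s ω u) := rfl
    rw [e0]
    have f1' : (msr P A B).P (fun ω => BadF N κ φ s ω u) ≤ Real.exp (ℓ - μ₀ / 2) := f1
    have f2' : (msr P A B).P (fun ω => BadH N κ φ s ω u)
        ≤ (Real.exp 1 * Z / (b * h₁)) ^ h₁ := f2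
    have f3' : (msr P A B).P (fun ω => BadD N κ φ s ω u)
        ≤ (Real.exp 1 * h₀ / (d₀ * r)) ^ d₀ := f3
    have f4' : (msr P A B).P (fun ω => BadG N κ φ s ω u)
        ≤ (Real.exp 1 * h₀ * d₀ / (b * ℓ)) ^ b := f4
    linarith
  have hq : ∀ u, {w : A | QQ N κ φ s u w}.ncard ≤ b + Z := by
    intro u
    have h := card_QQ_le N κ φ s b Z hG u
    have e : {w : A | QQ N κ φ s u w} = ((univ.filter (QQ N κ φ s u) : Finset A) : Set A) := by
      ext w
      simp
    rw [e, Set.ncard_coe_finset]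
    exact h
  obtain ⟨ω, hω⟩ := (msr P A B).lll_symm (fun u ω => Bad N κ φ s ω u) (supp P N κ φ s)
    (fun u => dependsOn_bad (P := P) N κ φ s u) p
    (2 * (D + 1) ^ 2 * (1 + (b + Z)) ^ (2 * (r + 2))) hbad hp4 (by
      push_cast
      linarith) (fun u => card_supp_meet (P := P) N κ φ s D (b + Z) hD hq u)
  obtain ⟨cA, hcA⟩ := colouring_of_no_bad N κ φ s ω hω
  refine ⟨cA, beta ω, ?_⟩
  intro u w huw hκ hc y z hyz h1 h2 h3 h4 hφ hβ
  apply hcA u w huw hκ hc
  refine ⟨huw.symm, hκ.symm, Or.inr ?_⟩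
  rcases lt_or_gt_of_ne hyz with hlt | hgt
  · refine ⟨(y, z), ?_, hβ⟩
    unfold Mset
    simp only [mem_filter, mem_product, mem_com]
    exact ⟨⟨⟨h1, h2⟩, h3, h4⟩, hlt, hφ⟩
  · refine ⟨(z, y), ?_, hβ.symm⟩
    unfold Mset
    simp only [mem_filter, mem_product, mem_com]
    exact ⟨⟨⟨h3, h4⟩, h1, h2⟩, hgt, hφ.symm⟩

end Pool.Agent.Lib.BipAcyc
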