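import Pool.Agent.Lib.BipAcyc.Static
import Pool.Agent.Lib.BipAcyc.MainStage
import Pool.Agent.Lib.Acyc.Defs

/-!
CHUNK GR. From incidence structures to bipartite graphs.
-/

set_option autoImplicit false
set_option linter.unusedSectionVars false

namespace Pool.Agent.Lib.BipAcyc

open Finset Pool.Agent.Lib.Acyc

/-- Both stages together: class and sub-colour. `A` uses `X * (2 b)` colours, `B` uses `X * b`. -/
theorem incidence_colouring {A B : Type*} [Fintype A] [Fintype B] [LinearOrder A] [LinearOrder B]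
    (N : A → Finset B) (D X b s Z : ℕ) (hD : DegLe N D) (hs : StaticParams D X b s Z)
    (hm : MainParams D b Z) :
    ∃ (cA : A → Fin X × Fin (2 * b)) (cB : B → Fin X × Fin b),
      (∀ u w : A, u ≠ w → cA u = cA w → ∀ y z : B, y ≠ z → y ∈ N u → y ∈ N w → z ∈ N u →
        z ∈ N w → cB y ≠ cB z) ∧ NoP6 N cA cB := by
  obtain ⟨κ, φ, hG⟩ := static_exists N D X b s Z hD hs
  obtain ⟨cA, cB, h⟩ := main_stage N κ φ D s b Z hD hG hm
  refine ⟨fun u => (κ u, cA u), fun y => (φ y, cB y), ?_, ?_⟩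
  · intro u w huw huw' y z hyz h1 h2 h3 h4 h5
    rw [Prod.mk.injEq] at huw' h5
    exact h u w huw huw'.1 huw'.2 y z hyz h1 h2 h3 h4 h5.1 h5.2
  · intro y₁ u₁ y₂ u₂ y₃ u₃ h1 h2 h3 h4 h5 h6 h7 h8 h9 h10 h11 h12 h13 h14 h15
    rw [Prod.mk.injEq] at h12 h13 h14 h15
    exact hG.p6 y₁ u₁ y₂ u₂ y₃ u₃ h1 h2 h3 h4 h5 h6 h7 h8 h9 h10 h11 h12.1 h13.1 h14.1 h15.1

/-- Take a proper colouring with two colours, `A` and `B` the two sides (transfer `V` to `Fin n`
or give `A`, `B` linear orders), `N u` the neighbours of `u`; colour with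
`(Fin X × Fin (2 b)) ⊕ (Fin X × Fin b)` and apply `isAcyclicColouring_of_forall`. A path with six
vertices starts in `B` when read in one of the two directions. -/
theorem graph_bound {V : Type*} [Finite V] (G : SimpleGraph V) (hG : G.IsBipartite)
    (D X b s Z : ℕ) (hdeg : ∀ v, (G.neighborSet v).ncard ≤ D) (hs : StaticParams D X b s Z)
    (hm : MainParams D b Z) : acyclicChromatic G ≤ 3 * (X * b) := by
  classical
  obtain ⟨C₀⟩ := hG
  letI : Fintype V := Fintype.ofFinite V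
  letI : LinearOrder V := LinearOrder.lift' (Fintype.equivFin V) (Equiv.injective _)
  have h01 : ∀ u v : V, G.Adj u v → C₀ u = 0 → C₀ v = 1 := by
    intro u v huv hu
    have h1 : C₀ u ≠ C₀ v := C₀.valid huv
    have h2 : ∀ a c : Fin 2, a ≠ c → a = 0 → c = 1 := by decide
    exact h2 _ _ h1 hu
  have h10 : ∀ u v : V, G.Adj u v → C₀ u = 1 → C₀ v = 0 := by
    intro u v huv hu
    have h1 : C₀ u ≠ C₀ v := C₀.valid huv
    have h2 : ∀ a c : Fin 2, a ≠ c → a = 1 → c = 0 := by decide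
    exact h2 _ _ h1 hu
  have hcase : ∀ u : V, C₀ u = 0 ∨ C₀ u = 1 := by
    intro u
    have h2 : ∀ a : Fin 2, a = 0 ∨ a = 1 := by decide
    exact h2 _
  let A : Type _ := {v : V // C₀ v = 0}
  let B : Type _ := {v : V // C₀ v = 1}
  let N : A → Finset B := fun u => univ.filter (fun y => G.Adj u.1 y.1)
  have hN : ∀ (u : A) (y : B), y ∈ N u ↔ G.Adj u.1 y.1 := by
    intro u y
    simp [N]
  have hD : DegLe N D := by
    refine ⟨?_, ?_⟩
    · intro u
      refine le_trans ?_ (hdeg u.1)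
      rw [← card_map (Function.Embedding.subtype (fun v : V => C₀ v = 1)),
        ← Set.ncard_coe_finset]
      apply Set.ncard_le_ncard _ (Set.toFinite _)
      intro v hv
      simp only [coe_map, Set.mem_image, mem_coe, Function.Embedding.subtype_apply] at hv
      obtain ⟨y, hy, rfl⟩ := hv
      exact (hN u y).1 hy
    · intro y
      refine le_trans ?_ (hdeg y.1)
      rw [← card_map (Function.Embedding.subtype (fun v : V => C₀ v = 0)),
        ← Set.ncard_coe_finset]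
      apply Set.ncard_le_ncard _ (Set.toFinite _)
      intro v hv
      simp only [coe_map, Set.mem_image, mem_coe, Function.Embedding.subtype_apply] at hv
      obtain ⟨u, hu, rfl⟩ := hv
      rw [mem_nb] at hu
      exact ((hN u y).1 hu).symm
  obtain ⟨cA, cB, hc4, hp6⟩ := incidence_colouring N D X b s Z hD hs hm
  let col : V → (Fin X × Fin (2 * b)) ⊕ (Fin X × Fin b) := fun v =>
    if h : C₀ v = 0 then Sum.inl (cA ⟨v, h⟩) else Sum.inr (cB ⟨v, (hcase v).resolve_left h⟩)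
  have hcolA : ∀ (v : V) (h : C₀ v = 0), col v = Sum.inl (cA ⟨v, h⟩) := by
    intro v h
    simp only [col]
    rw [dif_pos h]
  have hcolB : ∀ (v : V) (h : C₀ v = 1), col v = Sum.inr (cB ⟨v, h⟩) := by
    intro v h
    simp only [col]
    rw [dif_neg (by rw [h]; decide)]
  have hcard : Fintype.card ((Fin X × Fin (2 * b)) ⊕ (Fin X × Fin b)) = 3 * (X * b) := by
    rw [Fintype.card_sum, Fintype.card_prod, Fintype.card_prod]
    simp only [Fintype.card_fin]
    ring
  let e := Fintype.equivFinOfCardEq hcard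
  have hA : ∀ (u w : V) (hu : C₀ u = 0) (hw : C₀ w = 0), e (col u) = e (col w) →
      cA ⟨u, hu⟩ = cA ⟨w, hw⟩ := by
    intro u w hu hw h
    have h1 := e.injective h
    rw [hcolA u hu, hcolA w hw] at h1
    exact Sum.inl_injective h1
  have hB : ∀ (u w : V) (hu : C₀ u = 1) (hw : C₀ w = 1), e (col u) = e (col w) →
      cB ⟨u, hu⟩ = cB ⟨w, hw⟩ := by
    intro u w hu hw h
    have h1 := e.injective h
    rw [hcolB u hu, hcolB w hw] at h1
    exact Sum.inr_injective h1
  refine acyclicChromatic_le G (fun v => e (col v)) ?_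
  refine isAcyclicColouring_of_forall ?_ ?_ ?_
  · intro u v huv h
    have h1 := e.injective h
    rcases hcase u with hu | hu
    · rw [hcolA u hu, hcolB v (h01 u v huv hu)] at h1
      exact absurd h1 (by simp)
    · rw [hcolB u hu, hcolA v (h10 u v huv hu)] at h1
      exact absurd h1 (by simp)
  · intro u v w z huv hvw hwz hzu huw hvz hC1 hC2
    rcases hcase u with hu | hu
    · have hv := h01 u v huv hu
      have hw := h10 v w hvw hv
      have hz := h01 w z hwz hw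
      exact hc4 ⟨u, hu⟩ ⟨w, hw⟩ (fun h => huw (congrArg Subtype.val h)) (hA u w hu hw hC1)
        ⟨v, hv⟩ ⟨z, hz⟩ (fun h => hvz (congrArg Subtype.val h))
        ((hN _ _).2 huv) ((hN _ _).2 hvw.symm) ((hN _ _).2 hzu.symm) ((hN _ _).2 hwz)
        (hB v z hv hz hC2)
    · have hv := h10 u v huv hu
      have hw := h01 v w hvw hv
      have hz := h10 w z hwz hw
      exact hc4 ⟨v, hv⟩ ⟨z, hz⟩ (fun h => hvz (congrArg Subtype.val h)) (hA v z hv hz hC2)
        ⟨u, hu⟩ ⟨w, hw⟩ (fun h => huw (congrArg Subtype.val h))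
        ((hN _ _).2 huv.symm) ((hN _ _).2 hzu) ((hN _ _).2 hvw) ((hN _ _).2 hwz.symm)
        (hB u w hu hw hC1)
  · intro p hp hadj h02 h24 h13 h35
    have a0 : G.Adj (p 0) (p 1) := hadj 0
    have a1 : G.Adj (p 1) (p 2) := hadj 1
    have a2 : G.Adj (p 2) (p 3) := hadj 2
    have a3 : G.Adj (p 3) (p 4) := hadj 3
    have a4 : G.Adj (p 4) (p 5) := hadj 4
    have hne : ∀ {P : V → Prop} (i j : Fin 6) (hi : P (p i)) (hj : P (p j)), i ≠ j →
        (⟨p i, hi⟩ : {v : V // P v}) ≠ ⟨p j, hj⟩ := by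
      intro P i j hi hj hij h
      exact hij (hp (congrArg Subtype.val h))
    rcases hcase (p 0) with c0 | c0
    · have c1 := h01 _ _ a0 c0
      have c2 := h10 _ _ a1 c1
      have c3 := h01 _ _ a2 c2
      have c4 := h10 _ _ a3 c3
      have c5 := h01 _ _ a4 c4
      exact hp6 ⟨p 5, c5⟩ ⟨p 4, c4⟩ ⟨p 3, c3⟩ ⟨p 2, c2⟩ ⟨p 1, c1⟩ ⟨p 0, c0⟩
        ((hN _ _).2 a4) ((hN _ _).2 a3.symm) ((hN _ _).2 a2) ((hN _ _).2 a1.symm)
        ((hN _ _).2 a0)
        (hne 5 3 _ _ (by decide)) (hne 5 1 _ _ (by decide)) (hne 3 1 _ _ (by decide))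
        (hne 4 2 _ _ (by decide)) (hne 4 0 _ _ (by decide)) (hne 2 0 _ _ (by decide))
        (hA _ _ _ _ h24.symm) (hA _ _ _ _ h02.symm) (hB _ _ _ _ h35.symm)
        (hB _ _ _ _ h13.symm)
    · have c1 := h10 _ _ a0 c0
      have c2 := h01 _ _ a1 c1
      have c3 := h10 _ _ a2 c2
      have c4 := h01 _ _ a3 c3
      have c5 := h10 _ _ a4 c4
      exact hp6 ⟨p 0, c0⟩ ⟨p 1, c1⟩ ⟨p 2, c2⟩ ⟨p 3, c3⟩ ⟨p 4, c4⟩ ⟨p 5, c5⟩
        ((hN _ _).2 a0.symm) ((hN _ _).2 a1) ((hN _ _).2 a2.symm) ((hN _ _).2 a3)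
        ((hN _ _).2 a4.symm)
        (hne 0 2 _ _ (by decide)) (hne 0 4 _ _ (by decide)) (hne 2 4 _ _ (by decide))
        (hne 1 3 _ _ (by decide)) (hne 1 5 _ _ (by decide)) (hne 3 5 _ _ (by decide))
        (hA _ _ _ _ h13) (hA _ _ _ _ h35) (hB _ _ _ _ h02) (hB _ _ _ _ h24)

end Pool.Agent.Lib.BipAcyc
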