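import Pool.Agent.Lib.Acyc.Lower

/-!
CHUNK LB. The lower bound with bipartite graphs (adaptation of `Pool.Agent.Lib.Acyc.Lower`).

Proof. Random graph on `n = 16 r` vertices, edge probability `1/q`, of which only the edges
between the first half and the second half of the vertices are kept. If a colouring has at most
`r` colours then on each side there are `r` disjoint pairs of
vertices with the same colour (`exists_pairs_aux`); each pair on the left with each pair on the
right gives a block of four edges, blocks are disjoint, so for a given choice of the pairs the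
probability that no block is complete is `(1 - q^{-4})^{r^2}` (`card_avoid`); there are at most
`n^{4r}` choices of the pairs.
-/

set_option autoImplicit false
set_option linter.unusedSectionVars false

namespace Pool.Agent.Lib.BipAcyc

open Finset Pool.Agent.Lib.Acyc

namespace LB

open Pool.Agent.Lib.Acyc.Lower

/-- the pairs joining the first half of the indices to the second half -/
def Tb (r : ℕ) : Finset (Fin (2 * r) × Fin (2 * r)) :=
  univ.filter (fun p => p.1.1 < r ∧ r ≤ p.2.1)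

lemma mem_Tb {r : ℕ} {p : Fin (2 * r) × Fin (2 * r)} :
    p ∈ Tb r ↔ p.1.1 < r ∧ r ≤ p.2.1 := by
  simp [Tb]

lemma Tb_subset (r : ℕ) : Tb r ⊆ T (2 * r) := by
  intro p hp
  rw [mem_Tb] at hp
  simp only [T, mem_filter, mem_univ, true_and]
  exact Fin.lt_def.2 (by omega)

lemma card_Tb (r : ℕ) : (Tb r).card = r ^ 2 := by
  have h1 : Tb r = (univ.filter (fun i : Fin (2 * r) => i.1 < r)) ×ˢ
      (univ.filter (fun i : Fin (2 * r) => r ≤ i.1)) := by
    ext p
    rw [mem_Tb, mem_product]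
    simp
  have h2 : (univ.filter (fun i : Fin (2 * r) => i.1 < r)).card = r := by
    rw [Fin.card_filter_val_lt]
    omega
  have h3 : (univ.filter (fun i : Fin (2 * r) => r ≤ i.1)).card = r := by
    have h4 := card_filter_add_card_filter_not (s := (univ : Finset (Fin (2 * r))))
      (fun i => i.1 < r)
    rw [card_univ, Fintype.card_fin, h2] at h4
    have h5 : (univ.filter (fun i : Fin (2 * r) => ¬ i.1 < r)) =
        (univ.filter (fun i : Fin (2 * r) => r ≤ i.1)) := by
      apply filter_congr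
      intro i _
      omega
    rw [h5] at h4
    omega
  rw [h1, card_product, h2, h3, sq]

section random_graph

variable {n q r : ℕ} [NeZero q]

/-- existence of a good sample -/
lemma exists_omega' (hn : 0 < n)
    (hcount : (n : ℝ) ^ (4 * r) * (1 - ((q : ℝ)⁻¹) ^ 4) ^ (r ^ 2) < 1 / 2) :
    ∃ ω : Sym2 (Fin n) → Fin q, Z ω ≤ 2 * (n : ℝ) ^ 2 / q ∧
      ∀ s : Fin (2 * r) × Bool → Fin n, Function.Injective s →
        ∃ i j : Fin (2 * r), i.1 < r ∧ r ≤ j.1 ∧ ∀ a b : Bool, ω s(s (i, a), s (j, b)) = 0 := by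
  classical
  by_contra hcon
  push Not at hcon
  have hq : (0 : ℝ) < q := by exact_mod_cast Nat.pos_of_ne_zero (NeZero.ne q)
  set Q : ℝ := (q : ℝ) ^ (Fintype.card (Sym2 (Fin n))) with hQ
  have hQpos : 0 < Q := by positivity
  set Bad2 : Finset (Sym2 (Fin n) → Fin q) :=
    univ.filter (fun ω => 2 * (n : ℝ) ^ 2 / q < Z ω) with hBad2
  set Bad1 : (Fin (2 * r) × Bool → Fin n) → Finset (Sym2 (Fin n) → Fin q) := fun s =>
    if Function.Injective s then
      univ.filter (fun ω => ∀ t ∈ Tb r, ∃ e ∈ block s t, ω e ≠ 0) else ∅ with hBad1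
  have hcover : (univ : Finset (Sym2 (Fin n) → Fin q)) ⊆
      Bad2 ∪ (univ : Finset (Fin (2 * r) × Bool → Fin n)).biUnion Bad1 := by
    intro ω _
    rw [mem_union]
    by_cases h : 2 * (n : ℝ) ^ 2 / q < Z ω
    · left
      rw [hBad2, mem_filter]
      exact ⟨mem_univ _, h⟩
    · right
      obtain ⟨s, hs, h2⟩ := hcon ω (not_lt.1 h)
      rw [mem_biUnion]
      refine ⟨s, mem_univ _, ?_⟩
      simp only [hBad1, if_pos hs, mem_filter, mem_univ, true_and]
      intro t ht
      rw [mem_Tb] at ht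
      obtain ⟨a, b, hab⟩ := h2 t.1 t.2 ht.1 ht.2
      exact ⟨_, (mem_block s t _).2 ⟨a, b, rfl⟩, hab⟩
  have hc := card_le_card hcover
  have h1 : ∀ s : Fin (2 * r) × Bool → Fin n, ((Bad1 s).card : ℝ)
      ≤ Q * (1 - ((q : ℝ)⁻¹) ^ 4) ^ (r ^ 2) := by
    intro s
    by_cases hs : Function.Injective s
    · simp only [hBad1, if_pos hs]
      have h3 := card_avoid (Tb r) (block s) 4 (fun t ht => card_block hs (Tb_subset r ht))
        ((disj_block hs).subset (by exact_mod_cast Tb_subset r))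
        (univ.filter (fun ω : Sym2 (Fin n) → Fin q => ∀ t ∈ Tb r, ∃ e ∈ block s t, ω e ≠ 0))
        (fun ω => by rw [mem_filter]; simp)
      rw [card_Tb] at h3
      exact le_of_eq h3
    · simp only [hBad1, if_neg hs, card_empty, Nat.cast_zero]
      have : (0 : ℝ) ≤ 1 - ((q : ℝ)⁻¹) ^ 4 := by
        have h5 : (q : ℝ)⁻¹ ≤ 1 := by
          apply inv_le_one_of_one_le₀
          exact_mod_cast Nat.pos_of_ne_zero (NeZero.ne q)
        have h6 : (0 : ℝ) ≤ (q : ℝ)⁻¹ := by positivity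
        have := pow_le_one₀ h6 h5 (n := 4)
        linarith
      positivity
  have h2 : (Bad2.card : ℝ) ≤ Q / 2 := by
    have h3 : (Bad2.card : ℝ) * (2 * (n : ℝ) ^ 2 / q) ≤ Q * ((n : ℝ) ^ 2 / q) := by
      calc (Bad2.card : ℝ) * (2 * (n : ℝ) ^ 2 / q) = ∑ ω ∈ Bad2, (2 * (n : ℝ) ^ 2 / q) := by
            rw [Finset.sum_const, nsmul_eq_mul]
        _ ≤ ∑ ω ∈ Bad2, Z ω := by
            apply Finset.sum_le_sum
            intro ω hω
            rw [hBad2, mem_filter] at hω
            exact hω.2.le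
        _ ≤ ∑ ω : Sym2 (Fin n) → Fin q, Z ω :=
            Finset.sum_le_sum_of_subset_of_nonneg (subset_univ _) (fun ω _ _ => Z_nonneg ω)
        _ ≤ _ := sum_Z_le
    have hpos : (0 : ℝ) < (n : ℝ) ^ 2 / q := by positivity
    have h4 : (Bad2.card : ℝ) * 2 * ((n : ℝ) ^ 2 / q) ≤ Q * ((n : ℝ) ^ 2 / q) := by
      calc (Bad2.card : ℝ) * 2 * ((n : ℝ) ^ 2 / q)
          = (Bad2.card : ℝ) * (2 * (n : ℝ) ^ 2 / q) := by ring
        _ ≤ _ := h3
    have := le_of_mul_le_mul_right h4 hpos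
    linarith
  have h3 : (((univ : Finset (Fin (2 * r) × Bool → Fin n)).biUnion Bad1).card : ℝ)
      ≤ (n : ℝ) ^ (4 * r) * (Q * (1 - ((q : ℝ)⁻¹) ^ 4) ^ (r ^ 2)) := by
    have h4 : (((univ : Finset (Fin (2 * r) × Bool → Fin n)).biUnion Bad1).card : ℝ)
        ≤ ∑ s : Fin (2 * r) × Bool → Fin n, ((Bad1 s).card : ℝ) := by
      exact_mod_cast card_biUnion_le
    refine h4.trans ((Finset.sum_le_sum (fun s _ => h1 s)).trans ?_)
    rw [Finset.sum_const, card_univ, nsmul_eq_mul, Fintype.card_fun, Fintype.card_prod,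
      Fintype.card_fin, Fintype.card_fin, Fintype.card_bool, show 2 * r * 2 = 4 * r by ring]
    push_cast
    exact le_refl _
  have h5 : Q ≤ (Bad2.card : ℝ) +
      (((univ : Finset (Fin (2 * r) × Bool → Fin n)).biUnion Bad1).card : ℝ) := by
    have h6 : (univ : Finset (Sym2 (Fin n) → Fin q)).card ≤ Bad2.card +
        ((univ : Finset (Fin (2 * r) × Bool → Fin n)).biUnion Bad1).card :=
      hc.trans (card_union_le _ _)
    rw [card_univ, Fintype.card_fun, Fintype.card_fin] at h6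
    rw [hQ]
    exact_mod_cast h6
  have h7 : (n : ℝ) ^ (4 * r) * (Q * (1 - ((q : ℝ)⁻¹) ^ 4) ^ (r ^ 2)) < Q / 2 := by
    calc (n : ℝ) ^ (4 * r) * (Q * (1 - ((q : ℝ)⁻¹) ^ 4) ^ (r ^ 2))
        = Q * ((n : ℝ) ^ (4 * r) * (1 - ((q : ℝ)⁻¹) ^ 4) ^ (r ^ 2)) := by ring
      _ < Q * (1 / 2) := by
          exact mul_lt_mul_of_pos_left hcount hQpos
      _ = Q / 2 := by ring
  linarith

end random_graph

section construction

theorem exists_bip_graph (n q r D : ℕ) [NeZero q] (hn : 0 < n)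
    (hcount : (n : ℝ) ^ (4 * r) * (1 - ((q : ℝ)⁻¹) ^ 4) ^ (r ^ 2) < 1 / 2)
    (hD : 8 * n ≤ D * q) (hr : n = 16 * r) :
    ∃ G : SimpleGraph (Fin n), G.IsBipartite ∧ (∀ v : Fin n, (G.neighborSet v).ncard ≤ D) ∧
      ∀ k : ℕ, k ≤ r → ∀ C : Fin n → Fin k, ¬ IsAcyclicColouring G C := by
  classical
  obtain ⟨ω, hZ, hω⟩ := exists_omega' (n := n) (q := q) (r := r) hn hcount
  have hq : (0 : ℝ) < q := by exact_mod_cast Nat.pos_of_ne_zero (NeZero.ne q)
  let dg : Fin n → ℕ := fun u => (univ.filter (fun v => (rg ω).Adj u v)).card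
  let W : Finset (Fin n) := univ.filter (fun u => dg u ≤ D)
  let S : Fin n → Bool := fun u => decide (u.1 < 8 * r)
  let G : SimpleGraph (Fin n) :=
    { Adj := fun u v => (rg ω).Adj u v ∧ (u ∈ W ∧ v ∈ W) ∧ S u ≠ S v
      symm := ⟨fun u v h => ⟨h.1.symm, ⟨h.2.1.2, h.2.1.1⟩, h.2.2.symm⟩⟩
      loopless := ⟨fun u h => (rg ω).loopless.irrefl u h.1⟩ }
  have hZ' : Z ω = ∑ u : Fin n, (dg u : ℝ) := by
    unfold Z
    apply Finset.sum_congr rfl
    intro u _
    simp only [dg]
    rw [Finset.card_filter]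
    push_cast
    rfl
  -- few vertices of large degree
  have hWc : 4 * (univ \ W).card ≤ n := by
    have h1 : ((univ \ W).card : ℝ) * D ≤ 2 * (n : ℝ) ^ 2 / q := by
      calc ((univ \ W).card : ℝ) * D = ∑ u ∈ univ \ W, (D : ℝ) := by
            rw [Finset.sum_const, nsmul_eq_mul]
        _ ≤ ∑ u ∈ univ \ W, (dg u : ℝ) := by
            apply Finset.sum_le_sum
            intro u hu
            simp only [W, mem_sdiff, mem_univ, true_and, mem_filter, not_le] at hu
            exact_mod_cast hu.le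
        _ ≤ ∑ u : Fin n, (dg u : ℝ) :=
            Finset.sum_le_sum_of_subset_of_nonneg (subset_univ _)
              (fun u _ _ => Nat.cast_nonneg _)
        _ = Z ω := hZ'.symm
        _ ≤ _ := hZ
    have h2 : ((univ \ W).card : ℝ) * (8 * n) ≤ 2 * (n : ℝ) ^ 2 := by
      have h3 : (8 * n : ℝ) ≤ D * q := by exact_mod_cast hD
      calc ((univ \ W).card : ℝ) * (8 * n) ≤ ((univ \ W).card : ℝ) * (D * q) := by
            exact mul_le_mul_of_nonneg_left h3 (Nat.cast_nonneg _)
        _ = (((univ \ W).card : ℝ) * D) * q := by ring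
        _ ≤ (2 * (n : ℝ) ^ 2 / q) * q := mul_le_mul_of_nonneg_right h1 hq.le
        _ = 2 * (n : ℝ) ^ 2 := by field_simp
    have hn' : (0 : ℝ) < n := by exact_mod_cast hn
    have h4 : (4 * (univ \ W).card : ℝ) * (2 * n) ≤ n * (2 * n) := by
      calc (4 * (univ \ W).card : ℝ) * (2 * n) = ((univ \ W).card : ℝ) * (8 * n) := by ring
        _ ≤ 2 * (n : ℝ) ^ 2 := h2
        _ = n * (2 * n) := by ring
    have h5 := le_of_mul_le_mul_right h4 (by positivity)
    exact_mod_cast h5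
  have hside : ∀ b : Bool, 4 * r ≤ (W.filter (fun u => S u = b)).card := by
    intro b
    have h1 : (univ.filter (fun u : Fin n => S u = b)).card = 8 * r := by
      have h2 : (univ.filter (fun u : Fin n => u.1 < 8 * r)).card = 8 * r := by
        rw [Fin.card_filter_val_lt]
        omega
      cases b with
      | true =>
        rw [← h2]
        congr 1
        apply filter_congr
        intro u _
        simp [S]
      | false =>
        have h4 := card_filter_add_card_filter_not (s := (univ : Finset (Fin n)))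
          (fun i => i.1 < 8 * r)
        rw [card_univ, Fintype.card_fin, h2] at h4
        have h5 : (univ.filter (fun u : Fin n => S u = false)) =
            (univ.filter (fun i : Fin n => ¬ i.1 < 8 * r)) := by
          apply filter_congr
          intro u _
          simp [S]
        rw [h5]
        omega
    have h2 : (univ.filter (fun u : Fin n => S u = b)) ⊆
        (W.filter (fun u => S u = b)) ∪ (univ \ W) := by
      intro u hu
      simp only [mem_filter, mem_univ, true_and] at hu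
      by_cases huW : u ∈ W
      · exact mem_union_left _ (mem_filter.2 ⟨huW, hu⟩)
      · exact mem_union_right _ (mem_sdiff.2 ⟨mem_univ _, huW⟩)
    have h3 := (card_le_card h2).trans (card_union_le _ _)
    omega
  refine ⟨G, ?_, ?_, ?_⟩
  · refine ⟨SimpleGraph.Coloring.mk (fun u => if S u then (0 : Fin 2) else 1) ?_⟩
    intro u v huv
    have h : S u ≠ S v := huv.2.2
    cases hu : S u <;> cases hv : S v <;> simp_all
  · intro v
    by_cases hv : v ∈ W
    · have h1 : G.neighborSet v ⊆ ((univ.filter (fun u => (rg ω).Adj v u) : Finset (Fin n)) :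
          Set (Fin n)) := by
        intro u hu
        have hu' : (rg ω).Adj v u ∧ (v ∈ W ∧ u ∈ W) ∧ S v ≠ S u := hu
        simpa using hu'.1
      refine (Set.ncard_le_ncard h1 (Finset.finite_toSet _)).trans ?_
      rw [Set.ncard_coe_finset]
      simp only [W, mem_filter, mem_univ, true_and] at hv
      exact hv
    · have h1 : G.neighborSet v = ∅ := by
        ext u
        simp only [Set.mem_empty_iff_false, iff_false]
        intro hu
        have hu' : (rg ω).Adj v u ∧ (v ∈ W ∧ u ∈ W) ∧ S v ≠ S u := hu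
        exact hv hu'.2.1.1
      rw [h1]
      simp
  · intro k hk C hC
    have : Nonempty (Fin n) := ⟨⟨0, hn⟩⟩
    obtain ⟨s, h1, h2, h3⟩ := exists_pairs_aux (W.filter (fun u => S u = true)) C r
      (by have := hside true; omega)
    obtain ⟨s', h1', h2', h3'⟩ := exists_pairs_aux (W.filter (fun u => S u = false)) C r
      (by have := hside false; omega)
    let σ : Fin (2 * r) × Bool → Fin n := fun p =>
      if p.1.1 < r then s p.1.1 p.2 else s' (p.1.1 - r) p.2
    have hσ : Function.Injective σ := by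
      rintro ⟨i, a⟩ ⟨j, b⟩ h
      simp only [σ] at h
      split_ifs at h with hi hj hj
      · obtain ⟨h4, h5⟩ := h3 i.1 hi j.1 hj a b h
        exact Prod.ext (Fin.ext h4) h5
      · exfalso
        have h4 := (mem_filter.1 (h1 i.1 hi a)).2
        have h5 := (mem_filter.1 (h1' (j.1 - r) (by have := j.2; omega) b)).2
        rw [h, h5] at h4
        exact absurd h4 (by decide)
      · exfalso
        have h4 := (mem_filter.1 (h1 j.1 hj b)).2
        have h5 := (mem_filter.1 (h1' (i.1 - r) (by have := i.2; omega) a)).2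
        rw [← h, h5] at h4
        exact absurd h4 (by decide)
      · obtain ⟨h4, h5⟩ := h3' (i.1 - r) (by have := i.2; omega) (j.1 - r)
          (by have := j.2; omega) a b h
        have hi' : ¬ i.1 < r := hi
        have hj' : ¬ j.1 < r := hj
        exact Prod.ext (Fin.ext (by show i.1 = j.1; omega)) h5
    obtain ⟨i, j, hi, hj, hadj⟩ := hω σ hσ
    have hjr : j.1 - r < r := by have := j.2; omega
    have hσi : ∀ a, σ (i, a) = s i.1 a := fun a => by simp only [σ]; rw [if_pos hi]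
    have hσj : ∀ b, σ (j, b) = s' (j.1 - r) b := fun b => by
      simp only [σ]; rw [if_neg (by omega)]
    have hne : ∀ a b : Bool, s i.1 a ≠ s' (j.1 - r) b := by
      intro a b h
      have h4 := (mem_filter.1 (h1 i.1 hi a)).2
      have h5 := (mem_filter.1 (h1' (j.1 - r) hjr b)).2
      rw [h, h5] at h4
      exact absurd h4 (by decide)
    have hG : ∀ a b : Bool, G.Adj (s i.1 a) (s' (j.1 - r) b) := fun a b => by
      have h6 := hadj a b
      rw [hσi, hσj] at h6
      have h4 := mem_filter.1 (h1 i.1 hi a)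
      have h5 := mem_filter.1 (h1' (j.1 - r) hjr b)
      exact ⟨⟨hne a b, h6⟩, ⟨h4.1, h5.1⟩, by rw [h4.2, h5.2]; decide⟩
    refine hC.not_C4 (hG false false) (hG true false).symm (hG true true) (hG false true).symm
      ?_ ?_ (h2 i.1 hi) (h2' (j.1 - r) hjr)
    · intro h
      exact absurd (h3' (j.1 - r) hjr (j.1 - r) hjr false true h).2 (by decide)
    · intro h
      exact absurd (h3 i.1 hi i.1 hi false true h).2 (by decide)

end construction

section asymptotics

/-- Parameters for the random graph. -/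
lemma hcount_of' {n q r : ℕ} [NeZero q] {D L : ℝ} (hL : 1 ≤ L) (hDpos : 0 < D)
    (hr0 : 0 < r) (hr : n = 16 * r) (hlogn : Real.log n ≤ 2 * L)
    (hn3 : (n : ℝ) ^ 3 * L * 2 ^ 24 ≤ D ^ 4) (hq : (q : ℝ) * D ≤ 9 * n) :
    (n : ℝ) ^ (4 * r) * (1 - ((q : ℝ)⁻¹) ^ 4) ^ (r ^ 2) < 1 / 2 := by
  have hqpos : (0 : ℝ) < q := by exact_mod_cast Nat.pos_of_ne_zero (NeZero.ne q)
  have hrR : (1 : ℝ) ≤ r := by exact_mod_cast hr0
  have hnr : (n : ℝ) = 16 * r := by rw [hr]; push_cast; ring
  have hnpos : (0 : ℝ) < n := by rw [hnr]; linarith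
  -- the base
  have hb0 : (0 : ℝ) ≤ 1 - ((q : ℝ)⁻¹) ^ 4 := by
    have h5 : (q : ℝ)⁻¹ ≤ 1 := by
      apply inv_le_one_of_one_le₀
      exact_mod_cast Nat.pos_of_ne_zero (NeZero.ne q)
    have h6 : (0 : ℝ) ≤ (q : ℝ)⁻¹ := by positivity
    have := pow_le_one₀ h6 h5 (n := 4)
    linarith
  have hb1 : 1 - ((q : ℝ)⁻¹) ^ 4 ≤ Real.exp (-((q : ℝ)⁻¹) ^ 4) := by
    have := Real.add_one_le_exp (-((q : ℝ)⁻¹) ^ 4)
    linarith
  have h1 : (1 - ((q : ℝ)⁻¹) ^ 4) ^ (r ^ 2) ≤
      Real.exp (-(((q : ℝ)⁻¹) ^ 4 * (r : ℝ) ^ 2)) := by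
    calc (1 - ((q : ℝ)⁻¹) ^ 4) ^ (r ^ 2) ≤ (Real.exp (-((q : ℝ)⁻¹) ^ 4)) ^ (r ^ 2) :=
          pow_le_pow_left₀ hb0 hb1 _
      _ = _ := by
          rw [← Real.exp_nat_mul]
          congr 1
          push_cast
          ring
  have h2 : (n : ℝ) ^ (4 * r) = Real.exp (4 * r * Real.log n) := by
    rw [← Real.exp_log (pow_pos hnpos (4 * r)), Real.log_pow]
    push_cast
    ring_nf
  -- the main inequality
  have hq4 : (q : ℝ) ^ 4 * D ^ 4 ≤ 6561 * (n : ℝ) ^ 4 := by
    have h3 : ((q : ℝ) * D) ^ 4 ≤ (9 * n) ^ 4 := pow_le_pow_left₀ (by positivity) hq 4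
    have h4 : (q : ℝ) ^ 4 * D ^ 4 = ((q : ℝ) * D) ^ 4 := by ring
    have h5 : (9 * (n : ℝ)) ^ 4 = 6561 * (n : ℝ) ^ 4 := by ring
    rw [h4, ← h5]
    exact h3
  have hkey : (q : ℝ) ^ 4 * (4 * Real.log n + 1) ≤ (r : ℝ) := by
    have h3 : 4 * Real.log n + 1 ≤ 9 * L := by linarith
    have h4 : (q : ℝ) ^ 4 * (4 * Real.log n + 1) ≤ (q : ℝ) ^ 4 * (9 * L) :=
      mul_le_mul_of_nonneg_left h3 (by positivity)
    refine h4.trans ?_
    have h5 : (q : ℝ) ^ 4 * (9 * L) ≤ n / 16 := by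
      have h6 : (q : ℝ) ^ 4 * (9 * L) * D ^ 4 ≤ n / 16 * D ^ 4 := by
        calc (q : ℝ) ^ 4 * (9 * L) * D ^ 4 = ((q : ℝ) ^ 4 * D ^ 4) * (9 * L) := by ring
          _ ≤ (6561 * (n : ℝ) ^ 4) * (9 * L) :=
              mul_le_mul_of_nonneg_right hq4 (by positivity)
          _ = 59049 * (n * ((n : ℝ) ^ 3 * L)) := by ring
          _ ≤ 2 ^ 20 * (n * ((n : ℝ) ^ 3 * L)) := by
              apply mul_le_mul_of_nonneg_right (by norm_num) (by positivity)
          _ = n / 16 * ((n : ℝ) ^ 3 * L * 2 ^ 24) := by ring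
          _ ≤ n / 16 * D ^ 4 := mul_le_mul_of_nonneg_left hn3 (by positivity)
      exact le_of_mul_le_mul_right h6 (by positivity)
    linarith
  have hexp : 4 * r * Real.log n - ((q : ℝ)⁻¹) ^ 4 * (r : ℝ) ^ 2 ≤ -1 := by
    have h3 : ((q : ℝ)⁻¹) ^ 4 * (r : ℝ) ^ 2 = (r : ℝ) * ((r : ℝ) / (q : ℝ) ^ 4) := by
      field_simp
    have h4 : 4 * Real.log n + 1 ≤ (r : ℝ) / (q : ℝ) ^ 4 := by
      rw [le_div_iff₀ (by positivity)]
      linarith
    rw [h3]
    have h5 : (r : ℝ) * (4 * Real.log n + 1) ≤ (r : ℝ) * ((r : ℝ) / (q : ℝ) ^ 4) :=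
      mul_le_mul_of_nonneg_left h4 (by positivity)
    linarith
  calc (n : ℝ) ^ (4 * r) * (1 - ((q : ℝ)⁻¹) ^ 4) ^ (r ^ 2)
      ≤ Real.exp (4 * r * Real.log n) * Real.exp (-(((q : ℝ)⁻¹) ^ 4 * (r : ℝ) ^ 2)) := by
        rw [h2]
        exact mul_le_mul_of_nonneg_left h1 (Real.exp_pos _).le
    _ = Real.exp (4 * r * Real.log n - ((q : ℝ)⁻¹) ^ 4 * (r : ℝ) ^ 2) := by
        rw [← Real.exp_add]
        ring_nf
    _ ≤ Real.exp (-1) := Real.exp_le_exp.2 hexp
    _ < 1 / 2 := by
        have := Real.exp_one_gt_d9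
        rw [Real.exp_neg, inv_eq_one_div, div_lt_div_iff₀ (Real.exp_pos 1) two_pos]
        linarith

/-- The lower bound with an explicit constant. -/
theorem exists_bip_graph_large : ∀ᶠ D : ℕ in Filter.atTop,
    ∃ (n : ℕ) (G : SimpleGraph (Fin n)), G.IsBipartite ∧
      (∀ v : Fin n, (G.neighborSet v).ncard ≤ D) ∧
      (1 / 2 ^ 13) * gr D ≤ (acyclicChromatic G : ℝ) := by
  have hlog : ∀ᶠ D : ℕ in Filter.atTop, Real.log D ≤ (1 / 2 ^ 27) * (D : ℝ) := by
    have h1 := Real.isLittleO_log_id_atTop.bound (c := 1 / 2 ^ 27) (by positivity)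
    have h2 := tendsto_natCast_atTop_atTop (R := ℝ) |>.eventually h1
    filter_upwards [h2] with D hD
    simp only [id, Real.norm_eq_abs] at hD
    have h3 := le_abs_self (Real.log (D : ℝ))
    have h4 : |(D : ℝ)| = D := abs_of_nonneg (Nat.cast_nonneg D)
    rw [h4] at hD
    linarith
  filter_upwards [hlog, Filter.eventually_ge_atTop 100] with D hDlog hD100
  have hD100' : (100 : ℝ) ≤ D := by exact_mod_cast hD100
  have hDpos : (0 : ℝ) < D := by linarith
  have hcube := gr_cube (D := D) (by linarith)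
  have hgr := gr_nonneg D
  have hL1 : 1 ≤ Real.log D := by
    have h3 : Real.exp 1 ≤ D := by
      have := Real.exp_one_lt_d9
      linarith
    calc (1 : ℝ) = Real.log (Real.exp 1) := (Real.log_exp 1).symm
      _ ≤ _ := Real.log_le_log (Real.exp_pos 1) h3
  set L := Real.log D with hLdef
  -- size of gr
  have hlow : 2 ^ 9 * (D : ℝ) ≤ gr D := by
    have h1 : (2 ^ 9 * (D : ℝ)) ^ 3 ≤ gr D ^ 3 := by
      have h2 : (2 ^ 9 * (D : ℝ)) ^ 3 * L ≤ gr D ^ 3 * L := by
        rw [hcube]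
        calc (2 ^ 9 * (D : ℝ)) ^ 3 * L ≤ (2 ^ 9 * (D : ℝ)) ^ 3 * ((1 / 2 ^ 27) * (D : ℝ)) :=
              mul_le_mul_of_nonneg_left hDlog (by positivity)
          _ = (D : ℝ) ^ 4 := by ring
      exact le_of_mul_le_mul_right h2 (by linarith)
    exact le_of_pow_le_pow_left₀ (by norm_num) hgr h1
  have hup : gr D ≤ (D : ℝ) ^ 2 := by
    have h1 : gr D ^ 3 ≤ ((D : ℝ) ^ 2) ^ 3 := by
      calc gr D ^ 3 = gr D ^ 3 * 1 := by ring
        _ ≤ gr D ^ 3 * L := mul_le_mul_of_nonneg_left hL1 (by positivity)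
        _ = (D : ℝ) ^ 4 := hcube
        _ ≤ (D : ℝ) ^ 6 := pow_le_pow_right₀ (by linarith) (by norm_num)
        _ = _ := by ring
    exact le_of_pow_le_pow_left₀ (by norm_num) (by positivity) h1
  set y : ℝ := (1 / 2 ^ 8) * gr D with hy
  have hyD : 2 * (D : ℝ) ≤ y := by
    rw [hy]
    linarith
  set r : ℕ := ⌊y / 16⌋₊ with hr
  obtain ⟨n, hn⟩ : ∃ n : ℕ, n = 16 * r := ⟨_, rfl⟩
  have hnr : (n : ℝ) = 16 * r := by rw [hn]; push_cast; ring
  have hy0 : 0 ≤ y := by rw [hy]; positivity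
  have hry : (r : ℝ) ≤ y / 16 := Nat.floor_le (by positivity)
  have hyr : y / 16 < r + 1 := Nat.lt_floor_add_one (y / 16)
  have hny : (n : ℝ) ≤ y := by linarith
  have hnD : (D : ℝ) ≤ n := by linarith
  have hnD' : D ≤ n := by exact_mod_cast hnD
  have hnpos : 0 < n := by omega
  have hrpos : 0 < r := by omega
  have hDpos' : 0 < D := by omega
  set q : ℕ := 8 * n / D + 1 with hq
  have : NeZero q := ⟨by rw [hq]; exact Nat.succ_ne_zero _⟩
  have hq1 : 8 * n ≤ D * q := by
    have := Nat.lt_mul_div_succ (8 * n) hDpos'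
    rw [hq]
    omega
  have hq2 : (q : ℝ) * D ≤ 9 * n := by
    have h1 : q * D ≤ 9 * n := by
      rw [hq, add_mul, one_mul]
      have := Nat.div_mul_le_self (8 * n) D
      omega
    exact_mod_cast h1
  have hlogn : Real.log n ≤ 2 * L := by
    have h1 : (n : ℝ) ≤ (D : ℝ) ^ 2 := by
      have : y ≤ gr D := by rw [hy]; linarith
      linarith
    calc Real.log n ≤ Real.log ((D : ℝ) ^ 2) :=
          Real.log_le_log (by exact_mod_cast hnpos) h1
      _ = 2 * L := by rw [Real.log_pow, hLdef]; norm_num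
  have hn3 : (n : ℝ) ^ 3 * L * 2 ^ 24 ≤ (D : ℝ) ^ 4 := by
    have h1 : (n : ℝ) ^ 3 ≤ y ^ 3 := pow_le_pow_left₀ (by positivity) hny 3
    calc (n : ℝ) ^ 3 * L * 2 ^ 24 ≤ y ^ 3 * L * 2 ^ 24 := by
          apply mul_le_mul_of_nonneg_right _ (by positivity)
          exact mul_le_mul_of_nonneg_right h1 (by linarith)
      _ = gr D ^ 3 * L := by rw [hy]; ring
      _ = _ := hcube
  obtain ⟨G, hG0, hG1, hG2⟩ := exists_bip_graph n q r D hnpos
    (hcount_of' (D := (D : ℝ)) hL1 hDpos hrpos hn hlogn hn3 hq2) hq1 hn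
  refine ⟨n, G, hG0, hG1, ?_⟩
  obtain ⟨C, hC⟩ := exists_acyclicColouring_acyclicChromatic G
  have h1 : r < acyclicChromatic G := by
    by_contra hcon
    exact hG2 _ (not_lt.1 hcon) C hC
  have h2 : (r : ℝ) + 1 ≤ acyclicChromatic G := by exact_mod_cast h1
  have h3 : y / 16 ≤ acyclicChromatic G := by linarith
  rw [hy] at h3
  linarith

end asymptotics

end LB

theorem exists_bipartite_graph_large : ∃ c : ℝ, 0 < c ∧ ∀ᶠ D : ℕ in Filter.atTop,
    ∃ (n : ℕ) (G : SimpleGraph (Fin n)), G.IsBipartite ∧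
      (∀ v : Fin n, (G.neighborSet v).ncard ≤ D) ∧
      c * ((D : ℝ) ^ (4 / 3 : ℝ) / Real.log D ^ (1 / 3 : ℝ)) ≤ (acyclicChromatic G : ℝ) :=
  ⟨1 / 2 ^ 13, by positivity, LB.exists_bip_graph_large⟩

end Pool.Agent.Lib.BipAcyc
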