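import Pool.Agent.Lib.BipAcyc.ParVals

/-!
CHUNK PB (second stage). With `y = D^(1/7000)`: `b` is about `y^70`, `log D ≤ y`,
`ε'' = (8/3) ε ≤ 1/700`, `r = ⌈y^30⌉`, `μ₀ = (3b/4) / y^10`, `ℓ = ⌊μ₀/4⌋`,
`h₁ = ⌈e^2 Z/b⌉ + b`, `h₀ = h₁ + b`, `d₀ = ⌈e^2 h₀/r⌉`. Then the four terms are at most
`exp(-μ₀/4)`, `exp(-h₁)`, `exp(-d₀)`, `exp(-b)`, all at most `exp(-y^40/2)`, while
`(D+1)^2 (1+b+Z)^(2(r+2)) ≤ exp(y + 852 y^31)`.
-/

set_option autoImplicit false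
set_option linter.unusedSectionVars false

namespace Pool.Agent.Lib.BipAcyc

open Finset Filter

lemma pm_exp_two : Real.exp 1 ^ 2 ≤ 7.4 := by
  have h := Real.exp_one_lt_d9
  have h0 := Real.exp_pos 1
  nlinarith

/-- Powers of a number at most `1/e`. -/
lemma pm_pow_le {x y : ℝ} {n : ℕ} (hx : 0 ≤ x) (hx1 : Real.exp 1 * x ≤ 1) (hn : y ≤ n) :
    x ^ n ≤ Real.exp (-y) := by
  have h1 : x ≤ Real.exp (-1) := by
    rw [Real.exp_neg, ← one_div, le_div_iff₀ (Real.exp_pos 1)]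
    linarith
  calc x ^ n ≤ Real.exp (-1) ^ n := pow_le_pow_left₀ hx h1 n
    _ = Real.exp (-n) := by rw [← Real.exp_nat_mul]; congr 1; ring
    _ ≤ Real.exp (-y) := Real.exp_le_exp.2 (by linarith)

lemma pm_ratio {A B : ℝ} (hB : 0 < B) (h : Real.exp 1 ^ 2 * A ≤ B) :
    Real.exp 1 * (Real.exp 1 * A / B) ≤ 1 := by
  rw [← mul_div_assoc, div_le_one (by positivity)]
  nlinarith

/-- The last inequality. -/
lemma pm_last {y D b Z : ℝ} {r : ℕ} (hy : 10 ^ 6 ≤ y) (hD : D = y ^ 7000) (hb0 : 0 ≤ b)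
    (hb : b ≤ 2 * y ^ 70) (hZ0 : 0 ≤ Z) (hZ : Z ≤ 4 * y ^ 141) (hr : (r : ℝ) ≤ 2 * y ^ 30)
    (he : y ^ 14000 ≤ Real.exp y) :
    4 * (4 * Real.exp (-(y ^ 40 / 2))) * (2 * (D + 1) ^ 2 * (1 + (b + Z)) ^ (2 * (r + 2))) ≤ 1 := by
  have y0 : 0 < y := by linarith
  have y1 : 1 ≤ y := by linarith
  have D1 : 1 ≤ D := by rw [hD]; exact one_le_pow₀ y1
  have h1 : (D + 1) ^ 2 ≤ 4 * Real.exp y := by
    calc (D + 1) ^ 2 ≤ (2 * D) ^ 2 := by gcongr; linarith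
      _ = 4 * y ^ 14000 := by rw [hD]; ring
      _ ≤ 4 * Real.exp y := by gcongr
  have h2 : 1 + (b + Z) ≤ y ^ 142 := by
    have e1 : y ^ 142 = y * y ^ 141 := by ring
    have e2 : y ^ 70 ≤ y ^ 141 := pow_le_pow_right₀ y1 (by norm_num)
    have e3 : 1 ≤ y ^ 141 := one_le_pow₀ y1
    rw [e1]
    nlinarith
  have h3 : y ^ 142 ≤ Real.exp (142 * y) := by
    have : y ≤ Real.exp y := by
      have := Real.add_one_le_exp y
      linarith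
    calc y ^ 142 ≤ Real.exp y ^ 142 := by gcongr
      _ = Real.exp (142 * y) := by rw [← Real.exp_nat_mul]; norm_num
  have h4 : (1 + (b + Z)) ^ (2 * (r + 2)) ≤ Real.exp (852 * y ^ 31) := by
    calc (1 + (b + Z)) ^ (2 * (r + 2)) ≤ Real.exp (142 * y) ^ (2 * (r + 2)) := by
          have := h2.trans h3
          gcongr
      _ = Real.exp (((2 * (r + 2) : ℕ) : ℝ) * (142 * y)) := by rw [← Real.exp_nat_mul]
      _ ≤ Real.exp (852 * y ^ 31) := by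
          apply Real.exp_le_exp.2
          have e1 : y ^ 31 = y ^ 30 * y := by ring
          have e2 : 2 ≤ y ^ 30 := by
            calc (2 : ℝ) ≤ y := by linarith
              _ = y ^ 1 := (pow_one y).symm
              _ ≤ y ^ 30 := pow_le_pow_right₀ y1 (by norm_num)
          push_cast
          rw [e1]
          have e3 : (r : ℝ) + 2 ≤ 3 * y ^ 30 := by linarith
          nlinarith
  have h5 : (128 : ℝ) ≤ Real.exp y := by
    have := Real.add_one_le_exp y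
    linarith
  calc 4 * (4 * Real.exp (-(y ^ 40 / 2))) * (2 * (D + 1) ^ 2 * (1 + (b + Z)) ^ (2 * (r + 2)))
      ≤ 4 * (4 * Real.exp (-(y ^ 40 / 2))) * (2 * (4 * Real.exp y) * Real.exp (852 * y ^ 31)) := by
        gcongr
    _ = 128 * (Real.exp (-(y ^ 40 / 2)) * Real.exp y * Real.exp (852 * y ^ 31)) := by ring
    _ ≤ Real.exp y * (Real.exp (-(y ^ 40 / 2)) * Real.exp y * Real.exp (852 * y ^ 31)) := by
        gcongr
    _ = Real.exp (y + (-(y ^ 40 / 2) + y + 852 * y ^ 31)) := by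
        rw [Real.exp_add, Real.exp_add, Real.exp_add]
    _ ≤ Real.exp 0 := by
        apply Real.exp_le_exp.2
        have e1 : y ≤ y ^ 31 := by
          calc y = y ^ 1 := (pow_one y).symm
            _ ≤ y ^ 31 := pow_le_pow_right₀ y1 (by norm_num)
        have e2 : y * y ^ 31 ≤ y ^ 40 := by
          calc y * y ^ 31 = y ^ 32 := by ring
            _ ≤ y ^ 40 := pow_le_pow_right₀ y1 (by norm_num)
        have e3 : 0 < y ^ 31 := by positivity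
        nlinarith
    _ = 1 := Real.exp_zero

lemma pm_mu {y : ℝ} {b Z : ℝ} (y0 : 0 < y) (b0 : 0 < b)
    (hZ1 : 8 * Z / (3 * b ^ 2) ≤ 10 * Real.log y) :
    3 * b / 4 / y ^ 10 ≤ 3 * b / 4 * Real.exp (-(8 * Z / (3 * b ^ 2))) := by
  rw [div_eq_mul_inv (3 * b / 4)]
  apply mul_le_mul_of_nonneg_left _ (by positivity)
  have e1 : y ^ 10 = Real.exp (10 * Real.log y) := by
    have : Real.exp (10 * Real.log y) = Real.exp (((10 : ℕ) : ℝ) * Real.log y) := by norm_num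
    rw [this, Real.exp_nat_mul, Real.exp_log y0]
  rw [e1, ← Real.exp_neg]
  exact Real.exp_le_exp.2 (by linarith)

lemma pm_h1 {y : ℝ} {b Z : ℕ} (hy : 10 ^ 6 ≤ y) (hb1 : y ^ 70 ≤ (b : ℝ))
    (hb2 : (b : ℝ) ≤ 2 * y ^ 70) (hZ2 : (Z : ℝ) ≤ 4 * y ^ 141) :
    ∃ h₁ : ℕ, Real.exp 1 ^ 2 * Z ≤ b * h₁ ∧ (b : ℝ) ≤ h₁ ∧ (h₁ : ℝ) ≤ 32 * y ^ 71 := by
  have y0 : 0 < y := by linarith
  have y1 : 1 ≤ y := by linarith
  have b0 : (0 : ℝ) < b := lt_of_lt_of_le (by positivity) hb1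
  have he2 := pm_exp_two
  refine ⟨⌈Real.exp 1 ^ 2 * Z / b⌉₊ + b, ?_, ?_, ?_⟩
  · have h := Nat.le_ceil (Real.exp 1 ^ 2 * Z / b)
    rw [div_le_iff₀ b0] at h
    push_cast
    nlinarith
  · push_cast
    have : (0 : ℝ) ≤ (⌈Real.exp 1 ^ 2 * Z / b⌉₊ : ℕ) := Nat.cast_nonneg _
    linarith
  · have h := (Nat.ceil_lt_add_one (show 0 ≤ Real.exp 1 ^ 2 * Z / b by positivity)).le
    have h2 : Real.exp 1 ^ 2 * Z / b ≤ 29.6 * y ^ 71 := by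
      rw [div_le_iff₀ b0]
      calc Real.exp 1 ^ 2 * Z ≤ 7.4 * (4 * y ^ 141) := by gcongr
        _ = 29.6 * y ^ 71 * y ^ 70 := by ring
        _ ≤ 29.6 * y ^ 71 * b := by gcongr
    have h3 : y ^ 71 = y * y ^ 70 := by ring
    have h4 : 1 ≤ y ^ 70 := one_le_pow₀ y1
    push_cast
    nlinarith

lemma pm_d0 {y : ℝ} {r h₀ : ℕ} (hy : 10 ^ 6 ≤ y) (hr1 : y ^ 30 ≤ (r : ℝ))
    (hr2 : (r : ℝ) ≤ 2 * y ^ 30) (hh : y ^ 70 ≤ (h₀ : ℝ)) (hh4 : (h₀ : ℝ) ≤ 33 * y ^ 71) :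
    ∃ d₀ : ℕ, Real.exp 1 ^ 2 * h₀ ≤ d₀ * r ∧ (d₀ : ℝ) ≤ 250 * y ^ 41 ∧
      y ^ 40 / 2 ≤ (d₀ : ℝ) := by
  have y0 : 0 < y := by linarith
  have y1 : 1 ≤ y := by linarith
  have r0 : (0 : ℝ) < r := lt_of_lt_of_le (by positivity) hr1
  have he2 := pm_exp_two
  have hd1 : Real.exp 1 ^ 2 * h₀ ≤ (⌈Real.exp 1 ^ 2 * h₀ / r⌉₊ : ℕ) * r := by
    have h := Nat.le_ceil (Real.exp 1 ^ 2 * h₀ / r)
    rwa [div_le_iff₀ r0] at h
  refine ⟨⌈Real.exp 1 ^ 2 * h₀ / r⌉₊, hd1, ?_, ?_⟩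
  · have h := (Nat.ceil_lt_add_one (show 0 ≤ Real.exp 1 ^ 2 * h₀ / r by positivity)).le
    have h2 : Real.exp 1 ^ 2 * h₀ / r ≤ 245 * y ^ 41 := by
      rw [div_le_iff₀ r0]
      calc Real.exp 1 ^ 2 * h₀ ≤ 7.4 * (33 * y ^ 71) := by gcongr
        _ = 244.2 * y ^ 71 := by ring
        _ ≤ 245 * y ^ 71 := by gcongr; norm_num
        _ = 245 * y ^ 41 * y ^ 30 := by ring
        _ ≤ 245 * y ^ 41 * r := by gcongr
    have h3 : 1 ≤ y ^ 41 := one_le_pow₀ y1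
    linarith
  · generalize ⌈Real.exp 1 ^ 2 * h₀ / r⌉₊ = d₀ at *
    have e1 : (1 : ℝ) ≤ Real.exp 1 ^ 2 := one_le_pow₀ (by
      have := Real.add_one_le_exp 1
      linarith)
    have e0 : (0 : ℝ) ≤ h₀ := Nat.cast_nonneg _
    have e2 : (h₀ : ℝ) ≤ d₀ * r := by nlinarith
    have e4 : (d₀ : ℝ) * r ≤ d₀ * (2 * y ^ 30) :=
      mul_le_mul_of_nonneg_left hr2 (Nat.cast_nonneg _)
    have e5 : y ^ 40 / 2 * (2 * y ^ 30) = y ^ 70 := by ring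
    have e3 : y ^ 40 / 2 * (2 * y ^ 30) ≤ d₀ * (2 * y ^ 30) := by
      rw [e5]
      linarith
    exact le_of_mul_le_mul_right e3 (by positivity)

lemma pm_t4 {y b h d l : ℝ} (hy : 10 ^ 6 ≤ y) (hb : y ^ 70 ≤ b) (hh0 : 0 ≤ h)
    (hh : h ≤ 33 * y ^ 71) (hd0 : 0 ≤ d) (hd : d ≤ 250 * y ^ 41) (hl : 1 / 16 * y ^ 60 ≤ l) :
    Real.exp 1 ^ 2 * (h * d) ≤ b * l := by
  have y0 : 0 < y := by linarith
  have y1 : 1 ≤ y := by linarith
  have he2 := pm_exp_two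
  have hyy : 61050 ≤ y * y / 16 := by nlinarith
  calc Real.exp 1 ^ 2 * (h * d) ≤ 7.4 * ((33 * y ^ 71) * (250 * y ^ 41)) := by gcongr
    _ = 61050 * y ^ 112 := by ring
    _ ≤ (y * y / 16) * y ^ 112 := mul_le_mul_of_nonneg_right hyy (by positivity)
    _ = 1 / 16 * y ^ 114 := by ring
    _ ≤ 1 / 16 * y ^ 130 :=
        mul_le_mul_of_nonneg_left (pow_le_pow_right₀ y1 (by norm_num)) (by norm_num)
    _ = y ^ 70 * (1 / 16 * y ^ 60) := by ring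
    _ ≤ b * l := mul_le_mul hb hl (by positivity) (by
        have : 0 ≤ y ^ 70 := by positivity
        linarith)

theorem pm_core {y : ℝ} {D b Z : ℕ} (hy : 10 ^ 6 ≤ y) (hD : (D : ℝ) = y ^ 7000)
    (hb1 : y ^ 70 ≤ (b : ℝ)) (hb2 : (b : ℝ) ≤ 2 * y ^ 70)
    (hZ1 : 8 * (Z : ℝ) / (3 * (b : ℝ) ^ 2) ≤ 10 * Real.log y) (hZ2 : (Z : ℝ) ≤ 4 * y ^ 141)
    (he : y ^ 14000 ≤ Real.exp y) : MainParams D b Z := by
  have y0 : 0 < y := by linarith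
  have y1 : 1 ≤ y := by linarith
  have b0 : (0 : ℝ) < b := lt_of_lt_of_le (by positivity) hb1
  -- `r`
  obtain ⟨r, hr1, hr2⟩ : ∃ r : ℕ, y ^ 30 ≤ (r : ℝ) ∧ (r : ℝ) ≤ 2 * y ^ 30 :=
    ⟨⌈y ^ 30⌉₊, Nat.le_ceil _, pv_ceil_le_two (one_le_pow₀ y1)⟩
  have r0 : (0 : ℝ) < r := lt_of_lt_of_le (by positivity) hr1
  have hlast := pm_last hy hD b0.le hb2 (Nat.cast_nonneg Z) hZ2 hr2 he
  -- `μ₀`
  have hmu := pm_mu y0 b0 hZ1
  have hmul : (3 / 4 : ℝ) * y ^ 60 ≤ 3 * (b : ℝ) / 4 / y ^ 10 := by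
    rw [le_div_iff₀ (by positivity)]
    have : (3 / 4 : ℝ) * y ^ 60 * y ^ 10 = 3 / 4 * y ^ 70 := by ring
    rw [this]
    linarith
  generalize 3 * (b : ℝ) / 4 / y ^ 10 = μ at *
  have hy60 : 10 ^ 6 * y ^ 40 ≤ y ^ 60 := by
    calc (10 : ℝ) ^ 6 * y ^ 40 ≤ y * y ^ 40 := mul_le_mul_of_nonneg_right hy (by positivity)
      _ = y ^ 41 := by ring
      _ ≤ y ^ 60 := pow_le_pow_right₀ y1 (by norm_num)
  have hy40 : 10 ^ 6 ≤ y ^ 40 := by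
    calc (10 : ℝ) ^ 6 ≤ y := hy
      _ = y ^ 1 := (pow_one y).symm
      _ ≤ y ^ 40 := pow_le_pow_right₀ y1 (by norm_num)
  have hmu1 : 8 ≤ μ := by linarith
  obtain ⟨ℓ, hl1, hl2⟩ : ∃ ℓ : ℕ, μ / 8 ≤ (ℓ : ℝ) ∧ (ℓ : ℝ) ≤ μ / 4 := by
    refine ⟨⌊μ / 4⌋₊, ?_, Nat.floor_le (by linarith)⟩
    have := Nat.lt_floor_add_one (μ / 4)
    linarith
  have l0 : (0 : ℝ) < ℓ := by linarith
  -- `h₁`, `h₀`, `d₀`
  obtain ⟨h₁, hh1, hh2, hh3⟩ := pm_h1 hy hb1 hb2 hZ2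
  have h10 : (0 : ℝ) < h₁ := by linarith
  obtain ⟨h₀, hh0⟩ : ∃ h₀ : ℕ, h₀ = h₁ + b := ⟨_, rfl⟩
  have hh0' : (h₀ : ℝ) = h₁ + b := by rw [hh0]; push_cast; ring
  have h00 : (0 : ℝ) < h₀ := by linarith
  have hh4 : (h₀ : ℝ) ≤ 33 * y ^ 71 := by
    have h3 : y ^ 71 = y * y ^ 70 := by ring
    have h4 : 2 * y ^ 70 ≤ y * y ^ 70 := mul_le_mul_of_nonneg_right (by linarith) (by positivity)
    linarith
  obtain ⟨d₀, hd1, hd2, hd3⟩ := pm_d0 hy hr1 hr2 (by linarith) hh4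
  have d00 : (0 : ℝ) < d₀ := by linarith
  have hb3 : y ^ 40 / 2 ≤ (b : ℝ) := by
    have : y ^ 40 ≤ y ^ 70 := pow_le_pow_right₀ y1 (by norm_num)
    linarith
  have hl3 : 1 / 16 * y ^ 60 ≤ (ℓ : ℝ) := by linarith
  have h4' := pm_t4 hy hb1 h00.le hh4 d00.le hd2 hl3
  clear hD he hZ1 hZ2 hh3 hh4 hd2
  refine ⟨r, ℓ, d₀, h₀, h₁, μ, 4 * Real.exp (-(y ^ 40 / 2)), ?_, ?_, ?_, ?_, ?_, ?_, hmu, ?_, ?_,
    hlast⟩
  · exact_mod_cast r0
  · exact_mod_cast l0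
  · exact_mod_cast d00
  · exact_mod_cast h10
  · omega
  · have : ((2 : ℕ) : ℝ) ≤ b := by
      push_cast
      linarith
    exact_mod_cast this
  · have t1 : Real.exp ((ℓ : ℝ) - μ / 2) ≤ Real.exp (-(y ^ 40 / 2)) :=
      Real.exp_le_exp.2 (by linarith)
    have t2 : (Real.exp 1 * (Z : ℝ) / (b * h₁)) ^ h₁ ≤ Real.exp (-(y ^ 40 / 2)) :=
      pm_pow_le (by positivity) (pm_ratio (by positivity) hh1) (by linarith)
    have t3 : (Real.exp 1 * (h₀ : ℝ) / (d₀ * r)) ^ d₀ ≤ Real.exp (-(y ^ 40 / 2)) :=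
      pm_pow_le (by positivity) (pm_ratio (by positivity) hd1) hd3
    have t4 : (Real.exp 1 * (h₀ : ℝ) * d₀ / (b * ℓ)) ^ b ≤ Real.exp (-(y ^ 40 / 2)) := by
      rw [mul_assoc (Real.exp 1)]
      exact pm_pow_le (by positivity) (pm_ratio (by positivity) h4') hb3
    linarith
  · have : Real.exp (-(y ^ 40 / 2)) ≤ 1 / 16 := by
      rw [Real.exp_neg, ← one_div]
      apply one_div_le_one_div_of_le (by norm_num)
      have := Real.add_one_le_exp (y ^ 40 / 2)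
      linarith
    linarith

theorem main_params (K : ℝ) (hK : 500 ≤ K) :
    ∀ᶠ D : ℕ in atTop, MainParams D (bD D) (ZD K D) := by
  filter_upwards [rootD_ge 7000 (by norm_num) (10 ^ 6),
    log_le_rootD 7000 (by norm_num), pv_one_le_logD,
    rootD_pow_le_exp 7000 (by norm_num) 14000] with D hy hL hL1 he
  have hb : (D : ℝ) ^ (1 / 100 : ℝ) = rootD 7000 D ^ 70 := by
    rw [rootD_pow]; norm_num
  have hD : (D : ℝ) = rootD 7000 D ^ 7000 := by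
    rw [rootD_pow]; norm_num
  have hbD : bD D = ⌈rootD 7000 D ^ 70⌉₊ := by
    unfold bD
    rw [hb]
  have y0 : 0 < rootD 7000 D := by linarith
  have y1 : 1 ≤ rootD 7000 D := by linarith
  have hlog : Real.log D = 7000 * Real.log (rootD 7000 D) := by
    conv_lhs => rw [hD]
    rw [Real.log_pow]
    norm_num
  have hb1 : rootD 7000 D ^ 70 ≤ (bD D : ℝ) := by
    rw [hbD]
    exact Nat.le_ceil _
  have hb2 : (bD D : ℝ) ≤ 2 * rootD 7000 D ^ 70 := by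
    rw [hbD]
    exact pv_ceil_le_two (one_le_pow₀ y1)
  have b0 : (0 : ℝ) < bD D := lt_of_lt_of_le (by positivity) hb1
  have K0 : 0 < K := by linarith
  have hK3 : 60000 / K ^ 3 ≤ 48 / 100000 := by
    rw [div_le_div_iff₀ (by positivity) (by norm_num)]
    have : (500 : ℝ) ^ 3 ≤ K ^ 3 := by gcongr
    linarith
  have hb6 : (10 : ℝ) ^ 6 ≤ bD D := by
    have h1 : rootD 7000 D ^ 1 ≤ rootD 7000 D ^ 70 := pow_le_pow_right₀ y1 (by norm_num)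
    rw [pow_one] at h1
    linarith
  have hZ : (ZD K D : ℝ) ≤ 48 / 100000 * (Real.log D * (bD D : ℝ) ^ 2) + 1 := by
    unfold ZD
    have h := (Nat.ceil_lt_add_one
      (show 0 ≤ 60000 / K ^ 3 * Real.log D * (bD D : ℝ) ^ 2 by positivity)).le
    have h2 : 60000 / K ^ 3 * Real.log D * (bD D : ℝ) ^ 2
        ≤ 48 / 100000 * (Real.log D * (bD D : ℝ) ^ 2) := by
      rw [mul_assoc]
      exact mul_le_mul_of_nonneg_right hK3 (by positivity)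
    linarith
  refine pm_core hy hD hb1 hb2 ?_ ?_ he
  · rw [div_le_iff₀ (by positivity)]
    have e : 10 * Real.log (rootD 7000 D) = Real.log D / 700 := by rw [hlog]; ring
    rw [e]
    have h1 : 10 ^ 6 * (1 : ℝ) ≤ Real.log D * (bD D : ℝ) ^ 2 := by
      have h2 : (1 : ℝ) * (10 ^ 6) ≤ Real.log D * (bD D : ℝ) ^ 2 := by
        have h3 : (10 : ℝ) ^ 6 ≤ (bD D : ℝ) ^ 2 := by nlinarith
        exact mul_le_mul hL1 h3 (by positivity) (by linarith)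
      linarith
    have e2 : Real.log D / 700 * (3 * (bD D : ℝ) ^ 2)
        = 3 / 700 * (Real.log D * (bD D : ℝ) ^ 2) := by ring
    rw [e2]
    linarith
  · have h1 : Real.log D * (bD D : ℝ) ^ 2 ≤ rootD 7000 D * (2 * rootD 7000 D ^ 70) ^ 2 :=
      mul_le_mul hL (pow_le_pow_left₀ b0.le hb2 2) (by positivity) y0.le
    have h2 : rootD 7000 D * (2 * rootD 7000 D ^ 70) ^ 2 = 4 * rootD 7000 D ^ 141 := by ring
    have h3 : 1 ≤ rootD 7000 D ^ 141 := one_le_pow₀ y1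
    rw [h2] at h1
    linarith

end Pool.Agent.Lib.BipAcyc
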