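import Pool.Agent.Lib.BipAcyc.ParStatic
import Pool.Agent.Lib.BipAcyc.ParMain
import Pool.Agent.Lib.BipAcyc.Graph
import Pool.Agent.Lib.BipAcyc.LowerBip

/-!
The theorem: for bipartite graphs of maximum degree `D` the acyclic chromatic number is of order
`D^(4/3) / (log D)^(1/3)`.
-/

set_option autoImplicit false
set_option linter.unusedSectionVars false

namespace Pool.Agent.Lib.BipAcyc

open Finset Filter Pool.Agent.Lib.Acyc

theorem upper_bound : ∃ C : ℝ, 0 < C ∧ ∀ᶠ D : ℕ in atTop,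
    ∀ (V : Type*) [Finite V] (G : SimpleGraph V), G.IsBipartite →
      (∀ v, (G.neighborSet v).ncard ≤ D) →
      (acyclicChromatic G : ℝ) ≤ C * ((D : ℝ) ^ (4 / 3 : ℝ) / Real.log D ^ (1 / 3 : ℝ)) := by
  refine ⟨3000, by norm_num, ?_⟩
  filter_upwards [static_params 500 (by norm_num), main_params 500 (by norm_num),
    Xb_le 500 (by norm_num)] with D h1 h2 h3
  intro V _ G hG hdeg
  have h4 := graph_bound G hG D _ _ _ _ hdeg h1 h2
  have h5 : (acyclicChromatic G : ℝ) ≤ 3 * ((XD 500 D : ℝ) * bD D) := by exact_mod_cast h4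
  refine h5.trans ?_
  have h6 : 3 * ((XD 500 D : ℝ) * bD D) ≤ 3 * (2 * qK 500 D) := by linarith
  refine h6.trans (le_of_eq ?_)
  unfold qK
  ring

end Pool.Agent.Lib.BipAcyc
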