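import Mathlib

/-!
Bipartite incidence structures `N : A → Finset B` (the neighbourhoods of the vertices of `A`),
and the static conditions on the class maps `κ : A → γ`, `φ : B → γ`.
-/

set_option autoImplicit false
set_option linter.unusedSectionVars false

namespace Pool.Agent.Lib.BipAcyc

open Finset

variable {A B : Type*} [Fintype A] [Fintype B] [LinearOrder A] [LinearOrder B]

/-- Neighbours in `A` of the vertex `y : B`. -/
def nb (N : A → Finset B) (y : B) : Finset A := univ.filter fun u => y ∈ N u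

omit [Fintype B] [LinearOrder A] in
@[simp] lemma mem_nb {N : A → Finset B} {y : B} {u : A} : u ∈ nb N y ↔ y ∈ N u := by
  simp [nb]

/-- Common neighbours of two vertices of `A`. -/
def com (N : A → Finset B) (u w : A) : Finset B := N u ∩ N w

/-- Common neighbours of two vertices of `B`. -/
def comB (N : A → Finset B) (y z : B) : Finset A := nb N y ∩ nb N z

omit [Fintype A] [Fintype B] [LinearOrder A] in
@[simp] lemma mem_com {N : A → Finset B} {u w : A} {y : B} :
    y ∈ com N u w ↔ y ∈ N u ∧ y ∈ N w := by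
  simp [com]

omit [Fintype B] in
@[simp] lemma mem_comB {N : A → Finset B} {y z : B} {u : A} :
    u ∈ comB N y z ↔ y ∈ N u ∧ z ∈ N u := by
  simp [comB]

omit [Fintype A] [Fintype B] [LinearOrder A] in
lemma com_comm (N : A → Finset B) (u w : A) : com N u w = com N w u := by
  simp [com, inter_comm]

/-- All degrees are at most `D`. -/
structure DegLe (N : A → Finset B) (D : ℕ) : Prop where
  left : ∀ u, (N u).card ≤ D
  right : ∀ y, (nb N y).card ≤ D

variable {γ δ : Type*}

/-- No alternating path with six vertices inside one class of `A` and one class of `B`. -/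
def NoP6 (N : A → Finset B) (κ : A → γ) (φ : B → δ) : Prop :=
  ∀ (y₁ : B) (u₁ : A) (y₂ : B) (u₂ : A) (y₃ : B) (u₃ : A),
    y₁ ∈ N u₁ → y₂ ∈ N u₁ → y₂ ∈ N u₂ → y₃ ∈ N u₂ → y₃ ∈ N u₃ →
    y₁ ≠ y₂ → y₁ ≠ y₃ → y₂ ≠ y₃ → u₁ ≠ u₂ → u₁ ≠ u₃ → u₂ ≠ u₃ →
    κ u₁ = κ u₂ → κ u₂ = κ u₃ → φ y₁ = φ y₂ → φ y₂ = φ y₃ → False

/-- No `K_{3,2}` (three vertices of `A`, two of `B`) inside two classes. -/
def NoK32 (N : A → Finset B) (κ : A → γ) (φ : B → δ) : Prop :=
  ∀ (u v w : A) (y z : B), u ≠ v → u ≠ w → v ≠ w → y ≠ z →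
    y ∈ N u → y ∈ N v → y ∈ N w → z ∈ N u → z ∈ N v → z ∈ N w →
    κ u = κ v → κ v = κ w → φ y = φ z → False

/-- No `K_{2,3}` (two vertices of `A`, three of `B`) inside two classes. -/
def NoK23 (N : A → Finset B) (κ : A → γ) (φ : B → δ) : Prop :=
  ∀ (u w : A) (x y z : B), u ≠ w → x ≠ y → x ≠ z → y ≠ z →
    x ∈ N u → y ∈ N u → z ∈ N u → x ∈ N w → y ∈ N w → z ∈ N w →
    κ u = κ w → φ x = φ y → φ y = φ z → False

/-- The pairs of common neighbours of `u` and `w` in the same class of `φ`. -/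
def Mset [DecidableEq δ] (N : A → Finset B) (φ : B → δ) (u w : A) : Finset (B × B) :=
  ((com N u w) ×ˢ (com N u w)).filter fun p => p.1 < p.2 ∧ φ p.1 = φ p.2

/-- Two pairs share a vertex. -/
def Share (p q : B × B) : Prop := p.1 = q.1 ∨ p.1 = q.2 ∨ p.2 = q.1 ∨ p.2 = q.2

/-- Inside one class of `A`, every vertex of `B` belongs to at most one pair of at most one of the
sets `Mset N φ u w`. -/
def Excl [DecidableEq δ] (N : A → Finset B) (κ : A → γ) (φ : B → δ) : Prop :=
  ∀ (u w u' w' : A), u ≠ w → u' ≠ w' → κ u = κ w → κ u' = κ w' → κ u = κ u' →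
    ∀ p ∈ Mset N φ u w, ∀ p' ∈ Mset N φ u' w', Share p p' →
      p = p' ∧ ((u = u' ∧ w = w') ∨ (u = w' ∧ w = u'))

/-- Number of monochromatic four cycles at `u` with a mate of codegree less than `s`. -/
def Zsum [DecidableEq γ] [DecidableEq δ] (N : A → Finset B) (κ : A → γ) (φ : B → δ) (s : ℕ)
    (u : A) : ℕ :=
  ∑ w with w ≠ u ∧ κ w = κ u ∧ (com N u w).card < s, (Mset N φ u w).card

/-- The conditions on the class maps used by the second stage. -/
structure Good [DecidableEq γ] [DecidableEq δ] (N : A → Finset B) (κ : A → γ) (φ : B → δ)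
    (s b Z : ℕ) : Prop where
  p6 : NoP6 N κ φ
  excl : Excl N κ φ
  special : ∀ u, 4 * (univ.filter fun w => w ≠ u ∧ κ w = κ u ∧ s ≤ (com N u w).card).card ≤ b
  load : ∀ u, Zsum N κ φ s u ≤ Z

end Pool.Agent.Lib.BipAcyc
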