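import Pool.Agent.Lib.BipAcyc.Inc

/-!
CHUNK LO. Pure combinatorics: the bound on `Zsum` from the witness conditions.

Proof. Fix `u`, `x = κ u`. Split the mates `w ≠ u`, `κ w = κ u`, `codeg < s ≤ sc J` according to
the least `j ≤ J` with `codeg < sc j`.
* `j = 0`: by `hpair` with `j = 0` and `F = Mset u w` (a set of disjoint pairs by `Excl`),
  `|Mset u w| < n₈ 0`; the mates of this kind with `Mset u w` non-empty give, choosing one pair in
  each, a family `F` as in `hlight` (disjointness by `Excl`), so there are less than `n₉`.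
* `j = i + 1`: codeg `≥ sc i`, so by `hmates` there are less than `n₇ i` such mates, and each has
  `|Mset u w| < n₈ (i+1)`.
-/

set_option autoImplicit false
set_option linter.unusedSectionVars false

namespace Pool.Agent.Lib.BipAcyc

open Finset

variable {A B : Type*} [Fintype A] [Fintype B] [LinearOrder A] [LinearOrder B]
variable {γ δ : Type*} [DecidableEq γ] [DecidableEq δ]

/-- less than `n` vertices `w ≠ u` of codegree at least `a` in any given class -/
def FewMates (N : A → Finset B) (κ : A → γ) (a n : ℕ) : Prop :=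
  ∀ (u : A) (x : γ), (univ.filter fun w => w ≠ u ∧ a ≤ (com N u w).card ∧ κ w = x).card < n

/-- for `u ≠ w` of codegree less than `a` there are less than `n` disjoint pairs of common
neighbours in the same class -/
def FewPairs (N : A → Finset B) (φ : B → δ) (a n : ℕ) : Prop :=
  ∀ u w : A, u ≠ w → (com N u w).card < a → ∀ F : Finset (B × B),
    (∀ p ∈ F, p.1 ∈ com N u w ∧ p.2 ∈ com N u w ∧ p.1 < p.2 ∧ φ p.1 = φ p.2) →
    (∀ p ∈ F, ∀ q ∈ F, p ≠ q → ¬ Share p q) → F.card < n

/-- for every `u` and class `x` there are less than `n` disjoint triples `(w, y, z)`: `w` in class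
`x`, codegree of `u, w` less than `a`, `y, z` common neighbours in the same class -/
def FewLight (N : A → Finset B) (κ : A → γ) (φ : B → δ) (a n : ℕ) : Prop :=
  ∀ (u : A) (x : γ) (F : Finset (A × (B × B))),
    (∀ t ∈ F, t.1 ≠ u ∧ (com N u t.1).card < a ∧ κ t.1 = x ∧ t.2.1 ∈ com N u t.1 ∧
      t.2.2 ∈ com N u t.1 ∧ t.2.1 < t.2.2 ∧ φ t.2.1 = φ t.2.2) →
    (∀ t ∈ F, ∀ t' ∈ F, t ≠ t' → t.1 ≠ t'.1 ∧ ¬ Share t.2 t'.2) → F.card < n

lemma loadProof_pairs (N : A → Finset B) (κ : A → γ) (φ : B → δ) (hE : Excl N κ φ)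
    (u w : A) (huw : u ≠ w) (hκ : κ w = κ u) (a n : ℕ) (ha : (com N u w).card < a)
    (h : FewPairs N φ a n) : (Mset N φ u w).card < n := by
  refine h u w huw ha _ ?_ ?_
  · intro p hp
    unfold Mset at hp
    simp only [mem_filter, mem_product] at hp
    exact ⟨hp.1.1, hp.1.2, hp.2.1, hp.2.2⟩
  · intro p hp q hq hne hsh
    exact hne (hE u w u w huw huw hκ.symm hκ.symm rfl p hp q hq hsh).1

lemma loadProof_scale (sc : ℕ → ℕ) (c J : ℕ) (h : c < sc J) (h0 : ¬ c < sc 0) :
    ∃ j < J, sc j ≤ c ∧ c < sc (j + 1) := by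
  induction J with
  | zero => exact absurd h h0
  | succ J ih =>
    by_cases h1 : c < sc J
    · obtain ⟨j, hj, h2⟩ := ih h1
      exact ⟨j, by omega, h2⟩
    · exact ⟨J, by omega, not_lt.1 h1, h⟩

lemma loadProof_biUnion {ι τ : Type*} [DecidableEq τ] (I : Finset ι) (W : ι → Finset τ)
    (f : τ → ℕ) : ∑ w ∈ I.biUnion W, f w ≤ ∑ j ∈ I, ∑ w ∈ W j, f w := by
  classical
  induction I using Finset.induction_on with
  | empty => simp
  | insert i I hi ih =>
    rw [biUnion_insert, sum_insert hi]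
    have : ∑ w ∈ W i ∪ I.biUnion W, f w ≤ ∑ w ∈ W i, f w + ∑ w ∈ I.biUnion W, f w := by
      rw [← sum_union_inter]
      exact Nat.le_add_right _ _
    exact this.trans (Nat.add_le_add le_rfl ih)

theorem load_le (N : A → Finset B) (κ : A → γ) (φ : B → δ) (hE : Excl N κ φ)
    (s J n₉ : ℕ) (sc n₇ n₈ : ℕ → ℕ) (hs : s ≤ sc J)
    (hmates : ∀ j < J, FewMates N κ (sc j) (n₇ j))
    (hpairs : ∀ j < J + 1, FewPairs N φ (sc j) (n₈ j))
    (hlight : FewLight N κ φ (sc 0) n₉) (u : A) :
    Zsum N κ φ s u ≤ n₉ * n₈ 0 + ∑ j ∈ range J, n₇ j * n₈ (j + 1) := by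
  classical
  unfold Zsum
  set W : Finset A := univ.filter fun w => w ≠ u ∧ κ w = κ u ∧ (com N u w).card < s with hW
  set W₀ : Finset A := W.filter fun w => (com N u w).card < sc 0 ∧ (Mset N φ u w).Nonempty
    with hW₀
  set W₁ : ℕ → Finset A := fun j => W.filter fun w => sc j ≤ (com N u w).card ∧
    (com N u w).card < sc (j + 1) with hW₁
  have hWm : ∀ w ∈ W, w ≠ u ∧ κ w = κ u ∧ (com N u w).card < s := by
    intro w hw
    rw [hW] at hw
    simpa using hw
  have h1 : ∑ w ∈ W, (Mset N φ u w).card ≤ ∑ w ∈ W₀ ∪ (range J).biUnion W₁,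
      (Mset N φ u w).card := by
    refine sum_le_sum_of_ne_zero fun w hw hne => ?_
    obtain ⟨_, _, h3⟩ := hWm w hw
    rw [mem_union]
    by_cases h0 : (com N u w).card < sc 0
    · left
      rw [hW₀, mem_filter]
      exact ⟨hw, h0, card_ne_zero.1 hne⟩
    · right
      obtain ⟨j, hj, h4⟩ := loadProof_scale sc _ J (h3.trans_le hs) h0
      rw [mem_biUnion]
      refine ⟨j, mem_range.2 hj, ?_⟩
      rw [hW₁]
      simp only [mem_filter]
      exact ⟨hw, h4⟩
  refine h1.trans ?_
  have h2 : ∑ w ∈ W₀ ∪ (range J).biUnion W₁, (Mset N φ u w).card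
      ≤ ∑ w ∈ W₀, (Mset N φ u w).card + ∑ w ∈ (range J).biUnion W₁, (Mset N φ u w).card := by
    rw [← sum_union_inter]
    exact Nat.le_add_right _ _
  have h3 : ∑ w ∈ (range J).biUnion W₁, (Mset N φ u w).card
      ≤ ∑ j ∈ range J, ∑ w ∈ W₁ j, (Mset N φ u w).card :=
    loadProof_biUnion _ _ _
  refine h2.trans (Nat.add_le_add ?_ (h3.trans (sum_le_sum fun j hj => ?_)))
  · -- small codegree
    have h4 : W₀.card < n₉ := by
      have hch : ∀ w ∈ W₀, ∃ p, p ∈ Mset N φ u w := by
        intro w hw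
        rw [hW₀, mem_filter] at hw
        exact hw.2.2
      rcases W₀.eq_empty_or_nonempty with hemp | ⟨w₁, hw₁⟩
      · rw [hemp]
        exact hlight u (κ u) ∅ (by simp) (by simp)
      haveI : Nonempty (B × B) := ⟨(hch w₁ hw₁).choose⟩
      choose! c hc using hch
      have h5 : (W₀.image fun w => (w, c w)).card = W₀.card := by
        refine card_image_of_injective _ fun w w' h => ?_
        exact (Prod.mk.inj h).1
      rw [← h5]
      refine hlight u (κ u) _ ?_ ?_
      · intro t ht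
        rw [mem_image] at ht
        obtain ⟨w, hw, rfl⟩ := ht
        have h6 := hc w hw
        rw [hW₀, mem_filter] at hw
        obtain ⟨h7, h8, _⟩ := hWm w hw.1
        unfold Mset at h6
        simp only [mem_filter, mem_product] at h6
        exact ⟨h7, hw.2.1, h8, h6.1.1, h6.1.2, h6.2.1, h6.2.2⟩
      · intro t ht t' ht' hne
        rw [mem_image] at ht ht'
        obtain ⟨w, hw, rfl⟩ := ht
        obtain ⟨w', hw', rfl⟩ := ht'
        have hww : w ≠ w' := by
          rintro rfl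
          exact hne rfl
        refine ⟨hww, fun hsh => ?_⟩
        have h6 := hc w hw
        have h6' := hc w' hw'
        rw [hW₀, mem_filter] at hw hw'
        obtain ⟨h7, h8, _⟩ := hWm w hw.1
        obtain ⟨h7', h8', _⟩ := hWm w' hw'.1
        obtain ⟨_, h9 | h9⟩ := hE u w u w' h7.symm h7'.symm h8.symm h8'.symm rfl _ h6 _ h6' hsh
        · exact hww h9.2
        · exact h7' h9.1.symm
    calc ∑ w ∈ W₀, (Mset N φ u w).card ≤ ∑ _w ∈ W₀, n₈ 0 := by
          refine sum_le_sum fun w hw => ?_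
          rw [hW₀, mem_filter] at hw
          obtain ⟨h7, h8, _⟩ := hWm w hw.1
          exact (loadProof_pairs N κ φ hE u w h7.symm h8 (sc 0) (n₈ 0) hw.2.1
            (hpairs 0 (by omega))).le
      _ = W₀.card * n₈ 0 := by rw [sum_const, smul_eq_mul]
      _ ≤ n₉ * n₈ 0 := Nat.mul_le_mul h4.le le_rfl
  · rw [mem_range] at hj
    have h4 : (W₁ j).card < n₇ j := by
      refine lt_of_le_of_lt (card_le_card ?_) (hmates j hj u (κ u))
      intro w hw
      rw [hW₁] at hw
      simp only [mem_filter] at hw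
      obtain ⟨h7, h8, _⟩ := hWm w hw.1
      simp only [mem_filter, mem_univ, true_and]
      exact ⟨h7, hw.2.1, h8⟩
    calc ∑ w ∈ W₁ j, (Mset N φ u w).card ≤ ∑ _w ∈ W₁ j, n₈ (j + 1) := by
          refine sum_le_sum fun w hw => ?_
          rw [hW₁] at hw
          simp only [mem_filter] at hw
          obtain ⟨h7, h8, _⟩ := hWm w hw.1
          exact (loadProof_pairs N κ φ hE u w h7.symm h8 (sc (j + 1)) (n₈ (j + 1)) hw.2.2
            (hpairs (j + 1) (by omega))).le
      _ = (W₁ j).card * n₈ (j + 1) := by rw [sum_const, smul_eq_mul]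
      _ ≤ n₇ j * n₈ (j + 1) := Nat.mul_le_mul h4.le le_rfl

end Pool.Agent.Lib.BipAcyc
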