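import Pool.Agent.Lib.BipAcyc.ProcPick

/-!
CHUNK PC2. Balls and locality of the process.
-/

set_option autoImplicit false
set_option linter.unusedSectionVars false

namespace Pool.Agent.Lib.BipAcyc

open Finset

variable {A : Type*} [Fintype A] {b : ℕ} [NeZero b]

lemma procball_succ (Q : A → A → Prop) (t : ℕ) (u v : A) :
    v ∈ ball Q (t + 1) u ↔ v = u ∨ ∃ w, Q u w ∧ v ∈ ball Q t w := by
  classical
  simp [ball]

theorem mem_ball_self (Q : A → A → Prop) (t : ℕ) (u : A) : u ∈ ball Q t u := by
  cases t with
  | zero => simp [ball]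
  | succ t => rw [procball_succ]; exact Or.inl rfl

theorem ball_mono (Q : A → A → Prop) (t : ℕ) (u : A) : ball Q t u ⊆ ball Q (t + 1) u := by
  induction t generalizing u with
  | zero =>
    intro v hv
    rw [procball_succ]
    left
    simpa [ball] using hv
  | succ t ih =>
    intro v hv
    rw [procball_succ] at hv ⊢
    rcases hv with hv | ⟨w, h1, h2⟩
    · exact Or.inl hv
    · exact Or.inr ⟨w, h1, ih w h2⟩

lemma procball_mono (Q : A → A → Prop) {s t : ℕ} (h : s ≤ t) (u : A) :
    ball Q s u ⊆ ball Q t u := by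
  induction t, h using Nat.le_induction with
  | base => exact fun _ h => h
  | succ t _ ih => exact ih.trans (ball_mono Q t u)

theorem ball_trans (Q : A → A → Prop) (s t : ℕ) (u v w : A) (h1 : v ∈ ball Q s u)
    (h2 : w ∈ ball Q t v) : w ∈ ball Q (s + t) u := by
  induction s generalizing u with
  | zero =>
    have : v = u := by simpa [ball] using h1
    rw [Nat.zero_add, ← this]
    exact h2
  | succ s ih =>
    rw [procball_succ] at h1
    rcases h1 with rfl | ⟨x, h3, h4⟩
    · exact procball_mono Q (by omega) v h2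
    · have h5 := ih x h4
      rw [show s + 1 + t = s + t + 1 by omega, procball_succ]
      exact Or.inr ⟨x, h3, h5⟩

theorem ball_symm (Q : A → A → Prop) (hQ : ∀ u v, Q u v → Q v u) (t : ℕ) (u v : A)
    (h : v ∈ ball Q t u) : u ∈ ball Q t v := by
  induction t generalizing u with
  | zero =>
    have : v = u := by simpa [ball] using h
    rw [this]
    exact mem_ball_self Q 0 u
  | succ t ih =>
    rw [procball_succ] at h
    rcases h with rfl | ⟨x, h3, h4⟩
    · exact mem_ball_self Q _ v
    · have h5 := ih x h4
      have h6 : u ∈ ball Q 1 x := by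
        rw [procball_succ]
        exact Or.inr ⟨u, hQ _ _ h3, mem_ball_self Q 0 u⟩
      exact ball_trans Q t 1 v x u h5 h6

open Classical in
theorem card_ball_le (Q : A → A → Prop) (q : ℕ) (hq : ∀ u, (univ.filter (Q u)).card ≤ q)
    (t : ℕ) (u : A) : (ball Q t u).card ≤ (1 + q) ^ t := by
  induction t generalizing u with
  | zero => simp [ball]
  | succ t ih =>
    have h1 : (ball Q (t + 1) u).card ≤ ((univ.filter (Q u)).biUnion (ball Q t)).card + 1 := by
      have : ball Q (t + 1) u = insert u ((univ.filter (Q u)).biUnion (ball Q t)) := by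
        simp only [ball]
      rw [this]
      exact card_insert_le _ _
    have h2 : ((univ.filter (Q u)).biUnion (ball Q t)).card ≤ q * (1 + q) ^ t := by
      refine card_biUnion_le.trans ?_
      calc ∑ v ∈ univ.filter (Q u), (ball Q t v).card
          ≤ ∑ _v ∈ univ.filter (Q u), (1 + q) ^ t := sum_le_sum fun v _ => ih v
        _ = (univ.filter (Q u)).card * (1 + q) ^ t := by rw [sum_const, smul_eq_mul]
        _ ≤ q * (1 + q) ^ t := Nat.mul_le_mul_right _ (hq u)
    have h3 : 1 ≤ (1 + q) ^ t := Nat.one_le_pow _ _ (by omega)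
    have h4 : (1 + q) ^ (t + 1) = (1 + q) ^ t + q * (1 + q) ^ t := by ring
    omega

/-- Locality of the process: if two runs have the same rounds, seeds and conflicts on the ball of
radius `t` around `u` and the round of `u` is less than `t`, then `u` picks the same colour. -/
theorem pick_congr_ball {J J' : A → A → Prop} {ρ ρ' ξ ξ' : A → ℕ} (Q : A → A → Prop)
    (hQ : ∀ w w', J w w' → Q w w') (t : ℕ) (u : A)
    (hagree : ∀ w ∈ ball Q t u, ρ w = ρ' w ∧ ξ w = ξ' w ∧ ∀ w', J w w' ↔ J' w w')
    (hρ : ρ u < t) : pick b J ρ ξ u = pick b J' ρ' ξ' u := by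
  induction t generalizing u with
  | zero => omega
  | succ t ih =>
    obtain ⟨a1, a2, a3⟩ := hagree u (mem_ball_self Q _ u)
    rw [pick_eq, pick_eq, a2]
    congr 1
    ext a
    simp only [avail, mem_filter, mem_univ, true_and]
    refine forall_congr' fun w => ?_
    by_cases hJ : J u w
    · have hJ' : J' u w := (a3 w).1 hJ
      have hQw := hQ u w hJ
      have hsub : ball Q t w ⊆ ball Q (t + 1) u := by
        intro x hx
        rw [procball_succ]
        exact Or.inr ⟨w, hQw, hx⟩
      have hw := hagree w (hsub (mem_ball_self Q t w))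
      have e1 : ρ w < ρ u ↔ ρ' w < ρ' u := by rw [a1, hw.1]
      by_cases hlt : ρ w < ρ u
      · have h1 := ih w (fun x hx => hagree x (hsub hx)) (by omega)
        rw [h1, e1]
        simp [hJ, hJ']
      · have hlt' : ¬ ρ' w < ρ' u := fun h => hlt (e1.2 h)
        simp [hlt, hlt']
    · have hJ' : ¬ J' u w := fun h => hJ ((a3 w).2 h)
      simp [hJ, hJ']

end Pool.Agent.Lib.BipAcyc
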