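import Pool.Agent.Lib.BipAcyc.Process0

/-!
CHUNK PC3. Greedy colouring.
-/

set_option autoImplicit false
set_option linter.unusedSectionVars false

namespace Pool.Agent.Lib.BipAcyc

open Finset

variable {A : Type*} [Fintype A] {b : ℕ} [NeZero b]

/-- Greedy colouring: a symmetric relation in which every vertex of `U` is related to less than
`b` other vertices of `U` has a proper colouring of `U` with `b` colours. -/
theorem greedy_colouring (J : A → A → Prop) (hJ : ∀ u w, J u w → J w u)
    (U : Finset A) (hU : ∀ u ∈ U, ∃ S : Finset A, S.card < b ∧ ∀ w ∈ U, w ≠ u → J u w → w ∈ S) :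
    ∃ c : A → Fin b, ∀ u ∈ U, ∀ w ∈ U, u ≠ w → J u w → c u ≠ c w := by
  classical
  induction U using Finset.induction_on with
  | empty => exact ⟨fun _ => 0, by simp⟩
  | insert a U ha ih =>
    obtain ⟨c, hc⟩ := ih fun u hu => by
      obtain ⟨S, h1, h2⟩ := hU u (mem_insert_of_mem hu)
      exact ⟨S, h1, fun w hw => h2 w (mem_insert_of_mem hw)⟩
    obtain ⟨S, h1, h2⟩ := hU a (mem_insert_self _ _)
    have h3 : (S.image c).card < (univ : Finset (Fin b)).card := by
      rw [card_univ, Fintype.card_fin]
      exact lt_of_le_of_lt card_image_le h1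
    obtain ⟨k, -, hk⟩ := exists_mem_notMem_of_card_lt_card h3
    refine ⟨Function.update c a k, ?_⟩
    have hcu : ∀ u ∈ U, Function.update c a k u = c u := by
      intro u hu
      have hne : u ≠ a := by
        rintro rfl
        exact ha hu
      exact Function.update_of_ne hne _ _
    have hcol : ∀ w ∈ U, J a w → c w ≠ k := by
      intro w hw hJw h
      exact hk (mem_image.2 ⟨w, h2 w (mem_insert_of_mem hw) (fun e => ha (e ▸ hw)) hJw, h⟩)
    intro u hu w hw huw hJuw
    rcases mem_insert.1 hu with rfl | hu'
    · rcases mem_insert.1 hw with rfl | hw'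
      · exact absurd rfl huw
      · rw [Function.update_self, hcu w hw']
        exact (hcol w hw' hJuw).symm
    · rcases mem_insert.1 hw with rfl | hw'
      · rw [Function.update_self, hcu u hu']
        exact hcol u hu' (hJ _ _ hJuw)
      · rw [hcu u hu', hcu w hw']
        exact hc u hu' w hw' huw hJuw

end Pool.Agent.Lib.BipAcyc
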