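import Pool.Agent.Lib.BipAcyc.Prob
import Pool.Agent.Lib.BipAcyc.Process

/-!
Second stage: definitions. Coordinates `A ⊕ (A ⊕ B)`: the round of `u` is read from coordinate
`inl u`, the seed of `u` from `inr (inl u)`, the label of `y : B` from `inr (inr y)`; every
coordinate is uniform on `Fin r × Fin ℓ × Fin b`.
-/

set_option autoImplicit false
set_option linter.unusedSectionVars false

namespace Pool.Agent.Lib.BipAcyc

open Finset Pool.Agent.Lib.Prob48

/-- Parameters of the second stage. -/
structure Par where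
  /-- number of rounds -/
  r : ℕ
  /-- number of seeds -/
  ℓ : ℕ
  /-- number of sub-colours -/
  b : ℕ
  /-- bound on the number of conflicting mates -/
  h₀ : ℕ
  /-- bound on the number of conflicting mates of the same round -/
  d₀ : ℕ
  [hr : NeZero r]
  [hℓ : NeZero ℓ]
  [hb : NeZero b]

attribute [instance] Par.hr Par.hℓ Par.hb

/-- Values of the coordinates. -/
abbrev Par.Val (P : Par) : Type := Fin P.r × Fin P.ℓ × Fin P.b

/-- Outcomes. -/
abbrev Outc (P : Par) (A B : Type*) : Type _ := A ⊕ (A ⊕ B) → P.Val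

variable {A B : Type*} [Fintype A] [Fintype B] [LinearOrder A] [LinearOrder B]
variable {γ δ : Type*} [DecidableEq γ] [DecidableEq δ]
variable (P : Par)

/-- The uniform measure. -/
noncomputable def msr (A B : Type*) [Fintype A] [Fintype B] :
    Weights (fun _ : A ⊕ (A ⊕ B) => P.Val) :=
  unif (A ⊕ (A ⊕ B)) P.Val

variable {P}

/-- round of `u` -/
def rho (ω : Outc P A B) (u : A) : ℕ := (ω (Sum.inl u)).1.val

/-- seed of `u` -/
def xi (ω : Outc P A B) (u : A) : ℕ := (ω (Sum.inr (Sum.inl u))).2.1.val

/-- label of `y` -/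
def beta (ω : Outc P A B) (y : B) : Fin P.b := (ω (Sum.inr (Sum.inr y))).2.2

/-- `u` and `w` are in conflict because of the labels of their common neighbours -/
def Conf (N : A → Finset B) (φ : B → δ) (ω : Outc P A B) (u w : A) : Prop :=
  ∃ p ∈ Mset N φ u w, beta ω p.1 = beta ω p.2

/-- the conflict relation of the process -/
def JJ (N : A → Finset B) (κ : A → γ) (φ : B → δ) (s : ℕ) (ω : Outc P A B) (u w : A) : Prop :=
  w ≠ u ∧ κ w = κ u ∧ (s ≤ (com N u w).card ∨ Conf N φ ω u w)

/-- the potential conflicts -/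
def QQ (N : A → Finset B) (κ : A → γ) (φ : B → δ) (s : ℕ) (u w : A) : Prop :=
  w ≠ u ∧ κ w = κ u ∧ (s ≤ (com N u w).card ∨ (Mset N φ u w).Nonempty)

section process

variable (N : A → Finset B) (κ : A → γ) (φ : B → δ) (s : ℕ) (ω : Outc P A B)

/-- the picked colour -/
noncomputable def pk (u : A) : Fin P.b := pick P.b (JJ N κ φ s ω) (rho ω) (xi ω) u

/-- the available colours -/
noncomputable def av (u : A) : Finset (Fin P.b) := avail P.b (JJ N κ φ s ω) (rho ω) (xi ω) u

open Classical in
/-- the conflicting mates -/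
noncomputable def nbJ (u : A) : Finset A := univ.filter (JJ N κ φ s ω u)

open Classical in
/-- the conflicting mates of the same round -/
noncomputable def sameR (u : A) : Finset A :=
  (nbJ N κ φ s ω u).filter fun w => rho ω w = rho ω u

/-- `w` is left over: a conflicting mate of the same round with smaller index picked the same
colour -/
def Lft (w : A) : Prop := ∃ v ∈ sameR N κ φ s ω w, v < w ∧ pk N κ φ s ω v = pk N κ φ s ω w

/-- too few available colours -/
def BadF (u : A) : Prop := (av N κ φ s ω u).card < P.ℓ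

/-- too many conflicting mates -/
def BadH (u : A) : Prop := P.h₀ < (nbJ N κ φ s ω u).card

/-- too many conflicting mates of the same round -/
def BadD (u : A) : Prop :=
  (nbJ N κ φ s ω u).card ≤ P.h₀ ∧ P.d₀ < (sameR N κ φ s ω u).card

open Classical in
/-- too many conflicting mates are left over -/
def BadG (u : A) : Prop :=
  (nbJ N κ φ s ω u).card ≤ P.h₀ ∧
    P.b ≤ ((nbJ N κ φ s ω u).filter fun w => Lft N κ φ s ω w ∧ P.ℓ ≤ (av N κ φ s ω w).card ∧
      (sameR N κ φ s ω w).card ≤ P.d₀).card

/-- the bad event at `u` -/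
def Bad (u : A) : Prop :=
  BadF N κ φ s ω u ∨ BadH N κ φ s ω u ∨ BadD N κ φ s ω u ∨ BadG N κ φ s ω u

end process

open Classical in
/-- The coordinates on which `Bad u` depends. -/
noncomputable def supp (P : Par) (N : A → Finset B) (κ : A → γ) (φ : B → δ) (s : ℕ) (u : A) :
    Finset (A ⊕ (A ⊕ B)) :=
  univ.filter fun c =>
    match c with
    | Sum.inl w => w ∈ ball (QQ N κ φ s) (P.r + 2) u
    | Sum.inr (Sum.inl w) => w ∈ ball (QQ N κ φ s) (P.r + 2) u
    | Sum.inr (Sum.inr y) => ∃ w ∈ ball (QQ N κ φ s) (P.r + 2) u, y ∈ N w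

end Pool.Agent.Lib.BipAcyc
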