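import Pool.Agent.Lib.BipAcyc.ParVals

/-!
CHUNK PA (static). With `y = D^(1/24000)` and `l = (log D)^(1/3)`, `1 ≤ l ≤ y`, all sizes are powers
of `y` up to constants and powers of `l`:
`h = ⌈y^20000⌉`, `t = ⌈y^30⌉`, `k₀ = ⌈y^15880⌉` (`= D^(2/3 - 1/200)`),
`sc j = 2^j k₀`, `J` the least number with `s ≤ 2^J k₀`,
`n₆ = b/4 + 1` (so `4 n₆ ≤ b + 4`, and `D^2 e /(s n₆ X) ≤ 4e/30 ≤ 1/e`),
`n₇ j = ⌈e^2 D^2/(sc j X)⌉ + t`, `n₈ j = ⌈e^2 (sc j)^2/X⌉ + t`, `n₉ = ⌈y^390⌉`, `n = ⌈y^720⌉`.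
`n₇ j n₈(j+1) ≤ (e^2D^2/(sc j X) + t + 1)(4e^2 (sc j)^2/X + t + 1)`: main term
`4 e^4 D^2 sc j / X^2`, summed over `j`: `≤ 8 e^4 D^2 s/X^2 ≤ 480 e^4 l^3 b^2/K^3`.
-/

set_option autoImplicit false
set_option linter.unusedSectionVars false

namespace Pool.Agent.Lib.BipAcyc

open Finset Filter

/-- The relations between the parameters. -/
structure PSData (K y l : ℝ) (D b X s : ℕ) : Prop where
  hK : 1 ≤ K
  hKy : K ^ 3 ≤ y
  hy : 10 ^ 6 ≤ y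
  hl : 1 ≤ l
  hly : l ≤ y
  hD : (D : ℝ) = y ^ 24000
  hb1 : y ^ 240 ≤ (b : ℝ)
  hb2 : (b : ℝ) ≤ 2 * y ^ 240
  hX1 : K * y ^ 32000 ≤ l * (b * X)
  hX2 : l * (b * X) ≤ 2 * (K * y ^ 32000)
  hs1 : 30 * (l * y ^ 16000) ≤ K * s
  hs2 : K * s ≤ 60 * (l * y ^ 16000)
  he : y ^ 100000 ≤ Real.exp y

namespace PSData

variable {K y l : ℝ} {D b X s : ℕ}

lemma y0 (P : PSData K y l D b X s) : 0 < y := by have := P.hy; linarith
lemma y1 (P : PSData K y l D b X s) : 1 ≤ y := by have := P.hy; linarith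
lemma K0 (P : PSData K y l D b X s) : 0 < K := by have := P.hK; linarith
lemma l0 (P : PSData K y l D b X s) : 0 < l := by have := P.hl; linarith

lemma Ky (P : PSData K y l D b X s) : K ≤ y := by
  have h1 : K ^ 1 ≤ K ^ 3 := pow_le_pow_right₀ P.hK (by norm_num)
  have h2 := P.hKy
  rw [pow_one] at h1
  linarith

lemma X_lower (P : PSData K y l D b X s) : y ^ 31758 ≤ (X : ℝ) := by
  have y0 := P.y0
  have y1 := P.y1
  have hy := P.hy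
  have hl := P.hl
  have hly := P.hly
  have hb2 := P.hb2
  have h0 : y ^ 32000 ≤ K * y ^ 32000 := by
    have h : 0 ≤ y ^ 32000 := by positivity
    have := P.hK
    nlinarith
  have h1 : l * (b * X) ≤ y * (y * y ^ 240 * X) := by
    have h3 : (b : ℝ) ≤ y * y ^ 240 := by
      have h : 0 ≤ y ^ 240 := by positivity
      nlinarith
    gcongr
  have h2 : y ^ 242 * y ^ 31758 ≤ y ^ 242 * X := by
    have e1 : y ^ 242 * y ^ 31758 = y ^ 32000 := by ring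
    have e2 : y ^ 242 * (X : ℝ) = y * (y * y ^ 240 * X) := by ring
    rw [e1, e2]
    have := P.hX1
    linarith
  exact le_of_mul_le_mul_left h2 (by positivity)

lemma X0 (P : PSData K y l D b X s) : (0 : ℝ) < X := by
  have h := P.X_lower
  have y0 := P.y0
  have h1 : 0 < y ^ 31758 := by positivity
  linarith

lemma b0 (P : PSData K y l D b X s) : (0 : ℝ) < b := by
  have h := P.hb1
  have y0 := P.y0
  have h1 : 0 < y ^ 240 := by positivity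
  linarith

lemma X_upper (P : PSData K y l D b X s) : (X : ℝ) ≤ y ^ 31762 := by
  have y0 := P.y0
  have y1 := P.y1
  have hy := P.hy
  have hl := P.hl
  have X0 := P.X0
  have b0 := P.b0
  have h1 : y ^ 240 * (X : ℝ) ≤ l * (b * X) := by
    calc y ^ 240 * (X : ℝ) ≤ 1 * (b * X) := by
          rw [one_mul]
          have := P.hb1
          gcongr
      _ ≤ l * (b * X) := by gcongr
  have h2 : 2 * (K * y ^ 32000) ≤ y * (y * y ^ 32000) := by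
    have := P.Ky
    have := P.K0
    gcongr
    linarith
  have h3 : y ^ 240 * (X : ℝ) ≤ y ^ 240 * y ^ 31762 := by
    have e : y ^ 240 * y ^ 31762 = y * (y * y ^ 32000) := by ring
    rw [e]
    have := P.hX2
    linarith
  exact le_of_mul_le_mul_left h3 (by positivity)

lemma s_upper' (P : PSData K y l D b X s) : (s : ℝ) ≤ 60 * (l * y ^ 16000) := by
  have hK := P.hK
  have hs := P.hs2
  have h : (s : ℝ) ≤ K * s := by
    have : (0 : ℝ) ≤ s := Nat.cast_nonneg s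
    nlinarith
  linarith

lemma s_upper (P : PSData K y l D b X s) : (s : ℝ) ≤ y ^ 16002 := by
  have y0 := P.y0
  have hy := P.hy
  have l0 := P.l0
  have h := P.s_upper'
  have h1 : 60 * (l * y ^ 16000) ≤ y * (y * y ^ 16000) := by
    have := P.hly
    gcongr
    linarith
  have e : y ^ 16002 = y * (y * y ^ 16000) := by ring
  rw [e]
  linarith

lemma s0 (P : PSData K y l D b X s) : (0 : ℝ) < s := by
  have y0 := P.y0
  have l0 := P.l0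
  have hs := P.hs1
  have h1 : 0 < 30 * (l * y ^ 16000) := by positivity
  have h2 : 0 < K * (s : ℝ) := by linarith
  exact pos_of_mul_pos_right h2 P.K0.le

end PSData

lemma ps_exp_two : Real.exp 1 ^ 2 ≤ 7.4 := by
  have h := Real.exp_one_lt_d9
  have h0 := Real.exp_pos 1
  nlinarith

lemma ps_exp_four : Real.exp 1 ^ 4 ≤ 55 := by
  have h := ps_exp_two
  have h0 := Real.exp_pos 1
  have h1 : Real.exp 1 ^ 4 = (Real.exp 1 ^ 2) ^ 2 := by ring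
  have h2 : 0 < Real.exp 1 ^ 2 := by positivity
  rw [h1]
  nlinarith

/-- Powers of a number at most `1/e`. -/
lemma ps_pow_le {x y : ℝ} {n : ℕ} (hx : 0 ≤ x) (hx1 : Real.exp 1 * x ≤ 1) (hn : y ≤ n) :
    x ^ n ≤ Real.exp (-y) := by
  have h1 : x ≤ Real.exp (-1) := by
    rw [Real.exp_neg, ← one_div, le_div_iff₀ (Real.exp_pos 1)]
    linarith
  calc x ^ n ≤ Real.exp (-1) ^ n := pow_le_pow_left₀ hx h1 n
    _ = Real.exp (-n) := by rw [← Real.exp_nat_mul]; congr 1; ring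
    _ ≤ Real.exp (-y) := Real.exp_le_exp.2 (by linarith)

/-- `e (e A / (B (⌈e^2 A / B⌉ + t))) ≤ 1`. -/
lemma ps_ratio {A B : ℝ} {m : ℕ} (hB : 0 < B) (hm : 0 < (m : ℝ))
    (h : Real.exp 1 ^ 2 * A ≤ B * m) :
    Real.exp 1 * (Real.exp 1 * A / (B * m)) ≤ 1 := by
  rw [← mul_div_assoc, div_le_one (by positivity)]
  nlinarith

/-- The number of scales. -/
lemma ps_J {y : ℝ} {s k₀ J : ℕ} (hy : 10 ^ 6 ≤ y) (hs : (s : ℝ) ≤ y ^ 16002)
    (hk : y ^ 15880 ≤ (k₀ : ℝ)) (hJ : ∀ j < J, 2 ^ j * k₀ < s) : (J : ℝ) ≤ y ^ 2 := by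
  have y0 : 0 < y := by linarith
  rcases J with _ | m
  · simp only [Nat.cast_zero]
    positivity
  have h1 : (2 : ℝ) ^ m * k₀ ≤ s := by
    have := (hJ m (Nat.lt_succ_self m)).le
    exact_mod_cast this
  have h2 : (2 : ℝ) ^ m ≤ y ^ 122 := by
    have h3 : (2 : ℝ) ^ m * y ^ 15880 ≤ y ^ 122 * y ^ 15880 := by
      have e : y ^ 122 * y ^ 15880 = y ^ 16002 := by ring
      rw [e]
      have h4 : (2 : ℝ) ^ m * y ^ 15880 ≤ (2 : ℝ) ^ m * k₀ := by gcongr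
      linarith
    exact le_of_mul_le_mul_right h3 (by positivity)
  have h3 : (m : ℝ) * Real.log 2 ≤ 122 * Real.log y := by
    have := Real.log_le_log (by positivity) h2
    rw [Real.log_pow, Real.log_pow] at this
    exact_mod_cast this
  have h4 : Real.log y ≤ y := by
    have := Real.log_le_sub_one_of_pos y0
    linarith
  have h5 : (1 / 2 : ℝ) ≤ Real.log 2 := by
    have := Real.log_two_gt_d9
    linarith
  have h6 : (m : ℝ) * (1 / 2) ≤ 122 * y := by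
    have h7 : (m : ℝ) * (1 / 2) ≤ (m : ℝ) * Real.log 2 := by gcongr
    linarith
  push_cast
  nlinarith

/-- Bound for a sum over the scales. -/
lemma ps_geom {s k₀ J : ℕ} (hJ : ∀ j < J, 2 ^ j * k₀ < s) :
    ∑ j ∈ range J, ((2 : ℝ) ^ j * k₀) ≤ 2 * s := by
  rw [← Finset.sum_mul, geom_sum_eq (by norm_num)]
  rcases J with _ | m
  · simp
  have h1 : (2 : ℝ) ^ m * k₀ ≤ s := by
    have := (hJ m (Nat.lt_succ_self m)).le
    exact_mod_cast this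
  have h2 : (0 : ℝ) ≤ k₀ := Nat.cast_nonneg _
  have e : ((2 : ℝ) ^ (m + 1) - 1) / (2 - 1) * k₀ = 2 * (2 ^ m * k₀) - k₀ := by ring
  rw [e]
  linarith

lemma ps_prod {E D X T S k s m₇ m₈ : ℝ} (hX : 0 < X) (hT : 0 ≤ T)
    (hk : 0 < k) (hS : k ≤ S) (hs : S ≤ s) (hm : 0 ≤ m₈)
    (h7 : m₇ ≤ E ^ 2 * D ^ 2 / (S * X) + T) (h8 : m₈ ≤ 4 * E ^ 2 * S ^ 2 / X + T) :
    m₇ * m₈ ≤ 4 * E ^ 4 * D ^ 2 / X ^ 2 * S + T * (E ^ 2 * D ^ 2 / (k * X))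
      + T * (4 * E ^ 2 * s ^ 2 / X) + T * T := by
  have hS0 : 0 < S := by linarith
  have d9 : m₇ * m₈ ≤ (E ^ 2 * D ^ 2 / (S * X) + T) * (4 * E ^ 2 * S ^ 2 / X + T) := by
    gcongr
  have d10 : (E ^ 2 * D ^ 2 / (S * X) + T) * (4 * E ^ 2 * S ^ 2 / X + T)
      = 4 * E ^ 4 * D ^ 2 / X ^ 2 * S + T * (E ^ 2 * D ^ 2 / (S * X))
        + T * (4 * E ^ 2 * S ^ 2 / X) + T * T := by
    field_simp
    ring
  have d11 : T * (E ^ 2 * D ^ 2 / (S * X)) ≤ T * (E ^ 2 * D ^ 2 / (k * X)) := by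
    gcongr
  have d12 : T * (4 * E ^ 2 * S ^ 2 / X) ≤ T * (4 * E ^ 2 * s ^ 2 / X) := by
    gcongr
  linarith

/-- First term of the load. -/
lemma ps_loadA {y k X t n₉ n₈ E : ℝ} (hy : 10 ^ 6 ≤ y) (hk : 0 ≤ k) (hk2 : k ≤ 2 * y ^ 15880)
    (hX : y ^ 31758 ≤ X) (ht : t ≤ y ^ 30 + 1) (hn : n₉ ≤ 2 * y ^ 390) (hE : E ^ 2 ≤ 7.4)
    (h0 : 0 ≤ n₈) (h8 : n₈ ≤ E ^ 2 * k ^ 2 / X + (t + 1)) : n₉ * n₈ ≤ y ^ 421 := by
  have y0 : 0 < y := by linarith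
  have y1 : 1 ≤ y := by linarith
  have X0 : 0 < X := lt_of_lt_of_le (by positivity) hX
  have a1 : n₈ ≤ 3 * y ^ 30 := by
    have h1 : E ^ 2 * k ^ 2 / X ≤ 30 * y ^ 2 := by
      rw [div_le_iff₀ X0]
      calc E ^ 2 * k ^ 2 ≤ 7.4 * (2 * y ^ 15880) ^ 2 := by gcongr
        _ = 29.6 * y ^ 31760 := by ring
        _ ≤ 30 * y ^ 31760 := by
            have : 0 < y ^ 31760 := by positivity
            nlinarith
        _ = 30 * y ^ 2 * y ^ 31758 := by ring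
        _ ≤ 30 * y ^ 2 * X := by gcongr
    have h2 : 30 * y ^ 2 + 2 ≤ y ^ 30 := by
      calc 30 * y ^ 2 + 2 ≤ y * y ^ 2 := by nlinarith
        _ = y ^ 3 := by ring
        _ ≤ y ^ 30 := pow_le_pow_right₀ y1 (by norm_num)
    linarith
  calc n₉ * n₈ ≤ (2 * y ^ 390) * (3 * y ^ 30) := by gcongr
    _ = 6 * y ^ 420 := by ring
    _ ≤ y * y ^ 420 := by gcongr; linarith
    _ = y ^ 421 := by ring

lemma ps_loadB {y k X s T D E : ℝ} (hy : 10 ^ 6 ≤ y) (hk1 : y ^ 15880 ≤ k)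
    (hX : y ^ 31758 ≤ X) (hT0 : 0 ≤ T) (hT : T ≤ 2 * y ^ 30) (hE : E ^ 2 ≤ 7.4)
    (hs0 : 0 ≤ s) (hs : s ≤ y ^ 16002) (hD : D = y ^ 24000) :
    T * (E ^ 2 * D ^ 2 / (k * X)) + T * (4 * E ^ 2 * s ^ 2 / X) + T * T ≤ y ^ 393 := by
  have y0 : 0 < y := by linarith
  have y1 : 1 ≤ y := by linarith
  have X0 : 0 < X := lt_of_lt_of_le (by positivity) hX
  have k0 : 0 < k := lt_of_lt_of_le (by positivity) hk1
  have hDD : D ^ 2 = y ^ 48000 := by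
    rw [hD]; ring
  have a3 : T * (E ^ 2 * D ^ 2 / (k * X)) ≤ 15 * y ^ 392 := by
    rw [← mul_div_assoc, div_le_iff₀ (by positivity), hDD]
    calc T * (E ^ 2 * y ^ 48000) ≤ (2 * y ^ 30) * (7.4 * y ^ 48000) := by gcongr
      _ = 14.8 * y ^ 48030 := by ring
      _ ≤ 15 * y ^ 48030 := by
            have : 0 < y ^ 48030 := by positivity
            nlinarith
      _ = 15 * y ^ 392 * (y ^ 15880 * y ^ 31758) := by ring
      _ ≤ 15 * y ^ 392 * (k * X) := by gcongr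
  have a4 : T * (4 * E ^ 2 * s ^ 2 / X) ≤ 60 * y ^ 276 := by
    rw [← mul_div_assoc, div_le_iff₀ X0]
    calc T * (4 * E ^ 2 * s ^ 2) ≤ (2 * y ^ 30) * (4 * 7.4 * (y ^ 16002) ^ 2) := by gcongr
      _ = 59.2 * y ^ 32034 := by ring
      _ ≤ 60 * y ^ 32034 := by
            have : 0 < y ^ 32034 := by positivity
            nlinarith
      _ = 60 * y ^ 276 * y ^ 31758 := by ring
      _ ≤ 60 * y ^ 276 * X := by gcongr
  have a5 : T * T ≤ 4 * y ^ 60 := by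
    calc T * T ≤ (2 * y ^ 30) * (2 * y ^ 30) := by gcongr
      _ = 4 * y ^ 60 := by ring
  have b1 : y ^ 276 ≤ y ^ 392 := pow_le_pow_right₀ y1 (by norm_num)
  have b2 : y ^ 60 ≤ y ^ 392 := pow_le_pow_right₀ y1 (by norm_num)
  have b3 : y ^ 393 = y * y ^ 392 := by ring
  have b4 : 0 < y ^ 392 := by positivity
  rw [b3]
  nlinarith

/-- The main term. -/
lemma ps_loadC {y X s D K l b : ℝ} (hy : 10 ^ 6 ≤ y) (hK : 1 ≤ K) (hl : 1 ≤ l) (hX0 : 0 < X)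
    (hX : K * y ^ 32000 ≤ l * (b * X)) (hs : K * s ≤ 60 * (l * y ^ 16000))
    (hD : D = y ^ 24000) :
    D ^ 2 * s / X ^ 2 ≤ 60 * (l ^ 3 * b ^ 2 / K ^ 3) := by
  have y0 : 0 < y := by linarith
  have K0 : 0 < K := by linarith
  have l0 : 0 < l := by linarith
  have hDD : D ^ 2 = y ^ 48000 := by
    rw [hD]; ring
  rw [div_le_iff₀ (by positivity)]
  have b3 : (K * y ^ 32000) ^ 2 ≤ (l * (b * X)) ^ 2 := pow_le_pow_left₀ (by positivity) hX 2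
  have b4 : K ^ 3 * (D ^ 2 * s) ≤ 60 * (l ^ 3 * b ^ 2) * X ^ 2 := by
    calc K ^ 3 * (D ^ 2 * s) = K ^ 2 * y ^ 48000 * (K * s) := by rw [hDD]; ring
      _ ≤ K ^ 2 * y ^ 48000 * (60 * (l * y ^ 16000)) := by gcongr
      _ = 60 * l * (K * y ^ 32000) ^ 2 := by ring
      _ ≤ 60 * l * (l * (b * X)) ^ 2 := by gcongr
      _ = 60 * (l ^ 3 * b ^ 2) * X ^ 2 := by ring
  have b5 : 60 * (l ^ 3 * b ^ 2 / K ^ 3) * X ^ 2
      = (60 * (l ^ 3 * b ^ 2) * X ^ 2) / K ^ 3 := by ring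
  rw [b5, le_div_iff₀ (by positivity)]
  linarith

lemma ps_loadD {y K l b : ℝ} (hy : 10 ^ 6 ≤ y) (hK : 1 ≤ K) (hKy : K ^ 3 ≤ y) (hl : 1 ≤ l)
    (hb : y ^ 240 ≤ b) : y ^ 479 ≤ l ^ 3 * b ^ 2 / K ^ 3 := by
  have y0 : 0 < y := by linarith
  have K0 : 0 < K := by linarith
  rw [le_div_iff₀ (by positivity)]
  have b1 : (y ^ 240) ^ 2 ≤ b ^ 2 := pow_le_pow_left₀ (by positivity) hb 2
  have b2 : 1 ≤ l ^ 3 := one_le_pow₀ hl
  calc y ^ 479 * K ^ 3 ≤ y ^ 479 * y := by gcongr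
    _ = 1 * (y ^ 240) ^ 2 := by ring
    _ ≤ l ^ 3 * b ^ 2 := by gcongr

/-- The load. -/
lemma ps_load {K y l : ℝ} {D b X s : ℕ} (P : PSData K y l D b X s) {k₀ t n₉ J : ℕ}
    (hk1 : y ^ 15880 ≤ (k₀ : ℝ)) (hk2 : (k₀ : ℝ) ≤ 2 * y ^ 15880)
    (ht : (t : ℝ) ≤ y ^ 30 + 1) (hn : (n₉ : ℝ) ≤ 2 * y ^ 390)
    (hJ : ∀ j < J, 2 ^ j * k₀ < s) (n₇ n₈ : ℕ → ℕ)
    (h7 : ∀ j, (n₇ j : ℝ) ≤ Real.exp 1 ^ 2 * (D : ℝ) ^ 2 / ((2 ^ j * k₀) * X) + (t + 1))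
    (h8 : ∀ j, (n₈ j : ℝ) ≤ Real.exp 1 ^ 2 * (2 ^ j * k₀) ^ 2 / X + (t + 1)) :
    (n₉ : ℝ) * n₈ 0 + ∑ j ∈ range J, (n₇ j : ℝ) * n₈ (j + 1)
      ≤ 60000 * (l ^ 3 * (b : ℝ) ^ 2 / K ^ 3) := by
  have y0 := P.y0
  have y1 := P.y1
  have hy := P.hy
  have hJy := ps_J hy P.s_upper hk1 hJ
  have k0 : (0 : ℝ) < k₀ := lt_of_lt_of_le (by positivity) hk1
  have hT : (t : ℝ) + 1 ≤ 2 * y ^ 30 := by
    have : y ^ 1 ≤ y ^ 30 := pow_le_pow_right₀ y1 (by norm_num)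
    rw [pow_one] at this
    linarith
  have hT0 : (0 : ℝ) ≤ (t : ℝ) + 1 := by positivity
  have a2 : (n₉ : ℝ) * n₈ 0 ≤ y ^ 421 := by
    have h := h8 0
    rw [pow_zero, one_mul] at h
    exact ps_loadA hy k0.le hk2 P.X_lower ht hn ps_exp_two (Nat.cast_nonneg _) h
  have a6 := ps_loadB hy hk1 P.X_lower hT0 hT ps_exp_two (Nat.cast_nonneg s) P.s_upper P.hD
  have a9 := ps_loadC hy P.hK P.hl P.X0 P.hX1 P.hs2 P.hD
  have a10 := ps_loadD hy P.hK P.hKy P.hl P.hb1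
  have X0 := P.X0
  clear P
  have he4 := ps_exp_four
  have e0 := Real.exp_pos 1
  generalize Real.exp 1 = E at *
  generalize (t : ℝ) + 1 = T at *
  have a7 : ∀ j ∈ range J, (n₇ j : ℝ) * n₈ (j + 1)
      ≤ 4 * E ^ 4 * (D : ℝ) ^ 2 / (X : ℝ) ^ 2 * (2 ^ j * k₀) + y ^ 393 := by
    intro j hj
    have hjJ := hJ j (mem_range.1 hj)
    have c2 : (k₀ : ℝ) ≤ 2 ^ j * k₀ := by
      have : (1 : ℝ) ≤ 2 ^ j := one_le_pow₀ (by norm_num)
      nlinarith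
    have c3 : (2 : ℝ) ^ j * k₀ ≤ s := by exact_mod_cast hjJ.le
    have d7 := h7 j
    have d8 := h8 (j + 1)
    have e8 : E ^ 2 * ((2 : ℝ) ^ (j + 1) * k₀) ^ 2 / X = 4 * E ^ 2 * (2 ^ j * k₀) ^ 2 / X := by
      ring
    rw [e8] at d8
    have d9 := ps_prod X0 hT0 k0 c2 c3 (Nat.cast_nonneg (n₈ (j + 1))) d7 d8
    linarith
  have a8 : ∑ j ∈ range J, (n₇ j : ℝ) * n₈ (j + 1)
      ≤ 8 * E ^ 4 * ((D : ℝ) ^ 2 * s / (X : ℝ) ^ 2) + y ^ 395 := by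
    have b1 := Finset.sum_le_sum a7
    rw [Finset.sum_add_distrib, ← Finset.mul_sum] at b1
    have b2 := ps_geom hJ
    have b3 : 4 * E ^ 4 * (D : ℝ) ^ 2 / (X : ℝ) ^ 2 * ∑ j ∈ range J, ((2 : ℝ) ^ j * k₀)
        ≤ 4 * E ^ 4 * (D : ℝ) ^ 2 / (X : ℝ) ^ 2 * (2 * s) := by
      exact mul_le_mul_of_nonneg_left b2 (by positivity)
    have b4 : 4 * E ^ 4 * (D : ℝ) ^ 2 / (X : ℝ) ^ 2 * (2 * s)
        = 8 * E ^ 4 * ((D : ℝ) ^ 2 * s / (X : ℝ) ^ 2) := by ring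
    have b5 : ∑ _j ∈ range J, y ^ 393 ≤ y ^ 395 := by
      rw [Finset.sum_const, Finset.card_range, nsmul_eq_mul]
      have b6 : y ^ 395 = y ^ 2 * y ^ 393 := by ring
      rw [b6]
      exact mul_le_mul_of_nonneg_right hJy (by positivity)
    linarith
  have a12 : y ^ 421 ≤ y ^ 479 := pow_le_pow_right₀ y1 (by norm_num)
  have a13 : y ^ 395 ≤ y ^ 479 := pow_le_pow_right₀ y1 (by norm_num)
  have a14 : 0 < y ^ 479 := by positivity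
  have a15 : 0 ≤ (D : ℝ) ^ 2 * s / (X : ℝ) ^ 2 := by positivity
  generalize (D : ℝ) ^ 2 * s / (X : ℝ) ^ 2 = W at *
  generalize l ^ 3 * (b : ℝ) ^ 2 / K ^ 3 = Q at *
  have a11 : 8 * E ^ 4 * W ≤ 8 * 55 * (60 * Q) := by
    have : 8 * E ^ 4 ≤ 8 * 55 := by linarith
    exact mul_le_mul this a9 a15 (by norm_num)
  linarith

lemma ps_term {y a B : ℝ} (hy : 0 < y) (hB : 0 < B) (h : a * y ^ 1000 ≤ B) :
    a / B ≤ 1 / y ^ 1000 := by
  rw [div_le_div_iff₀ hB (by positivity)]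
  linarith

lemma ps_A1 {y D X : ℝ} (hy : 10 ^ 6 ≤ y) (hX : y ^ 31758 ≤ X) (hD : D = y ^ 24000) :
    3 * D ^ 5 / X ^ 4 ≤ 1 / y ^ 1000 := by
  have y0 : 0 < y := by linarith
  have y1 : 1 ≤ y := by linarith
  have X0 : 0 < X := lt_of_lt_of_le (by positivity) hX
  refine ps_term y0 (by positivity) ?_
  calc 3 * D ^ 5 * y ^ 1000 = 3 * y ^ 121000 := by rw [hD]; ring
    _ ≤ y * y ^ 121000 := by gcongr; linarith
    _ = y ^ 121001 := by ring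
    _ ≤ y ^ 127032 := pow_le_pow_right₀ y1 (by norm_num)
    _ = (y ^ 31758) ^ 4 := by ring
    _ ≤ X ^ 4 := by gcongr

lemma ps_A2 {y D X h : ℝ} (hy : 10 ^ 6 ≤ y) (hX : y ^ 31758 ≤ X) (hD : D = y ^ 24000)
    (h0 : 0 ≤ h) (hh : h ≤ 2 * y ^ 20000) :
    2 * (3 * D ^ 2 * h ^ 2 / X ^ 3) ≤ 1 / y ^ 1000 := by
  have y0 : 0 < y := by linarith
  have y1 : 1 ≤ y := by linarith
  have X0 : 0 < X := lt_of_lt_of_le (by positivity) hX
  rw [← mul_div_assoc]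
  refine ps_term y0 (by positivity) ?_
  calc 2 * (3 * D ^ 2 * h ^ 2) * y ^ 1000
      ≤ 2 * (3 * D ^ 2 * (2 * y ^ 20000) ^ 2) * y ^ 1000 := by gcongr
    _ = 24 * y ^ 89000 := by rw [hD]; ring
    _ ≤ y * y ^ 89000 := by gcongr; linarith
    _ = y ^ 89001 := by ring
    _ ≤ y ^ 95274 := pow_le_pow_right₀ y1 (by norm_num)
    _ = (y ^ 31758) ^ 3 := by ring
    _ ≤ X ^ 3 := by gcongr

lemma ps_A3 {y D X h : ℝ} (hy : 10 ^ 6 ≤ y) (hX : y ^ 31758 ≤ X) (hD : D = y ^ 24000)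
    (hh : y ^ 20000 ≤ h) :
    2 * (2 * D ^ 2 / (h * X)) ≤ 1 / y ^ 1000 := by
  have y0 : 0 < y := by linarith
  have y1 : 1 ≤ y := by linarith
  have X0 : 0 < X := lt_of_lt_of_le (by positivity) hX
  have h0 : 0 < h := lt_of_lt_of_le (by positivity) hh
  rw [← mul_div_assoc]
  refine ps_term y0 (by positivity) ?_
  calc 2 * (2 * D ^ 2) * y ^ 1000 = 4 * y ^ 49000 := by rw [hD]; ring
    _ ≤ y * y ^ 49000 := by gcongr; linarith
    _ = y ^ 49001 := by ring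
    _ ≤ y ^ 51758 := pow_le_pow_right₀ y1 (by norm_num)
    _ = y ^ 20000 * y ^ 31758 := by ring
    _ ≤ h * X := by gcongr

/-- The exponentially small terms. -/
lemma ps_A4 {y D X M c : ℝ} (hy : 10 ^ 6 ≤ y) (hX0 : 0 ≤ X) (hX : X ≤ y ^ 31762)
    (hD : D = y ^ 24000) (hc0 : 0 ≤ c)
    (hc : c ≤ Real.exp (-y)) (he : y ^ 100000 ≤ Real.exp y) (hM : M ≤ 2 * y ^ 2) :
    M * (D ^ 2 * X * c) ≤ 1 / y ^ 1000 := by
  have y0 : 0 < y := by linarith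
  have y1 : 1 ≤ y := by linarith
  have h1 : Real.exp (-y) ≤ 1 / y ^ 100000 := by
    rw [Real.exp_neg, ← one_div]
    exact one_div_le_one_div_of_le (by positivity) he
  have h3 : c ≤ 1 / y ^ 100000 := hc.trans h1
  have h2 : M * (D ^ 2 * X * c) ≤ (2 * y ^ 2) * (D ^ 2 * y ^ 31762 * (1 / y ^ 100000)) := by
    gcongr
  have h4 : (2 * y ^ 2) * (D ^ 2 * y ^ 31762 * (1 / y ^ 100000))
      = (2 * y ^ 79764) / y ^ 100000 := by rw [hD]; ring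
  rw [h4] at h2
  refine h2.trans (ps_term y0 (by positivity) ?_)
  calc 2 * y ^ 79764 * y ^ 1000 = 2 * y ^ 80764 := by ring
    _ ≤ y * y ^ 80764 := by gcongr; linarith
    _ = y ^ 80765 := by ring
    _ ≤ y ^ 100000 := pow_le_pow_right₀ y1 (by norm_num)

/-- The sum of the probabilities. -/
lemma ps_sum {y : ℝ} {D X s h n₆ J n₉ : ℕ} {sc n₇ n₈ : ℕ → ℕ} (hy : 10 ^ 6 ≤ y)
    (hX1 : y ^ 31758 ≤ (X : ℝ)) (hX2 : (X : ℝ) ≤ y ^ 31762) (hD : (D : ℝ) = y ^ 24000)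
    (hh1 : y ^ 20000 ≤ (h : ℝ)) (hh2 : (h : ℝ) ≤ 2 * y ^ 20000)
    (he : y ^ 100000 ≤ Real.exp y) (hJ : (J : ℝ) ≤ y ^ 2)
    (c6 : (Real.exp 1 * (D : ℝ) ^ 2 / (s * n₆ * X)) ^ n₆ ≤ Real.exp (-y))
    (c7 : ∀ j < J, (Real.exp 1 * (D : ℝ) ^ 2 / (sc j * n₇ j * X)) ^ n₇ j ≤ Real.exp (-y))
    (c8 : ∀ j < J + 1, (Real.exp 1 * (sc j : ℝ) ^ 2 / (2 * n₈ j * X)) ^ n₈ j ≤ Real.exp (-y))
    (c9 : (Real.exp 1 * (D : ℝ) ^ 2 * (sc 0 : ℕ) / (2 * n₉ * (X : ℝ) ^ 2)) ^ n₉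
      ≤ Real.exp (-y)) :
    staticSum D X s h n₆ J n₉ sc n₇ n₈ ≤ 7 / y ^ 1000 := by
  have y0 : 0 < y := by linarith
  have y1 : 1 ≤ y := by linarith
  have X0 : (0 : ℝ) < X := lt_of_lt_of_le (by positivity) hX1
  have hX1' : (1 : ℝ) ≤ X := by
    have : 1 ≤ y ^ 31758 := one_le_pow₀ y1
    linarith
  have ex0 := (Real.exp_pos (-y)).le
  have hM1 : (1 : ℝ) ≤ 2 * y ^ 2 := by
    have : 1 ≤ y ^ 2 := one_le_pow₀ y1
    linarith
  unfold staticSum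
  have t1 := ps_A1 hy hX1 hD
  have t2 := ps_A2 hy hX1 hD (Nat.cast_nonneg h) hh2
  have t3 := ps_A3 hy hX1 hD hh1
  have t4 := ps_A4 hy X0.le hX2 hD (by positivity) c6 he hM1
  have t7 := ps_A4 hy X0.le hX2 hD (by positivity) c9 he hM1
  rw [one_mul] at t4 t7
  have t5 : ∑ j ∈ range J, (D : ℝ) ^ 2 * X * (Real.exp 1 * (D : ℝ) ^ 2 / (sc j * n₇ j * X)) ^ n₇ j
      ≤ 1 / y ^ 1000 := by
    have u : ∀ j ∈ range J,
        (D : ℝ) ^ 2 * X * (Real.exp 1 * (D : ℝ) ^ 2 / (sc j * n₇ j * X)) ^ n₇ j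
        ≤ (D : ℝ) ^ 2 * X * Real.exp (-y) := by
      intro j hj
      exact mul_le_mul_of_nonneg_left (c7 j (mem_range.1 hj)) (by positivity)
    have v := Finset.sum_le_sum u
    rw [Finset.sum_const, Finset.card_range, nsmul_eq_mul] at v
    have w := ps_A4 (M := (J : ℝ)) hy X0.le hX2 hD ex0 le_rfl he (by
      have : 0 ≤ y ^ 2 := by positivity
      linarith)
    linarith
  have t6 : ∑ j ∈ range (J + 1), (D : ℝ) ^ 2 * (Real.exp 1 * (sc j : ℝ) ^ 2 / (2 * n₈ j * X)) ^ n₈ j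
      ≤ 1 / y ^ 1000 := by
    have u : ∀ j ∈ range (J + 1),
        (D : ℝ) ^ 2 * (Real.exp 1 * (sc j : ℝ) ^ 2 / (2 * n₈ j * X)) ^ n₈ j
        ≤ (D : ℝ) ^ 2 * X * Real.exp (-y) := by
      intro j hj
      have h1 : (D : ℝ) ^ 2 ≤ (D : ℝ) ^ 2 * X := by
        have : 0 ≤ (D : ℝ) ^ 2 := by positivity
        nlinarith
      exact mul_le_mul h1 (c8 j (mem_range.1 hj)) (by positivity) (by positivity)
    have v := Finset.sum_le_sum u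
    rw [Finset.sum_const, Finset.card_range, nsmul_eq_mul] at v
    have w := ps_A4 (M := ((J + 1 : ℕ) : ℝ)) hy X0.le hX2 hD ex0 le_rfl he (by
      push_cast
      have : 1 ≤ y ^ 2 := one_le_pow₀ y1
      linarith)
    linarith
  have e : 7 / y ^ 1000 = 7 * (1 / y ^ 1000) := by ring
  rw [e]
  linarith

lemma ps_c6 {K y l : ℝ} {D b X s : ℕ} (P : PSData K y l D b X s) :
    (Real.exp 1 * (D : ℝ) ^ 2 / (s * ((b / 4 + 1 : ℕ) : ℝ) * X)) ^ (b / 4 + 1)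
      ≤ Real.exp (-y) := by
  have y0 := P.y0
  have y1 := P.y1
  have hy := P.hy
  have X0 := P.X0
  have s0 := P.s0
  have K0 := P.K0
  have l0 := P.l0
  have hn : (b : ℝ) / 4 ≤ ((b / 4 + 1 : ℕ) : ℝ) := by
    have h : b ≤ 4 * (b / 4 + 1) := by omega
    have h' : (b : ℝ) ≤ ((4 * (b / 4 + 1) : ℕ) : ℝ) := by exact_mod_cast h
    push_cast at h' ⊢
    linarith
  have hn0 : (0 : ℝ) < ((b / 4 + 1 : ℕ) : ℝ) := by positivity
  have hyn : y ≤ ((b / 4 + 1 : ℕ) : ℝ) := by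
    have h1 : y * y ≤ y ^ 240 := by
      calc y * y = y ^ 2 := by ring
        _ ≤ y ^ 240 := pow_le_pow_right₀ y1 (by norm_num)
    have h2 := P.hb1
    nlinarith
  have hsb : 30 * y ^ 48000 ≤ (s : ℝ) * (b * X) := by
    have h1 : (30 * (l * y ^ 16000)) * (K * y ^ 32000) ≤ (K * s) * (l * (b * X)) :=
      mul_le_mul P.hs1 P.hX1 (by positivity) (by positivity)
    have h2 : (K * l) * (30 * y ^ 48000) ≤ (K * l) * ((s : ℝ) * (b * X)) := by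
      have e1 : (K * l) * (30 * y ^ 48000) = (30 * (l * y ^ 16000)) * (K * y ^ 32000) := by ring
      have e2 : (K * l) * ((s : ℝ) * (b * X)) = (K * s) * (l * (b * X)) := by ring
      rw [e1, e2]
      exact h1
    exact le_of_mul_le_mul_left h2 (by positivity)
  have e : (s : ℝ) * ((b / 4 + 1 : ℕ) : ℝ) * X = (s * X) * ((b / 4 + 1 : ℕ) : ℝ) := by ring
  rw [e]
  refine ps_pow_le (by positivity) (ps_ratio (by positivity) hn0 ?_) hyn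
  have h3 : (D : ℝ) ^ 2 = y ^ 48000 := by rw [P.hD]; ring
  have h4 : (s * X : ℝ) * (b / 4) ≤ (s * X) * ((b / 4 + 1 : ℕ) : ℝ) :=
    mul_le_mul_of_nonneg_left hn (by positivity)
  have h5 := ps_exp_two
  have h6 : Real.exp 1 ^ 2 * y ^ 48000 ≤ 7.4 * y ^ 48000 :=
    mul_le_mul_of_nonneg_right h5 (by positivity)
  have h7 : (s * X : ℝ) * (b / 4) = (s * (b * X)) / 4 := by ring
  have h8 : 0 < y ^ 48000 := by positivity
  rw [h3]
  linarith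

lemma ps_c7 {y : ℝ} {D X sc t : ℕ} (hX : (0 : ℝ) < X) (hs : (0 : ℝ) < sc) (ht : y ≤ t)
    (ht0 : (0 : ℝ) < t) :
    (Real.exp 1 * (D : ℝ) ^ 2 /
      (sc * ((⌈Real.exp 1 ^ 2 * (D : ℝ) ^ 2 / (sc * X)⌉₊ + t : ℕ) : ℝ) * X))
        ^ (⌈Real.exp 1 ^ 2 * (D : ℝ) ^ 2 / (sc * X)⌉₊ + t) ≤ Real.exp (-y) := by
  have h1 := Nat.le_ceil (Real.exp 1 ^ 2 * (D : ℝ) ^ 2 / (sc * X))
  generalize ⌈Real.exp 1 ^ 2 * (D : ℝ) ^ 2 / (sc * X)⌉₊ = m at *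
  have h2 : (m : ℝ) ≤ ((m + t : ℕ) : ℝ) := by push_cast; linarith
  have hm : (0 : ℝ) < ((m + t : ℕ) : ℝ) := by push_cast; positivity
  have hyn : y ≤ ((m + t : ℕ) : ℝ) := by
    push_cast
    have : (0 : ℝ) ≤ m := Nat.cast_nonneg m
    linarith
  generalize m + t = n at *
  have e : (sc : ℝ) * (n : ℝ) * X = (sc * X) * n := by ring
  rw [e]
  refine ps_pow_le (by positivity) (ps_ratio (by positivity) hm ?_) hyn
  rw [div_le_iff₀ (by positivity)] at h1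
  have h3 : (m : ℝ) * (sc * X) ≤ n * (sc * X) := mul_le_mul_of_nonneg_right h2 (by positivity)
  linarith

lemma ps_c8 {y : ℝ} {X sc t : ℕ} (hX : (0 : ℝ) < X) (ht : y ≤ t)
    (ht0 : (0 : ℝ) < t) :
    (Real.exp 1 * (sc : ℝ) ^ 2 /
      (2 * ((⌈Real.exp 1 ^ 2 * (sc : ℝ) ^ 2 / X⌉₊ + t : ℕ) : ℝ) * X))
        ^ (⌈Real.exp 1 ^ 2 * (sc : ℝ) ^ 2 / X⌉₊ + t) ≤ Real.exp (-y) := by
  have h1 := Nat.le_ceil (Real.exp 1 ^ 2 * (sc : ℝ) ^ 2 / X)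
  generalize ⌈Real.exp 1 ^ 2 * (sc : ℝ) ^ 2 / X⌉₊ = m at *
  have h2 : (m : ℝ) ≤ ((m + t : ℕ) : ℝ) := by push_cast; linarith
  have hm : (0 : ℝ) < ((m + t : ℕ) : ℝ) := by push_cast; positivity
  have hyn : y ≤ ((m + t : ℕ) : ℝ) := by
    push_cast
    have : (0 : ℝ) ≤ m := Nat.cast_nonneg m
    linarith
  generalize m + t = n at *
  have e : (2 : ℝ) * (n : ℝ) * X = (2 * X) * n := by ring
  rw [e]
  refine ps_pow_le (by positivity) (ps_ratio (by positivity) hm ?_) hyn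
  rw [div_le_iff₀ (by positivity)] at h1
  have h3 : (m : ℝ) * X ≤ n * X := mul_le_mul_of_nonneg_right h2 (by positivity)
  have h4 : 0 ≤ (n : ℝ) * X := by positivity
  linarith

lemma ps_c9 {y : ℝ} {D X k₀ n₉ : ℕ} (hy : 10 ^ 6 ≤ y) (hX : y ^ 31758 ≤ (X : ℝ))
    (hD : (D : ℝ) = y ^ 24000) (hk2 : (k₀ : ℝ) ≤ 2 * y ^ 15880) (hn : y ^ 390 ≤ (n₉ : ℝ)) :
    (Real.exp 1 * (D : ℝ) ^ 2 * (k₀ : ℝ) / (2 * n₉ * (X : ℝ) ^ 2)) ^ n₉ ≤ Real.exp (-y) := by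
  have y0 : 0 < y := by linarith
  have y1 : 1 ≤ y := by linarith
  have X0 : (0 : ℝ) < X := lt_of_lt_of_le (by positivity) hX
  have n0 : (0 : ℝ) < n₉ := lt_of_lt_of_le (by positivity) hn
  have e : Real.exp 1 * (D : ℝ) ^ 2 * (k₀ : ℝ) / (2 * n₉ * (X : ℝ) ^ 2)
      = Real.exp 1 * ((D : ℝ) ^ 2 * k₀) / ((2 * (X : ℝ) ^ 2) * n₉) := by ring
  have hyn : y ≤ (n₉ : ℝ) := by
    have : y ^ 1 ≤ y ^ 390 := pow_le_pow_right₀ y1 (by norm_num)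
    rw [pow_one] at this
    linarith
  rw [e]
  refine ps_pow_le (by positivity) (ps_ratio (by positivity) n0 ?_) hyn
  calc Real.exp 1 ^ 2 * ((D : ℝ) ^ 2 * k₀) ≤ 7.4 * ((D : ℝ) ^ 2 * (2 * y ^ 15880)) := by
        have := ps_exp_two
        gcongr
    _ = 14.8 * y ^ 63880 := by rw [hD]; ring
    _ ≤ y * y ^ 63880 := by gcongr; linarith
    _ = 1 * y ^ 63881 := by ring
    _ ≤ 2 * y ^ 63906 := by
        have := pow_le_pow_right₀ y1 (show 63881 ≤ 63906 by norm_num)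
        gcongr
        norm_num
    _ = (2 * (y ^ 31758) ^ 2) * y ^ 390 := by ring
    _ ≤ (2 * (X : ℝ) ^ 2) * n₉ := by gcongr

/-- A ceiling of a power of `y`. -/
lemma ps_ceil {y : ℝ} (hy : 10 ^ 6 ≤ y) (k : ℕ) :
    ∃ m : ℕ, y ^ k ≤ (m : ℝ) ∧ (m : ℝ) ≤ 2 * y ^ k ∧ (m : ℝ) ≤ y ^ k + 1 := by
  have y1 : 1 ≤ y := by linarith
  have h1 : 1 ≤ y ^ k := one_le_pow₀ y1
  refine ⟨⌈y ^ k⌉₊, Nat.le_ceil _, pv_ceil_le_two h1, ?_⟩
  exact (Nat.ceil_lt_add_one (by linarith)).le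

lemma ps_n7 {y : ℝ} {D X sc t : ℕ} (hy : 10 ^ 6 ≤ y)
    (hX : y ^ 31758 ≤ (X : ℝ)) (hD : (D : ℝ) = y ^ 24000) (hs : y ^ 15880 ≤ (sc : ℝ))
    (ht : (t : ℝ) ≤ 2 * y ^ 30) :
    ((⌈Real.exp 1 ^ 2 * (D : ℝ) ^ 2 / (sc * X)⌉₊ + t : ℕ) : ℝ) ≤ y ^ 720 := by
  have y0 : 0 < y := by linarith
  have y1 : 1 ≤ y := by linarith
  have X0 : (0 : ℝ) < X := lt_of_lt_of_le (by positivity) hX
  have s0 : (0 : ℝ) < sc := lt_of_lt_of_le (by positivity) hs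
  have h1 := (Nat.ceil_lt_add_one (show 0 ≤ Real.exp 1 ^ 2 * (D : ℝ) ^ 2 / (sc * X) by
    positivity)).le
  have h2 : Real.exp 1 ^ 2 * (D : ℝ) ^ 2 / (sc * X) ≤ 7.4 * y ^ 362 := by
    rw [div_le_iff₀ (by positivity)]
    calc Real.exp 1 ^ 2 * (D : ℝ) ^ 2 ≤ 7.4 * y ^ 48000 := by
          rw [hD, show (y ^ 24000) ^ 2 = y ^ 48000 by ring]
          exact mul_le_mul_of_nonneg_right ps_exp_two (by positivity)
      _ = 7.4 * y ^ 362 * (y ^ 15880 * y ^ 31758) := by ring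
      _ ≤ 7.4 * y ^ 362 * (sc * X) := by gcongr
  have h3 : y ^ 30 ≤ y ^ 362 := pow_le_pow_right₀ y1 (by norm_num)
  have h4 : 1 ≤ y ^ 362 := one_le_pow₀ y1
  have h5 : y ^ 363 ≤ y ^ 720 := pow_le_pow_right₀ y1 (by norm_num)
  have h6 : y ^ 363 = y * y ^ 362 := by ring
  push_cast
  nlinarith

lemma ps_n8 {y : ℝ} {X sc t : ℕ} (hy : 10 ^ 6 ≤ y)
    (hX : y ^ 31758 ≤ (X : ℝ)) (hs : (sc : ℝ) ≤ y ^ 16003)
    (ht : (t : ℝ) ≤ 2 * y ^ 30) :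
    ((2 * (⌈Real.exp 1 ^ 2 * (sc : ℝ) ^ 2 / X⌉₊ + t) : ℕ) : ℝ) ≤ y ^ 720 := by
  have y0 : 0 < y := by linarith
  have y1 : 1 ≤ y := by linarith
  have X0 : (0 : ℝ) < X := lt_of_lt_of_le (by positivity) hX
  have h1 := (Nat.ceil_lt_add_one (show 0 ≤ Real.exp 1 ^ 2 * (sc : ℝ) ^ 2 / X by
    positivity)).le
  have h2 : Real.exp 1 ^ 2 * (sc : ℝ) ^ 2 / X ≤ 7.4 * y ^ 248 := by
    rw [div_le_iff₀ (by positivity)]
    calc Real.exp 1 ^ 2 * (sc : ℝ) ^ 2 ≤ 7.4 * (y ^ 16003) ^ 2 := by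
          have := ps_exp_two
          gcongr
      _ = 7.4 * y ^ 248 * y ^ 31758 := by ring
      _ ≤ 7.4 * y ^ 248 * X := by gcongr
  have h3 : y ^ 30 ≤ y ^ 248 := pow_le_pow_right₀ y1 (by norm_num)
  have h4 : 1 ≤ y ^ 248 := one_le_pow₀ y1
  have h5 : y ^ 249 ≤ y ^ 720 := pow_le_pow_right₀ y1 (by norm_num)
  have h6 : y ^ 249 = y * y ^ 248 := by ring
  push_cast
  nlinarith

/-- The choice of the scales. -/
lemma ps_scales {s k₀ : ℕ} (hk : 0 < k₀) : ∃ J, s ≤ 2 ^ J * k₀ ∧ (∀ j < J, 2 ^ j * k₀ < s) ∧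
    ∀ j < J + 1, 2 ^ j * k₀ ≤ 2 * s + k₀ := by
  classical
  have hex : ∃ J, s ≤ 2 ^ J * k₀ := by
    refine ⟨s, ?_⟩
    have h1 : s < 2 ^ s := Nat.lt_two_pow_self
    have h2 : 2 ^ s ≤ 2 ^ s * k₀ := Nat.le_mul_of_pos_right _ hk
    omega
  have hmin : ∀ j < Nat.find hex, 2 ^ j * k₀ < s := fun j hj => not_le.1 (Nat.find_min hex hj)
  refine ⟨Nat.find hex, Nat.find_spec hex, hmin, ?_⟩
  intro j hj
  rcases j with _ | j
  · simp
  · have h := hmin j (by omega)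
    have e : 2 ^ (j + 1) * k₀ = 2 * (2 ^ j * k₀) := by ring
    omega

theorem ps_core {K y l : ℝ} {D b X s Z : ℕ} (P : PSData K y l D b X s)
    (hZ : 60000 * (l ^ 3 * (b : ℝ) ^ 2 / K ^ 3) ≤ Z) : StaticParams D X b s Z := by
  have y0 := P.y0
  have y1 := P.y1
  have hy := P.hy
  obtain ⟨k₀, hk1, hk2, -⟩ := ps_ceil hy 15880
  obtain ⟨t, ht1, ht2, ht3⟩ := ps_ceil hy 30
  obtain ⟨h, hh1, hh2, -⟩ := ps_ceil hy 20000
  obtain ⟨n₉, hn1, hn2, -⟩ := ps_ceil hy 390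
  obtain ⟨n, hN1, hN2, -⟩ := ps_ceil hy 720
  have k0 : (0 : ℝ) < k₀ := lt_of_lt_of_le (by positivity) hk1
  have k0' : 0 < k₀ := by exact_mod_cast k0
  obtain ⟨J, hJs, hJmin, hJmax⟩ := ps_scales (s := s) k0'
  have hJy := ps_J hy P.s_upper hk1 hJmin
  have X0 := P.X0
  have hyt : y ≤ (t : ℝ) := by
    have : y ^ 1 ≤ y ^ 30 := pow_le_pow_right₀ y1 (by norm_num)
    rw [pow_one] at this
    linarith
  have t0 : (0 : ℝ) < t := by linarith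
  have t0' : 0 < t := by exact_mod_cast t0
  have hsc0 : ∀ j, 0 < 2 ^ j * k₀ := fun j => by positivity
  have hsc0' : ∀ j, (0 : ℝ) < ((2 ^ j * k₀ : ℕ) : ℝ) := fun j => by exact_mod_cast hsc0 j
  have hsc1 : ∀ j, y ^ 15880 ≤ ((2 ^ j * k₀ : ℕ) : ℝ) := by
    intro j
    have h1 : k₀ ≤ 2 ^ j * k₀ := Nat.le_mul_of_pos_left _ (by positivity)
    have h2 : (k₀ : ℝ) ≤ ((2 ^ j * k₀ : ℕ) : ℝ) := by exact_mod_cast h1
    linarith
  have hsc2 : ∀ j < J + 1, ((2 ^ j * k₀ : ℕ) : ℝ) ≤ y ^ 16003 := by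
    intro j hj
    have h1 : ((2 ^ j * k₀ : ℕ) : ℝ) ≤ ((2 * s + k₀ : ℕ) : ℝ) := by exact_mod_cast hJmax j hj
    push_cast at h1 ⊢
    have h2 := P.s_upper
    have h3 : y ^ 15880 ≤ y ^ 16002 := pow_le_pow_right₀ y1 (by norm_num)
    have h4 : y ^ 16003 = y * y ^ 16002 := by ring
    have h5 : 0 < y ^ 16002 := by positivity
    nlinarith
  have hn7 := fun j => ps_n7 (t := t) hy P.X_lower P.hD (hsc1 j) ht2
  have hn8 := fun j (hj : j < J + 1) => ps_n8 (t := t) hy P.X_lower (hsc2 j hj) ht2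
  have hload := ps_load P hk1 hk2 ht3 hn2 hJmin
    (fun j => ⌈Real.exp 1 ^ 2 * (D : ℝ) ^ 2 / (((2 ^ j * k₀ : ℕ) : ℝ) * X)⌉₊ + t)
    (fun j => ⌈Real.exp 1 ^ 2 * ((2 ^ j * k₀ : ℕ) : ℝ) ^ 2 / X⌉₊ + t)
    (by
      intro j
      have h1 := (Nat.ceil_lt_add_one
        (show 0 ≤ Real.exp 1 ^ 2 * (D : ℝ) ^ 2 / (((2 ^ j * k₀ : ℕ) : ℝ) * X) by positivity)).le
      push_cast at h1 ⊢
      linarith)
    (by
      intro j
      have h1 := (Nat.ceil_lt_add_one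
        (show 0 ≤ Real.exp 1 ^ 2 * ((2 ^ j * k₀ : ℕ) : ℝ) ^ 2 / X by positivity)).le
      push_cast at h1 ⊢
      linarith)
  have hsum := ps_sum (D := D) (X := X) (s := s) (h := h) (n₆ := b / 4 + 1) (J := J) (n₉ := n₉)
    (sc := fun j => 2 ^ j * k₀)
    (n₇ := fun j => ⌈Real.exp 1 ^ 2 * (D : ℝ) ^ 2 / (((2 ^ j * k₀ : ℕ) : ℝ) * X)⌉₊ + t)
    (n₈ := fun j => ⌈Real.exp 1 ^ 2 * ((2 ^ j * k₀ : ℕ) : ℝ) ^ 2 / X⌉₊ + t)
    hy P.X_lower P.X_upper P.hD hh1 hh2 P.he hJy (ps_c6 P)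
    (fun j _ => ps_c7 X0 (hsc0' j) hyt t0)
    (fun j _ => ps_c8 X0 hyt t0)
    (by
      have := ps_c9 hy P.X_lower P.hD hk2 hn1
      simpa using this)
  have hb2 := P.hb2
  have big : 6 * y ^ 390 ≤ y ^ 720 := by
    calc 6 * y ^ 390 ≤ y * y ^ 390 := by gcongr; linarith
      _ = y ^ 391 := by ring
      _ ≤ y ^ 720 := pow_le_pow_right₀ y1 (by norm_num)
  refine ⟨h, b / 4 + 1, J, n₉, n, fun j => 2 ^ j * k₀,
    fun j => ⌈Real.exp 1 ^ 2 * (D : ℝ) ^ 2 / (((2 ^ j * k₀ : ℕ) : ℝ) * X)⌉₊ + t,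
    fun j => ⌈Real.exp 1 ^ 2 * ((2 ^ j * k₀ : ℕ) : ℝ) ^ 2 / X⌉₊ + t, ?_, ?_, ?_, ?_, ?_, ?_, ?_,
    hJs, ?_, ?_, ?_, ?_, ?_, ?_, ?_, ?_⟩
  · exact_mod_cast X0
  · exact_mod_cast P.s0
  · have : (0 : ℝ) < h := lt_of_lt_of_le (by positivity) hh1
    exact_mod_cast this
  · omega
  · have : (0 : ℝ) < n₉ := lt_of_lt_of_le (by positivity) hn1
    exact_mod_cast this
  · exact fun j _ => ⟨hsc0 j, Nat.add_pos_right _ t0'⟩
  · intro j _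
    show 0 < _ + t
    omega
  · omega
  · have h1 : y ^ 1 ≤ y ^ 720 := pow_le_pow_right₀ y1 (by norm_num)
    rw [pow_one] at h1
    have h2 : ((6 : ℕ) : ℝ) ≤ n := by
      push_cast
      linarith
    exact_mod_cast h2
  · have h1 : ((b / 4 + 1 : ℕ) : ℝ) ≤ n := by
      have h2 : ((b / 4 + 1 : ℕ) : ℝ) ≤ ((b + 1 : ℕ) : ℝ) := by
        exact_mod_cast (by omega : b / 4 + 1 ≤ b + 1)
      push_cast at h2 ⊢
      have h3 : y ^ 240 ≤ y ^ 390 := pow_le_pow_right₀ y1 (by norm_num)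
      have h4 : 1 ≤ y ^ 390 := one_le_pow₀ y1
      linarith
    exact_mod_cast h1
  · intro j _
    have h1 := (hn7 j).trans hN1
    exact_mod_cast h1
  · intro j hj
    have h1 := (hn8 j hj).trans hN1
    exact_mod_cast h1
  · have h1 : ((3 * n₉ : ℕ) : ℝ) ≤ n := by
      push_cast
      linarith
    exact_mod_cast h1
  · have h1 := hload.trans hZ
    have h2 : (((n₉ * (fun j => ⌈Real.exp 1 ^ 2 * ((2 ^ j * k₀ : ℕ) : ℝ) ^ 2 / X⌉₊ + t) 0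
        + ∑ j ∈ range J, (fun j => ⌈Real.exp 1 ^ 2 * (D : ℝ) ^ 2 / (((2 ^ j * k₀ : ℕ) : ℝ) * X)⌉₊
            + t) j
          * (fun j => ⌈Real.exp 1 ^ 2 * ((2 ^ j * k₀ : ℕ) : ℝ) ^ 2 / X⌉₊ + t) (j + 1) : ℕ)) : ℝ)
        ≤ Z := by
      rw [Nat.cast_add, Nat.cast_mul, Nat.cast_sum]
      simp only [Nat.cast_mul]
      simpa only [Nat.cast_mul] using h1
    exact_mod_cast h2
  · have e1 : 0 ≤ 7 / y ^ 1000 := by positivity
    calc (n : ℝ) * staticSum D X s h (b / 4 + 1) J n₉ (fun j => 2 ^ j * k₀)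
          (fun j => ⌈Real.exp 1 ^ 2 * (D : ℝ) ^ 2 / (((2 ^ j * k₀ : ℕ) : ℝ) * X)⌉₊ + t)
          (fun j => ⌈Real.exp 1 ^ 2 * ((2 ^ j * k₀ : ℕ) : ℝ) ^ 2 / X⌉₊ + t)
        ≤ (n : ℝ) * (7 / y ^ 1000) := mul_le_mul_of_nonneg_left hsum (Nat.cast_nonneg n)
      _ ≤ (2 * y ^ 720) * (7 / y ^ 1000) := mul_le_mul_of_nonneg_right hN2 e1
      _ = (14 * y ^ 720) / y ^ 1000 := by ring
      _ ≤ 1 / 4 := by
          rw [div_le_div_iff₀ (by positivity) (by norm_num)]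
          calc 14 * y ^ 720 * 4 = 56 * y ^ 720 := by ring
            _ ≤ y * y ^ 720 := by gcongr; linarith
            _ = y ^ 721 := by ring
            _ ≤ y ^ 1000 := pow_le_pow_right₀ y1 (by norm_num)
            _ = 1 * y ^ 1000 := by ring

/-- The relations hold for large `D`. -/
lemma ps_data (K : ℝ) (hK : 1 ≤ K) :
    ∀ᶠ D : ℕ in atTop, PSData K (rootD 24000 D) (lD D) D (bD D) (XD K D) (sD K D) := by
  filter_upwards [rootD_ge 24000 (by norm_num) (10 ^ 6), rootD_ge 24000 (by norm_num) (K ^ 3),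
    log_le_rootD 24000 (by norm_num), pv_one_le_logD,
    rootD_pow_le_exp 24000 (by norm_num) 100000] with D hy hKy hL hL1 he
  have hb : (D : ℝ) ^ (1 / 100 : ℝ) = rootD 24000 D ^ 240 := by
    rw [rootD_pow]; norm_num
  have hq : (D : ℝ) ^ (4 / 3 : ℝ) = rootD 24000 D ^ 32000 := by
    rw [rootD_pow]; norm_num
  have hD : (D : ℝ) = rootD 24000 D ^ 24000 := by
    rw [rootD_pow]; norm_num
  have hl1 := one_le_lD D hL1
  have hl2 : lD D ≤ rootD 24000 D := (lD_le D hL1).trans hL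
  have hqK : qK K D = K * rootD 24000 D ^ 32000 / lD D := by
    unfold qK lD
    rw [hq]
  have hbD : bD D = ⌈rootD 24000 D ^ 240⌉₊ := by
    unfold bD
    rw [hb]
  have hsD : sD K D = ⌈30 * (lD D * rootD 24000 D ^ 16000) / K⌉₊ := by
    unfold sD
    congr 1
    rw [hqK]
    have y0 : rootD 24000 D ≠ 0 := by
      intro h
      rw [h] at hy
      norm_num at hy
    have l0 : lD D ≠ 0 := by linarith
    have K0 : K ≠ 0 := by linarith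
    generalize lD D = l at *
    have e : (D : ℝ) ^ 2 = rootD 24000 D ^ 48000 := by
      conv_lhs => rw [hD]
      ring
    rw [e]
    generalize rootD 24000 D = y at *
    rw [div_div_eq_mul_div, div_eq_div_iff (by positivity) K0]
    ring
  have hXD : XD K D = ⌈K * rootD 24000 D ^ 32000 / (lD D * bD D)⌉₊ := by
    unfold XD
    rw [hqK, div_div]
  have y0 : 0 < rootD 24000 D := by linarith
  have y1 : 1 ≤ rootD 24000 D := by linarith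
  have l0 : 0 < lD D := by linarith
  have K0 : 0 < K := by linarith
  have hb1 : rootD 24000 D ^ 240 ≤ (bD D : ℝ) := by
    rw [hbD]
    exact Nat.le_ceil _
  have hb2 : (bD D : ℝ) ≤ 2 * rootD 24000 D ^ 240 := by
    rw [hbD]
    exact pv_ceil_le_two (one_le_pow₀ y1)
  have b0 : (0 : ℝ) < bD D := lt_of_lt_of_le (by positivity) hb1
  have hKy1 : K ≤ rootD 24000 D := by
    have h1 : K ^ 1 ≤ K ^ 3 := pow_le_pow_right₀ hK (by norm_num)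
    rw [pow_one] at h1
    linarith
  generalize bD D = b at *
  generalize lD D = l at *
  generalize rootD 24000 D = y at *
  have hx1 : 1 ≤ K * y ^ 32000 / (l * b) := by
    rw [one_le_div (by positivity)]
    calc l * b ≤ y * (2 * y ^ 240) := by gcongr
      _ = 2 * y ^ 241 := by ring
      _ ≤ y * y ^ 241 := by gcongr; linarith
      _ = y ^ 242 := by ring
      _ ≤ y ^ 32000 := pow_le_pow_right₀ y1 (by norm_num)
      _ = 1 * y ^ 32000 := by ring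
      _ ≤ K * y ^ 32000 := by gcongr
  have hs1 : 1 ≤ 30 * (l * y ^ 16000) / K := by
    rw [one_le_div K0]
    calc K ≤ y := hKy1
      _ = y ^ 1 := (pow_one y).symm
      _ ≤ y ^ 16000 := pow_le_pow_right₀ y1 (by norm_num)
      _ = 1 * (1 * y ^ 16000) := by ring
      _ ≤ 30 * (l * y ^ 16000) := by gcongr; norm_num
  refine ⟨hK, hKy, hy, hl1, hl2, hD, hb1, hb2, ?_, ?_, ?_, ?_, he⟩
  · rw [hXD]
    have h := Nat.le_ceil (K * y ^ 32000 / (l * b))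
    generalize ((⌈K * y ^ 32000 / (l * b)⌉₊ : ℕ) : ℝ) = m at *
    rw [div_le_iff₀ (by positivity)] at h
    linarith
  · rw [hXD]
    have h := pv_ceil_le_two hx1
    generalize ((⌈K * y ^ 32000 / (l * b)⌉₊ : ℕ) : ℝ) = m at *
    rw [← mul_div_assoc, le_div_iff₀ (by positivity)] at h
    linarith
  · rw [hsD]
    have h := Nat.le_ceil (30 * (l * y ^ 16000) / K)
    generalize ((⌈30 * (l * y ^ 16000) / K⌉₊ : ℕ) : ℝ) = m at *
    rw [div_le_iff₀ K0] at h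
    linarith
  · rw [hsD]
    have h := pv_ceil_le_two hs1
    generalize ((⌈30 * (l * y ^ 16000) / K⌉₊ : ℕ) : ℝ) = m at *
    rw [← mul_div_assoc, le_div_iff₀ K0] at h
    linarith

theorem static_params (K : ℝ) (hK : 1 ≤ K) :
    ∀ᶠ D : ℕ in atTop, StaticParams D (XD K D) (bD D) (sD K D) (ZD K D) := by
  filter_upwards [ps_data K hK, pv_one_le_logD] with D P hL1
  refine ps_core P ?_
  have h := Nat.le_ceil (60000 / K ^ 3 * Real.log D * (bD D : ℝ) ^ 2)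
  have e : 60000 * (lD D ^ 3 * (bD D : ℝ) ^ 2 / K ^ 3)
      = 60000 / K ^ 3 * Real.log D * (bD D : ℝ) ^ 2 := by
    rw [lD_pow D hL1]
    ring
  rw [e]
  exact h

end Pool.Agent.Lib.BipAcyc
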