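import Pool.Agent.Lib.BipAcyc.ParamDefs

/-!
Choice of the parameters. `L = log D`, `K` a large constant (for example `K = 1000`),
`b = ⌈D^(1/100)⌉`, `q = K D^(4/3) / L^(1/3)` (real), `X = ⌈q/b⌉` (so `q ≤ X b ≤ 2 q`),
`s = ⌈30 D^2/q⌉` (about `(30/K) D^(2/3) L^(1/3)`), `Z = ⌈ε L b^2⌉` with `ε = 60000/K^3`
(any `ε ≥ 2 * 16 * e^4 * 30 / K^3` works, and `(8/3) ε ≤ 1/700` is needed).

CHUNK PX: `Xb_le` (easy).
-/

set_option autoImplicit false
set_option linter.unusedSectionVars false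

namespace Pool.Agent.Lib.BipAcyc

open Finset Filter

/-- The real number `q`. -/
noncomputable def qK (K : ℝ) (D : ℕ) : ℝ := K * (D : ℝ) ^ (4 / 3 : ℝ) / Real.log D ^ (1 / 3 : ℝ)

noncomputable def bD (D : ℕ) : ℕ := ⌈(D : ℝ) ^ (1 / 100 : ℝ)⌉₊

noncomputable def XD (K : ℝ) (D : ℕ) : ℕ := ⌈qK K D / bD D⌉₊

noncomputable def sD (K : ℝ) (D : ℕ) : ℕ := ⌈30 * (D : ℝ) ^ 2 / qK K D⌉₊

noncomputable def ZD (K : ℝ) (D : ℕ) : ℕ := ⌈60000 / K ^ 3 * Real.log D * (bD D : ℝ) ^ 2⌉₊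

/-- The `N`-th root of `D`. -/
noncomputable def rootD (N D : ℕ) : ℝ := (D : ℝ) ^ (1 / (N : ℝ))

lemma rootD_nonneg (N D : ℕ) : 0 ≤ rootD N D := Real.rpow_nonneg (Nat.cast_nonneg D) _

lemma rootD_pow (N D k : ℕ) : rootD N D ^ k = (D : ℝ) ^ ((k : ℝ) / N) := by
  unfold rootD
  rw [← Real.rpow_natCast, ← Real.rpow_mul (Nat.cast_nonneg D)]
  congr 1
  ring

lemma rootD_tendsto (N : ℕ) (hN : 0 < N) : Tendsto (rootD N) atTop atTop := by
  have h : (0 : ℝ) < 1 / (N : ℝ) := by positivity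
  exact (tendsto_rpow_atTop h).comp tendsto_natCast_atTop_atTop

/-- Constants are at most the root. -/
lemma rootD_ge (N : ℕ) (hN : 0 < N) (C : ℝ) : ∀ᶠ D : ℕ in atTop, C ≤ rootD N D :=
  (rootD_tendsto N hN).eventually_ge_atTop C

lemma log_le_rootD (N : ℕ) (hN : 0 < N) : ∀ᶠ D : ℕ in atTop, Real.log D ≤ rootD N D := by
  have h : (0 : ℝ) < 1 / (N : ℝ) := by positivity
  have h1 := (isLittleO_log_rpow_atTop h).bound (c := 1) one_pos
  have h2 := tendsto_natCast_atTop_atTop (R := ℝ) |>.eventually h1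
  filter_upwards [h2] with D hD
  have h3 : ‖((D : ℝ)) ^ (1 / (N : ℝ))‖ = rootD N D := by
    rw [Real.norm_of_nonneg (Real.rpow_nonneg (Nat.cast_nonneg D) _)]
    rfl
  calc Real.log D ≤ ‖Real.log D‖ := le_abs_self _
    _ ≤ 1 * ‖((D : ℝ)) ^ (1 / (N : ℝ))‖ := hD
    _ = rootD N D := by rw [h3, one_mul]

lemma pv_one_le_logD : ∀ᶠ D : ℕ in atTop, (1 : ℝ) ≤ Real.log D :=
  (Real.tendsto_log_atTop.comp tendsto_natCast_atTop_atTop).eventually_ge_atTop 1

/-- Powers of the root are at most its exponential. -/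
lemma rootD_pow_le_exp (N : ℕ) (hN : 0 < N) (k : ℕ) :
    ∀ᶠ D : ℕ in atTop, rootD N D ^ k ≤ Real.exp (rootD N D) := by
  have h := (Real.tendsto_exp_div_pow_atTop k).comp (rootD_tendsto N hN)
  filter_upwards [h.eventually_ge_atTop 1, rootD_ge N hN 1] with D hD h1
  have h2 : 0 < rootD N D ^ k := by positivity
  have h3 : 1 ≤ Real.exp (rootD N D) / rootD N D ^ k := hD
  rwa [one_le_div h2] at h3

/-- The cube root of the logarithm. -/
noncomputable def lD (D : ℕ) : ℝ := Real.log D ^ (1 / 3 : ℝ)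

lemma lD_pow (D : ℕ) (h : 1 ≤ Real.log D) : lD D ^ 3 = Real.log D := by
  unfold lD
  rw [← Real.rpow_natCast, ← Real.rpow_mul (by linarith)]
  norm_num

lemma one_le_lD (D : ℕ) (h : 1 ≤ Real.log D) : 1 ≤ lD D :=
  Real.one_le_rpow h (by norm_num)

lemma lD_le (D : ℕ) (h : 1 ≤ Real.log D) : lD D ≤ Real.log D := by
  have h1 := one_le_lD D h
  calc lD D = lD D ^ 1 := (pow_one _).symm
    _ ≤ lD D ^ 3 := pow_le_pow_right₀ h1 (by norm_num)
    _ = Real.log D := lD_pow D h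

/-- Ceilings of numbers at least one are at most twice the number. -/
lemma pv_ceil_le_two {x : ℝ} (hx : 1 ≤ x) : (⌈x⌉₊ : ℝ) ≤ 2 * x := by
  have := Nat.ceil_lt_add_one (by linarith : (0 : ℝ) ≤ x)
  linarith

/-- `X b ≤ 2 q`. -/
theorem Xb_le (K : ℝ) (hK : 1 ≤ K) :
    ∀ᶠ D : ℕ in atTop, ((XD K D : ℝ)) * bD D ≤ 2 * qK K D := by
  filter_upwards [rootD_ge 300 (by norm_num) 4, log_le_rootD 300 (by norm_num), pv_one_le_logD]
    with D h4 hL hL1
  have hy0 : (0 : ℝ) < rootD 300 D := by linarith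
  have hy1 : (1 : ℝ) ≤ rootD 300 D := by linarith
  have hb : (D : ℝ) ^ (1 / 100 : ℝ) = rootD 300 D ^ 3 := by
    rw [rootD_pow]; norm_num
  have hq : (D : ℝ) ^ (4 / 3 : ℝ) = rootD 300 D ^ 400 := by
    rw [rootD_pow]; norm_num
  have hl1 := one_le_lD D hL1
  have hl2 : lD D ≤ rootD 300 D := (lD_le D hL1).trans hL
  set y := rootD 300 D with hy
  have hbD : (bD D : ℝ) ≤ 2 * y ^ 3 := by
    unfold bD
    rw [hb]
    exact pv_ceil_le_two (one_le_pow₀ hy1)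
  have hbD0 : (0 : ℝ) < bD D := by
    have : y ^ 3 ≤ (bD D : ℝ) := by
      unfold bD
      rw [hb]
      exact Nat.le_ceil _
    have h3 : 0 < y ^ 3 := by positivity
    linarith
  have hqK : qK K D = K * y ^ 400 / lD D := by
    unfold qK lD
    rw [hq]
  have hq1 : 2 * y ^ 3 ≤ qK K D := by
    rw [hqK, le_div_iff₀ (by linarith)]
    have e1 : 2 * y ^ 3 * lD D ≤ y * y ^ 3 * y := by
      gcongr
      linarith
    have e2 : y * y ^ 3 * y = y ^ 5 := by ring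
    have e3 : y ^ 5 ≤ y ^ 400 := pow_le_pow_right₀ hy1 (by norm_num)
    have e4 : y ^ 400 ≤ K * y ^ 400 := by
      have : 0 ≤ y ^ 400 := by positivity
      nlinarith
    linarith
  have hX : (XD K D : ℝ) ≤ qK K D / bD D + 1 := by
    unfold XD
    have h0 : 0 ≤ qK K D / bD D := by
      have : 0 ≤ qK K D := by
        have : 0 ≤ 2 * y ^ 3 := by positivity
        linarith
      positivity
    exact (Nat.ceil_lt_add_one h0).le
  calc (XD K D : ℝ) * bD D ≤ (qK K D / bD D + 1) * bD D := by gcongr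
    _ = qK K D + bD D := by field_simp
    _ ≤ 2 * qK K D := by linarith

end Pool.Agent.Lib.BipAcyc
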