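import Mathlib

/-!
The inequalities between the parameters of the two stages.
-/

set_option autoImplicit false
set_option linter.unusedSectionVars false

namespace Pool.Agent.Lib.BipAcyc

open Finset

/-- Total probability, per vertex, of the rare events of the static stage. -/
noncomputable def staticSum (D X s h n₆ J n₉ : ℕ) (sc n₇ n₈ : ℕ → ℕ) : ℝ :=
  3 * (D : ℝ) ^ 5 / (X : ℝ) ^ 4 + 2 * (3 * (D : ℝ) ^ 2 * (h : ℝ) ^ 2 / (X : ℝ) ^ 3)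
    + 2 * (2 * (D : ℝ) ^ 2 / ((h : ℝ) * X))
    + (D : ℝ) ^ 2 * X * (Real.exp 1 * (D : ℝ) ^ 2 / (s * n₆ * X)) ^ n₆
    + ∑ j ∈ range J, (D : ℝ) ^ 2 * X * (Real.exp 1 * (D : ℝ) ^ 2 / (sc j * n₇ j * X)) ^ n₇ j
    + ∑ j ∈ range (J + 1),
        (D : ℝ) ^ 2 * (Real.exp 1 * (sc j : ℝ) ^ 2 / (2 * n₈ j * X)) ^ n₈ j
    + (D : ℝ) ^ 2 * X * (Real.exp 1 * (D : ℝ) ^ 2 * (sc 0 : ℕ) / (2 * n₉ * (X : ℝ) ^ 2)) ^ n₉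

/-- Inequalities between the parameters of the static stage. -/
def StaticParams (D X b s Z : ℕ) : Prop :=
  ∃ (h n₆ J n₉ n : ℕ) (sc n₇ n₈ : ℕ → ℕ),
    0 < X ∧ 0 < s ∧ 0 < h ∧ 0 < n₆ ∧ 0 < n₉ ∧ (∀ j < J, 0 < sc j ∧ 0 < n₇ j) ∧
    (∀ j < J + 1, 0 < n₈ j) ∧ s ≤ sc J ∧ 4 * n₆ ≤ b + 4 ∧
    6 ≤ n ∧ n₆ ≤ n ∧ (∀ j < J, n₇ j ≤ n) ∧ (∀ j < J + 1, 2 * n₈ j ≤ n) ∧ 3 * n₉ ≤ n ∧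
    n₉ * n₈ 0 + ∑ j ∈ range J, n₇ j * n₈ (j + 1) ≤ Z ∧
    (n : ℝ) * staticSum D X s h n₆ J n₉ sc n₇ n₈ ≤ 1 / 4

/-- Inequalities between the parameters of the second stage. -/
def MainParams (D b Z : ℕ) : Prop :=
  ∃ (r ℓ d₀ h₀ h₁ : ℕ) (μ₀ p : ℝ),
    0 < r ∧ 0 < ℓ ∧ 0 < d₀ ∧ 0 < h₁ ∧ h₁ + b ≤ h₀ ∧ 2 ≤ b ∧
    μ₀ ≤ 3 * (b : ℝ) / 4 * Real.exp (-(8 * Z / (3 * (b : ℝ) ^ 2))) ∧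
    Real.exp (ℓ - μ₀ / 2) + (Real.exp 1 * Z / (b * h₁)) ^ h₁
      + (Real.exp 1 * h₀ / (d₀ * r)) ^ d₀ + (Real.exp 1 * h₀ * d₀ / (b * ℓ)) ^ b ≤ p ∧
    p ≤ 1 / 4 ∧ 4 * p * (2 * ((D : ℝ) + 1) ^ 2 * (1 + (b + Z)) ^ (2 * (r + 2))) ≤ 1

end Pool.Agent.Lib.BipAcyc
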