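import Pool.Agent.Lib.BipAcyc.Prob0

/-!
CHUNK PR2. Independence, witness sums, lower tail.
-/

set_option autoImplicit false
set_option linter.unusedSectionVars false

namespace Pool.Agent.Lib.BipAcyc

open Finset Pool.Agent.Lib.Prob48

variable {V : Type*} [Fintype V] [DecidableEq V] {α : V → Type*} [∀ v, Fintype (α v)]
variable (μ : Weights α)

lemma prob2_dependsOn_prod {ι : Type*} (F : Finset ι) (S : ι → Finset V)
    (f : ι → (∀ v, α v) → ℝ) (hf : ∀ i ∈ F, DependsOn (f i) (S i : Set V)) :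
    DependsOn (fun ω => ∏ i ∈ F, f i ω) (⋃ i ∈ F, (S i : Set V)) := by
  intro x y hxy
  refine prod_congr rfl fun i hi => hf i hi fun v hv => hxy v ?_
  simp only [Set.mem_iUnion, mem_coe, exists_prop]
  exact ⟨i, hi, hv⟩

/-- PR2. Independence for functions of pairwise disjoint sets of coordinates
(induction on `F` with `Weights.E_mul_of_dependsOn`). -/
theorem E_prod_of_disjoint {ι : Type*} (F : Finset ι) (S : ι → Finset V)
    (f : ι → (∀ v, α v) → ℝ) (hf : ∀ i ∈ F, DependsOn (f i) (S i : Set V))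
    (hd : ∀ i ∈ F, ∀ j ∈ F, i ≠ j → Disjoint (S i) (S j)) :
    μ.E (fun ω => ∏ i ∈ F, f i ω) = ∏ i ∈ F, μ.E (f i) := by
  classical
  induction F using Finset.induction_on with
  | empty => simp [μ.E_const]
  | insert a F ha ih =>
    have hf' : ∀ i ∈ F, DependsOn (f i) (S i : Set V) := fun i hi => hf i (mem_insert_of_mem hi)
    have e1 : (fun ω => ∏ i ∈ insert a F, f i ω) = fun ω => f a ω * ∏ i ∈ F, f i ω := by
      funext ω
      rw [prod_insert ha]
    rw [e1, prod_insert ha, ← ih hf' fun i hi j hj hij =>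
      hd i (mem_insert_of_mem hi) j (mem_insert_of_mem hj) hij]
    refine μ.E_mul_of_dependsOn (S a) (⋃ i ∈ F, (S i : Set V)) ?_ (hf a (mem_insert_self _ _))
      (prob2_dependsOn_prod F S f hf')
    intro v hv hcon
    simp only [Set.mem_iUnion, mem_coe, exists_prop] at hcon
    obtain ⟨i, hi, hvi⟩ := hcon
    exact disjoint_left.1 (hd a (mem_insert_self _ _) i (mem_insert_of_mem hi)
      (fun e => ha (e ▸ hi))) hv hvi

open Classical in
lemma prob2_dependsOn_ind {A : (∀ v, α v) → Prop} {S : Set V} (h : DependsOn A S) (a b : ℝ) :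
    DependsOn (fun ω => if A ω then a else b) S := by
  intro x y hxy
  show (if A x then a else b) = if A y then a else b
  have : A x = A y := h hxy
  simp only [this]

/-- PR2. Independence of events with pairwise disjoint supports. -/
theorem P_forall_of_disjoint {ι : Type*} (F : Finset ι) (S : ι → Finset V)
    (A : ι → (∀ v, α v) → Prop) (hA : ∀ i ∈ F, DependsOn (A i) (S i : Set V))
    (hd : ∀ i ∈ F, ∀ j ∈ F, i ≠ j → Disjoint (S i) (S j)) :
    μ.P (fun ω => ∀ i ∈ F, A i ω) = ∏ i ∈ F, μ.P (A i) := by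
  classical
  have h := E_prod_of_disjoint μ F S (fun i ω => if A i ω then 1 else 0)
    (fun i hi => prob2_dependsOn_ind (hA i hi) 1 0) hd
  unfold Weights.P
  rw [← h]
  congr 1
  funext ω
  by_cases hω : ∀ i ∈ F, A i ω
  · rw [if_pos hω]
    exact (prod_eq_one fun i hi => if_pos (hω i hi)).symm
  · rw [if_neg hω]
    push Not at hω
    obtain ⟨i, hi, h⟩ := hω
    exact (prod_eq_zero hi (if_neg h)).symm

/-- PR2. Sums of products over `n`-element subsets: `e_n ≤ (∑ p)^n / n! ≤ (e ∑ p / n)^n`.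
(`∏` expands `(∑ p)^n`; or induction; `Nat.factorial` lower bound `n^n / e^n ≤ n!`.) -/
theorem sum_powersetCard_prod_le {ι : Type*} (s : Finset ι) (p : ι → ℝ)
    (hp : ∀ i ∈ s, 0 ≤ p i) (n : ℕ) (hn : 0 < n) :
    ∑ F ∈ s.powersetCard n, ∏ i ∈ F, p i ≤ (Real.exp 1 * (∑ i ∈ s, p i) / n) ^ n := by
  classical
  set σ := ∑ i ∈ s, p i with hσ
  have hσ0 : 0 ≤ σ := sum_nonneg hp
  have hn' : (0 : ℝ) < n := by exact_mod_cast hn
  rcases hσ0.eq_or_lt with h0 | hpos
  · have hz : ∀ i ∈ s, p i = 0 := (sum_eq_zero_iff_of_nonneg hp).1 h0.symm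
    have h1 : ∑ F ∈ s.powersetCard n, ∏ i ∈ F, p i = 0 := by
      refine sum_eq_zero fun F hF => ?_
      rw [mem_powersetCard] at hF
      have hne : F.Nonempty := card_pos.1 (by omega)
      obtain ⟨i, hi⟩ := hne
      exact prod_eq_zero hi (hz i (hF.1 hi))
    rw [h1]
    positivity
  · set θ : ℝ := n / σ with hθ
    have hθ0 : 0 < θ := div_pos hn' hpos
    have h1 : θ ^ n * ∑ F ∈ s.powersetCard n, ∏ i ∈ F, p i ≤ Real.exp n := by
      calc θ ^ n * ∑ F ∈ s.powersetCard n, ∏ i ∈ F, p i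
          = ∑ F ∈ s.powersetCard n, ∏ i ∈ F, (θ * p i) := by
            rw [mul_sum]
            refine sum_congr rfl fun F hF => ?_
            rw [mem_powersetCard] at hF
            rw [prod_mul_distrib, prod_const, hF.2]
        _ ≤ ∑ F ∈ s.powerset, ∏ i ∈ F, (θ * p i) := by
            refine sum_le_sum_of_subset_of_nonneg ?_ fun F hF _ => ?_
            · intro F hF
              rw [mem_powersetCard] at hF
              exact mem_powerset.2 hF.1
            · exact prod_nonneg fun i hi => mul_nonneg hθ0.le (hp i (mem_powerset.1 hF hi))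
        _ = ∏ i ∈ s, (θ * p i + 1) := by
            rw [prod_add]
            refine sum_congr rfl fun F _ => ?_
            rw [prod_const_one, mul_one]
        _ ≤ ∏ i ∈ s, Real.exp (θ * p i) := by
            refine prod_le_prod (fun i hi => ?_) fun i _ => Real.add_one_le_exp _
            have := mul_nonneg hθ0.le (hp i hi)
            linarith
        _ = Real.exp n := by
            rw [← Real.exp_sum, ← mul_sum, ← hσ, hθ, div_mul_cancel₀ _ hpos.ne']
    have h2 : (Real.exp 1 * σ / n) ^ n = Real.exp n / θ ^ n := by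
      rw [hθ, div_pow, div_pow, mul_pow, ← Real.exp_nat_mul, mul_one]
      field_simp
    rw [h2, le_div_iff₀ (pow_pos hθ0 n), mul_comm]
    exact h1

open Classical in
/-- PR2. Lower tail for the number of occurring events among independent ones:
`E exp(-N) ≤ exp(-(1-1/e) μ₀) ≤ exp(-μ₀/2)`, then Markov. -/
theorem urn_bound {ι : Type*} (G : Finset ι) (S : ι → Finset V)
    (A : ι → (∀ v, α v) → Prop) (hA : ∀ i ∈ G, DependsOn (A i) (S i : Set V))
    (hd : ∀ i ∈ G, ∀ j ∈ G, i ≠ j → Disjoint (S i) (S j)) (p : ι → ℝ)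
    (hp : ∀ i ∈ G, p i ≤ μ.P (A i)) (μ₀ : ℝ) (hμ : μ₀ ≤ ∑ i ∈ G, p i) (ℓ : ℕ) :
    μ.P (fun ω => (G.filter fun i => A i ω).card < ℓ) ≤ Real.exp (ℓ - μ₀ / 2) := by
  set e₁ : ℝ := Real.exp (-1) with he₁
  have he₁' : e₁ ≤ 1 / 2 := by
    have := Real.exp_one_gt_d9
    rw [he₁, Real.exp_neg, inv_eq_one_div, div_le_div_iff₀ (Real.exp_pos 1) two_pos]
    linarith
  have he0 : 0 < e₁ := Real.exp_pos _
  have hE : μ.E (fun ω => ∏ i ∈ G, if A i ω then e₁ else 1) = ∏ i ∈ G,
      μ.E (fun ω => if A i ω then e₁ else 1) :=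
    E_prod_of_disjoint μ G S (fun i ω => if A i ω then e₁ else 1)
      (fun i hi => prob2_dependsOn_ind (hA i hi) e₁ 1) hd
  have hone : ∀ i ∈ G, μ.E (fun ω => if A i ω then e₁ else 1) ≤ Real.exp (-(p i / 2)) := by
    intro i hi
    have e1 : (fun ω => if A i ω then e₁ else 1)
        = fun ω => 1 - (1 - e₁) * (if A i ω then 1 else 0) := by
      funext ω
      by_cases h : A i ω <;> simp [h]
    have e2 : μ.E (fun ω => if A i ω then e₁ else 1) = 1 - (1 - e₁) * μ.P (A i) := by
      rw [e1, μ.E_sub, μ.E_const, μ.E_mul_left]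
      rfl
    rw [e2]
    have h1 := Real.add_one_le_exp (-((1 - e₁) * μ.P (A i)))
    have h2 : -((1 - e₁) * μ.P (A i)) ≤ -(p i / 2) := by
      have := hp i hi
      have := μ.P_nonneg (A i)
      nlinarith
    linarith [Real.exp_le_exp.2 h2]
  have hprod : ∏ i ∈ G, μ.E (fun ω => if A i ω then e₁ else 1) ≤ Real.exp (-(μ₀ / 2)) := by
    calc ∏ i ∈ G, μ.E (fun ω => if A i ω then e₁ else 1)
        ≤ ∏ i ∈ G, Real.exp (-(p i / 2)) := by
          refine prod_le_prod (fun i _ => ?_) hone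
          refine μ.E_nonneg fun ω => ?_
          by_cases h : A i ω <;> simp [h, he0.le]
      _ = Real.exp (-((∑ i ∈ G, p i) / 2)) := by
          rw [← Real.exp_sum]
          congr 1
          rw [sum_neg_distrib, sum_div]
      _ ≤ _ := Real.exp_le_exp.2 (by linarith)
  have hf : ∀ ω, ∏ i ∈ G, (if A i ω then e₁ else 1)
      = Real.exp (-((G.filter fun i => A i ω).card : ℝ)) := by
    intro ω
    rw [prod_ite, prod_const, prod_const_one, mul_one, he₁, ← Real.exp_nat_mul]
    congr 1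
    ring
  have hmarkov := μ.P_le_of_le (A := fun ω => (G.filter fun i => A i ω).card < ℓ)
    (f := fun ω => ∏ i ∈ G, if A i ω then e₁ else 1) (Real.exp (-(ℓ : ℝ))) (Real.exp_pos _)
    (fun ω => by rw [hf]; exact (Real.exp_pos _).le)
    (fun ω hω => by
      rw [hf]
      refine Real.exp_le_exp.2 ?_
      have : ((G.filter fun i => A i ω).card : ℝ) ≤ ℓ := by exact_mod_cast hω.le
      linarith)
  refine hmarkov.trans ?_
  rw [hE, div_le_iff₀ (Real.exp_pos _), ← Real.exp_add]
  refine hprod.trans (Real.exp_le_exp.2 ?_)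
  linarith

end Pool.Agent.Lib.BipAcyc
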