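import Pool.Agent.Lib.BipAcyc.Prob0

/-!
CHUNK PR3. Events revealed one after the other.
-/

set_option autoImplicit false
set_option linter.unusedSectionVars false

namespace Pool.Agent.Lib.BipAcyc

open Finset Pool.Agent.Lib.Prob48

variable {V : Type*} [Fintype V] [DecidableEq V] {α : V → Type*} [∀ v, Fintype (α v)]
variable (μ : Weights α)

open Classical in
/-- PR3. Events `L i` revealed in the order of `key`; the event `L i` has conditional probability
at most `p` when the coordinate `c i` is resampled, and the events before it do not depend on
that coordinate. Then they all happen together with probability at most `p ^ |F|`.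
Hint: induction on `F`, removing the element with the largest key; write the product of
indicators, use `Weights.E_avg (c i)` and `Weights.avg_mul_of_dependsOn` (or unfold `avg`). -/
theorem P_seq_le {ι : Type*} (F : Finset ι) (key : ι → ℕ) (c : ι → V)
    (L : ι → (∀ v, α v) → Prop) (p : ℝ) (hp : 0 ≤ p)
    (hkey : ∀ i ∈ F, ∀ j ∈ F, key i = key j → i = j)
    (hdep : ∀ i ∈ F, ∀ j ∈ F, key j < key i → ∀ ω a,
      L j (Function.update ω (c i) a) ↔ L j ω)
    (hL : ∀ i ∈ F, ∀ ω, μ.avg (c i) (fun ω => if L i ω then 1 else 0) ω ≤ p) :
    μ.P (fun ω => ∀ i ∈ F, L i ω) ≤ p ^ F.card := by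
  induction F using Finset.induction_on_max_value key with
  | empty =>
    rw [card_empty, pow_zero]
    exact μ.P_le_one _
  | insert i s hi hmax ih =>
    have ih' := ih
      (fun a ha b hb => hkey a (mem_insert_of_mem ha) b (mem_insert_of_mem hb))
      (fun a ha b hb => hdep a (mem_insert_of_mem ha) b (mem_insert_of_mem hb))
      (fun a ha => hL a (mem_insert_of_mem ha))
    rw [card_insert_of_notMem hi, pow_succ, mul_comm]
    refine le_trans ?_ (mul_le_mul_of_nonneg_left ih' hp)
    have hlt : ∀ j ∈ s, key j < key i := by
      intro j hj
      refine lt_of_le_of_ne (hmax j hj) fun e => ?_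
      have := hkey j (mem_insert_of_mem hj) i (mem_insert_self _ _) e
      exact hi (this ▸ hj)
    have hG : ∀ ω a, (∀ j ∈ s, L j (Function.update ω (c i) a)) ↔ ∀ j ∈ s, L j ω := by
      intro ω a
      refine forall_congr' fun j => ?_
      refine forall_congr' fun hj => ?_
      exact hdep i (mem_insert_self _ _) j (mem_insert_of_mem hj) (hlt j hj) ω a
    unfold Weights.P
    rw [← μ.E_avg (c i), ← μ.E_mul_left]
    refine μ.E_mono fun ω => ?_
    have h1 := hL i (mem_insert_self _ _) ω
    by_cases hg : ∀ j ∈ s, L j ω
    · rw [if_pos hg, mul_one]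
      refine le_trans (le_of_eq ?_) h1
      unfold Weights.avg
      refine sum_congr rfl fun a _ => ?_
      congr 1
      beta_reduce
      have hg' := (hG ω a).2 hg
      by_cases hli : L i (Function.update ω (c i) a)
      · rw [if_pos hli, if_pos]
        intro j hj
        rcases mem_insert.1 hj with rfl | hj
        · exact hli
        · exact hg' j hj
      · rw [if_neg hli, if_neg]
        intro h
        exact hli (h i (mem_insert_self _ _))
    · rw [if_neg hg, mul_zero]
      refine le_of_eq ?_
      unfold Weights.avg
      refine sum_eq_zero fun a _ => ?_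
      beta_reduce
      rw [if_neg, mul_zero]
      intro h
      exact hg ((hG ω a).1 fun j hj => h j (mem_insert_of_mem hj))

end Pool.Agent.Lib.BipAcyc
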