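import Pool.Agent.Lib.BipAcyc.Prob1
import Pool.Agent.Lib.BipAcyc.Prob2

/-!
CHUNK PR4. Uniform weights (one may use independence from `Prob2`).
-/

set_option autoImplicit false
set_option linter.unusedSectionVars false

namespace Pool.Agent.Lib.BipAcyc

open Finset Pool.Agent.Lib.Prob48

variable {V : Type*} [Fintype V] [DecidableEq V] {γ : Type*} [Fintype γ] [Nonempty γ]

lemma prob4_avg {δ : Type*} [Fintype δ] [DecidableEq δ] (g : γ → δ)
    (hg : ∀ d : δ, (univ.filter fun c => g c = d).card * Fintype.card δ = Fintype.card γ)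
    (d : δ) : ∑ a : γ, (Fintype.card γ : ℝ)⁻¹ * (if g a = d then (1 : ℝ) else 0)
      = (Fintype.card δ : ℝ)⁻¹ := by
  have h := hg d
  have hγ : (Fintype.card γ : ℝ) ≠ 0 := Nat.cast_ne_zero.2 Fintype.card_ne_zero
  have h' : ((univ.filter fun c => g c = d).card : ℝ) * Fintype.card δ = Fintype.card γ := by
    exact_mod_cast h
  have hδ : (Fintype.card δ : ℝ) ≠ 0 := by
    intro h0
    rw [h0, mul_zero] at h'
    exact hγ h'.symm
  rw [← mul_sum, sum_boole]
  rw [← h']
  have hc : ((univ.filter fun c => g c = d).card : ℝ) ≠ 0 := by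
    intro h0
    rw [h0, zero_mul] at h'
    exact hγ h'.symm
  field_simp

lemma prob4_single {δ : Type*} [Fintype δ] [DecidableEq δ] (g : γ → δ)
    (hg : ∀ d : δ, (univ.filter fun c => g c = d).card * Fintype.card δ = Fintype.card γ)
    (v : V) (d : δ) :
    (unif V γ).P (fun ω => g (ω v) = d) = (Fintype.card δ : ℝ)⁻¹ := by
  classical
  unfold Weights.P
  rw [← (unif V γ).E_avg v]
  have e : (unif V γ).avg v (fun ω => if g (ω v) = d then (1 : ℝ) else 0)
      = fun _ => (Fintype.card δ : ℝ)⁻¹ := by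
    funext ω
    unfold Weights.avg
    simp only [Function.update_self]
    exact prob4_avg g hg d
  have e2 : (unif V γ).avg v (fun ω => if g (ω v) = d then (1 : ℝ) else 0)
      = (unif V γ).avg v (fun ω => @ite ℝ (g (ω v) = d) (Classical.propDecidable _) 1 0) := by
    congr 1
    funext ω
    congr
  rw [← e2, e, (unif V γ).E_const]

/-- PR4. The same for an equidistributed function `g` of the coordinates. -/
theorem P_proj_forall {δ : Type*} [Fintype δ] [DecidableEq δ] (g : γ → δ)
    (hg : ∀ d : δ, (univ.filter fun c => g c = d).card * Fintype.card δ = Fintype.card γ)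
    (T : Finset V) (x : V → δ) :
    (unif V γ).P (fun ω => ∀ v ∈ T, g (ω v) = x v) = ((Fintype.card δ : ℝ)⁻¹) ^ T.card := by
  have h := P_forall_of_disjoint (unif V γ) T (fun v => {v})
    (fun v ω => g (ω v) = x v) (fun v _ => by
      intro ω η h
      have := h v (by simp)
      simp only [this]) (fun u _ v _ huv => by simpa using huv)
  rw [h, prod_congr rfl fun v _ => prob4_single g hg v (x v), prod_const]

theorem P_proj_pair {δ : Type*} [Fintype δ] [DecidableEq δ] (g : γ → δ)
    (hg : ∀ d : δ, (univ.filter fun c => g c = d).card * Fintype.card δ = Fintype.card γ)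
    (u v : V) (h : u ≠ v) :
    (unif V γ).P (fun ω => g (ω u) = g (ω v)) = (Fintype.card δ : ℝ)⁻¹ := by
  classical
  unfold Weights.P
  rw [← (unif V γ).E_avg u]
  have e : (unif V γ).avg u (fun ω => if g (ω u) = g (ω v) then (1 : ℝ) else 0)
      = fun _ => (Fintype.card δ : ℝ)⁻¹ := by
    funext ω
    unfold Weights.avg
    simp only [Function.update_self, Function.update_of_ne h.symm]
    exact prob4_avg g hg (g (ω v))
  have e2 : (unif V γ).avg u (fun ω => if g (ω u) = g (ω v) then (1 : ℝ) else 0)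
      = (unif V γ).avg u
        (fun ω => @ite ℝ (g (ω u) = g (ω v)) (Classical.propDecidable _) 1 0) := by
    congr 1
    funext ω
    congr
  rw [← e2, e, (unif V γ).E_const]

lemma prob4_id [DecidableEq γ] :
    ∀ d : γ, (univ.filter fun c : γ => id c = d).card * Fintype.card γ = Fintype.card γ := by
  intro d
  have : (univ.filter fun c : γ => id c = d) = {d} := by
    ext c
    simp
  rw [this, card_singleton, one_mul]

/-- PR4. All coordinates of `T` take prescribed values. -/
theorem P_forall_eq (T : Finset V) (x : V → γ) :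
    (unif V γ).P (fun ω => ∀ v ∈ T, ω v = x v) = ((Fintype.card γ : ℝ)⁻¹) ^ T.card := by
  classical
  exact P_proj_forall id prob4_id T x

theorem P_pair_eq (u v : V) (h : u ≠ v) :
    (unif V γ).P (fun ω => ω u = ω v) = (Fintype.card γ : ℝ)⁻¹ := by
  classical
  exact P_proj_pair id prob4_id u v h

/-- PR4. All coordinates of `T` are equal (to the one at `v₀ ∈ T`). -/
theorem P_all_eq (T : Finset V) (v₀ : V) (h : v₀ ∈ T) :
    (unif V γ).P (fun ω => ∀ v ∈ T, ω v = ω v₀) = ((Fintype.card γ : ℝ)⁻¹) ^ (T.card - 1) := by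
  classical
  have h1 : ∀ ω : V → γ, (unif V γ).P
      (fun η => ∀ v ∈ T, mix (T.erase v₀) ω η v = mix (T.erase v₀) ω η v₀)
      = ((Fintype.card γ : ℝ)⁻¹) ^ (T.card - 1) := by
    intro ω
    rw [← card_erase_of_mem h, ← P_forall_eq (T.erase v₀) fun _ => ω v₀]
    refine (unif V γ).P_congr fun η => ?_
    have h0 : mix (α := fun _ => γ) (T.erase v₀) ω η v₀ = ω v₀ :=
      mix_of_notMem (notMem_erase v₀ T) ω η
    constructor
    · intro hv v hvT
      have h2 := hv v (mem_of_mem_erase hvT)
      rw [mix_of_mem hvT, h0] at h2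
      exact h2
    · intro hv v hvT
      by_cases hvv : v = v₀
      · rw [hvv]
      · rw [mix_of_mem (mem_erase.2 ⟨hvv, hvT⟩), h0]
        exact hv v (mem_erase.2 ⟨hvv, hvT⟩)
  have h2 : (unif V γ).P (fun ω => ∀ v ∈ T, ω v = ω v₀)
      = (unif V γ).E (fun ω => (unif V γ).P
        (fun η => ∀ v ∈ T, mix (T.erase v₀) ω η v = mix (T.erase v₀) ω η v₀)) := by
    unfold Weights.P
    rw [← E_mix (unif V γ) (T.erase v₀)]
  rw [h2]
  simp_rw [h1]
  rw [(unif V γ).E_const]

end Pool.Agent.Lib.BipAcyc
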