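import Pool.Agent.Lib.Prob48.LLL

/-!
Uniform weights and mixing of outcomes on finite product spaces (definitions).
-/

set_option autoImplicit false
set_option linter.unusedSectionVars false

namespace Pool.Agent.Lib.BipAcyc

open Finset Pool.Agent.Lib.Prob48

/-- Uniform weights: every coordinate is uniform on `γ`. -/
noncomputable def unif (V : Type*) (γ : Type*) [Fintype γ] [Nonempty γ] :
    Weights (fun _ : V => γ) where
  w := fun _ _ => (Fintype.card γ : ℝ)⁻¹
  nonneg := fun _ _ => inv_nonneg.2 (Nat.cast_nonneg _)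
  sum_one := fun _ => by
    have h : (Fintype.card γ : ℝ) ≠ 0 := Nat.cast_ne_zero.2 Fintype.card_ne_zero
    simp [h]

variable {V : Type*} [DecidableEq V] {α : V → Type*}

/-- The outcome which is `η` on `T` and `ω` elsewhere. -/
def mix (T : Finset V) (ω η : ∀ v, α v) : ∀ v, α v := fun v => if v ∈ T then η v else ω v

lemma mix_of_mem {T : Finset V} {v : V} (h : v ∈ T) (ω η : ∀ v, α v) : mix T ω η v = η v := by
  simp [mix, h]

lemma mix_of_notMem {T : Finset V} {v : V} (h : v ∉ T) (ω η : ∀ v, α v) :
    mix T ω η v = ω v := by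
  simp [mix, h]

end Pool.Agent.Lib.BipAcyc
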