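import Pool.Agent.Lib.BipAcyc.Prob0

/-!
CHUNK PR1. Fubini on a finite product space.
-/

set_option autoImplicit false
set_option linter.unusedSectionVars false

namespace Pool.Agent.Lib.BipAcyc

open Finset Pool.Agent.Lib.Prob48

variable {V : Type*} [Fintype V] [DecidableEq V] {α : V → Type*} [∀ v, Fintype (α v)]
variable (μ : Weights α)

lemma prob1_mix_mix (T : Finset V) (ω η : ∀ v, α v) : mix T (mix T ω η) (mix T η ω) = ω := by
  funext v
  by_cases h : v ∈ T
  · rw [mix_of_mem h, mix_of_mem h]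
  · rw [mix_of_notMem h, mix_of_notMem h]

lemma prob1_pw (T : Finset V) (ω η : ∀ v, α v) :
    μ.pw (mix T ω η) * μ.pw (mix T η ω) = μ.pw ω * μ.pw η := by
  unfold Weights.pw
  rw [← prod_mul_distrib, ← prod_mul_distrib]
  refine prod_congr rfl fun v _ => ?_
  by_cases h : v ∈ T
  · rw [mix_of_mem h, mix_of_mem h, mul_comm]
  · rw [mix_of_notMem h, mix_of_notMem h]

/-- PR1. Fubini: resampling all coordinates of `T` does not change an expectation.
Hint: induction on `T` with `Weights.E_avg` (resampling of one coordinate), or directly the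
involution exchanging the `T`-parts of `ω` and `η` in the double sum. -/
theorem E_mix (T : Finset V) (f : (∀ v, α v) → ℝ) :
    μ.E (fun ω => μ.E (fun η => f (mix T ω η))) = μ.E f := by
  classical
  let e : Equiv.Perm ((∀ v, α v) × (∀ v, α v)) :=
    Function.Involutive.toPerm (fun p => (mix T p.1 p.2, mix T p.2 p.1)) (by
      rintro ⟨ω, η⟩
      simp only [Prod.mk.injEq]
      exact ⟨prob1_mix_mix T ω η, prob1_mix_mix T η ω⟩)
  have h1 : μ.E (fun ω => μ.E (fun η => f (mix T ω η)))
      = ∑ p : (∀ v, α v) × (∀ v, α v), μ.pw p.1 * μ.pw p.2 * f (mix T p.1 p.2) := by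
    unfold Weights.E
    rw [Fintype.sum_prod_type]
    refine sum_congr rfl fun ω _ => ?_
    rw [mul_sum]
    refine sum_congr rfl fun η _ => ?_
    ring
  have h2 : μ.E f = ∑ p : (∀ v, α v) × (∀ v, α v), μ.pw p.1 * μ.pw p.2 * f p.1 := by
    unfold Weights.E
    rw [Fintype.sum_prod_type]
    refine sum_congr rfl fun ω _ => ?_
    have h3 : ∑ η : (∀ v, α v), μ.pw ω * μ.pw η * f ω = (μ.pw ω * f ω) * ∑ η, μ.pw η := by
      rw [mul_sum]
      refine sum_congr rfl fun η _ => ?_
      ring
    rw [h3, μ.sum_pw, mul_one]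
  rw [h1, h2, ← Equiv.sum_comp e]
  refine sum_congr rfl fun p _ => ?_
  show μ.pw (mix T p.1 p.2) * μ.pw (mix T p.2 p.1) *
    f (mix T (mix T p.1 p.2) (mix T p.2 p.1)) = μ.pw p.1 * μ.pw p.2 * f p.1
  rw [prob1_pw, prob1_mix_mix]

/-- PR1. If for every outcome outside `T` the conditional probability is at most `c`, then so is
the probability. -/
theorem P_le_of_mix (T : Finset V) (A : (∀ v, α v) → Prop) (c : ℝ)
    (h : ∀ ω, μ.P (fun η => A (mix T ω η)) ≤ c) : μ.P A ≤ c := by
  classical
  have h1 : μ.P A = μ.E (fun ω => μ.P (fun η => A (mix T ω η))) := by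
    unfold Weights.P
    rw [← E_mix μ T]
  rw [h1, ← μ.E_const c]
  exact μ.E_mono (g := fun _ => c) h

end Pool.Agent.Lib.BipAcyc
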