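import Pool.Agent.Lib.BipAcyc.Process0

/-!
CHUNK PC1. Basic facts on the process. First show that `pickN b J ρ ξ t u` does not depend on `t`
as soon as `ρ u < t`, by induction.
-/

set_option autoImplicit false
set_option linter.unusedSectionVars false

namespace Pool.Agent.Lib.BipAcyc

open Finset

theorem nth_mem {b : ℕ} [NeZero b] (S : Finset (Fin b)) (i : ℕ) (h : i < S.card) :
    nth S i ∈ S := by
  unfold nth
  rw [dif_pos h]
  exact orderEmbOfFin_mem S rfl ⟨i, h⟩

theorem nth_inj {b : ℕ} [NeZero b] (S : Finset (Fin b)) (i j : ℕ) (hi : i < S.card)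
    (hj : j < S.card) (h : nth S i = nth S j) : i = j := by
  unfold nth at h
  rw [dif_pos hi, dif_pos hj] at h
  have := (S.orderEmbOfFin rfl).injective h
  simpa using this

variable {A : Type*} [Fintype A] {b : ℕ} [NeZero b]

lemma procpick_fuel (J : A → A → Prop) (ρ ξ : A → ℕ) :
    ∀ t s u, ρ u < t → ρ u < s → pickN b J ρ ξ t u = pickN b J ρ ξ s u := by
  intro t
  induction t with
  | zero => intro s u h; omega
  | succ t ih =>
    intro s u ht hs
    obtain ⟨s, rfl⟩ : ∃ s', s = s' + 1 := ⟨s - 1, by omega⟩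
    simp only [pickN]
    congr 1
    ext a
    simp only [mem_filter, mem_univ, true_and]
    refine forall_congr' fun w => imp_congr_right fun hw => imp_congr_right fun _ => ?_
    rw [ih s w (by omega) (by omega)]

theorem pick_eq (J : A → A → Prop) (ρ ξ : A → ℕ) (u : A) :
    pick b J ρ ξ u = nth (avail b J ρ ξ u) (ξ u) := by
  unfold pick avail
  simp only [pickN]
  congr 1
  ext a
  simp only [mem_filter, mem_univ, true_and]
  refine forall_congr' fun w => imp_congr_right fun hw => imp_congr_right fun _ => ?_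
  rw [procpick_fuel J ρ ξ (ρ u) (ρ w + 1) w hw (by omega)]
  rfl

/-- Two runs give the same colours on a set `U` which is closed under conflicting vertices of
earlier rounds (strong induction on the round). -/
theorem pick_congr_set {J J' : A → A → Prop} {ρ ρ' ξ ξ' : A → ℕ} (U : Set A)
    (hξ : ∀ w ∈ U, ξ w = ξ' w)
    (h1 : ∀ w ∈ U, ∀ w', ρ w' < ρ w → J w w' → w' ∈ U ∧ ρ' w' < ρ' w ∧ J' w w')
    (h2 : ∀ w ∈ U, ∀ w', ρ' w' < ρ' w → J' w w' → w' ∈ U ∧ ρ w' < ρ w ∧ J w w') :
    ∀ w ∈ U, pick b J ρ ξ w = pick b J' ρ' ξ' w := by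
  have key : ∀ n w, ρ w ≤ n → w ∈ U → pick b J ρ ξ w = pick b J' ρ' ξ' w := by
    intro n
    induction n with
    | zero =>
      intro w hw hU
      rw [pick_eq, pick_eq, hξ w hU]
      congr 1
      ext a
      simp only [avail, mem_filter, mem_univ, true_and]
      constructor
      · intro _ w' hw' hJ
        have := h2 w hU w' hw' hJ
        omega
      · intro _ w' hw' hJ
        omega
    | succ n ih =>
      intro w hw hU
      rw [pick_eq, pick_eq, hξ w hU]
      congr 1
      ext a
      simp only [avail, mem_filter, mem_univ, true_and]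
      constructor
      · intro h w' hw' hJ
        obtain ⟨a1, a2, a3⟩ := h2 w hU w' hw' hJ
        rw [← ih w' (by omega) a1]
        exact h w' a2 a3
      · intro h w' hw' hJ
        obtain ⟨a1, a2, a3⟩ := h1 w hU w' hw' hJ
        rw [ih w' (by omega) a1]
        exact h w' a2 a3
  exact fun w hw => key (ρ w) w le_rfl hw

/-- The colours of the vertices `w ≠ u` whose round is not later than that of `u` do not depend
on the conflicts of `u`. -/
theorem pick_congr_off {J J' : A → A → Prop} {ρ ξ : A → ℕ} (u : A)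
    (hJ : ∀ w w', w ≠ u → w' ≠ u → (J w w' ↔ J' w w')) (w : A) (hw : w ≠ u)
    (hρ : ρ w ≤ ρ u) : pick b J ρ ξ w = pick b J' ρ ξ w := by
  refine pick_congr_set {w | w ≠ u ∧ ρ w ≤ ρ u} (fun _ _ => rfl) ?_ ?_ w ⟨hw, hρ⟩
  · rintro w ⟨h1, h2⟩ w' h3 h4
    have h5 : w' ≠ u := by
      rintro rfl
      omega
    exact ⟨⟨h5, by omega⟩, h3, (hJ w w' h1 h5).1 h4⟩
  · rintro w ⟨h1, h2⟩ w' h3 h4
    have h5 : w' ≠ u := by
      rintro rfl
      omega
    exact ⟨⟨h5, by omega⟩, h3, (hJ w w' h1 h5).2 h4⟩

end Pool.Agent.Lib.BipAcyc
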