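import Pool.Agent.Lib.BipAcyc.Inc

/-!
The greedy process in rounds: `ρ w` is the round of `w`, `J` the conflict relation; `w` takes the
`ξ w`-th colour which is not taken by a conflicting vertex of an earlier round. Balls.
Definitions.
-/

set_option autoImplicit false
set_option linter.unusedSectionVars false

namespace Pool.Agent.Lib.BipAcyc

open Finset

/-- The `i`-th element of a set of colours (in increasing order). -/
noncomputable def nth {b : ℕ} [NeZero b] (S : Finset (Fin b)) (i : ℕ) : Fin b :=
  if h : i < S.card then S.orderEmbOfFin rfl ⟨i, h⟩ else 0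

variable {A : Type*} [Fintype A] {b : ℕ} [NeZero b]

open Classical in
/-- The colours picked, computed with `t` units of fuel. -/
noncomputable def pickN (b : ℕ) [NeZero b] (J : A → A → Prop) (ρ ξ : A → ℕ) : ℕ → A → Fin b
  | 0, _ => 0
  | t + 1, u =>
      nth (univ.filter fun a : Fin b => ∀ w, ρ w < ρ u → J u w → pickN b J ρ ξ t w ≠ a) (ξ u)

/-- The colour picked by `u`. -/
noncomputable def pick (b : ℕ) [NeZero b] (J : A → A → Prop) (ρ ξ : A → ℕ) (u : A) : Fin b :=
  pickN b J ρ ξ (ρ u + 1) u

open Classical in
/-- The colours available at `u`. -/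
noncomputable def avail (b : ℕ) [NeZero b] (J : A → A → Prop) (ρ ξ : A → ℕ) (u : A) :
    Finset (Fin b) :=
  univ.filter fun a : Fin b => ∀ w, ρ w < ρ u → J u w → pick b J ρ ξ w ≠ a

open Classical in
/-- Ball of radius `t` for the relation `Q`. -/
noncomputable def ball (Q : A → A → Prop) : ℕ → A → Finset A
  | 0, u => {u}
  | t + 1, u => insert u ((univ.filter (Q u)).biUnion (ball Q t))

end Pool.Agent.Lib.BipAcyc
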