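import Pool.Agent.Lib.BipAcyc.Avoid
import Pool.Agent.Lib.BipAcyc.Inc

/-!
The class maps given by an outcome of the product space `A ⊕ B → Fin X`.
-/

set_option autoImplicit false
set_option linter.unusedSectionVars false

namespace Pool.Agent.Lib.BipAcyc

open Finset Pool.Agent.Lib.Prob48

variable {A B : Type*} [Fintype A] [Fintype B] [LinearOrder A] [LinearOrder B]

/-- the class map of `A` given by an outcome -/
def kap {X : ℕ} (ω : A ⊕ B → Fin X) (u : A) : Fin X := ω (Sum.inl u)

/-- the class map of `B` given by an outcome -/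
def phi {X : ℕ} (ω : A ⊕ B → Fin X) (y : B) : Fin X := ω (Sum.inr y)

end Pool.Agent.Lib.BipAcyc
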