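import Pool.Agent.Lib.BipAcyc.St0

/-!
Auxiliary lemmas for the chunks ST1 to ST4 and WI1 to WI3: dependent products for counting tuples
and the probability that two sets of vertices are monochromatic.
-/

set_option autoImplicit false
set_option linter.unusedSectionVars false

namespace Pool.Agent.Lib.BipAcyc

open Finset Pool.Agent.Lib.Prob48

/-- dependent product of finite sets -/
def dp {α β : Type*} [DecidableEq α] [DecidableEq β] (s : Finset α) (t : α → Finset β) :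
    Finset (α × β) := s.biUnion fun a => (t a).image fun b => (a, b)

@[simp] lemma mem_dp {α β : Type*} [DecidableEq α] [DecidableEq β] (s : Finset α)
    (t : α → Finset β) (p : α × β) : p ∈ dp s t ↔ p.1 ∈ s ∧ p.2 ∈ t p.1 := by
  obtain ⟨a, b⟩ := p
  simp only [dp, mem_biUnion, mem_image, Prod.mk.injEq]
  constructor
  · rintro ⟨a', h1, b', h2, rfl, rfl⟩
    exact ⟨h1, h2⟩
  · rintro ⟨h1, h2⟩
    exact ⟨a, h1, b, h2, rfl, rfl⟩

lemma card_dp_le {α β : Type*} [DecidableEq α] [DecidableEq β] (s : Finset α)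
    (t : α → Finset β) (n m : ℕ) (hs : s.card ≤ n) (h : ∀ a ∈ s, (t a).card ≤ m) :
    (dp s t).card ≤ n * m := by
  refine card_biUnion_le.trans ?_
  calc ∑ a ∈ s, ((t a).image fun b => (a, b)).card ≤ ∑ _a ∈ s, m :=
        sum_le_sum fun a ha => card_image_le.trans (h a ha)
    _ = s.card * m := by rw [sum_const, smul_eq_mul]
    _ ≤ n * m := Nat.mul_le_mul_right _ hs

variable {A B : Type*} [Fintype A] [Fintype B] [LinearOrder A] [LinearOrder B]

lemma staux_dep {X : ℕ} (TA : Finset A) (a₀ : A) (h₀ : a₀ ∈ TA) :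
    DependsOn (fun ω : A ⊕ B → Fin X => ∀ u ∈ TA, kap ω u = kap ω a₀)
      ((TA.image Sum.inl : Finset (A ⊕ B)) : Set (A ⊕ B)) := by
  intro ω η h
  have h1 : ∀ u ∈ TA, kap ω u = kap η u := fun u hu =>
    h _ (by simpa using hu)
  simp only [eq_iff_iff]
  constructor
  · intro hh u hu
    rw [← h1 u hu, ← h1 a₀ h₀]
    exact hh u hu
  · intro hh u hu
    rw [h1 u hu, h1 a₀ h₀]
    exact hh u hu

lemma staux_depB {X : ℕ} (TB : Finset B) (b₀ : B) (h₀ : b₀ ∈ TB) :
    DependsOn (fun ω : A ⊕ B → Fin X => ∀ u ∈ TB, phi ω u = phi ω b₀)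
      ((TB.image Sum.inr : Finset (A ⊕ B)) : Set (A ⊕ B)) := by
  intro ω η h
  have h1 : ∀ u ∈ TB, phi ω u = phi η u := fun u hu =>
    h _ (by simpa using hu)
  simp only [eq_iff_iff]
  constructor
  · intro hh u hu
    rw [← h1 u hu, ← h1 b₀ h₀]
    exact hh u hu
  · intro hh u hu
    rw [h1 u hu, h1 b₀ h₀]
    exact hh u hu

/-- the probability that two sets of vertices are monochromatic -/
lemma staux_prob (X : ℕ) [NeZero X] (TA : Finset A) (a₀ : A) (ha : a₀ ∈ TA) (TB : Finset B)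
    (b₀ : B) (hb : b₀ ∈ TB) :
    (unif (A ⊕ B) (Fin X)).P (fun ω => (∀ u ∈ TA, kap ω u = kap ω a₀) ∧
      ∀ y ∈ TB, phi ω y = phi ω b₀)
      = ((X : ℝ)⁻¹) ^ (TA.card - 1) * ((X : ℝ)⁻¹) ^ (TB.card - 1) := by
  rw [(unif (A ⊕ B) (Fin X)).P_and_of_dependsOn (TA.image Sum.inl)
    ((TB.image Sum.inr : Finset (A ⊕ B)) : Set (A ⊕ B)) ?_ (staux_dep TA a₀ ha)
    (staux_depB TB b₀ hb)]
  · congr 1
    · have h := P_all_eq (γ := Fin X) (TA.image Sum.inl : Finset (A ⊕ B)) (Sum.inl a₀)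
        (mem_image_of_mem _ ha)
      rw [card_image_of_injective _ Sum.inl_injective, Fintype.card_fin] at h
      rw [← h]
      refine Weights.P_congr _ fun ω => ?_
      simp [kap]
    · have h := P_all_eq (γ := Fin X) (TB.image Sum.inr : Finset (A ⊕ B)) (Sum.inr b₀)
        (mem_image_of_mem _ hb)
      rw [card_image_of_injective _ Sum.inr_injective, Fintype.card_fin] at h
      rw [← h]
      refine Weights.P_congr _ fun ω => ?_
      simp [phi]
  · intro v hv
    simp only [mem_image] at hv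
    obtain ⟨a, -, rfl⟩ := hv
    simp

/-- Counting form of `Avoidable.of_family`: every event of the family has probability at most `p`
and at most `c` of them involve a given coordinate. -/
lemma staux_family {X : ℕ} [NeZero X] {ι : Type*} [DecidableEq ι] (I : Finset ι)
    (S : ι → Finset (A ⊕ B)) (E : ι → (A ⊕ B → Fin X) → Prop) (n : ℕ) (c p σ : ℝ)
    (Q : (A ⊕ B → Fin X) → Prop) (hp : 0 ≤ p)
    (hdep : ∀ i ∈ I, DependsOn (E i) (S i : Set (A ⊕ B))) (hne : ∀ i ∈ I, (S i).Nonempty)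
    (hcard : ∀ i ∈ I, (S i).card ≤ n)
    (hP : ∀ i ∈ I, (unif (A ⊕ B) (Fin X)).P (E i) ≤ p)
    (hc : ∀ v, ((I.filter fun i => v ∈ S i).card : ℝ) ≤ c) (hσ : c * p ≤ σ)
    (hQ : ∀ ω, (∀ i ∈ I, ¬ E i ω) → Q ω) :
    Avoidable (unif (A ⊕ B) (Fin X)) n σ Q := by
  refine Avoidable.of_family I S E n σ Q hdep hne hcard ?_ hQ
  intro v
  calc ∑ i ∈ I with v ∈ S i, (unif (A ⊕ B) (Fin X)).P (E i)
      ≤ ∑ _i ∈ I.filter fun i => v ∈ S i, p :=
        sum_le_sum fun i hi => hP i (mem_filter.1 hi).1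
    _ = ((I.filter fun i => v ∈ S i).card : ℝ) * p := by rw [sum_const, nsmul_eq_mul]
    _ ≤ c * p := mul_le_mul_of_nonneg_right (hc v) hp
    _ ≤ σ := hσ

end Pool.Agent.Lib.BipAcyc
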