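import Pool.Agent.Lib.BipAcyc.StAux

/-!
CHUNK ST4. No monochromatic pairs of large codegree. A vertex `u` has at most
`D^2 / h` vertices `w` with at least `h` common neighbours (double counting of paths of length
two).
-/

set_option autoImplicit false
set_option linter.unusedSectionVars false

namespace Pool.Agent.Lib.BipAcyc

open Finset Pool.Agent.Lib.Prob48

variable {A B : Type*} [Fintype A] [Fintype B] [LinearOrder A] [LinearOrder B]

/-- pairs in a symmetric relation of bounded degree receive distinct values -/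
lemma stheavy_gen {X : ℕ} [NeZero X] {W : Type*} [Fintype W] [DecidableEq W] (e : W → A ⊕ B)
    (he : Function.Injective e) (R : W → W → Prop) (hR : ∀ u w, R u w → R w u) (c : ℝ)
    (hc0 : 0 ≤ c) (hc : ∀ a, (Set.ncard {w | R a w} : ℝ) ≤ c) :
    Avoidable (unif (A ⊕ B) (Fin X)) 2 (2 * c / X)
      (fun ω => ∀ u w : W, u ≠ w → R u w → ω (e u) ≠ ω (e w)) := by
  classical
  have hX : (X : ℝ) ≠ 0 := Nat.cast_ne_zero.2 (NeZero.ne X)
  have hc' : ∀ a, ((univ.filter fun w => R a w).card : ℝ) ≤ c := by
    intro a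
    refine le_trans (le_of_eq ?_) (hc a)
    rw [← Set.ncard_coe_finset]
    congr 2
    ext w
    simp
  refine staux_family (univ.filter fun t : W × W => t.1 ≠ t.2 ∧ R t.1 t.2)
    (fun t => {e t.1, e t.2}) (fun t ω => ω (e t.1) = ω (e t.2)) 2 (2 * c) ((X : ℝ)⁻¹) _ _
    (by positivity) ?_ ?_ ?_ ?_ ?_ ?_ ?_
  · intro t _ ω η h
    have h1 := h (e t.1) (by simp)
    have h2 := h (e t.2) (by simp)
    simp only [h1, h2]
  · intro t _
    exact ⟨e t.1, by simp⟩
  · intro t _
    exact card_le_two
  · rintro ⟨u, w⟩ ht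
    simp only [mem_filter, mem_univ, true_and] at ht
    rw [P_pair_eq _ _ fun h => ht.1 (he h), Fintype.card_fin]
  · intro v
    by_cases hv : ∃ a, e a = v
    · obtain ⟨a, rfl⟩ := hv
      have hsub : ((univ.filter fun t : W × W => t.1 ≠ t.2 ∧ R t.1 t.2).filter
          fun t => e a ∈ ({e t.1, e t.2} : Finset (A ⊕ B))) ⊆
          ((univ.filter fun w => R a w).image fun w => (a, w)) ∪
          ((univ.filter fun w => R a w).image fun w => (w, a)) := by
        rintro ⟨u, w⟩ ht
        simp only [mem_filter, mem_univ, true_and, mem_insert, mem_singleton, he.eq_iff] at ht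
        simp only [mem_union, mem_image, mem_filter, mem_univ, true_and, Prod.mk.injEq]
        obtain ⟨⟨-, h1⟩, rfl | rfl⟩ := ht
        · exact Or.inl ⟨w, h1, rfl, rfl⟩
        · exact Or.inr ⟨u, hR _ _ h1, rfl, rfl⟩
      have h1 := card_le_card hsub
      have h2 := card_union_le ((univ.filter fun w => R a w).image fun w => (a, w))
          ((univ.filter fun w => R a w).image fun w => (w, a))
      have h3 := card_image_le (s := univ.filter fun w => R a w) (f := fun w => (a, w))
      have h4 := card_image_le (s := univ.filter fun w => R a w) (f := fun w => (w, a))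
      have h5 := hc' a
      have h6 : ((univ.filter fun t : W × W => t.1 ≠ t.2 ∧ R t.1 t.2).filter
          fun t => e a ∈ ({e t.1, e t.2} : Finset (A ⊕ B))).card
          ≤ 2 * (univ.filter fun w => R a w).card := by omega
      have h7 : ((((univ.filter fun t : W × W => t.1 ≠ t.2 ∧ R t.1 t.2).filter
          fun t => e a ∈ ({e t.1, e t.2} : Finset (A ⊕ B))).card : ℕ) : ℝ)
          ≤ 2 * ((univ.filter fun w => R a w).card : ℝ) := by exact_mod_cast h6
      linarith
    · have h0 : ((univ.filter fun t : W × W => t.1 ≠ t.2 ∧ R t.1 t.2).filter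
          fun t => v ∈ ({e t.1, e t.2} : Finset (A ⊕ B))) = ∅ := by
        rw [filter_eq_empty_iff]
        intro t _ h
        simp only [mem_insert, mem_singleton] at h
        rcases h with h | h
        · exact hv ⟨_, h.symm⟩
        · exact hv ⟨_, h.symm⟩
      rw [h0, card_empty, Nat.cast_zero]
      linarith
  · rw [div_eq_mul_inv]
  · intro ω hω u w huw hr h
    exact hω (u, w) (by simp [huw, hr]) h

/-- double counting of paths of length two -/
lemma stheavy_count (N : A → Finset B) (D h : ℕ) (hh : 0 < h) (hD : DegLe N D) (a : A) :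
    (Set.ncard {w | h ≤ (com N a w).card} : ℝ) ≤ (D : ℝ) ^ 2 / h := by
  classical
  have e1 : (Set.ncard {w | h ≤ (com N a w).card} : ℝ)
      = ((univ.filter fun w => h ≤ (com N a w).card).card : ℝ) := by
    rw [← Set.ncard_coe_finset]
    congr 2
    ext w
    simp
  rw [e1, le_div_iff₀ (by exact_mod_cast hh)]
  have h1 : (univ.filter fun w => h ≤ (com N a w).card).card * h ≤ D * D := by
    calc (univ.filter fun w => h ≤ (com N a w).card).card * h
        = ∑ _w ∈ univ.filter fun w => h ≤ (com N a w).card, h := by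
          rw [sum_const, smul_eq_mul]
      _ ≤ ∑ w ∈ univ.filter (fun w => h ≤ (com N a w).card), (com N a w).card :=
          sum_le_sum fun w hw => (mem_filter.1 hw).2
      _ ≤ ∑ w, (com N a w).card :=
          sum_le_sum_of_subset_of_nonneg (filter_subset _ _) fun _ _ _ => Nat.zero_le _
      _ = ∑ w, ∑ y ∈ N a, if y ∈ N w then 1 else 0 := by
          refine sum_congr rfl fun w _ => ?_
          rw [sum_boole]
          simp only [Nat.cast_id]
          congr 1
      _ = ∑ y ∈ N a, ∑ w, if y ∈ N w then 1 else 0 := sum_comm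
      _ = ∑ y ∈ N a, (nb N y).card := by
          refine sum_congr rfl fun y _ => ?_
          rw [sum_boole]
          rfl
      _ ≤ ∑ _y ∈ N a, D := sum_le_sum fun y _ => hD.right y
      _ = (N a).card * D := by rw [sum_const, smul_eq_mul]
      _ ≤ D * D := Nat.mul_le_mul_right _ (hD.left a)
  calc ((univ.filter fun w => h ≤ (com N a w).card).card : ℝ) * h
      = (((univ.filter fun w => h ≤ (com N a w).card).card * h : ℕ) : ℝ) := by push_cast; rfl
    _ ≤ ((D * D : ℕ) : ℝ) := by exact_mod_cast h1
    _ = (D : ℝ) ^ 2 := by push_cast; ring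

lemma stheavy_nb_nb (N : A → Finset B) (u : A) : nb (nb N) u = N u := by
  ext y
  simp

theorem avoid_heavyA (N : A → Finset B) (D h X : ℕ) [NeZero X] (hh : 0 < h) (hD : DegLe N D) :
    Avoidable (unif (A ⊕ B) (Fin X)) 2 (2 * (D : ℝ) ^ 2 / ((h : ℝ) * X))
      (fun ω => ∀ u w : A, u ≠ w → h ≤ (com N u w).card → kap ω u ≠ kap ω w) := by
  have h1 := stheavy_gen (X := X) (Sum.inl : A → A ⊕ B) Sum.inl_injective
    (fun u w => h ≤ (com N u w).card) (fun u w h => by rwa [com_comm]) ((D : ℝ) ^ 2 / h)
    (by positivity) (stheavy_count N D h hh hD)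
  refine h1.mono le_rfl (le_of_eq ?_)
  rw [mul_div_assoc', div_div]

theorem avoid_heavyB (N : A → Finset B) (D h X : ℕ) [NeZero X] (hh : 0 < h) (hD : DegLe N D) :
    Avoidable (unif (A ⊕ B) (Fin X)) 2 (2 * (D : ℝ) ^ 2 / ((h : ℝ) * X))
      (fun ω => ∀ y z : B, y ≠ z → h ≤ (comB N y z).card → phi ω y ≠ phi ω z) := by
  have hD' : DegLe (nb N) D := ⟨hD.right, fun u => by rw [stheavy_nb_nb]; exact hD.left u⟩
  have h1 := stheavy_gen (X := X) (Sum.inr : B → A ⊕ B) Sum.inr_injective
    (fun y z => h ≤ (comB N y z).card)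
    (fun u w h => by rwa [show comB N w u = comB N u w from inter_comm _ _])
    ((D : ℝ) ^ 2 / h) (by positivity) (stheavy_count (nb N) D h hh hD')
  refine h1.mono le_rfl (le_of_eq ?_)
  rw [mul_div_assoc', div_div]

end Pool.Agent.Lib.BipAcyc
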