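import Pool.Agent.Lib.BipAcyc.StAux

/-!
CHUNK ST3. No monochromatic `K_{2,3}`. A fixed vertex is in at most `3 D^2 h^2` tuples:
if it is `x`, choose `u, w` in `nb x`, then `y, z` in `com u w`; if it is `u`, choose `x` in `N u`,
`w` in `nb x`, then `y, z` in `com u w`.
-/

set_option autoImplicit false
set_option linter.unusedSectionVars false

namespace Pool.Agent.Lib.BipAcyc

open Finset Pool.Agent.Lib.Prob48

variable {A B : Type*} [Fintype A] [Fintype B] [LinearOrder A] [LinearOrder B]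

/-- common neighbours, if there are fewer than `h` -/
def k23ca (N : A → Finset B) (h : ℕ) (u w : A) : Finset B :=
  if (com N u w).card < h then com N u w else ∅

lemma k23ca_card (N : A → Finset B) (h : ℕ) (u w : A) : (k23ca N h u w).card ≤ h := by
  unfold k23ca
  split_ifs with hc
  · exact hc.le
  · simp

lemma mem_k23ca (N : A → Finset B) (h : ℕ) (u w : A) (y : B) :
    y ∈ k23ca N h u w ↔ (com N u w).card < h ∧ y ∈ N u ∧ y ∈ N w := by
  unfold k23ca
  split_ifs with hc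
  · simp [hc]
  · simp [hc]

open Classical in
/-- tuples `(u, w, x, y, z)` forming a `K_{2,3}` -/
noncomputable def k23I (N : A → Finset B) (h : ℕ) : Finset (A × A × B × B × B) :=
  univ.filter fun t =>
    t.1 ≠ t.2.1 ∧ t.2.2.1 ≠ t.2.2.2.1 ∧ t.2.2.1 ≠ t.2.2.2.2 ∧ t.2.2.2.1 ≠ t.2.2.2.2 ∧
    (com N t.1 t.2.1).card < h ∧
    t.2.2.1 ∈ N t.1 ∧ t.2.2.2.1 ∈ N t.1 ∧ t.2.2.2.2 ∈ N t.1 ∧
    t.2.2.1 ∈ N t.2.1 ∧ t.2.2.2.1 ∈ N t.2.1 ∧ t.2.2.2.2 ∈ N t.2.1

lemma k23_mem (N : A → Finset B) (h : ℕ) (u w : A) (x y z : B) :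
    (u, w, x, y, z) ∈ k23I N h ↔ u ≠ w ∧ x ≠ y ∧ x ≠ z ∧ y ≠ z ∧ (com N u w).card < h ∧
      x ∈ N u ∧ y ∈ N u ∧ z ∈ N u ∧ x ∈ N w ∧ y ∈ N w ∧ z ∈ N w := by
  simp [k23I]

/-- vertices of a tuple -/
def k23TA (t : A × A × B × B × B) : Finset A := {t.1, t.2.1}
def k23TB (t : A × A × B × B × B) : Finset B := {t.2.2.1, t.2.2.2.1, t.2.2.2.2}
def k23S (t : A × A × B × B × B) : Finset (A ⊕ B) :=
  (k23TA t).image Sum.inl ∪ (k23TB t).image Sum.inr

lemma k23_count_u (N : A → Finset B) (D h : ℕ) (hD : DegLe N D) (a : A) :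
    ((k23I N h).filter fun t => t.1 = a).card ≤ D * (D * (h * h)) := by
  have h1 : ((k23I N h).filter fun t => t.1 = a).card ≤
      (dp (N a) fun x => dp (nb N x) fun v => dp (k23ca N h a v) fun _ => k23ca N h a v).card := by
    refine card_le_card_of_injOn (fun t => (t.2.2.1, t.2.1, t.2.2.2.1, t.2.2.2.2)) ?_ ?_
    · rintro ⟨u, w, x, y, z⟩ ht
      simp only [coe_filter, Set.mem_ofPred_eq, k23_mem] at ht
      obtain ⟨⟨-, -, -, -, g, h1, h2, h3, h4, h5, h6⟩, rfl⟩ := ht
      simp only [mem_coe, mem_dp, mem_k23ca, mem_nb]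
      tauto
    · rintro ⟨u, w, x, y, z⟩ ht ⟨u', w', x', y', z'⟩ ht' h
      simp only [coe_filter, Set.mem_ofPred_eq] at ht ht'
      obtain ⟨-, rfl⟩ := ht
      obtain ⟨-, rfl⟩ := ht'
      simp only [Prod.mk.injEq] at h ⊢
      tauto
  refine h1.trans (card_dp_le _ _ _ _ (hD.left a) fun _ _ => ?_)
  refine card_dp_le _ _ _ _ (hD.right _) fun _ _ => ?_
  exact card_dp_le _ _ _ _ (k23ca_card _ _ _ _) fun _ _ => k23ca_card _ _ _ _

lemma k23_count_w (N : A → Finset B) (D h : ℕ) (hD : DegLe N D) (a : A) :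
    ((k23I N h).filter fun t => t.2.1 = a).card ≤ D * (D * (h * h)) := by
  have h1 : ((k23I N h).filter fun t => t.2.1 = a).card ≤
      (dp (N a) fun x => dp (nb N x) fun v => dp (k23ca N h v a) fun _ => k23ca N h v a).card := by
    refine card_le_card_of_injOn (fun t => (t.2.2.1, t.1, t.2.2.2.1, t.2.2.2.2)) ?_ ?_
    · rintro ⟨u, w, x, y, z⟩ ht
      simp only [coe_filter, Set.mem_ofPred_eq, k23_mem] at ht
      obtain ⟨⟨-, -, -, -, g, h1, h2, h3, h4, h5, h6⟩, rfl⟩ := ht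
      simp only [mem_coe, mem_dp, mem_k23ca, mem_nb]
      tauto
    · rintro ⟨u, w, x, y, z⟩ ht ⟨u', w', x', y', z'⟩ ht' h
      simp only [coe_filter, Set.mem_ofPred_eq] at ht ht'
      obtain ⟨-, rfl⟩ := ht
      obtain ⟨-, rfl⟩ := ht'
      simp only [Prod.mk.injEq] at h ⊢
      tauto
  refine h1.trans (card_dp_le _ _ _ _ (hD.left a) fun _ _ => ?_)
  refine card_dp_le _ _ _ _ (hD.right _) fun _ _ => ?_
  exact card_dp_le _ _ _ _ (k23ca_card _ _ _ _) fun _ _ => k23ca_card _ _ _ _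

lemma k23_count_x (N : A → Finset B) (D h : ℕ) (hD : DegLe N D) (a : B) :
    ((k23I N h).filter fun t => t.2.2.1 = a).card ≤ D * (D * (h * h)) := by
  have h1 : ((k23I N h).filter fun t => t.2.2.1 = a).card ≤
      (dp (nb N a) fun u => dp (nb N a) fun w => dp (k23ca N h u w) fun _ =>
        k23ca N h u w).card := by
    refine card_le_card_of_injOn (fun t => (t.1, t.2.1, t.2.2.2.1, t.2.2.2.2)) ?_ ?_
    · rintro ⟨u, w, x, y, z⟩ ht
      simp only [coe_filter, Set.mem_ofPred_eq, k23_mem] at ht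
      obtain ⟨⟨-, -, -, -, g, h1, h2, h3, h4, h5, h6⟩, rfl⟩ := ht
      simp only [mem_coe, mem_dp, mem_k23ca, mem_nb]
      tauto
    · rintro ⟨u, w, x, y, z⟩ ht ⟨u', w', x', y', z'⟩ ht' h
      simp only [coe_filter, Set.mem_ofPred_eq] at ht ht'
      obtain ⟨-, rfl⟩ := ht
      obtain ⟨-, rfl⟩ := ht'
      simp only [Prod.mk.injEq] at h ⊢
      tauto
  refine h1.trans (card_dp_le _ _ _ _ (hD.right a) fun _ _ => ?_)
  refine card_dp_le _ _ _ _ (hD.right _) fun _ _ => ?_
  exact card_dp_le _ _ _ _ (k23ca_card _ _ _ _) fun _ _ => k23ca_card _ _ _ _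

lemma k23_count_y (N : A → Finset B) (D h : ℕ) (hD : DegLe N D) (a : B) :
    ((k23I N h).filter fun t => t.2.2.2.1 = a).card ≤ D * (D * (h * h)) := by
  have h1 : ((k23I N h).filter fun t => t.2.2.2.1 = a).card ≤
      (dp (nb N a) fun u => dp (nb N a) fun w => dp (k23ca N h u w) fun _ =>
        k23ca N h u w).card := by
    refine card_le_card_of_injOn (fun t => (t.1, t.2.1, t.2.2.1, t.2.2.2.2)) ?_ ?_
    · rintro ⟨u, w, x, y, z⟩ ht
      simp only [coe_filter, Set.mem_ofPred_eq, k23_mem] at ht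
      obtain ⟨⟨-, -, -, -, g, h1, h2, h3, h4, h5, h6⟩, rfl⟩ := ht
      simp only [mem_coe, mem_dp, mem_k23ca, mem_nb]
      tauto
    · rintro ⟨u, w, x, y, z⟩ ht ⟨u', w', x', y', z'⟩ ht' h
      simp only [coe_filter, Set.mem_ofPred_eq] at ht ht'
      obtain ⟨-, rfl⟩ := ht
      obtain ⟨-, rfl⟩ := ht'
      simp only [Prod.mk.injEq] at h ⊢
      tauto
  refine h1.trans (card_dp_le _ _ _ _ (hD.right a) fun _ _ => ?_)
  refine card_dp_le _ _ _ _ (hD.right _) fun _ _ => ?_
  exact card_dp_le _ _ _ _ (k23ca_card _ _ _ _) fun _ _ => k23ca_card _ _ _ _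

lemma k23_count_z (N : A → Finset B) (D h : ℕ) (hD : DegLe N D) (a : B) :
    ((k23I N h).filter fun t => t.2.2.2.2 = a).card ≤ D * (D * (h * h)) := by
  have h1 : ((k23I N h).filter fun t => t.2.2.2.2 = a).card ≤
      (dp (nb N a) fun u => dp (nb N a) fun w => dp (k23ca N h u w) fun _ =>
        k23ca N h u w).card := by
    refine card_le_card_of_injOn (fun t => (t.1, t.2.1, t.2.2.1, t.2.2.2.1)) ?_ ?_
    · rintro ⟨u, w, x, y, z⟩ ht
      simp only [coe_filter, Set.mem_ofPred_eq, k23_mem] at ht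
      obtain ⟨⟨-, -, -, -, g, h1, h2, h3, h4, h5, h6⟩, rfl⟩ := ht
      simp only [mem_coe, mem_dp, mem_k23ca, mem_nb]
      tauto
    · rintro ⟨u, w, x, y, z⟩ ht ⟨u', w', x', y', z'⟩ ht' h
      simp only [coe_filter, Set.mem_ofPred_eq] at ht ht'
      obtain ⟨-, rfl⟩ := ht
      obtain ⟨-, rfl⟩ := ht'
      simp only [Prod.mk.injEq] at h ⊢
      tauto
  refine h1.trans (card_dp_le _ _ _ _ (hD.right a) fun _ _ => ?_)
  refine card_dp_le _ _ _ _ (hD.right _) fun _ _ => ?_
  exact card_dp_le _ _ _ _ (k23ca_card _ _ _ _) fun _ _ => k23ca_card _ _ _ _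

lemma k23_count (N : A → Finset B) (D h : ℕ) (hD : DegLe N D) (v : A ⊕ B) :
    ((k23I N h).filter fun t => v ∈ k23S t).card ≤ 3 * (D * (D * (h * h))) := by
  classical
  rcases v with u | y
  · have hsub : ((k23I N h).filter fun t => (Sum.inl u : A ⊕ B) ∈ k23S t) ⊆
        ((k23I N h).filter fun t => t.1 = u) ∪ ((k23I N h).filter fun t => t.2.1 = u) := by
      intro t ht
      simp only [k23S, k23TA, k23TB, mem_filter, mem_union, mem_image, mem_insert,
        mem_singleton, Sum.inl.injEq, exists_eq_right, reduceCtorEq, and_false, exists_false,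
        or_false] at ht ⊢
      rcases ht with ⟨h1, h2 | h2⟩
      · exact Or.inl ⟨h1, h2.symm⟩
      · exact Or.inr ⟨h1, h2.symm⟩
    have h1 := card_le_card hsub
    have h2 := card_union_le ((k23I N h).filter fun t => t.1 = u)
      ((k23I N h).filter fun t => t.2.1 = u)
    have h4 := k23_count_u N D h hD u
    have h5 := k23_count_w N D h hD u
    omega
  · have hsub : ((k23I N h).filter fun t => (Sum.inr y : A ⊕ B) ∈ k23S t) ⊆
        ((k23I N h).filter fun t => t.2.2.1 = y) ∪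
          (((k23I N h).filter fun t => t.2.2.2.1 = y) ∪
          ((k23I N h).filter fun t => t.2.2.2.2 = y)) := by
      intro t ht
      simp only [k23S, k23TA, k23TB, mem_filter, mem_union, mem_image, mem_insert,
        mem_singleton, Sum.inr.injEq, exists_eq_right, reduceCtorEq, and_false, exists_false,
        false_or] at ht ⊢
      rcases ht with ⟨h1, h2 | h2 | h2⟩
      · exact Or.inl ⟨h1, h2.symm⟩
      · exact Or.inr (Or.inl ⟨h1, h2.symm⟩)
      · exact Or.inr (Or.inr ⟨h1, h2.symm⟩)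
    have h1 := card_le_card hsub
    have h2 := card_union_le ((k23I N h).filter fun t => t.2.2.1 = y)
      (((k23I N h).filter fun t => t.2.2.2.1 = y) ∪
      ((k23I N h).filter fun t => t.2.2.2.2 = y))
    have h3 := card_union_le ((k23I N h).filter fun t => t.2.2.2.1 = y)
      ((k23I N h).filter fun t => t.2.2.2.2 = y)
    have h4 := k23_count_x N D h hD y
    have h5 := k23_count_y N D h hD y
    have h6 := k23_count_z N D h hD y
    omega

/-- pairs of `A` with fewer than `h` common neighbours only -/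
theorem avoid_K23 (N : A → Finset B) (D h X : ℕ) [NeZero X] (hD : DegLe N D) :
    Avoidable (unif (A ⊕ B) (Fin X)) 5 (3 * (D : ℝ) ^ 2 * (h : ℝ) ^ 2 / (X : ℝ) ^ 3)
      (fun ω => ∀ (u w : A) (x y z : B), u ≠ w → x ≠ y → x ≠ z → y ≠ z →
        (com N u w).card < h →
        x ∈ N u → y ∈ N u → z ∈ N u → x ∈ N w → y ∈ N w → z ∈ N w →
        kap ω u = kap ω w → phi ω x = phi ω y → phi ω y = phi ω z → False) := by
  classical
  have hX : (X : ℝ) ≠ 0 := Nat.cast_ne_zero.2 (NeZero.ne X)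
  refine staux_family (k23I N h) k23S
    (fun t ω => (∀ u ∈ k23TA t, kap ω u = kap ω t.1) ∧
      ∀ y ∈ k23TB t, phi ω y = phi ω t.2.2.1) 5 (3 * ((D : ℝ) * (D * (h * h))))
    (((X : ℝ)⁻¹) ^ 3) _ _ (by positivity) ?_ ?_ ?_ ?_ ?_ ?_ ?_
  · intro t _
    have h1 := staux_dep (B := B) (X := X) (k23TA t) t.1 (by simp [k23TA])
    have h2 := staux_depB (A := A) (X := X) (k23TB t) t.2.2.1 (by simp [k23TB])
    intro ω η h
    have e1 := h1 (x := ω) (y := η) fun v hv => h v (by
      simp only [k23S, coe_union, Set.mem_union]; exact Or.inl hv)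
    have e2 := h2 (x := ω) (y := η) fun v hv => h v (by
      simp only [k23S, coe_union, Set.mem_union]; exact Or.inr hv)
    simp only [e1, e2]
  · intro t _
    exact ⟨Sum.inl t.1, by simp [k23S, k23TA]⟩
  · intro t _
    have h1 : (k23TA t).card ≤ 2 := card_le_two
    have h2 : (k23TB t).card ≤ 3 := card_le_three
    have h3 := card_union_le ((k23TA t).image (Sum.inl : A → A ⊕ B))
      ((k23TB t).image Sum.inr)
    have h4 := card_image_le (s := k23TA t) (f := (Sum.inl : A → A ⊕ B))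
    have h5 := card_image_le (s := k23TB t) (f := (Sum.inr : B → A ⊕ B))
    unfold k23S
    omega
  · rintro ⟨u, w, x, y, z⟩ ht
    rw [k23_mem] at ht
    obtain ⟨h1, h2, h3, h4, -⟩ := ht
    rw [staux_prob X _ _ (by simp [k23TA]) _ _ (by simp [k23TB])]
    have c1 : (k23TA (u, w, x, y, z)).card = 2 := by
      rw [k23TA, card_eq_two]
      exact ⟨u, w, h1, rfl⟩
    have c2 : (k23TB (u, w, x, y, z)).card = 3 := by
      rw [k23TB, card_eq_three]
      exact ⟨x, y, z, h2, h3, h4, rfl⟩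
    rw [c1, c2, ← pow_add]
  · intro v
    have h := k23_count N D h hD v
    exact_mod_cast h
  · rw [inv_pow, div_eq_mul_inv]
    refine le_of_eq ?_
    ring
  · intro ω hω u w x y z h1 h2 h3 h4 g a1 a2 a3 a4 a5 a6 k1 p1 p2
    refine hω (u, w, x, y, z) ((k23_mem N _ _ _ _ _ _).2
      ⟨h1, h2, h3, h4, g, a1, a2, a3, a4, a5, a6⟩) ⟨?_, ?_⟩
    · intro v hv
      simp only [k23TA, mem_insert, mem_singleton] at hv
      rcases hv with rfl | rfl
      · rfl
      · exact k1.symm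
    · intro v hv
      simp only [k23TB, mem_insert, mem_singleton] at hv
      rcases hv with rfl | rfl | rfl
      · rfl
      · exact p1.symm
      · exact (p1.trans p2).symm

end Pool.Agent.Lib.BipAcyc
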