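import Pool.Agent.Lib.BipAcyc.StAux

/-!
CHUNK ST1. No monochromatic path with six vertices.
A fixed vertex is in at most `3 D^5` tuples: it is one of three vertices of its side, the other five
vertices are chosen along the path, at most `D` choices each.
-/

set_option autoImplicit false
set_option linter.unusedSectionVars false

namespace Pool.Agent.Lib.BipAcyc

open Finset Pool.Agent.Lib.Prob48

variable {A B : Type*} [Fintype A] [Fintype B] [LinearOrder A] [LinearOrder B]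

open Classical in
/-- tuples `(y₁, u₁, y₂, u₂, y₃, u₃)` forming a path -/
noncomputable def stp6I (N : A → Finset B) : Finset (B × A × B × A × B × A) :=
  univ.filter fun t =>
    t.1 ∈ N t.2.1 ∧ t.2.2.1 ∈ N t.2.1 ∧ t.2.2.1 ∈ N t.2.2.2.1 ∧ t.2.2.2.2.1 ∈ N t.2.2.2.1 ∧
    t.2.2.2.2.1 ∈ N t.2.2.2.2.2 ∧ t.1 ≠ t.2.2.1 ∧ t.1 ≠ t.2.2.2.2.1 ∧ t.2.2.1 ≠ t.2.2.2.2.1 ∧
    t.2.1 ≠ t.2.2.2.1 ∧ t.2.1 ≠ t.2.2.2.2.2 ∧ t.2.2.2.1 ≠ t.2.2.2.2.2

lemma stp6_mem (N : A → Finset B) (y₁ : B) (u₁ : A) (y₂ : B) (u₂ : A) (y₃ : B) (u₃ : A) :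
    (y₁, u₁, y₂, u₂, y₃, u₃) ∈ stp6I N ↔ y₁ ∈ N u₁ ∧ y₂ ∈ N u₁ ∧ y₂ ∈ N u₂ ∧ y₃ ∈ N u₂ ∧
      y₃ ∈ N u₃ ∧ y₁ ≠ y₂ ∧ y₁ ≠ y₃ ∧ y₂ ≠ y₃ ∧ u₁ ≠ u₂ ∧ u₁ ≠ u₃ ∧ u₂ ≠ u₃ := by
  simp [stp6I]

/-- vertices of a tuple -/
def stp6TA (t : B × A × B × A × B × A) : Finset A := {t.2.1, t.2.2.2.1, t.2.2.2.2.2}
def stp6TB (t : B × A × B × A × B × A) : Finset B := {t.1, t.2.2.1, t.2.2.2.2.1}
def stp6S (t : B × A × B × A × B × A) : Finset (A ⊕ B) :=
  (stp6TA t).image Sum.inl ∪ (stp6TB t).image Sum.inr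

lemma stp6_count_u1 (N : A → Finset B) (D : ℕ) (hD : DegLe N D) (u : A) :
    ((stp6I N).filter fun t => t.2.1 = u).card ≤ D ^ 5 := by
  have h1 : ((stp6I N).filter fun t => t.2.1 = u).card ≤
      (dp (N u) fun _ => dp (N u) fun y₂ => dp (nb N y₂) fun u₂ => dp (N u₂) fun y₃ =>
        nb N y₃).card := by
    refine card_le_card_of_injOn (fun t => (t.1, t.2.2.1, t.2.2.2.1, t.2.2.2.2.1, t.2.2.2.2.2))
      ?_ ?_
    · rintro ⟨y₁, u₁, y₂, u₂, y₃, u₃⟩ ht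
      simp only [coe_filter, Set.mem_ofPred_eq, stp6_mem] at ht
      obtain ⟨⟨h1, h2, h3, h4, h5, -⟩, rfl⟩ := ht
      simp only [mem_coe, mem_dp, mem_nb]
      exact ⟨h1, h2, h3, h4, h5⟩
    · rintro ⟨y₁, u₁, y₂, u₂, y₃, u₃⟩ ht ⟨y₁', u₁', y₂', u₂', y₃', u₃'⟩ ht' h
      simp only [coe_filter, Set.mem_ofPred_eq] at ht ht'
      obtain ⟨-, rfl⟩ := ht
      obtain ⟨-, rfl⟩ := ht'
      simp only [Prod.mk.injEq] at h ⊢
      tauto
  refine h1.trans ?_
  refine (card_dp_le _ _ D (D * (D * (D * D))) (hD.left u) fun _ _ => ?_).trans (by ring_nf; rfl)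
  refine card_dp_le _ _ D (D * (D * D)) (hD.left u) fun _ _ => ?_
  refine card_dp_le _ _ D (D * D) (hD.right _) fun _ _ => ?_
  refine card_dp_le _ _ D D (hD.left _) fun _ _ => hD.right _

lemma stp6_count_u2 (N : A → Finset B) (D : ℕ) (hD : DegLe N D) (u : A) :
    ((stp6I N).filter fun t => t.2.2.2.1 = u).card ≤ D ^ 5 := by
  have h1 : ((stp6I N).filter fun t => t.2.2.2.1 = u).card ≤
      (dp (N u) fun y₂ => dp (nb N y₂) fun u₁ => dp (N u₁) fun _ => dp (N u) fun y₃ =>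
        nb N y₃).card := by
    refine card_le_card_of_injOn (fun t => (t.2.2.1, t.2.1, t.1, t.2.2.2.2.1, t.2.2.2.2.2))
      ?_ ?_
    · rintro ⟨y₁, u₁, y₂, u₂, y₃, u₃⟩ ht
      simp only [coe_filter, Set.mem_ofPred_eq, stp6_mem] at ht
      obtain ⟨⟨h1, h2, h3, h4, h5, -⟩, rfl⟩ := ht
      simp only [mem_coe, mem_dp, mem_nb]
      exact ⟨h3, h2, h1, h4, h5⟩
    · rintro ⟨y₁, u₁, y₂, u₂, y₃, u₃⟩ ht ⟨y₁', u₁', y₂', u₂', y₃', u₃'⟩ ht' h
      simp only [coe_filter, Set.mem_ofPred_eq] at ht ht'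
      obtain ⟨-, rfl⟩ := ht
      obtain ⟨-, rfl⟩ := ht'
      simp only [Prod.mk.injEq] at h ⊢
      tauto
  refine h1.trans ?_
  refine (card_dp_le _ _ D (D * (D * (D * D))) (hD.left u) fun _ _ => ?_).trans (by ring_nf; rfl)
  refine card_dp_le _ _ D (D * (D * D)) (hD.right _) fun _ _ => ?_
  refine card_dp_le _ _ D (D * D) (hD.left _) fun _ _ => ?_
  refine card_dp_le _ _ D D (hD.left _) fun _ _ => hD.right _

lemma stp6_count_u3 (N : A → Finset B) (D : ℕ) (hD : DegLe N D) (u : A) :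
    ((stp6I N).filter fun t => t.2.2.2.2.2 = u).card ≤ D ^ 5 := by
  have h1 : ((stp6I N).filter fun t => t.2.2.2.2.2 = u).card ≤
      (dp (N u) fun y₃ => dp (nb N y₃) fun u₂ => dp (N u₂) fun y₂ => dp (nb N y₂) fun u₁ =>
        N u₁).card := by
    refine card_le_card_of_injOn (fun t => (t.2.2.2.2.1, t.2.2.2.1, t.2.2.1, t.2.1, t.1))
      ?_ ?_
    · rintro ⟨y₁, u₁, y₂, u₂, y₃, u₃⟩ ht
      simp only [coe_filter, Set.mem_ofPred_eq, stp6_mem] at ht
      obtain ⟨⟨h1, h2, h3, h4, h5, -⟩, rfl⟩ := ht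
      simp only [mem_coe, mem_dp, mem_nb]
      exact ⟨h5, h4, h3, h2, h1⟩
    · rintro ⟨y₁, u₁, y₂, u₂, y₃, u₃⟩ ht ⟨y₁', u₁', y₂', u₂', y₃', u₃'⟩ ht' h
      simp only [coe_filter, Set.mem_ofPred_eq] at ht ht'
      obtain ⟨-, rfl⟩ := ht
      obtain ⟨-, rfl⟩ := ht'
      simp only [Prod.mk.injEq] at h ⊢
      tauto
  refine h1.trans ?_
  refine (card_dp_le _ _ D (D * (D * (D * D))) (hD.left u) fun _ _ => ?_).trans (by ring_nf; rfl)
  refine card_dp_le _ _ D (D * (D * D)) (hD.right _) fun _ _ => ?_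
  refine card_dp_le _ _ D (D * D) (hD.left _) fun _ _ => ?_
  refine card_dp_le _ _ D D (hD.right _) fun _ _ => hD.left _

lemma stp6_count_y1 (N : A → Finset B) (D : ℕ) (hD : DegLe N D) (y : B) :
    ((stp6I N).filter fun t => t.1 = y).card ≤ D ^ 5 := by
  have h1 : ((stp6I N).filter fun t => t.1 = y).card ≤
      (dp (nb N y) fun u₁ => dp (N u₁) fun y₂ => dp (nb N y₂) fun u₂ => dp (N u₂) fun y₃ =>
        nb N y₃).card := by
    refine card_le_card_of_injOn (fun t => (t.2.1, t.2.2.1, t.2.2.2.1, t.2.2.2.2.1, t.2.2.2.2.2))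
      ?_ ?_
    · rintro ⟨y₁, u₁, y₂, u₂, y₃, u₃⟩ ht
      simp only [coe_filter, Set.mem_ofPred_eq, stp6_mem] at ht
      obtain ⟨⟨h1, h2, h3, h4, h5, -⟩, rfl⟩ := ht
      simp only [mem_coe, mem_dp, mem_nb]
      exact ⟨h1, h2, h3, h4, h5⟩
    · rintro ⟨y₁, u₁, y₂, u₂, y₃, u₃⟩ ht ⟨y₁', u₁', y₂', u₂', y₃', u₃'⟩ ht' h
      simp only [coe_filter, Set.mem_ofPred_eq] at ht ht'
      obtain ⟨-, rfl⟩ := ht
      obtain ⟨-, rfl⟩ := ht'
      simp only [Prod.mk.injEq] at h ⊢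
      tauto
  refine h1.trans ?_
  refine (card_dp_le _ _ D (D * (D * (D * D))) (hD.right y) fun _ _ => ?_).trans (by ring_nf; rfl)
  refine card_dp_le _ _ D (D * (D * D)) (hD.left _) fun _ _ => ?_
  refine card_dp_le _ _ D (D * D) (hD.right _) fun _ _ => ?_
  refine card_dp_le _ _ D D (hD.left _) fun _ _ => hD.right _

lemma stp6_count_y2 (N : A → Finset B) (D : ℕ) (hD : DegLe N D) (y : B) :
    ((stp6I N).filter fun t => t.2.2.1 = y).card ≤ D ^ 5 := by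
  have h1 : ((stp6I N).filter fun t => t.2.2.1 = y).card ≤
      (dp (nb N y) fun u₁ => dp (N u₁) fun _ => dp (nb N y) fun u₂ => dp (N u₂) fun y₃ =>
        nb N y₃).card := by
    refine card_le_card_of_injOn (fun t => (t.2.1, t.1, t.2.2.2.1, t.2.2.2.2.1, t.2.2.2.2.2))
      ?_ ?_
    · rintro ⟨y₁, u₁, y₂, u₂, y₃, u₃⟩ ht
      simp only [coe_filter, Set.mem_ofPred_eq, stp6_mem] at ht
      obtain ⟨⟨h1, h2, h3, h4, h5, -⟩, rfl⟩ := ht
      simp only [mem_coe, mem_dp, mem_nb]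
      exact ⟨h2, h1, h3, h4, h5⟩
    · rintro ⟨y₁, u₁, y₂, u₂, y₃, u₃⟩ ht ⟨y₁', u₁', y₂', u₂', y₃', u₃'⟩ ht' h
      simp only [coe_filter, Set.mem_ofPred_eq] at ht ht'
      obtain ⟨-, rfl⟩ := ht
      obtain ⟨-, rfl⟩ := ht'
      simp only [Prod.mk.injEq] at h ⊢
      tauto
  refine h1.trans ?_
  refine (card_dp_le _ _ D (D * (D * (D * D))) (hD.right y) fun _ _ => ?_).trans (by ring_nf; rfl)
  refine card_dp_le _ _ D (D * (D * D)) (hD.left _) fun _ _ => ?_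
  refine card_dp_le _ _ D (D * D) (hD.right _) fun _ _ => ?_
  refine card_dp_le _ _ D D (hD.left _) fun _ _ => hD.right _

lemma stp6_count_y3 (N : A → Finset B) (D : ℕ) (hD : DegLe N D) (y : B) :
    ((stp6I N).filter fun t => t.2.2.2.2.1 = y).card ≤ D ^ 5 := by
  have h1 : ((stp6I N).filter fun t => t.2.2.2.2.1 = y).card ≤
      (dp (nb N y) fun _ => dp (nb N y) fun u₂ => dp (N u₂) fun y₂ => dp (nb N y₂) fun u₁ =>
        N u₁).card := by
    refine card_le_card_of_injOn (fun t => (t.2.2.2.2.2, t.2.2.2.1, t.2.2.1, t.2.1, t.1))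
      ?_ ?_
    · rintro ⟨y₁, u₁, y₂, u₂, y₃, u₃⟩ ht
      simp only [coe_filter, Set.mem_ofPred_eq, stp6_mem] at ht
      obtain ⟨⟨h1, h2, h3, h4, h5, -⟩, rfl⟩ := ht
      simp only [mem_coe, mem_dp, mem_nb]
      exact ⟨h5, h4, h3, h2, h1⟩
    · rintro ⟨y₁, u₁, y₂, u₂, y₃, u₃⟩ ht ⟨y₁', u₁', y₂', u₂', y₃', u₃'⟩ ht' h
      simp only [coe_filter, Set.mem_ofPred_eq] at ht ht'
      obtain ⟨-, rfl⟩ := ht
      obtain ⟨-, rfl⟩ := ht'
      simp only [Prod.mk.injEq] at h ⊢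
      tauto
  refine h1.trans ?_
  refine (card_dp_le _ _ D (D * (D * (D * D))) (hD.right y) fun _ _ => ?_).trans (by ring_nf; rfl)
  refine card_dp_le _ _ D (D * (D * D)) (hD.right _) fun _ _ => ?_
  refine card_dp_le _ _ D (D * D) (hD.left _) fun _ _ => ?_
  refine card_dp_le _ _ D D (hD.right _) fun _ _ => hD.left _

lemma stp6_count (N : A → Finset B) (D : ℕ) (hD : DegLe N D) (v : A ⊕ B) :
    ((stp6I N).filter fun t => v ∈ stp6S t).card ≤ 3 * D ^ 5 := by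
  classical
  rcases v with u | y
  · have hsub : ((stp6I N).filter fun t => (Sum.inl u : A ⊕ B) ∈ stp6S t) ⊆
        ((stp6I N).filter fun t => t.2.1 = u) ∪ (((stp6I N).filter fun t => t.2.2.2.1 = u) ∪
          ((stp6I N).filter fun t => t.2.2.2.2.2 = u)) := by
      intro t ht
      simp only [stp6S, stp6TA, stp6TB, mem_filter, mem_union, mem_image, mem_insert,
        mem_singleton, Sum.inl.injEq, exists_eq_right, reduceCtorEq, and_false, exists_false,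
        or_false] at ht ⊢
      rcases ht with ⟨h1, h2 | h2 | h2⟩
      · exact Or.inl ⟨h1, h2.symm⟩
      · exact Or.inr (Or.inl ⟨h1, h2.symm⟩)
      · exact Or.inr (Or.inr ⟨h1, h2.symm⟩)
    have h1 := card_le_card hsub
    have h2 := card_union_le ((stp6I N).filter fun t => t.2.1 = u)
      (((stp6I N).filter fun t => t.2.2.2.1 = u) ∪ ((stp6I N).filter fun t => t.2.2.2.2.2 = u))
    have h3 := card_union_le ((stp6I N).filter fun t => t.2.2.2.1 = u)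
      ((stp6I N).filter fun t => t.2.2.2.2.2 = u)
    have h4 := stp6_count_u1 N D hD u
    have h5 := stp6_count_u2 N D hD u
    have h6 := stp6_count_u3 N D hD u
    omega
  · have hsub : ((stp6I N).filter fun t => (Sum.inr y : A ⊕ B) ∈ stp6S t) ⊆
        ((stp6I N).filter fun t => t.1 = y) ∪ (((stp6I N).filter fun t => t.2.2.1 = y) ∪
          ((stp6I N).filter fun t => t.2.2.2.2.1 = y)) := by
      intro t ht
      simp only [stp6S, stp6TA, stp6TB, mem_filter, mem_union, mem_image, mem_insert,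
        mem_singleton, Sum.inr.injEq, exists_eq_right, reduceCtorEq, and_false, exists_false,
        false_or] at ht ⊢
      rcases ht with ⟨h1, h2 | h2 | h2⟩
      · exact Or.inl ⟨h1, h2.symm⟩
      · exact Or.inr (Or.inl ⟨h1, h2.symm⟩)
      · exact Or.inr (Or.inr ⟨h1, h2.symm⟩)
    have h1 := card_le_card hsub
    have h2 := card_union_le ((stp6I N).filter fun t => t.1 = y)
      (((stp6I N).filter fun t => t.2.2.1 = y) ∪ ((stp6I N).filter fun t => t.2.2.2.2.1 = y))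
    have h3 := card_union_le ((stp6I N).filter fun t => t.2.2.1 = y)
      ((stp6I N).filter fun t => t.2.2.2.2.1 = y)
    have h4 := stp6_count_y1 N D hD y
    have h5 := stp6_count_y2 N D hD y
    have h6 := stp6_count_y3 N D hD y
    omega

theorem avoid_P6 (N : A → Finset B) (D X : ℕ) [NeZero X] (hD : DegLe N D) :
    Avoidable (unif (A ⊕ B) (Fin X)) 6 (3 * (D : ℝ) ^ 5 / (X : ℝ) ^ 4)
      (fun ω => NoP6 N (kap ω) (phi ω)) := by
  classical
  have hX : (X : ℝ) ≠ 0 := Nat.cast_ne_zero.2 (NeZero.ne X)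
  refine staux_family (stp6I N) stp6S
    (fun t ω => (∀ u ∈ stp6TA t, kap ω u = kap ω t.2.1) ∧
      ∀ y ∈ stp6TB t, phi ω y = phi ω t.1) 6 (3 * (D : ℝ) ^ 5) (((X : ℝ)⁻¹) ^ 4) _ _
    (by positivity) ?_ ?_ ?_ ?_ ?_ ?_ ?_
  · intro t _
    have h1 := staux_dep (B := B) (X := X) (stp6TA t) t.2.1 (by simp [stp6TA])
    have h2 := staux_depB (A := A) (X := X) (stp6TB t) t.1 (by simp [stp6TB])
    intro ω η h
    have e1 := h1 (x := ω) (y := η) fun v hv => h v (by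
      simp only [stp6S, coe_union, Set.mem_union]; exact Or.inl hv)
    have e2 := h2 (x := ω) (y := η) fun v hv => h v (by
      simp only [stp6S, coe_union, Set.mem_union]; exact Or.inr hv)
    simp only [e1, e2]
  · intro t _
    exact ⟨Sum.inl t.2.1, by simp [stp6S, stp6TA]⟩
  · intro t _
    have h1 : (stp6TA t).card ≤ 3 := card_le_three
    have h2 : (stp6TB t).card ≤ 3 := card_le_three
    have h3 := card_union_le ((stp6TA t).image (Sum.inl : A → A ⊕ B))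
      ((stp6TB t).image Sum.inr)
    have h4 := card_image_le (s := stp6TA t) (f := (Sum.inl : A → A ⊕ B))
    have h5 := card_image_le (s := stp6TB t) (f := (Sum.inr : B → A ⊕ B))
    unfold stp6S
    omega
  · rintro ⟨y₁, u₁, y₂, u₂, y₃, u₃⟩ ht
    rw [stp6_mem] at ht
    obtain ⟨-, -, -, -, -, h1, h2, h3, h4, h5, h6⟩ := ht
    rw [staux_prob X _ _ (by simp [stp6TA]) _ _ (by simp [stp6TB])]
    have c1 : (stp6TA (y₁, u₁, y₂, u₂, y₃, u₃)).card = 3 := by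
      rw [stp6TA, card_eq_three]
      exact ⟨u₁, u₂, u₃, h4, h5, h6, rfl⟩
    have c2 : (stp6TB (y₁, u₁, y₂, u₂, y₃, u₃)).card = 3 := by
      rw [stp6TB, card_eq_three]
      exact ⟨y₁, y₂, y₃, h1, h2, h3, rfl⟩
    rw [c1, c2, ← pow_add]
  · intro v
    have h := stp6_count N D hD v
    exact_mod_cast h
  · rw [inv_pow, div_eq_mul_inv]
  · intro ω hω y₁ u₁ y₂ u₂ y₃ u₃ a1 a2 a3 a4 a5 b1 b2 b3 c1 c2 c3 k1 k2 p1 p2
    refine hω (y₁, u₁, y₂, u₂, y₃, u₃) ((stp6_mem N _ _ _ _ _ _).2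
      ⟨a1, a2, a3, a4, a5, b1, b2, b3, c1, c2, c3⟩) ⟨?_, ?_⟩
    · intro u hu
      simp only [stp6TA, mem_insert, mem_singleton] at hu
      rcases hu with rfl | rfl | rfl
      · rfl
      · exact k1.symm
      · exact (k1.trans k2).symm
    · intro y hy
      simp only [stp6TB, mem_insert, mem_singleton] at hy
      rcases hy with rfl | rfl | rfl
      · rfl
      · exact p1.symm
      · exact (p1.trans p2).symm

end Pool.Agent.Lib.BipAcyc
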