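import Pool.Agent.Lib.BipAcyc.St0
import Pool.Agent.Lib.BipAcyc.LoadProof

/-!
The general witness lemma (used by the chunks WI1, WI2, WI3): for every hub `h`, a family `R h` of
elementary events; then we can avoid `n` occurring elementary events of one hub with pairwise
disjoint supports.
-/

set_option autoImplicit false
set_option linter.unusedSectionVars false

namespace Pool.Agent.Lib.BipAcyc

open Finset Pool.Agent.Lib.Prob48

section general

variable {V : Type*} [Fintype V] [DecidableEq V] {α : V → Type*} [∀ v, Fintype (α v)]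
variable {μ : Weights α}

theorem avoid_witness {H ι : Type*} [Fintype H] (R : H → Finset ι)
    (S : ι → Finset V) (ev : H → ι → (∀ v, α v) → Prop) (p : H → ι → ℝ) (m n c : ℕ) (M : ℝ)
    (hn : 0 < n) (hM : 0 ≤ M) (hdep : ∀ h, ∀ i ∈ R h, DependsOn (ev h i) (S i : Set V))
    (hne : ∀ h, ∀ i ∈ R h, (S i).Nonempty) (hm : ∀ h, ∀ i ∈ R h, (S i).card ≤ m)
    (hp : ∀ h, ∀ i ∈ R h, μ.P (ev h i) ≤ p h i) (hmass : ∀ h, ∑ i ∈ R h, p h i ≤ M)
    (hc : ∀ v, {h | ∃ i ∈ R h, v ∈ S i}.ncard ≤ c) :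
    Avoidable μ (m * n) (c * (Real.exp 1 * M / n) ^ n)
      (fun ω => ∀ h, ∀ F ⊆ R h, (∀ i ∈ F, ∀ j ∈ F, i ≠ j → Disjoint (S i) (S j)) →
        (∀ i ∈ F, ev h i ω) → F.card < n) := by
  classical
  have hn' : (0 : ℝ) < n := Nat.cast_pos.2 hn
  have hp0 : ∀ h, ∀ i ∈ R h, 0 ≤ p h i := fun h i hi => (μ.P_nonneg _).trans (hp h i hi)
  set Q : H → Finset (Finset ι) := fun h => ((R h).powersetCard n).filter fun F =>
    ∀ i ∈ F, ∀ j ∈ F, i ≠ j → Disjoint (S i) (S j) with hQ
  have hQs : ∀ h, ∀ F ∈ Q h, F ⊆ R h ∧ F.card = n ∧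
      ∀ i ∈ F, ∀ j ∈ F, i ≠ j → Disjoint (S i) (S j) := by
    intro h F hF
    rw [hQ] at hF
    simp only [mem_filter, mem_powersetCard] at hF
    exact ⟨hF.1.1, hF.1.2, hF.2⟩
  refine Avoidable.of_family (ι := Σ _ : H, Finset ι) (univ.sigma Q)
    (fun x => x.2.biUnion S) (fun x ω => ∀ i ∈ x.2, ev x.1 i ω) (m * n) _ _ ?_ ?_ ?_ ?_ ?_
  · rintro ⟨h, F⟩ hF
    rw [mem_sigma] at hF
    obtain ⟨hF1, _, _⟩ := hQs h F hF.2
    intro x y hxy
    refine propext (forall_congr' fun i => imp_congr_right fun hi => ?_)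
    have := hdep h i (hF1 hi) (x := x) (y := y) (fun v hv => hxy v (by
      rw [coe_biUnion]
      simp only [Set.mem_iUnion]
      exact ⟨i, hi, hv⟩))
    exact this ▸ Iff.rfl
  · rintro ⟨h, F⟩ hF
    rw [mem_sigma] at hF
    obtain ⟨hF1, hF2, _⟩ := hQs h F hF.2
    have : F.Nonempty := by
      rw [← card_pos]
      omega
    obtain ⟨i, hi⟩ := this
    obtain ⟨v, hv⟩ := hne h i (hF1 hi)
    exact ⟨v, mem_biUnion.2 ⟨i, hi, hv⟩⟩
  · rintro ⟨h, F⟩ hF
    rw [mem_sigma] at hF
    obtain ⟨hF1, hF2, _⟩ := hQs h F hF.2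
    refine (card_biUnion_le_card_mul F S m fun i hi => hm h i (hF1 hi)).trans ?_
    have hF2' : F.card = n := hF2
    rw [hF2', mul_comm]
  · intro v
    have e1 : ∑ x ∈ univ.sigma Q with v ∈ x.2.biUnion S, μ.P (fun ω => ∀ i ∈ x.2, ev x.1 i ω)
        = ∑ h, ∑ F ∈ Q h, if v ∈ F.biUnion S then μ.P (fun ω => ∀ i ∈ F, ev h i ω) else 0 := by
      rw [sum_filter, sum_sigma]
    have e2 : ∀ h, ∑ F ∈ Q h, (if v ∈ F.biUnion S then μ.P (fun ω => ∀ i ∈ F, ev h i ω) else 0)
        ≤ if (∃ i ∈ R h, v ∈ S i) then (Real.exp 1 * M / n) ^ n else 0 := by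
      intro h
      by_cases hh : ∃ i ∈ R h, v ∈ S i
      · rw [if_pos hh]
        calc ∑ F ∈ Q h, (if v ∈ F.biUnion S then μ.P (fun ω => ∀ i ∈ F, ev h i ω) else 0)
            ≤ ∑ F ∈ Q h, ∏ i ∈ F, p h i := by
              refine sum_le_sum fun F hF => ?_
              obtain ⟨hF1, hF2, hF3⟩ := hQs h F hF
              have h1 : μ.P (fun ω => ∀ i ∈ F, ev h i ω) ≤ ∏ i ∈ F, p h i := by
                rw [P_forall_of_disjoint μ F S (ev h) (fun i hi => hdep h i (hF1 hi)) hF3]
                exact prod_le_prod (fun i _ => μ.P_nonneg _) fun i hi => hp h i (hF1 hi)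
              split_ifs
              · exact h1
              · exact prod_nonneg fun i hi => hp0 h i (hF1 hi)
          _ ≤ ∑ F ∈ (R h).powersetCard n, ∏ i ∈ F, p h i := by
              refine sum_le_sum_of_subset_of_nonneg (filter_subset _ _) fun F hF _ => ?_
              rw [mem_powersetCard] at hF
              exact prod_nonneg fun i hi => hp0 h i (hF.1 hi)
          _ ≤ (Real.exp 1 * (∑ i ∈ R h, p h i) / n) ^ n :=
              sum_powersetCard_prod_le (R h) (p h) (hp0 h) n hn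
          _ ≤ (Real.exp 1 * M / n) ^ n := by
              have h2 : 0 ≤ ∑ i ∈ R h, p h i := sum_nonneg (hp0 h)
              have h3 := hmass h
              have h4 := Real.exp_pos 1
              refine pow_le_pow_left₀ (by positivity) ?_ _
              gcongr
      · rw [if_neg hh]
        refine le_of_eq (sum_eq_zero fun F hF => ?_)
        obtain ⟨hF1, _, _⟩ := hQs h F hF
        rw [if_neg]
        rintro hv
        rw [mem_biUnion] at hv
        obtain ⟨i, hi, hv⟩ := hv
        exact hh ⟨i, hF1 hi, hv⟩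
    show ∑ x ∈ univ.sigma Q with v ∈ x.2.biUnion S, μ.P (fun ω => ∀ i ∈ x.2, ev x.1 i ω) ≤ _
    rw [e1]
    refine (sum_le_sum fun h _ => e2 h).trans ?_
    rw [← sum_filter, sum_const, nsmul_eq_mul]
    refine mul_le_mul_of_nonneg_right (Nat.cast_le.2 ?_) (by positivity)
    refine le_trans (le_of_eq ?_) (hc v)
    have e3 : {h | ∃ i ∈ R h, v ∈ S i}
        = ((univ.filter fun h => ∃ i ∈ R h, v ∈ S i : Finset H) : Set H) := by
      ext h
      simp
    rw [e3, Set.ncard_coe_finset]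
  · intro ω hω h F hF hd hev
    by_contra hcon
    obtain ⟨F', hF1, hF2⟩ := exists_subset_card_eq (not_lt.1 hcon)
    refine hω ⟨h, F'⟩ ?_ fun i hi => hev i (hF1 hi)
    rw [mem_sigma]
    refine ⟨mem_univ _, ?_⟩
    rw [hQ]
    simp only [mem_filter, mem_powersetCard]
    exact ⟨⟨hF1.trans hF, hF2⟩, fun i hi j hj => hd i (hF1 hi) j (hF1 hj)⟩

end general

section counts

variable {A B : Type*} [Fintype A] [Fintype B] [LinearOrder A] [LinearOrder B]

lemma wi_sum_codeg (N : A → Finset B) (D : ℕ) (hD : DegLe N D) (u : A) :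
    ∑ w, (com N u w).card ≤ D ^ 2 := by
  classical
  have h1 : ∀ w, (com N u w).card = ∑ y ∈ N u, if w ∈ nb N y then 1 else 0 := by
    intro w
    rw [← card_filter]
    congr 1
    ext y
    simp [com, mem_nb]
  calc ∑ w, (com N u w).card = ∑ w, ∑ y ∈ N u, (if w ∈ nb N y then 1 else 0) :=
        sum_congr rfl fun w _ => h1 w
    _ = ∑ y ∈ N u, (nb N y).card := by
        rw [sum_comm]
        refine sum_congr rfl fun y _ => ?_
        rw [← card_filter]
        congr 1
        ext w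
        simp
    _ ≤ ∑ y ∈ N u, D := sum_le_sum fun y _ => hD.right y
    _ = (N u).card * D := by rw [sum_const, smul_eq_mul]
    _ ≤ D * D := Nat.mul_le_mul (hD.left u) le_rfl
    _ = D ^ 2 := by ring

/-- the number of vertices at distance two -/
lemma wi_card_two (N : A → Finset B) (D : ℕ) (hD : DegLe N D) (u : A) :
    (univ.filter fun w => 0 < (com N u w).card).card ≤ D ^ 2 := by
  classical
  refine le_trans ?_ (wi_sum_codeg N D hD u)
  calc (univ.filter fun w => 0 < (com N u w).card).card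
      = ∑ w, if 0 < (com N u w).card then 1 else 0 := card_filter _ _
    _ ≤ ∑ w, (com N u w).card := by
        refine sum_le_sum fun w _ => ?_
        split_ifs with h
        · exact h
        · exact Nat.zero_le _

/-- the number of ordered pairs -/
lemma wi_card_pairs (S : Finset B) :
    2 * ((S ×ˢ S).filter fun p => p.1 < p.2).card ≤ S.card ^ 2 := by
  classical
  have h1 : ((S ×ˢ S).filter fun p => p.1 < p.2).card
      = ((S ×ˢ S).filter fun p => p.2 < p.1).card := by
    refine card_bij (fun p _ => (p.2, p.1)) ?_ ?_ ?_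
    · rintro ⟨x, y⟩ h
      simp only [mem_filter, mem_product] at h ⊢
      exact ⟨⟨h.1.2, h.1.1⟩, h.2⟩
    · rintro ⟨x, y⟩ _ ⟨x', y'⟩ _ h
      simp only [Prod.mk.injEq] at h ⊢
      exact ⟨h.2, h.1⟩
    · rintro ⟨x, y⟩ h
      simp only [mem_filter, mem_product] at h
      exact ⟨(y, x), by simp [h.1.1, h.1.2, h.2], rfl⟩
  have h2 : Disjoint ((S ×ˢ S).filter fun p => p.1 < p.2)
      ((S ×ˢ S).filter fun p => p.2 < p.1) := by
    rw [disjoint_filter]
    intro p _ h h'
    exact lt_asymm h h'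
  have h3 : ((S ×ˢ S).filter fun p => p.1 < p.2) ∪ ((S ×ˢ S).filter fun p => p.2 < p.1)
      ⊆ S ×ˢ S := union_subset (filter_subset _ _) (filter_subset _ _)
  have h4 := card_le_card h3
  rw [card_union_of_disjoint h2, card_product] at h4
  rw [sq]
  omega

lemma wi_P_kap {X : ℕ} [NeZero X] (w : A) (x : Fin X) :
    (unif (A ⊕ B) (Fin X)).P (fun ω => kap ω w = x) = 1 / (X : ℝ) := by
  have h := P_forall_eq (V := A ⊕ B) (γ := Fin X) {Sum.inl w} (fun _ => x)
  rw [card_singleton, pow_one, Fintype.card_fin] at h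
  rw [one_div, ← h]
  refine Weights.P_congr _ fun ω => ?_
  simp [kap]

lemma wi_P_phi {X : ℕ} [NeZero X] (y z : B) (h : y ≠ z) :
    (unif (A ⊕ B) (Fin X)).P (fun ω => phi ω y = phi ω z) = 1 / (X : ℝ) := by
  have h := P_pair_eq (V := A ⊕ B) (γ := Fin X) (Sum.inr y) (Sum.inr z) (by simpa using h)
  rw [Fintype.card_fin] at h
  rw [one_div, ← h]
  rfl

end counts

end Pool.Agent.Lib.BipAcyc
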