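import Pool.Agent.Lib.BipAcyc.St0
import Pool.Agent.Lib.BipAcyc.LoadProof
import Pool.Agent.Lib.BipAcyc.Wi0

/-!
CHUNK WI3. Hubs `u`, elementary events `κ w = x ∧ φ y = φ z` (codegree `< a`, `y < z` common
neighbours), of probability `X^{-2}`, total mass `≤ ∑_w codeg^2 / (2 X^2) ≤ D^2 a / (2 X^2)`; a
vertex of `A` is within distance two of at most `D^2` hubs, a vertex of `B` is adjacent to `≤ D`.
`Avoidable.of_family` with index `(hub, class, F)`, `F` a set of `n` elementary events with pairwise
disjoint supports; the sum over all `F` of one hub is bounded by `sum_powersetCard_prod_le`, and a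
fixed vertex lies in the region of at most `D^2` hubs (and there are `X` classes).
-/

set_option autoImplicit false
set_option linter.unusedSectionVars false

namespace Pool.Agent.Lib.BipAcyc

open Finset Pool.Agent.Lib.Prob48

variable {A B : Type*} [Fintype A] [Fintype B] [LinearOrder A] [LinearOrder B]

theorem avoid_light (N : A → Finset B) (D X : ℕ) [NeZero X] (hD : DegLe N D) (a n : ℕ)
    (hn : 0 < n) :
    Avoidable (unif (A ⊕ B) (Fin X)) (3 * n)
      ((D : ℝ) ^ 2 * X * (Real.exp 1 * (D : ℝ) ^ 2 * a / (2 * n * (X : ℝ) ^ 2)) ^ n)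
      (fun ω => FewLight N (kap ω) (phi ω) a n) := by
  classical
  have hX : (0 : ℝ) < X := Nat.cast_pos.2 (Nat.pos_of_ne_zero (NeZero.ne X))
  have hn' : (0 : ℝ) < n := Nat.cast_pos.2 hn
  set pr : A → A → Finset (B × B) := fun u w =>
    ((com N u w) ×ˢ (com N u w)).filter fun p => p.1 < p.2 with hpr
  set W : A → Finset A := fun u => univ.filter fun w => w ≠ u ∧ (com N u w).card < a with hW
  set R : A × Fin X → Finset (A × (B × B)) := fun h =>
    (W h.1).biUnion fun w => (pr h.1 w).image fun p => (w, p) with hR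
  have hRm : ∀ h, ∀ t : A × (B × B), t ∈ R h ↔ t.1 ≠ h.1 ∧ (com N h.1 t.1).card < a ∧
      t.2.1 ∈ com N h.1 t.1 ∧ t.2.2 ∈ com N h.1 t.1 ∧ t.2.1 < t.2.2 := by
    rintro h ⟨w, y, z⟩
    rw [hR, hW, hpr]
    simp only [mem_biUnion, mem_filter, mem_univ, true_and, mem_image, mem_product,
      Prod.mk.injEq, Prod.exists]
    constructor
    · rintro ⟨w', h1, y', z', h2, rfl, rfl, rfl⟩
      exact ⟨h1.1, h1.2, h2.1.1, h2.1.2, h2.2⟩
    · rintro ⟨h1, h2, h3, h4, h5⟩
      exact ⟨w, ⟨h1, h2⟩, y, z, ⟨⟨h3, h4⟩, h5⟩, rfl, rfl, rfl⟩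
  have hRc : ∀ h, 2 * (R h).card ≤ D ^ 2 * a := by
    intro h
    calc 2 * (R h).card ≤ 2 * ∑ w ∈ W h.1, (pr h.1 w).card := by
          refine Nat.mul_le_mul le_rfl ?_
          rw [hR]
          refine card_biUnion_le.trans (sum_le_sum fun w _ => card_image_le)
      _ = ∑ w ∈ W h.1, 2 * (pr h.1 w).card := by rw [mul_sum]
      _ ≤ ∑ w ∈ W h.1, (com N h.1 w).card * a := by
          refine sum_le_sum fun w hw => ?_
          rw [hW] at hw
          simp only [mem_filter, mem_univ, true_and] at hw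
          refine (wi_card_pairs _).trans ?_
          rw [sq]
          exact Nat.mul_le_mul le_rfl hw.2.le
      _ ≤ ∑ w, (com N h.1 w).card * a := sum_le_sum_of_subset (subset_univ _)
      _ = (∑ w, (com N h.1 w).card) * a := by rw [sum_mul]
      _ ≤ D ^ 2 * a := Nat.mul_le_mul (wi_sum_codeg N D hD h.1) le_rfl
  have key := avoid_witness (μ := unif (A ⊕ B) (Fin X)) (H := A × Fin X) (ι := A × (B × B))
    R (fun t => {Sum.inl t.1, Sum.inr t.2.1, Sum.inr t.2.2})
    (fun h t ω => kap ω t.1 = h.2 ∧ phi ω t.2.1 = phi ω t.2.2)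
    (fun _ _ => 1 / (X : ℝ) * (1 / X)) 3 n (D ^ 2 * X)
    ((D : ℝ) ^ 2 * a / 2 * (1 / X * (1 / X))) hn (by positivity)
    (by
      intro h t _ ω ω' hω
      have h1 := hω (Sum.inl t.1) (by simp)
      have h2 := hω (Sum.inr t.2.1) (by simp)
      have h3 := hω (Sum.inr t.2.2) (by simp)
      simp only [phi, kap, h1, h2, h3])
    (fun _ _ _ => insert_nonempty _ _) (fun _ _ _ => card_le_three)
    (by
      intro h t ht
      have h1 := (unif (A ⊕ B) (Fin X)).P_and_of_dependsOn
        (A := fun ω => kap ω t.1 = h.2) (B := fun ω => phi ω t.2.1 = phi ω t.2.2)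
        {Sum.inl t.1} ({Sum.inr t.2.1, Sum.inr t.2.2} : Set (A ⊕ B)) (by simp)
        (by
          intro ω ω' hω
          have h1 := hω (Sum.inl t.1) (by simp)
          simp only [kap, h1])
        (by
          intro ω ω' hω
          have h2 := hω (Sum.inr t.2.1) (by simp)
          have h3 := hω (Sum.inr t.2.2) (by simp)
          simp only [phi, h2, h3])
      rw [h1, wi_P_kap, wi_P_phi _ _ ((hRm h t).1 ht).2.2.2.2.ne])
    (by
      intro h
      rw [sum_const, nsmul_eq_mul]
      refine mul_le_mul_of_nonneg_right ?_ (by positivity)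
      have h1 : ((2 * (R h).card : ℕ) : ℝ) ≤ ((D ^ 2 * a : ℕ) : ℝ) := Nat.cast_le.2 (hRc h)
      push_cast at h1
      linarith)
    (by
      intro v
      rcases v with w | y
      · have h1 : {h : A × Fin X | ∃ t ∈ R h, (Sum.inl w : A ⊕ B) ∈
            ({Sum.inl t.1, Sum.inr t.2.1, Sum.inr t.2.2} : Finset (A ⊕ B))}
            ⊆ (((univ.filter fun u => 0 < (com N w u).card) ×ˢ (univ : Finset (Fin X)) :
              Finset (A × Fin X)) : Set (A × Fin X)) := by
          rintro ⟨u, x⟩ ⟨t, ht, hv⟩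
          obtain ⟨h1, h2, h3, _⟩ := (hRm _ _).1 ht
          simp only [mem_insert, mem_singleton, Sum.inl.injEq, reduceCtorEq, or_false] at hv
          subst hv
          simp only [coe_product, coe_filter, mem_univ, true_and, coe_univ, Set.mem_prod,
            Set.mem_setOf_eq, Set.mem_univ, and_true]
          rw [com_comm]
          exact card_pos.2 ⟨_, h3⟩
        refine (Set.ncard_le_ncard h1 (Finset.finite_toSet _)).trans ?_
        rw [Set.ncard_coe_finset, card_product, card_univ, Fintype.card_fin]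
        exact Nat.mul_le_mul (wi_card_two N D hD w) le_rfl
      · have h1 : {h : A × Fin X | ∃ t ∈ R h, (Sum.inr y : A ⊕ B) ∈
            ({Sum.inl t.1, Sum.inr t.2.1, Sum.inr t.2.2} : Finset (A ⊕ B))}
            ⊆ (((nb N y) ×ˢ (univ : Finset (Fin X)) : Finset (A × Fin X)) :
              Set (A × Fin X)) := by
          rintro ⟨u, x⟩ ⟨t, ht, hv⟩
          obtain ⟨_, _, h3, h4, _⟩ := (hRm _ _).1 ht
          rw [mem_com] at h3 h4
          simp only [mem_insert, mem_singleton, Sum.inr.injEq, reduceCtorEq, false_or] at hv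
          simp only [coe_product, coe_univ, Set.mem_prod, mem_coe, mem_nb, Set.mem_univ, and_true]
          rcases hv with rfl | rfl
          · exact h3.1
          · exact h4.1
        refine (Set.ncard_le_ncard h1 (Finset.finite_toSet _)).trans ?_
        rw [Set.ncard_coe_finset, card_product, card_univ, Fintype.card_fin]
        refine Nat.mul_le_mul ((hD.right y).trans ?_) le_rfl
        rcases Nat.eq_zero_or_pos D with h0 | h0
        · rw [h0]
          exact Nat.zero_le _
        · rw [sq]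
          exact Nat.le_mul_of_pos_left _ h0)
  have key2 := key.mono (n' := 3 * n) (σ' := (D : ℝ) ^ 2 * X *
    (Real.exp 1 * (D : ℝ) ^ 2 * a / (2 * n * (X : ℝ) ^ 2)) ^ n) le_rfl (by
      refine le_of_eq ?_
      push_cast
      congr 2
      field_simp)
  refine key2.imp fun ω hω u x F hF hd => ?_
  refine hω (u, x) F ?_ ?_ ?_
  · intro t ht
    obtain ⟨h1, h2, _, h3, h4, h5, _⟩ := hF t ht
    exact (hRm _ _).2 ⟨h1, h2, h3, h4, h5⟩
  · intro t ht t' ht' hne
    obtain ⟨h1, h2⟩ := hd t ht t' ht' hne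
    by_contra hcon
    rw [not_disjoint_iff] at hcon
    obtain ⟨c, h3, h4⟩ := hcon
    simp only [mem_insert, mem_singleton] at h3 h4
    rcases h3 with rfl | rfl | rfl
    · simp only [Sum.inl.injEq, reduceCtorEq, or_false] at h4
      exact h1 h4
    · simp only [Sum.inr.injEq, reduceCtorEq, false_or] at h4
      rcases h4 with h4 | h4
      · exact h2 (Or.inl h4)
      · exact h2 (Or.inr (Or.inl h4))
    · simp only [Sum.inr.injEq, reduceCtorEq, false_or] at h4
      rcases h4 with h4 | h4
      · exact h2 (Or.inr (Or.inr (Or.inl h4)))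
      · exact h2 (Or.inr (Or.inr (Or.inr h4)))
  · intro t ht
    obtain ⟨_, _, h3, _, _, _, h4⟩ := hF t ht
    exact ⟨h3, h4⟩

end Pool.Agent.Lib.BipAcyc
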