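import Pool.Agent.Lib.BipAcyc.St0
import Pool.Agent.Lib.BipAcyc.LoadProof
import Pool.Agent.Lib.BipAcyc.Wi0

/-!
CHUNK WI1. Hubs `u`, elementary events `κ w = x` for `w` in `{w ≠ u : a ≤ codeg}`, which has at
most `D^2 / a` elements, total mass `D^2 / (a X)`.
`Avoidable.of_family` with index `(hub, class, F)`, `F` a set of `n` elementary events with pairwise
disjoint supports; the sum over all `F` of one hub is bounded by `sum_powersetCard_prod_le`, and a
fixed vertex lies in the region of at most `D^2` hubs (and there are `X` classes).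
-/

set_option autoImplicit false
set_option linter.unusedSectionVars false

namespace Pool.Agent.Lib.BipAcyc

open Finset Pool.Agent.Lib.Prob48

variable {A B : Type*} [Fintype A] [Fintype B] [LinearOrder A] [LinearOrder B]

theorem avoid_mates (N : A → Finset B) (D X : ℕ) [NeZero X] (hD : DegLe N D) (a n : ℕ)
    (ha : 0 < a) (hn : 0 < n) :
    Avoidable (unif (A ⊕ B) (Fin X)) n
      ((D : ℝ) ^ 2 * X * (Real.exp 1 * (D : ℝ) ^ 2 / (a * n * X)) ^ n)
      (fun ω => FewMates N (kap ω) a n) := by
  classical
  have hX : (0 : ℝ) < X := Nat.cast_pos.2 (Nat.pos_of_ne_zero (NeZero.ne X))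
  have ha' : (0 : ℝ) < a := Nat.cast_pos.2 ha
  have hn' : (0 : ℝ) < n := Nat.cast_pos.2 hn
  set M : A → Finset A := fun u => univ.filter fun w => w ≠ u ∧ a ≤ (com N u w).card with hM
  have hMc : ∀ u, ((M u).card : ℝ) ≤ (D : ℝ) ^ 2 / a := by
    intro u
    rw [le_div_iff₀ ha']
    have h1 : (M u).card * a ≤ D ^ 2 := by
      refine le_trans ?_ (wi_sum_codeg N D hD u)
      calc (M u).card * a = ∑ _w ∈ M u, a := by rw [sum_const, smul_eq_mul]
        _ ≤ ∑ w ∈ M u, (com N u w).card := sum_le_sum fun w hw => by
            rw [hM] at hw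
            simp only [mem_filter] at hw
            exact hw.2.2
        _ ≤ ∑ w, (com N u w).card := sum_le_sum_of_subset (subset_univ _)
    exact_mod_cast h1
  have key := avoid_witness (μ := unif (A ⊕ B) (Fin X)) (H := A × Fin X) (ι := A)
    (fun h => M h.1) (fun w => {Sum.inl w}) (fun h w ω => kap ω w = h.2)
    (fun _ _ => 1 / (X : ℝ)) 1 n (D ^ 2 * X) ((D : ℝ) ^ 2 / a * (1 / X)) hn (by positivity)
    (by
      intro h w _ ω ω' hω
      have := hω (Sum.inl w) (by simp)
      simp only [kap, this])
    (fun _ _ _ => singleton_nonempty _) (fun _ _ _ => le_of_eq (card_singleton _))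
    (fun h w _ => (wi_P_kap w h.2).le)
    (by
      intro h
      rw [sum_const, nsmul_eq_mul]
      exact mul_le_mul_of_nonneg_right (hMc h.1) (by positivity))
    (by
      intro v
      have h1 : {h : A × Fin X | ∃ w ∈ M h.1, v ∈ ({Sum.inl w} : Finset (A ⊕ B))}
          ⊆ ((univ.filter fun h : A × Fin X => ∃ w, v = Sum.inl w ∧ 0 < (com N w h.1).card :
            Finset (A × Fin X)) : Set (A × Fin X)) := by
        rintro h ⟨w, hw, hv⟩
        rw [hM] at hw
        simp only [mem_filter, mem_univ, true_and, ne_eq] at hw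
        rw [mem_singleton] at hv
        simp only [coe_filter, mem_univ, true_and, Set.mem_setOf_eq]
        refine ⟨w, hv, ?_⟩
        rw [com_comm]
        omega
      refine (Set.ncard_le_ncard h1 (Finset.finite_toSet _)).trans ?_
      rw [Set.ncard_coe_finset]
      rcases v with w | y
      · have h2 : (univ.filter fun h : A × Fin X => ∃ w', (Sum.inl w : A ⊕ B) = Sum.inl w' ∧
            0 < (com N w' h.1).card)
            ⊆ (univ.filter fun u => 0 < (com N w u).card) ×ˢ (univ : Finset (Fin X)) := by
          rintro ⟨u, x⟩ hh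
          simp only [mem_filter, mem_univ, true_and, Sum.inl.injEq] at hh
          obtain ⟨w', rfl, hh⟩ := hh
          rw [mem_product, mem_filter]
          exact ⟨⟨mem_univ _, hh⟩, mem_univ _⟩
        refine (card_le_card h2).trans ?_
        rw [card_product, card_univ, Fintype.card_fin]
        exact Nat.mul_le_mul (wi_card_two N D hD w) le_rfl
      · rw [filter_false_of_mem]
        · simp
        · rintro h _ ⟨w, hw, _⟩
          simp at hw)
  have key2 := key.mono (n' := n) (σ' := (D : ℝ) ^ 2 * X *
    (Real.exp 1 * (D : ℝ) ^ 2 / (a * n * X)) ^ n) (by omega) (by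
      refine le_of_eq ?_
      push_cast
      congr 2
      field_simp)
  refine key2.imp fun ω hω u x => ?_
  refine hω (u, x) _ ?_ ?_ ?_
  · intro w hw
    simp only [mem_filter, mem_univ, true_and] at hw
    rw [hM]
    simp only [mem_filter, mem_univ, true_and]
    exact ⟨hw.1, hw.2.1⟩
  · intro w _ w' _ hne
    rw [disjoint_singleton]
    simpa using hne
  · intro w hw
    simp only [mem_filter, mem_univ, true_and] at hw
    exact hw.2.2

end Pool.Agent.Lib.BipAcyc
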