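import Pool.Agent.Lib.BipAcyc.St0
import Pool.Agent.Lib.BipAcyc.LoadProof
import Pool.Agent.Lib.BipAcyc.Wi0

/-!
CHUNK WI2. Hubs `(u, w)`, elementary events `φ y = φ z` for `y < z` in `com u w`, total mass
`≤ a^2 / (2 X)`; a vertex `y` is in `com u w` for at most `D^2` pairs.
`Avoidable.of_family` with index `(hub, class, F)`, `F` a set of `n` elementary events with pairwise
disjoint supports; the sum over all `F` of one hub is bounded by `sum_powersetCard_prod_le`, and a
fixed vertex lies in the region of at most `D^2` hubs (and there are `X` classes).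
-/

set_option autoImplicit false
set_option linter.unusedSectionVars false

namespace Pool.Agent.Lib.BipAcyc

open Finset Pool.Agent.Lib.Prob48

variable {A B : Type*} [Fintype A] [Fintype B] [LinearOrder A] [LinearOrder B]

theorem avoid_pairs (N : A → Finset B) (D X : ℕ) [NeZero X] (hD : DegLe N D) (a n : ℕ)
    (hn : 0 < n) :
    Avoidable (unif (A ⊕ B) (Fin X)) (2 * n)
      ((D : ℝ) ^ 2 * (Real.exp 1 * (a : ℝ) ^ 2 / (2 * n * X)) ^ n)
      (fun ω => FewPairs N (phi ω) a n) := by
  classical
  have hX : (0 : ℝ) < X := Nat.cast_pos.2 (Nat.pos_of_ne_zero (NeZero.ne X))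
  have hn' : (0 : ℝ) < n := Nat.cast_pos.2 hn
  set R : A × A → Finset (B × B) := fun h =>
    if h.1 ≠ h.2 ∧ (com N h.1 h.2).card < a then
      ((com N h.1 h.2) ×ˢ (com N h.1 h.2)).filter fun p => p.1 < p.2 else ∅ with hR
  have hRm : ∀ h, ∀ p ∈ R h, p.1 ∈ com N h.1 h.2 ∧ p.2 ∈ com N h.1 h.2 ∧ p.1 < p.2 := by
    intro h p hp
    rw [hR] at hp
    simp only at hp
    split_ifs at hp with hh
    · simp only [mem_filter, mem_product] at hp
      exact ⟨hp.1.1, hp.1.2, hp.2⟩
    · simp at hp
  have hRc : ∀ h, 2 * (R h).card ≤ a ^ 2 := by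
    intro h
    rw [hR]
    simp only
    split_ifs with hh
    · refine (wi_card_pairs _).trans ?_
      exact Nat.pow_le_pow_left hh.2.le 2
    · simp
  have key := avoid_witness (μ := unif (A ⊕ B) (Fin X)) (H := A × A) (ι := B × B)
    R (fun p => {Sum.inr p.1, Sum.inr p.2}) (fun _ p ω => phi ω p.1 = phi ω p.2)
    (fun _ _ => 1 / (X : ℝ)) 2 n (D ^ 2) ((a : ℝ) ^ 2 / 2 * (1 / X)) hn (by positivity)
    (by
      intro h p _ ω ω' hω
      have h1 := hω (Sum.inr p.1) (by simp)
      have h2 := hω (Sum.inr p.2) (by simp)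
      simp only [phi, h1, h2])
    (fun _ _ _ => insert_nonempty _ _) (fun _ _ _ => card_le_two)
    (fun h p hp => (wi_P_phi p.1 p.2 (hRm h p hp).2.2.ne).le)
    (by
      intro h
      rw [sum_const, nsmul_eq_mul]
      refine mul_le_mul_of_nonneg_right ?_ (by positivity)
      have h1 : ((2 * (R h).card : ℕ) : ℝ) ≤ ((a ^ 2 : ℕ) : ℝ) := Nat.cast_le.2 (hRc h)
      push_cast at h1
      linarith)
    (by
      intro v
      rcases v with w | y
      · have : {h : A × A | ∃ p ∈ R h,
            (Sum.inl w : A ⊕ B) ∈ ({Sum.inr p.1, Sum.inr p.2} : Finset (A ⊕ B))} = ∅ := by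
          ext h
          simp
        rw [this]
        simp
      · have h1 : {h : A × A | ∃ p ∈ R h,
            (Sum.inr y : A ⊕ B) ∈ ({Sum.inr p.1, Sum.inr p.2} : Finset (A ⊕ B))}
            ⊆ (((nb N y) ×ˢ (nb N y) : Finset (A × A)) : Set (A × A)) := by
          rintro h ⟨p, hp, hv⟩
          obtain ⟨h2, h3, _⟩ := hRm h p hp
          rw [mem_com] at h2 h3
          simp only [mem_insert, mem_singleton, Sum.inr.injEq] at hv
          simp only [coe_product, Set.mem_prod, mem_coe, mem_nb]
          rcases hv with rfl | rfl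
          · exact h2
          · exact h3
        refine (Set.ncard_le_ncard h1 (Finset.finite_toSet _)).trans ?_
        rw [Set.ncard_coe_finset, card_product, sq]
        exact Nat.mul_le_mul (hD.right y) (hD.right y))
  have key2 := key.mono (n' := 2 * n) (σ' := (D : ℝ) ^ 2 *
    (Real.exp 1 * (a : ℝ) ^ 2 / (2 * n * X)) ^ n) le_rfl (by
      refine le_of_eq ?_
      push_cast
      congr 2
      field_simp)
  refine key2.imp fun ω hω u w huw hcod F hF hd => ?_
  refine hω (u, w) F ?_ ?_ ?_
  · intro p hp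
    obtain ⟨h1, h2, h3, _⟩ := hF p hp
    rw [hR]
    simp only
    rw [if_pos ⟨huw, hcod⟩]
    simp [h1, h2, h3]
  · intro p hp q hq hne
    by_contra hcon
    apply hd p hp q hq hne
    rw [not_disjoint_iff] at hcon
    obtain ⟨c, h1, h2⟩ := hcon
    rw [mem_insert, mem_singleton] at h1 h2
    rcases h1 with rfl | rfl <;> rcases h2 with h2 | h2
    · exact Or.inl (by simpa using h2)
    · exact Or.inr (Or.inl (by simpa using h2))
    · exact Or.inr (Or.inr (Or.inl (by simpa using h2)))
    · exact Or.inr (Or.inr (Or.inr (by simpa using h2)))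
  · intro p hp
    exact (hF p hp).2.2.2

end Pool.Agent.Lib.BipAcyc
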