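import Pool.Agent.Lib.BipAcyc.StP6
import Pool.Agent.Lib.BipAcyc.StK32
import Pool.Agent.Lib.BipAcyc.StK23
import Pool.Agent.Lib.BipAcyc.StHeavy
import Pool.Agent.Lib.BipAcyc.WiMates
import Pool.Agent.Lib.BipAcyc.WiPairs
import Pool.Agent.Lib.BipAcyc.WiLight
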