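import Pool.Agent.Lib.BipAcyc.ParamDefs
import Pool.Agent.Lib.BipAcyc.Witness
import Pool.Agent.Lib.BipAcyc.ExclProof

/-!
CHUNK SE. The static stage: existence of the class maps.
-/

set_option autoImplicit false
set_option linter.unusedSectionVars false

namespace Pool.Agent.Lib.BipAcyc

open Finset Pool.Agent.Lib.Prob48

variable {A B : Type*} [Fintype A] [Fintype B] [LinearOrder A] [LinearOrder B]

/-- Combine the `avoid_*` statements with `Avoidable.and`, `Avoidable.forall_range`,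
`Avoidable.mono`, `Avoidable.exists`, then `excl_of` and `load_le`. (`special`: `FewMates N κ s n₆`
and `4 * n₆ ≤ b + 4`. Heavy pairs are excluded, which turns `avoid_K32` into `NoK32` and
`avoid_K23` into `NoK23`.) -/
theorem static_exists (N : A → Finset B) (D X b s Z : ℕ) (hD : DegLe N D)
    (hp : StaticParams D X b s Z) :
    ∃ (κ : A → Fin X) (φ : B → Fin X), Good N κ φ s b Z := by
  classical
  obtain ⟨h, n₆, J, n₉, n, sc, n₇, n₈, hX, hs, hh, h6, h9, hj7, hj8, hsc, h46, hn, hn6, hn7,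
    hn8, hn9, hZ, hσ⟩ := hp
  haveI : NeZero X := ⟨hX.ne'⟩
  have a1 := (avoid_P6 N D X hD).mono (n' := n) (by omega) le_rfl
  have a2 := (avoid_K32 N D h X hD).mono (n' := n) (by omega) le_rfl
  have a3 := (avoid_K23 N D h X hD).mono (n' := n) (by omega) le_rfl
  have a4 := (avoid_heavyA N D h X hh hD).mono (n' := n) (by omega) le_rfl
  have a5 := (avoid_heavyB N D h X hh hD).mono (n' := n) (by omega) le_rfl
  have a6 := (avoid_mates N D X hD s n₆ hs h6).mono hn6 le_rfl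
  have a7 := Avoidable.forall_range (μ := unif (A ⊕ B) (Fin X)) (n := n) J
    (fun j => (D : ℝ) ^ 2 * X * (Real.exp 1 * (D : ℝ) ^ 2 / (sc j * n₇ j * X)) ^ n₇ j)
    (fun j ω => FewMates N (kap ω) (sc j) (n₇ j))
    (fun j hj => (avoid_mates N D X hD (sc j) (n₇ j) (hj7 j hj).1 (hj7 j hj).2).mono
      (hn7 j hj) le_rfl)
  have a8 := Avoidable.forall_range (μ := unif (A ⊕ B) (Fin X)) (n := n) (J + 1)
    (fun j => (D : ℝ) ^ 2 * (Real.exp 1 * (sc j : ℝ) ^ 2 / (2 * n₈ j * X)) ^ n₈ j)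
    (fun j ω => FewPairs N (phi ω) (sc j) (n₈ j))
    (fun j hj => (avoid_pairs N D X hD (sc j) (n₈ j) (hj8 j hj)).mono (hn8 j hj) le_rfl)
  have a9 := (avoid_light N D X hD (sc 0) n₉ h9).mono hn9 le_rfl
  have a := ((((((((a1.and a2).and a3).and a4).and a5).and a6).and a7).and a8).and a9)
  have hsum : 3 * (D : ℝ) ^ 5 / (X : ℝ) ^ 4 + 3 * (D : ℝ) ^ 2 * (h : ℝ) ^ 2 / (X : ℝ) ^ 3
      + 3 * (D : ℝ) ^ 2 * (h : ℝ) ^ 2 / (X : ℝ) ^ 3
      + 2 * (D : ℝ) ^ 2 / ((h : ℝ) * X) + 2 * (D : ℝ) ^ 2 / ((h : ℝ) * X)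
      + (D : ℝ) ^ 2 * X * (Real.exp 1 * (D : ℝ) ^ 2 / (s * n₆ * X)) ^ n₆
      + ∑ j ∈ range J, (D : ℝ) ^ 2 * X * (Real.exp 1 * (D : ℝ) ^ 2 / (sc j * n₇ j * X)) ^ n₇ j
      + ∑ j ∈ range (J + 1),
        (D : ℝ) ^ 2 * (Real.exp 1 * (sc j : ℝ) ^ 2 / (2 * n₈ j * X)) ^ n₈ j
      + (D : ℝ) ^ 2 * X *
        (Real.exp 1 * (D : ℝ) ^ 2 * (sc 0 : ℕ) / (2 * n₉ * (X : ℝ) ^ 2)) ^ n₉
      = staticSum D X s h n₆ J n₉ sc n₇ n₈ := by
    unfold staticSum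
    ring
  rw [hsum] at a
  have hn' : (6 : ℝ) ≤ n := by exact_mod_cast hn
  obtain ⟨ω, ⟨⟨⟨⟨⟨⟨⟨⟨q1, q2⟩, q3⟩, q4⟩, q5⟩, q6⟩, q7⟩, q8⟩, q9⟩⟩ := a.exists hσ (by
    by_contra hcon
    have h1 := not_lt.1 hcon
    nlinarith)
  have hK32 : NoK32 N (kap ω) (phi ω) := by
    intro u v w y z h1 h2 h3 h4 h5 h6 h7 h8 h9 h10 h11 h12 h13
    refine q2 u v w y z h1 h2 h3 h4 ?_ h5 h6 h7 h8 h9 h10 h11 h12 h13
    by_contra hcon
    exact q5 y z h4 (not_lt.1 hcon) h13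
  have hK23 : NoK23 N (kap ω) (phi ω) := by
    intro u w x y z h1 h2 h3 h4 h5 h6 h7 h8 h9 h10 h11 h12 h13
    refine q3 u w x y z h1 h2 h3 h4 ?_ h5 h6 h7 h8 h9 h10 h11 h12 h13
    by_contra hcon
    exact q4 u w h1 (not_lt.1 hcon) h11
  have hE : Excl N (kap ω) (phi ω) := excl_of N _ _ q1 hK32 hK23
  refine ⟨kap ω, phi ω, q1, hE, ?_, ?_⟩
  · intro u
    have h1 := q6 u (kap ω u)
    have h2 : (univ.filter fun w => w ≠ u ∧ kap ω w = kap ω u ∧ s ≤ (com N u w).card)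
        = (univ.filter fun w => w ≠ u ∧ s ≤ (com N u w).card ∧ kap ω w = kap ω u) := by
      ext w
      simp only [mem_filter, mem_univ, true_and]
      tauto
    rw [h2]
    omega
  · intro u
    exact (load_le N _ _ hE s J n₉ sc n₇ n₈ hsc q7 q8 q9 u).trans hZ

end Pool.Agent.Lib.BipAcyc
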